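import Pool.Agent.MldX.Newton
import Pool.Agent.MldGeo.StmtsQ

/-!
# Quotients of nondegenerate complete intersections: statements

Project NDQ (architect helper10): the ascending chain condition for minimal log discrepancies of
quotients of Newton nondegenerate complete intersection singularities. Every statement has its proof
in the doc-string. `N = n + r`; `x : Fin N → K` are the coordinates, `f : Fin r → MvPolynomial`
the equations, `w : Fin N → ℕ` weights.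
-/

set_option autoImplicit false

namespace NDQ

open MldGeo MldGap MldAcc MldQ MvPolynomial
open MldX (wdeg word initForm Nondegenerate InteriorPoint)

noncomputable section

/-! ## Definitions -/

section Defs

variable {n N r : ℕ}

/-- Near `x` the variety `X` is a nondegenerate complete intersection (see `MldX.Germ.NewtonCI`). -/
structure CI (X : Germ n) (f : Fin r → MvPolynomial (Fin N) ℂ) (x : Fin N → X.K) : Prop where
  dim : n + r = N
  van : ∀ j, ∃ b ∈ X.m, (b : X.K) = x j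
  ne : ∀ j, x j ≠ 0
  gen : ∀ a ∈ X.R, ∃ p s : MvPolynomial (Fin N) ℂ, constantCoeff s ≠ 0 ∧
    a * aeval x s = aeval x p
  eqn : ∀ p : MvPolynomial (Fin N) ℂ, aeval x p = 0 ↔
    ∃ s : MvPolynomial (Fin N) ℂ, constantCoeff s ≠ 0 ∧ s * p ∈ Ideal.span (Set.range f)
  nondeg : Nondegenerate f
  interior : InteriorPoint f

/-- Near `x` the function `a` belongs to the ideal `I`. -/
def Near (X : Germ n) (I : Ideal X.R) (a : X.R) : Prop := ∃ s ∉ X.m, s * a ∈ I

/-- The ideal generated by the monomials `x^u`, `u ∈ M`. -/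
def mIdeal (X : Germ n) (x : Fin N → X.K) (M : Set (Fin N →₀ ℕ)) : Ideal X.R :=
  Ideal.span {a : X.R | ∃ u ∈ M, (a : X.K) = ∏ j, x j ^ u j}

/-- `B = ∑ b_j div(x_j)`, the ideals are generated by monomials near `x`. -/
structure Mono {X : Germ n} (T : Triple X) (x : Fin N → X.K) (b : Fin N → ℝ)
    (M : T.J → Set (Fin N →₀ ℕ)) : Prop where
  b_nonneg : ∀ j, 0 ≤ b j
  boundary : ∀ (v : DivVal n X.K) (P : Ideal X.R), P ≤ X.m → X.IsOrdAlong v P →
    T.logDisc v = 1 - ∑ j, b j * v.ord (x j)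
  ideals : ∀ j a, Near X (T.a j) a ↔ Near X (mIdeal X x (M j)) a

/-- The equations are semi-invariant for `x_j ↦ c_j x_j`. -/
def Semi (f : Fin r → MvPolynomial (Fin N) ℂ) (c : Fin N → ℂ) : Prop :=
  ∀ i, ∀ u ∈ (f i).support, ∀ u' ∈ (f i).support, ∏ j, c j ^ u j = ∏ j, c j ^ u' j

/-- The log discrepancy of the weights `w` with respect to `(ℂ^N, ∏ f_i)`. -/
def ld (f : Fin r → MvPolynomial (Fin N) ℂ) (w : Fin N → ℕ) : ℤ :=
  ∑ j, (w j : ℤ) - ∑ i, (word w (f i) : ℤ)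

/-- The initial forms have a common zero in the torus. -/
def TorusZero (f : Fin r → MvPolynomial (Fin N) ℂ) (w : Fin N → ℕ) : Prop :=
  ∃ z : Fin N → ℂ, (∀ j, z j ≠ 0) ∧ ∀ i, eval z (initForm w (f i)) = 0

/-- The minor of the Jacobian matrix with the columns `σ(inl i)`. -/
def mnr {K : Type} [Field K] [Algebra ℂ K] (f : Fin r → MvPolynomial (Fin N) ℂ) (x : Fin N → K)
    (σ : Fin r ⊕ Fin n ≃ Fin N) : K :=
  Matrix.det (Matrix.of fun i j : Fin r => aeval x (pderiv (σ (Sum.inl j)) (f i)))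

/-- `ω` is the canonical form (up to sign): `Δ_σ ω = ± ∧_k dx_{σ(inr k)}` for all `σ`. -/
structure IsCan {K : Type} [Field K] [Algebra ℂ K] (f : Fin r → MvPolynomial (Fin N) ℂ)
    (x : Fin N → K) (ω : Forms n K) : Prop where
  ne : ω ≠ 0
  eq : ∀ σ : Fin r ⊕ Fin n ≃ Fin N, mnr f x σ • ω = dforms (fun k => x (σ (Sum.inr k))) ∨
    mnr f x σ • ω = - dforms fun k => x (σ (Sum.inr k))

end Defs

/-! ## Block A: polynomials and combinatorics -/

/-- WRD: basic facts on `word` and `initForm`. Proof. Immediate from the definitions (`Nat.sInf_mem`,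
`Nat.sInf_le`; `coeff` of a sum of monomials). -/
def S_WRD : Prop := ∀ {N : ℕ} (p : MvPolynomial (Fin N) ℂ) (w : Fin N → ℕ),
  (p ≠ 0 → ∃ u ∈ p.support, wdeg w u = word w p) ∧
  (∀ u ∈ p.support, word w p ≤ wdeg w u) ∧
  (∀ u, coeff u (initForm w p) = if wdeg w u = word w p then coeff u p else 0) ∧
  (∀ w' : Fin N → ℕ, (∀ j, w j ≤ w' j) → word w p ≤ word w' p) ∧
  (∀ k : ℕ, word (k • w) p = k * word w p) ∧
  ∀ k : ℕ, 0 < k → initForm (k • w) p = initForm w p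

/-- COE: termination. Proof. Suppose that `ld f (z (k+1)) ≤ ld f (z k)` for all `k`. For every `k`
choose `u_k i ∈ supp f_i` with `wdeg (z k) (u_k i) = word (z k) (f i)` (`WRD`). The supports are
finite, so `u_k` is constant `= u` on an infinite set of indices. Apply Dickson's lemma
(`exists_monotone_subseq` for a well quasi order on a finite product of copies of `ℕ`) on this set to
the vectors `(wdeg (z k) u' - wdeg (z k) (u i))_{i, u' ∈ supp f_i}`: there are `k < k'` in the set such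
that `h = z k' - z k` satisfies `wdeg h u' ≥ wdeg h (u i)` for all `u' ∈ supp f_i`. So
`word h (f i) = wdeg h (u i) = word (z k') (f i) - word (z k) (f i)` and
`ld f (z k') - ld f (z k) = ld f h > 0` by `InteriorPoint` (`h ≠ 0`), a contradiction. -/
def S_COE : Prop := ∀ {N r : ℕ} (f : Fin r → MvPolynomial (Fin N) ℂ), (∀ i, f i ≠ 0) →
  InteriorPoint f → ∀ z : ℕ → Fin N → ℕ, (∀ k j, z k j ≤ z (k + 1) j) → (∀ k, z k ≠ z (k + 1)) →
  ∃ k, ld f (z k) < ld f (z (k + 1))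

/-- HGT: a bound for the number of independent equations. Proof. Let `A` be the localisation of the
polynomial ring at the maximal ideal of `Q`; its maximal ideal `𝔪` has height `N` (Mathlib:
`RegularLocalRing/Polynomial.lean`, `KrullDimension/Polynomial.lean`). By Krull
(`Ideal.height_le_height_add_spanFinrank_of_le`) `N ≤ dim A/(F) + r`. Some power of a unit multiple of
`G i` is in `(F)`, so all primes over `(F)` contain the `G i` and `dim A/(F) ≤ dim A/(G)`. The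
gradients of the `G i` at `Q` are independent; complete them by unit vectors `e_l`, `l ∈ L`,
`|L| = N - s`, to a basis. Then the `G i` and the `X_l - Q_l`, `l ∈ L`, generate `𝔪` modulo `𝔪²`, hence
`𝔪` (Nakayama), so the maximal ideal of `A/(G)` is generated by `N - s` elements and
`dim A/(G) ≤ N - s` (Krull). So `N - r ≤ N - s` (and `s ≤ N`). -/
def S_HGT : Prop := ∀ {N r s : ℕ} (Q : Fin N → ℂ) (F : Fin r → MvPolynomial (Fin N) ℂ)
  (G : Fin s → MvPolynomial (Fin N) ℂ), (∀ i, eval Q (F i) = 0) → (∀ i, eval Q (G i) = 0) →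
  (LinearIndependent ℂ fun (i : Fin s) (j : Fin N) => eval Q (pderiv j (G i))) →
  (∀ i, ∃ (h : MvPolynomial (Fin N) ℂ) (k : ℕ), eval Q h ≠ 0 ∧
    (h * G i) ^ k ∈ Ideal.span (Set.range F)) → s ≤ r

/-- HLM: the direction of a step. Proof. Let `F i = initForm z (f i)`; `F i (0) = 0`. Among the common
zeros of the `F i` in `ℂ^N` (`0` is one) choose `Q` with the maximal number of nonzero coordinates,
`H = {j : Q_j = 0}`, nonempty because there is no zero in the torus. For `j ∈ H` the polynomial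
`X_j ∏_{l ∉ H} X_l` vanishes on all common zeros (maximality), so a power of it is in `(F)`
(`vanishingIdeal_zeroLocus_eq_radical`). Let `I₁ = {i : all monomials of F i contain some X_j, j ∈ H}`.
Apply `HGT` to `Q`, `F`, and the family `G` of the `X_j`, `j ∈ H`, and the `F i`, `i ∉ I₁`: the
conclusion `|H| + r - |I₁| ≤ r` is the claim. The gradients at `Q`: for `i ∉ I₁` let `g i` be the part
of `F i` without the variables in `H`, `g i ≠ 0`; for `z' = z + 1_H` one has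
`g i = initForm z' (f i)` (the monomials with a variable in `H` have weight
`≥ word z (f i) + 1`); at the torus point `y = (Q_j for j ∉ H, 1 for j ∈ H)` we have `g i (y) = F i (Q) = 0`, so by
nondegeneracy (`z' > 0`, `I = ` complement of `I₁`) the gradients of the `g i` at `y` are independent;
their coordinates in `H` are zero and the other ones are `∂_j F i (Q)`. -/
def S_HLM : Prop := ∀ {N r : ℕ} (f : Fin r → MvPolynomial (Fin N) ℂ), (∀ i, f i ≠ 0) →
  (∀ i, constantCoeff (f i) = 0) → Nondegenerate f → ∀ z : Fin N → ℕ, (∀ j, 0 < z j) →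
  ¬ TorusZero f z → ∃ H : Finset (Fin N), H.Nonempty ∧
    H.card ≤ (Finset.univ.filter fun i : Fin r =>
      ∀ u ∈ (initForm z (f i)).support, ∃ j ∈ H, 1 ≤ u j).card

/-- PTH: the path. Proof. If `TorusZero f z` take `h = 0`. Otherwise `z₁ = z + E 1_H` with `H` from
`HLM`: for `i` in the set of `HLM` all monomials have weight `≥ word z (f i) + E` with respect to `z₁`
(the minimal ones because they contain a variable of `H`; the others already with respect to `z`,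
because the differences of the weights are divisible by `E`), so
`word z₁ (f i) ≥ word z (f i) + E`; for the other `i` use monotonicity. Hence
`ld f z₁ ≤ ld f z + E |H| - E |H|`. `z₁` satisfies the same divisibility condition. Iterate; by `COE`
this stops at a `z'` with `TorusZero f z'`. -/
def S_PTH : Prop := ∀ {N r : ℕ} (f : Fin r → MvPolynomial (Fin N) ℂ), (∀ i, f i ≠ 0) →
  (∀ i, constantCoeff (f i) = 0) → Nondegenerate f → InteriorPoint f →
  ∀ (E : ℕ) (z : Fin N → ℕ), 0 < E → (∀ j, 0 < z j) →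
  (∀ i, ∀ u ∈ (f i).support, ∀ u' ∈ (f i).support, (E : ℤ) ∣ (wdeg z u : ℤ) - wdeg z u') →
  ∃ h : Fin N → ℕ, TorusZero f (z + E • h) ∧ ld f (z + E • h) ≤ ld f z

/-! ## Block B: the canonical form -/

/-- LIN: complementary minors. `G` is an `r × N` matrix, `a_j` vectors of a vector space `V` of
dimension `n` with the alternating maps `∧`, `∑_j G_ij a_j = 0`. Proof. Choose coordinates on `V`;
`M` is the `N × n` matrix of the `a_j`, `G M = 0`. Put `A`, `B` for the columns `σ₀(inl)`, `σ₀(inr)` of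
`G`, `det A ≠ 0`. The rows of `M` satisfy `M_{σ₀(inl)} = - A⁻¹ B M_{σ₀(inr)}`, so `M = C M_{σ₀(inr)}`
with `C` = right part of `C' = [[A⁻¹, -A⁻¹B], [0, 1]]` (rows indexed by `Fin N` through `σ₀`). For
`σ` let `S` be the `N × N` matrix with the rows `G_i` and the unit rows `e_{σ(inr k)}`:
`det S = ± det G_{σ(inl)}` and `S C' = [[1, 0], [*, C_{σ(inr)}]]`. So
`det C_{σ(inr)} = ± det G_{σ(inl)} / det A`. -/
def S_LIN : Prop := ∀ {n N r : ℕ} {K : Type} [Field K] (G : Matrix (Fin r) (Fin N) K)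
  (M : Matrix (Fin N) (Fin n) K) (σ₀ σ : Fin r ⊕ Fin n ≃ Fin N), G * M = 0 →
  let A := fun τ : Fin r ⊕ Fin n ≃ Fin N => (G.submatrix id fun j => τ (Sum.inl j)).det
  let C := fun τ : Fin r ⊕ Fin n ≃ Fin N => (M.submatrix (fun k => τ (Sum.inr k)) id).det
  A σ₀ ≠ 0 → A σ₀ * C σ = A σ * C σ₀ ∨ A σ₀ * C σ = - (A σ * C σ₀)

/-- CAN: the canonical form exists. Proof. `Ω = Ω[K/ℂ]` has dimension `n` (`TBAS` for a transcendence
basis) and is spanned by the `dx_j` (`K = ℂ(x)`), `∑_j ∂_j f_i(x) dx_j = 0`. `ω = Δ_{σ₀}⁻¹ dforms(x ∘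
σ₀(inr))`; it is not zero since the `dx_{σ₀(inr k)}` span `Ω`. For the other `σ` express the `dx_j` in
the basis `dx_{σ₀(inr k)}` (matrix `M` with `M_{σ₀(inr)} = 1`) and use `LIN`. -/
def S_CAN : Prop := Stmt_TBAS → S_LIN → ∀ {n N r : ℕ} {K : Type} [Field K] [Algebra ℂ K]
  (f : Fin r → MvPolynomial (Fin N) ℂ) (x : Fin N → K), Algebra.trdeg ℂ K = (n : Cardinal) →
  0 < n → (∀ i, aeval x (f i) = 0) → IntermediateField.adjoin ℂ (Set.range x) = ⊤ →
  (∃ σ : Fin r ⊕ Fin n ≃ Fin N, mnr f x σ ≠ 0) → ∃ ω : Forms n K, IsCan f x ω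

/-- JAC: the Jacobian criterion at a divisorial valuation whose valuation ring is a localisation of the
coordinate ring. Proof. Let `κ` be the residue field of `v`, `t` a uniformizer and `u_1, …, u_{n-1}`
elements with algebraically independent residues (`v.unif`, `v.res`). Suppose that all minors
have positive order (or vanish). Then the `r × N` matrix of the residues of `∂_j f_i(x)` has rank
`< r`, so its kernel in `κ^N` has dimension `≥ N - r + 1 = n + 1`. For `d` in the kernel there is a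
derivation `δ_d` from the valuation ring to `κ` with `δ_d(x_j) = d_j`: on polynomials in `x` it is
`p(x) ↦ ∑_j ∂_j p(x) d_j`; this is well defined (if `p(x) = 0` then `s p = ∑ h_i f_i` and
`s(x) δ_d(p) = 0`), extend it to the fractions. The linear map
`d ↦ (δ_d(t), δ_d(u_1), …, δ_d(u_{n-1})) ∈ κ^n` has a nonzero element in its kernel. But such a `δ_d` is
zero: for `a` in the valuation ring there is a polynomial `P(U, Z)` over `ℂ` with `P(u, a)` in the
maximal ideal and `∂P/∂Z(u, a)` a unit (the residue of `a` is algebraic over `ℂ(u)`, take `P` of minimal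
degree in `Z`), `P(u, a) = t b`, and `0 = δ(t b) = ∂P/∂Z(u,a) δ(a)` in `κ`. So `d = 0`,
a contradiction. -/
def S_JAC : Prop := ∀ {n N r : ℕ} {K : Type} [Field K] [Algebra ℂ K]
  (f : Fin r → MvPolynomial (Fin N) ℂ) (x : Fin N → K) (v : DivVal n K),
  Algebra.trdeg ℂ K = (n : Cardinal) → 0 < n → n + r = N → (∀ j, v.Ge 0 (x j)) →
  (∀ a, v.Ge 0 a → ∃ p s : MvPolynomial (Fin N) ℂ, aeval x s ≠ 0 ∧ v.ord (aeval x s) = 0 ∧
    a * aeval x s = aeval x p) →
  (∀ p : MvPolynomial (Fin N) ℂ, aeval x p = 0 → ∃ s : MvPolynomial (Fin N) ℂ, aeval x s ≠ 0 ∧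
    v.ord (aeval x s) = 0 ∧ s * p ∈ Ideal.span (Set.range f)) →
  (∀ i, aeval x (f i) = 0) →
  ∃ σ : Fin r ⊕ Fin n ≃ Fin N, mnr f x σ ≠ 0 ∧ v.ord (mnr f x σ) = 0

/-- REL: the local ring. Proof. (1) `x_j ∈ m`, constants are not in `m`; `s(x)` lies in `R`, and it is
in `m` iff `s(0) = 0`. (2) `f_i(x) = 0` from `eqn` with `s = 1`. (3) then the constant term of `f_i`
is in `m`, so it is zero. (4) if `f_i = 0` then the nondegeneracy fails for `I = {i}`, `w = 1`,
`z = 1`. (5) `frac` and `gen`. (6) For `v` with centre through `x`: `s(x)` has order `0`; for the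
order along a prime divisor `P ≤ m` `DIV` gives `a s = b`, `s ∉ P`; apply `gen` to `b` and `s`
(`Stmt_DIV` and the uniqueness of the valuation along `P`: `v` and the valuation `v'` of `DIV` have
the same values on `R`, hence on `K`). -/
def S_REL : Prop := Stmt_DIV → ∀ {n N r : ℕ} (X : Germ n) (f : Fin r → MvPolynomial (Fin N) ℂ)
  (x : Fin N → X.K), CI X f x →
  (∀ s : MvPolynomial (Fin N) ℂ, ∃ a : X.R, (a : X.K) = aeval x s ∧
    (a ∈ X.m ↔ constantCoeff s = 0)) ∧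
  (∀ i, aeval x (f i) = 0) ∧ (∀ i, constantCoeff (f i) = 0) ∧ (∀ i, f i ≠ 0) ∧
  IntermediateField.adjoin ℂ (Set.range x) = ⊤ ∧
  (∀ a : X.K, ∃ p s : MvPolynomial (Fin N) ℂ, aeval x s ≠ 0 ∧ a * aeval x s = aeval x p) ∧
  (∀ v : DivVal n X.K, X.Through v → ∀ s : MvPolynomial (Fin N) ℂ, constantCoeff s ≠ 0 →
    aeval x s ≠ 0 ∧ v.ord (aeval x s) = 0) ∧
  ∀ (v : DivVal n X.K) (P : Ideal X.R), P ≤ X.m → X.IsOrdAlong v P → ∀ a, v.Ge 0 a →
    ∃ p s : MvPolynomial (Fin N) ℂ, aeval x s ≠ 0 ∧ v.ord (aeval x s) = 0 ∧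
      a * aeval x s = aeval x p

/-- PRD: the canonical form exists and has no zeros or poles along the prime divisors through `x`.
Proof. Let `v` be the order along `P ≤ m`. By `REL` the hypotheses of `JAC` hold; let `σ` be as in
`JAC`. `Δ_σ ω = ± dforms(x ∘ σ(inr))` and `Δ_σ` is a unit, so it is enough that
`v.logOrd (dforms ..) = 1`, and this is `REG`: if `D` is a derivation with `v.Ge 0 (D x_{σ(inr k)})`
then `∑_j ∂_j f_i(x) D(x_j) = 0` and Cramer's rule give `v.Ge 0 (D x_j)` for all `j`, so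
`D` preserves the polynomials in `x`, and the fractions with denominators of order zero. (`FSM` for
the factor `Δ_σ`.) Existence of `ω`: there is a prime ideal `P ≤ m` of height one (a minimal prime
over `x_0` contained in `m`, Krull), `DIV`, `JAC`, `CAN`. The `x_{σ(inr k)}` are algebraically
independent since `dforms` of them is not zero (or since the others are algebraic over them). -/
def S_PRD : Prop := Stmt_TBAS → Stmt_FSM → Stmt_REG → Stmt_DIV → S_REL → S_JAC → S_LIN → S_CAN →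
  ∀ {n N r : ℕ} (X : Germ n) (f : Fin r → MvPolynomial (Fin N) ℂ) (x : Fin N → X.K),
  0 < n → CI X f x → (∃ ω : Forms n X.K, IsCan f x ω) ∧
  ∀ (ω : Forms n X.K), IsCan f x ω → ∀ (v : DivVal n X.K) (P : Ideal X.R), P ≤ X.m →
    X.IsOrdAlong v P → v.logOrd ω = 1

/-- LGD: the log discrepancies. Proof. `T.ω = g • ω` (`Ω` has dimension `n`, so the forms have
dimension one: `TBAS` or `FRM`), `T.logDisc v = v.ord g + v.logOrd ω + ∑ c_i v.ord f_i` (`TXT`, `FSM`).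
The function `v.ord g + ∑ c_i v.ord f_i + ∑ b_j v.ord x_j` is zero for prime divisors through `x` by
`Mono.boundary` and `PRD`; apply `UNQ`. -/
def S_LGD : Prop := Stmt_TBAS → Stmt_FRM → Stmt_FRA → Stmt_FSM → Stmt_TXT → Stmt_UNQ →
  ∀ {n N : ℕ} (X : Germ n) (x : Fin N → X.K) (ω : Forms n X.K) (T : Triple X) (b : Fin N → ℝ),
  0 < n → (∀ j, x j ≠ 0) → ω ≠ 0 →
  (∀ (v : DivVal n X.K) (P : Ideal X.R), P ≤ X.m → X.IsOrdAlong v P → v.logOrd ω = 1) →
  (∀ (v : DivVal n X.K) (P : Ideal X.R), P ≤ X.m → X.IsOrdAlong v P →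
    T.logDisc v = 1 - ∑ j, b j * v.ord (x j)) →
  ∀ v : DivVal n X.K, X.Through v → T.logDisc v = v.logOrd ω - ∑ j, b j * v.ord (x j)

/-! ## Block C: the lower bound -/

/-- IND: independent rows. Proof. The row space has dimension `r`; choose `r` independent columns
(`Matrix.rank`, or extend the rows by unit vectors to a basis), and a bijection. -/
def S_IND : Prop := ∀ {n N r : ℕ} {K : Type} [Field K] (G : Fin r → Fin N → K), n + r = N →
  LinearIndependent K G → ∃ σ : Fin r ⊕ Fin n ≃ Fin N,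
    Matrix.det (Matrix.of fun i j : Fin r => G i (σ (Sum.inl j))) ≠ 0

/-- NUL: the Nullstellensatz. Proof. At a point of the torus where all `g i = initForm w (f i)` vanish
the gradients are independent (nondegeneracy with `I = univ`), so one of the minors
`Δ_σ` is not zero (`IND`). So `∏ X_j` vanishes on the common zeros of the `g i` and the
`Δ_σ`, and `(∏ X_j)^k` is in the ideal generated by them. All of them are homogeneous for the weights
`w`: `g i` of weight `word w (f i)`, `Δ_σ` of weight `∑_i word w (f i) - ∑_j w(σ(inl j))` (or zero),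
`(∏ X_j)^k` of weight `k ∑ w_j`; take the components of the coefficients of the complementary weights
(`weightedHomogeneousComponent`). -/
def S_NUL : Prop := S_WRD → S_IND → ∀ {n N r : ℕ} (f : Fin r → MvPolynomial (Fin N) ℂ),
  n + r = N → Nondegenerate f → (∀ i, f i ≠ 0) → ∀ w : Fin N → ℕ, (∀ j, 0 < w j) →
  ∃ (k : ℕ) (A : Fin r → MvPolynomial (Fin N) ℂ)
    (B : (Fin r ⊕ Fin n ≃ Fin N) → MvPolynomial (Fin N) ℂ),
    (∏ j, X j) ^ k = ∑ i, A i * initForm w (f i) +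
      ∑ σ : Fin r ⊕ Fin n ≃ Fin N, B σ *
        Matrix.det (Matrix.of fun i j : Fin r => pderiv (σ (Sum.inl j)) (initForm w (f i))) ∧
    (∀ i, ∀ u ∈ (A i).support, wdeg w u + word w (f i) = k * ∑ j, w j) ∧
    ∀ σ : Fin r ⊕ Fin n ≃ Fin N, ∀ u ∈ (B σ).support, wdeg w u + ∑ i, word w (f i) =
      k * ∑ j, w j + ∑ j, w (σ (Sum.inl j))

/-- LOV: a minor of the least possible order. Proof. Let `w j = v.ord (x j)`, `W = ∑ w j`. Evaluate
`NUL` at `x`. The order of the left side is `k W`. `g i (x) = - ∑ (other terms of f i)(x)` has order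
`≥ word w (f i) + 1`, so the first sum has order `≥ k W + 1`. So some `B_σ(x) Δ_σ(g)(x)` has order
`≤ k W`, `v.ord (Δ_σ(g)(x)) ≤ d_σ = ∑ word - ∑ w(σ(inl j))`. The entries `∂_j f_i (x)` are
`∂_j g_i(x)` plus terms of order `≥ word w (f i) - w j + 1`, all entries have order
`≥ word w (f i) - w j`, so `Δ_σ(f)(x) = Δ_σ(g)(x)` modulo order `≥ d_σ + 1`, and both have
order `≥ d_σ`. -/
def S_LOV : Prop := S_WRD → S_NUL → ∀ {n N r : ℕ} {K : Type} [Field K] [Algebra ℂ K]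
  (f : Fin r → MvPolynomial (Fin N) ℂ) (x : Fin N → K) (v : DivVal n K) (w : Fin N → ℕ),
  n + r = N → (∀ i, f i ≠ 0) → Nondegenerate f → (∀ i, aeval x (f i) = 0) → (∀ j, x j ≠ 0) →
  (∀ j, 0 < w j) → (∀ j, v.ord (x j) = w j) →
  ∃ σ : Fin r ⊕ Fin n ≃ Fin N, mnr f x σ ≠ 0 ∧
    v.ord (mnr f x σ) = ∑ i, (word w (f i) : ℤ) - ∑ j, (w (σ (Sum.inl j)) : ℤ)

/-- LOW: the lower bound. Proof. `σ` from `LOV`. `Δ_σ ω = ± dforms(x ∘ σ(inr)) =
± ∏_k x_{σ(inr k)} dlogs(..)` and logarithmic forms have nonnegative order (`FDL`), so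
`v.ord Δ_σ + v.logOrd ω ≥ ∑_k w(σ(inr k))` (`FSM`). -/
def S_LOW : Prop := Stmt_FSM → Stmt_FDL → ∀ {n N r : ℕ} {K : Type} [Field K] [Algebra ℂ K]
  (f : Fin r → MvPolynomial (Fin N) ℂ) (x : Fin N → K) (v : DivVal n K) (w : Fin N → ℕ)
  (ω : Forms n K) (σ : Fin r ⊕ Fin n ≃ Fin N), Algebra.trdeg ℂ K = (n : Cardinal) → 0 < n →
  IsCan f x ω → (∀ j, x j ≠ 0) → (∀ j, v.ord (x j) = w j) → mnr f x σ ≠ 0 →
  v.ord (mnr f x σ) = ∑ i, (word w (f i) : ℤ) - ∑ j, (w (σ (Sum.inl j)) : ℤ) →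
  ld f w ≤ v.logOrd ω

/-! ## Block D: valuations with given weights -/

/-- HEN: Hensel's lemma for systems over `F[[s]]`. Proof. Newton iteration: `y⁰ = emb a`,
`y^{k+1} = y^k - J(y^k)⁻¹ G(y^k)`, where `J = (∂_j G_i)`; `det J(y^k)` has order `0` because `y^k ≡ emb a`
modulo order `1`, `G(y^k)` has order `≥ k + 1`, `y^{k+1} - y^k` has order `≥ k + 1`; use `complete`.
Uniqueness: if `y ≠ y'` are two solutions and `m ≥ 1` is the least order of the `y_j - y'_j` then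
`0 = G(y) - G(y') = J(y) (y - y')` modulo order `2 m`, so `y - y'` has order `≥ 2 m`. -/
def S_HEN : Prop := ∀ {F : Type} [Field F] [Algebra ℂ F] (Λ : LField F) {r : ℕ}
  (G : Fin r → MvPolynomial (Fin r) Λ.L) (a : Fin r → F), (∀ i u, Λ.Ge 0 (coeff u (G i))) →
  (∀ i, Λ.Ge 1 (eval (fun j => Λ.emb (a j)) (G i))) →
  ¬ Λ.Ge 1 (Matrix.det (Matrix.of fun i j : Fin r =>
    eval (fun j => Λ.emb (a j)) (pderiv j (G i)))) →
  (∃ y : Fin r → Λ.L, (∀ j, Λ.Ge 1 (y j - Λ.emb (a j))) ∧ ∀ i, eval y (G i) = 0) ∧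
  ∀ y y' : Fin r → Λ.L, (∀ j, Λ.Ge 1 (y j - Λ.emb (a j))) → (∀ i, eval y (G i) = 0) →
    (∀ j, Λ.Ge 1 (y' j - Λ.emb (a j))) → (∀ i, eval y' (G i) = 0) → y = y'

/-- The field `κ`, the point `ξ` and the derivations. -/
structure GenPt {n N r : ℕ} (g : Fin r → MvPolynomial (Fin N) ℂ) where
  κ : Type
  fieldκ : Field κ
  algκ : Algebra ℂ κ
  ξ : Fin N → κ
  σ : Fin r ⊕ Fin n ≃ Fin N
  D : Fin n → Derivation ℂ κ κ
  ne : ∀ j, ξ j ≠ 0
  zero : ∀ i, aeval ξ (g i) = 0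
  minor : mnr g ξ σ ≠ 0
  ind : AlgebraicIndependent ℂ fun k : Fin n => ξ (σ (Sum.inr k))
  D_ne : ∀ k, D k (ξ (σ (Sum.inr k))) ≠ 0
  D_zero : ∀ k l, l ≠ k → D k (ξ (σ (Sum.inr l))) = 0

attribute [instance] GenPt.fieldκ GenPt.algκ

/-- GPT: a zero in the torus at which the gradients are independent gives a generic zero. Proof. `σ`
from `IND` at `z`. `F = ℂ(α_1, …, α_n)` with the derivations of the coordinates (`RATF`), `Λ` an `LField` over
`F` (`LAU`), `κ = Λ.L`. Put `ξ_{σ(inr k)} = z_{σ(inr k)} + emb(α_k) s`, and solve `g_i(ξ) = 0` for the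
other coordinates by `HEN` with `a = z ∘ σ(inl)` (constants): modulo `s` the equations are
`g_i(z) = 0` and the Jacobian matrix is the one at `z`. The leading terms of the `ξ_j` and of the minor
are those at `z`, so they are not zero. The `z_k + α_k s` are algebraically independent (a polynomial
relation between the `α_k s` gives, by homogeneous components, relations between the `α_k`).
`D k = Λ.D (∂/∂α_k)`: `D k (ξ_{σ(inr l)}) = δ_kl s`. -/
def S_GPT : Prop := Stmt_LAU → Stmt_RATF → S_IND → S_HEN → ∀ {n N r : ℕ}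
  (g : Fin r → MvPolynomial (Fin N) ℂ) (z : Fin N → ℂ), n + r = N → (∀ j, z j ≠ 0) →
  (∀ i, eval z (g i) = 0) →
  (LinearIndependent ℂ fun (i : Fin r) (j : Fin N) => eval z (pderiv j (g i))) →
  Nonempty (GenPt (n := n) g)

/-- The solution in the field of Laurent series. -/
structure Sol {n N r : ℕ} {g : Fin r → MvPolynomial (Fin N) ℂ} (P : GenPt (n := n) g)
    (Λ : LField P.κ) (f : Fin r → MvPolynomial (Fin N) ℂ) (w : Fin N → ℕ)
    (y : Fin N → Λ.L) : Prop where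
  free : ∀ k, y (P.σ (Sum.inr k)) = Λ.s ^ w (P.σ (Sum.inr k)) * Λ.emb (P.ξ (P.σ (Sum.inr k)))
  lead : ∀ j, Λ.Ge (w j + 1) (y j - Λ.s ^ w j * Λ.emb (P.ξ j))
  zero : ∀ i, aeval y (f i) = 0

/-- SOL: the solution exists and is unique. Proof. Write `y_j = s^{w_j} η_j`; the equation
`s^{-word w (f i)} f_i(s^{w} η) = 0` is a polynomial equation for the `η_{σ(inl k)}` with coefficients
of order `≥ 0` (the `η_{σ(inr k)} = emb ξ` are inserted), which modulo `s` is `g_i(η) = 0`, and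
`η = ξ` is a solution modulo `s` with invertible Jacobian matrix (`P.minor`): `HEN`. -/
def S_SOL : Prop := S_WRD → S_HEN → ∀ {n N r : ℕ} (f : Fin r → MvPolynomial (Fin N) ℂ)
  (w : Fin N → ℕ) (P : GenPt (n := n) fun i => initForm w (f i)) (Λ : LField P.κ),
  (∀ i, f i ≠ 0) → (∃ y, Sol P Λ f w y) ∧ ∀ y y', Sol P Λ f w y → Sol P Λ f w y' → y = y'

/-- EMB: the embedding of the function field. Proof. The homomorphism `φ(p) = aeval y p` of the
polynomial ring kills the `f_i`. If `p(x) = 0` then `s p ∈ (f)` with `s(0) ≠ 0` and `φ(s)` is not zero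
because the `y_j` have positive order, so `φ(p) = 0`: `φ` factors through the subring `ℂ[x]` of `K`,
whose field of fractions is `K`. It is injective on it: the `y_{σ(inr k)} = s^{w} ξ` are algebraically
independent over `ℂ` (compare coefficients of the powers of `s`), so the `x_{σ(inr k)}` are a
transcendence basis of `K` (`trdeg K = n`), and if `a(x) ≠ 0` was killed then the constant term of an
algebraic equation of `a(x)` over `ℂ[x_{σ(inr)}]` would be killed. Extend to fractions. Uniqueness: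
`K = ℂ(x)`. -/
def S_EMB : Prop := ∀ {n N r : ℕ} (X : Germ n) (f : Fin r → MvPolynomial (Fin N) ℂ)
  (x : Fin N → X.K) (w : Fin N → ℕ) (P : GenPt (n := n) fun i => initForm w (f i))
  (Λ : LField P.κ) (y : Fin N → Λ.L), 0 < n → CI X f x → (∀ j, 0 < w j) → Sol P Λ f w y →
  IntermediateField.adjoin ℂ (Set.range x) = ⊤ →
  (∀ a : X.K, ∃ p s : MvPolynomial (Fin N) ℂ, aeval x s ≠ 0 ∧ a * aeval x s = aeval x p) →
  ∃ ι : X.K →ₐ[ℂ] Λ.L, ∀ j, ι (x j) = y j

/-- DVG: the divisorial valuation defined by an embedding in a field of Laurent series. Proof. As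
`MldGeo/DVL.lean` (there for the `Λ` of a `Setup`, nothing else is used). -/
def S_DVG : Prop := ∀ {n : ℕ} {F K : Type} [Field F] [Algebra ℂ F] [Field K] [Algebra ℂ K]
  (Λ : LField F) (ι : K →ₐ[ℂ] Λ.L), (∃ f : K, f ≠ 0 ∧ Λ.ord (ι f) ≠ 0) →
  (∃ y : Fin (n - 1) → K, ∀ P : MvPolynomial (Fin (n - 1)) ℂ, P ≠ 0 →
    aeval y P ≠ 0 ∧ Λ.ord (ι (aeval y P)) = 0) →
  ∃ (w : DivVal n K) (δ : ℕ), 0 < δ ∧ ∀ f : K, f ≠ 0 → δ * w.ord f = Λ.ord (ι f)

/-- MLO: an upper bound for the order of a form. Proof. Let `d_1, …, d_n` be the derivations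
`L → L`. The map `ω ↦ ω(d_1 ∘ ι, …, d_n ∘ ι)` (alternating pairing, `exteriorPower.alternatingMapLinearEquiv`
and the derivations `d_k ∘ ι : K → L`, i.e. `K`-linear maps `Ω → L`) maps `g dlogs(a)`,
`v.ord g ≥ 0`, to `ι g det (d_k(ι a_l) / ι a_l)`, which has order `≥ 0`. So if `ω = g η`, `η` in
`logForms`, then `ord(ω(d)) ≥ δ v.ord g`. As `MldGeo/LGB.lean`. -/
def S_MLO : Prop := Stmt_TBAS → ∀ {n : ℕ} {F K : Type} [Field F] [Algebra ℂ F] [Field K]
  [Algebra ℂ K] (Λ : LField F) (ι : K →ₐ[ℂ] Λ.L) (v : DivVal n K) (δ : ℕ)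
  (d : Fin n → Derivation ℂ Λ.L Λ.L), Algebra.trdeg ℂ K = (n : Cardinal) → 0 < n → 0 < δ →
  (∀ a : K, a ≠ 0 → δ * v.ord a = Λ.ord (ι a)) →
  (∀ k a, d k a = 0 ∨ Λ.ord a ≤ Λ.ord (d k a)) →
  ∀ a : Fin n → K, (∀ l, a l ≠ 0) →
    Matrix.det (Matrix.of fun k l => d k (ι (a l)) / ι (a l)) ≠ 0 →
    δ * v.logOrd (dlogs a) ≤
      Λ.ord (Matrix.det (Matrix.of fun k l => d k (ι (a l)) / ι (a l)))

/-- ROG: series which are invariant under `s ↦ ζ s`. Proof. Leading term `emb a s^k`: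
`rot ζ` multiplies it by `ζ^k`. As `MldGeo/ROT.lean`. -/
def S_ROG : Prop := ∀ {F : Type} [Field F] [Algebra ℂ F] (Λ : LField F) (E : ℕ), 0 < E →
  ∀ ζ : ℂˣ, (ζ : ℂ) = Complex.exp (2 * Real.pi * Complex.I / E) →
  ∀ a : Λ.L, a ≠ 0 → Λ.rot ζ a = a → (E : ℤ) ∣ Λ.ord a

/-- INR: the automorphism is the rotation. Proof. `c_j = ζ^{w_j}`. Put
`y'_j = c_j⁻¹ rot_ζ(y_j)`. For `j = σ(inr k)` it is `y_j`; it has the leading term
`s^{w_j} ξ_j`; and `f_i(y') = c^{-u} rot_ζ(f_i(y)) = 0` (`u ∈ supp f_i`, `c^u` is independent of `u`). By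
the uniqueness in `SOL` `y' = y`. So `rot_ζ ∘ ι` and `ι ∘ τ` agree on the `x_j`, hence on
`K = ℂ(x)`. -/
def S_INR : Prop := S_WRD → S_HEN → S_SOL → ∀ {n N r : ℕ} {K : Type} [Field K] [Algebra ℂ K]
  (f : Fin r → MvPolynomial (Fin N) ℂ) (x : Fin N → K) (w : Fin N → ℕ)
  (P : GenPt (n := n) fun i => initForm w (f i)) (Λ : LField P.κ) (y : Fin N → Λ.L),
  (∀ i, f i ≠ 0) → Sol P Λ f w y → IntermediateField.adjoin ℂ (Set.range x) = ⊤ →
  ∀ ι : K →ₐ[ℂ] Λ.L, (∀ j, ι (x j) = y j) →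
  ∀ (τ : K ≃ₐ[ℂ] K) (c : Fin N → ℂ) (E : ℕ) (ζ : ℂˣ), 0 < E →
  (ζ : ℂ) = Complex.exp (2 * Real.pi * Complex.I / E) → (∀ j, c j = (ζ : ℂ) ^ w j) →
  (∀ j, τ (x j) = algebraMap ℂ K (c j) * x j) → Semi f c →
  ∀ a : K, Λ.rot ζ (ι a) = ι (τ a)

/-- MUW: the valuation with the weights `w`. Proof. By nondegeneracy (`I = univ`) and `GPT` there is a
generic point `P` of the system of initial forms; `Λ` from `LAU`, `y` from `SOL`, `ι` from `EMB`.
Residues for `DVG`: choose `l₀ : Fin n` and for the other `l` the elements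
`x_{σ(inr l)}^{w(σ(inr l₀))} / x_{σ(inr l₀)}^{w(σ(inr l))}`, which `ι` maps to
`emb(ξ_{σ(inr l)}^{..} / ξ_{σ(inr l₀)}^{..})`; these are algebraically independent. This gives `μ`, `δ`
with `δ μ(x_j) = ord y_j = w_j`. Centre: `gen`; `ord(s(y)) = 0` if `s(0) ≠ 0`, `ord (p(y)) > 0` or
`p(y) = 0` if `p(0) = 0`; `a ∈ m` implies `p(0) = 0` (`REL`). Form: `δ μ(Δ_σ) = ord Δ_σ(f)(y) =
∑ word w (f i) - ∑ w(σ(inl j))` (leading coefficient `P.minor`); by `MLO` with `d = (θ, D_l for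
l ≠ l₀)` (coefficientwise) `δ μ.logOrd (dlogs (x ∘ σ(inr))) ≤ 0` since the matrix is
`(w(σ(inr l)))_l` in the first row and diagonal with the entries `emb (D_l ξ_l / ξ_l)` in the other
ones, with determinant `± w(σ(inr l₀)) ∏ ..`. `Δ_σ ω = ± ∏ x_{σ(inr k)} dlogs` gives the bound
(`FSM`). Last part: `INR` (for `c_j = ζ^{w_j}`) and `ROG`. -/
def S_MUW : Prop := ∀ {n N r : ℕ} (X : Germ n) (f : Fin r → MvPolynomial (Fin N) ℂ)
  (x : Fin N → X.K) (ω : Forms n X.K), 0 < n → CI X f x → IsCan f x ω →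
  ∀ w : Fin N → ℕ, (∀ j, 0 < w j) → TorusZero f w →
  ∃ (μ : DivVal n X.K) (δ : ℕ), 0 < δ ∧ X.At μ ∧ (∀ j, δ * μ.ord (x j) = w j) ∧
    δ * μ.logOrd ω ≤ ld f w ∧
    ∀ (τ : X.K ≃ₐ[ℂ] X.K) (c : Fin N → ℂ) (E : ℕ), 0 < E →
      (∀ j, c j = Complex.exp (2 * Real.pi * Complex.I * w j / E)) →
      (∀ j, τ (x j) = algebraMap ℂ X.K (c j) * x j) → Semi f c →
      ∀ a : X.K, a ≠ 0 → τ a = a → (E : ℤ) ∣ δ * μ.ord a

/-- MUW': `MUW` from its ingredients. -/
def S_MUA : Prop := Stmt_FSM → Stmt_TBAS → Stmt_LAU → Stmt_RATF → Stmt_DIV → S_WRD → S_IND →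
  S_REL → S_HEN → S_GPT → S_SOL → S_EMB → S_DVG → S_MLO → S_ROG → S_INR → S_MUW

/-! ## Block E: the quotient -/

/-- IDM: the order of a monomial ideal. Proof. If `s a ∈ I`, `s ∉ m`, then `v.ord s = 0`; so the orders
of the elements of `T.a j` and of `mIdeal` have the same minimum, and the order of
`mIdeal` is the least order of a generator (`Stmt_IDO`). -/
def S_IDM : Prop := Stmt_IDO → ∀ {n N : ℕ} (X : Germ n) (x : Fin N → X.K) (I : Ideal X.R)
  (M : Set (Fin N →₀ ℕ)), I ≠ ⊥ → (∀ j, x j ≠ 0) → (∀ j, x j ∈ X.R) →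
  (∀ a, Near X I a ↔ Near X (mIdeal X x M) a) →
  M.Nonempty ∧ ∀ v : DivVal n X.K, X.Through v →
    IsLeast ((fun u : Fin N →₀ ℕ => ∑ j, (u j : ℤ) * v.ord (x j)) '' M) (idealOrd v I)

/-- The exponent `u` as a linear form. -/
def lf {N : ℕ} (u : Fin N →₀ ℕ) : (Fin N → ℝ) →ₗ[ℝ] ℝ := ∑ j, (u j : ℝ) • LinearMap.proj j

/-- The combinatorial model: `Q` is the toric triple `(ℂ^N, ∏ a_{f_i} ∏ (x_j)^{b_j} ∏ 𝔞_j^{r_j})` with the
translations `u` such that `exp(2 π i u_j) = c_j^k` for some `k`. -/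
structure IsTQ {N r : ℕ} {J : Type} [Fintype J] (Q : TQ N) (f : Fin r → MvPolynomial (Fin N) ℂ)
    (b : Fin N → ℝ) (M : J → Set (Fin N →₀ ℕ)) (rr : J → ℝ) (c : Fin N → ℂ) : Prop where
  lattice : ∀ y, y ∈ Q.N ↔ ∃ z : Fin N → ℤ, y = toR z
  int : interior (coneOf Q.ray) = {y | ∀ j, 0 < y j}
  disc : ∀ y : Fin N → ℝ, Q.disc y = ∑ j, y j - ∑ i, MldAcc.ord (lf '' (f i).support) y -
    ∑ j, b j * y j - ∑ j, rr j * MldAcc.ord (lf '' M j) y
  gam : ∀ g : Aff N, g ∈ Q.Γ ↔ g.1 = 1 ∧ ∃ k : ℕ, ∀ j,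
    Complex.exp (2 * Real.pi * Complex.I * (g.2 j : ℝ)) = c j ^ k
  values : ∀ a, a ∈ Q.values ↔ ∃ u : Fin N → ℝ, (∀ j, 0 < u j) ∧ (∃ k : ℕ, ∀ j,
    Complex.exp (2 * Real.pi * Complex.I * (u j : ℝ)) = c j ^ k) ∧ Q.disc u = a
  coeff : ∀ S : Set ℝ, (0 : ℝ) ∈ S → 1 ∈ S → (∀ j, b j ∈ S) → (∀ j, rr j ∈ S) → Q.CoeffIn S

/-- TQN: the model exists. Proof. `N = ℤ^N`, rays the unit vectors, `b = 0`, `ψ = ∑ y_j`, ideals indexed by
`Fin r ⊕ Fin N ⊕ J` with the exponents `1`, `b_j`, `r_j`; `ι = Fin N`. `trans (1, u) k = k • u`;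
`IsShift (1, u) u' ↔ u' = u`; `codim (1, u) = 0`. -/
def S_TQN : Prop := ∀ {N r : ℕ} {J : Type} [Fintype J] (f : Fin r → MvPolynomial (Fin N) ℂ)
  (b : Fin N → ℝ) (M : J → Set (Fin N →₀ ℕ)) (rr : J → ℝ) (c : Fin N → ℂ), (∀ i, f i ≠ 0) →
  (∀ j, 0 ≤ b j) → (∀ j, (M j).Nonempty) → (∀ j, 0 ≤ rr j) →
  (∃ m : ℕ, 0 < m ∧ ∀ j, c j ^ m = 1) → ∃ Q : TQ N, IsTQ Q f b M rr c

/-- The data of a group element of Newton type. -/
structure NData {n : ℕ} {X : Germ n} (T : Triple X) (g : X.K ≃ₐ[ℂ] X.K) where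
  N : ℕ
  r : ℕ
  f : Fin r → MvPolynomial (Fin N) ℂ
  x : Fin N → X.K
  c : Fin N → ℂ
  b : Fin N → ℝ
  M : T.J → Set (Fin N →₀ ℕ)
  Q : TQ N
  ω : Forms n X.K
  ci : CI X f x
  mono : Mono T x b M
  eig : ∀ j, g (x j) = algebraMap ℂ X.K (c j) * x j
  semi : Semi f c
  tq : IsTQ Q f b M T.r c
  can : IsCan f x ω
  f_ne : ∀ i, f i ≠ 0
  f_zero : ∀ i, constantCoeff (f i) = 0
  /-- the log discrepancies -/
  ldisc : ∀ v : DivVal n X.K, X.Through v → T.disc v = v.logOrd ω - ∑ j, b j * v.ord (x j) -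
    ∑ j, T.r j * MldAcc.ord (lf '' M j) fun l => (v.ord (x l) : ℝ)
  /-- the lower bound -/
  low : ∀ v : DivVal n X.K, X.At v → Q.disc (fun l => (v.ord (x l) : ℝ)) ≤ T.disc v

/-- NDA: the data exist. Proof. `TQN` for `Q` (the `c_j` are roots of unity since `g` has finite order),
`PRD` for `ω`, `LGD` and `IDM` for `ldisc`; `low`: at `x` the orders `w_j` of the `x_j` are positive,
`LOV`, `LOW` give `v.logOrd ω ≥ ld f w`, and `word w (f i) = MldAcc.ord (lf '' supp f_i) w`. -/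
def S_NDA : Prop := Stmt_TBAS → Stmt_FRM → Stmt_FRA → Stmt_FSM → Stmt_FDL → Stmt_TXT → Stmt_UNQ →
  Stmt_REG → Stmt_DIV → Stmt_IDO → S_WRD → S_IND → S_NUL → S_LOV → S_LOW → S_REL → S_JAC → S_LIN →
  S_CAN → S_PRD → S_LGD → S_IDM → S_TQN →
  ∀ {n N r : ℕ} (X : Germ n) (T : Triple X) (g : X.K ≃ₐ[ℂ] X.K)
  (f : Fin r → MvPolynomial (Fin N) ℂ) (x : Fin N → X.K) (c : Fin N → ℂ) (b : Fin N → ℝ)
  (M : T.J → Set (Fin N →₀ ℕ)) (k : ℕ), 0 < n → 0 < k → g ^ k = 1 → CI X f x → Mono T x b M →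
  (∀ j, g (x j) = algebraMap ℂ X.K (c j) * x j) → Semi f c →
  ∃ D : NData T g, D.N = N ∧ ∀ S : Set ℝ, (0 : ℝ) ∈ S → 1 ∈ S → (∀ j, b j ∈ S) →
    (∀ j, T.r j ∈ S) → D.Q.CoeffIn S

/-- The number `q` is the contribution of the group element `g` to the minimal log discrepancy. -/
def Contrib {n : ℕ} {X Y : Germ n} (π : Y.K →ₐ[ℂ] X.K) (T' : Triple Y) (g : X.K ≃ₐ[ℂ] X.K)
    (q : ℝ) : Prop :=
  (∀ (w : DivVal n X.K) (v : DivVal n Y.K) (e : ℕ), X.At w → Over π w v e →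
    (∀ a, w.ord (g a) = w.ord a) → (∀ a : X.K, a ≠ 0 → w.Ge (w.ord a + 1) (g a - algebraMap ℂ X.K
      (Complex.exp (2 * Real.pi * Complex.I * w.ord a / e)) * a)) → q ≤ T'.disc v) ∧
  ∀ ε : ℝ, 0 < ε → ∃ v : DivVal n Y.K, Y.At v ∧ T'.disc v < q + ε

/-- LCN: the combinatorial model is log canonical, and integral weights have valuations. Proof. Let
`z > 0` be integral, `E > 0`, `E ∣ wdeg z u - wdeg z u'` for monomials of `f_i`; `z' = z + E h` from
`PTH`, `μ`, `δ` from `MUW` for `z'`: `δ T.disc μ ≤ Q.disc z' ≤ Q.disc z` (`ldisc`; the functions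
`MldAcc.ord (lf '' M)` are monotone and homogeneous, `word` is `MldAcc.ord`). For `E = 1` and `T.LC`
this gives `0 ≤ Q.disc z`. -/
def S_LCN : Prop := S_WRD → S_PTH → S_MUW → ∀ {n : ℕ} (X : Germ n) (T : Triple X)
  (g : X.K ≃ₐ[ℂ] X.K) (D : NData T g), 0 < n → T.LC → D.Q.LC ∧
  ∀ (E : ℕ) (z : Fin D.N → ℕ), 0 < E → (∀ j, 0 < z j) →
    (∀ i, ∀ u ∈ (D.f i).support, ∀ u' ∈ (D.f i).support, (E : ℤ) ∣ (wdeg z u : ℤ) - wdeg z u') →
    ∃ (z' h : Fin D.N → ℕ) (μ : DivVal n X.K) (δ : ℕ), z' = z + E • h ∧ 0 < δ ∧ X.At μ ∧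
      δ * T.disc μ ≤ D.Q.disc (fun l => (z l : ℝ)) ∧
      ∀ (τ : X.K ≃ₐ[ℂ] X.K) (c : Fin D.N → ℂ),
        (∀ j, c j = Complex.exp (2 * Real.pi * Complex.I * z' j / E)) →
        (∀ j, τ (D.x j) = algebraMap ℂ X.K (c j) * D.x j) → Semi D.f c →
        ∀ a : X.K, a ≠ 0 → τ a = a → (E : ℤ) ∣ δ * μ.ord a

/-- NCO: the contribution of an element of Newton type. Proof. Lower bound: let `u = w(x) / e`; then
`c_j = exp(2 π i u_j)` (the condition on `g` for `a = x_j`), so `Q.disc u` is in `Q.values`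
(`IsTQ.values`, `k = 1`), and `e T'.disc v = T.disc w ≥ Q.disc (w(x)) = e Q.disc u` (`QPUL`, `Crepant`:
`disc_over` in `MldGeo/QFin.lean`; `low`; homogeneity `MldGeo.disc_scale`). Upper bound: let `Q.disc u`
be a value, `exp(2 π i u_j) = c_j^k`; the `c_j` are roots of unity, so `E u = z` is integral for some
`E > 0`; `E ∣ wdeg z u' - wdeg z u''` for monomials of `f_i` because of `Semi`. `LCN` gives `μ`, `δ`;
`v` under `μ` with index `e'` (`QGAL`); the invariance under `g^k` of `π b`, `v(b) = 1`, gives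
`E ∣ δ e'`, so `E ≤ δ e'` and `E T'.disc v ≤ δ e' T'.disc v = δ T.disc μ ≤ Q.disc z = E Q.disc u`
(`0 ≤ T.disc μ`). `v` is at `y` by `QAT`. -/
def S_NCO : Prop := Stmt_QGAL → Stmt_QAT → Stmt_QPUL → S_LCN → S_WRD → S_PTH → S_MUW →
  ∀ {n : ℕ} {X Y : Germ n} (G : Subgroup (X.K ≃ₐ[ℂ] X.K)) (π : Y.K →ₐ[ℂ] X.K) (T : Triple X)
  (T' : Triple Y), 0 < n → IsQuot X Y G π → Crepant π T T' → T.LC → ∀ g ∈ G, ∀ D : NData T g,
  Contrib π T' g D.Q.mldQ

/-- TCO: the contribution of an element of toric type. Proof. `lower`, `upper` and `exists_pack` in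
`MldGeo/QFin.lean` (and `TQ.exists_value`). -/
def S_TCO : Prop := Stmt_QGAL → Stmt_QAT → Stmt_QPUL → Stmt_POW → Stmt_SHF → Stmt_QV → Stmt_QLG →
  Stmt_TOR → Stmt_TDC → Stmt_QMON → Stmt_INVP → Stmt_TQM →
  ∀ {n : ℕ} {X Y : Germ n} (G : Subgroup (X.K ≃ₐ[ℂ] X.K)) (π : Y.K →ₐ[ℂ] X.K) (T : Triple X)
  (T' : Triple Y) (D : Set ℝ), 0 < n → IsQuot X Y G π → Crepant π T T' → T.LC → ∀ g ∈ G,
  T.Effective → T.CoeffIn D → (∃ A : TorusAction X n, A.Normal g ∧ A.InvTriple T) →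
  ∃ q ∈ tqSet n (insert 0 D), Contrib π T' g q

/-- FIN: the minimal log discrepancy is one of the contributions. Proof. As `QFin.main`: let `q_{g₀}` be
the minimum of the chosen contributions (`G` is finite). Every `v` at `y` has `w` over it (`QGAL`),
`w` is at `x` (`QAT`), the inertia element `g` gives `q_{g₀} ≤ q_g ≤ T'.disc v`; and
`T'.mld ≤ q_{g₀} + ε` for all `ε`. -/
def S_FIN : Prop := Stmt_QGAL → Stmt_QAT → ∀ {n : ℕ} {X Y : Germ n}
  (G : Subgroup (X.K ≃ₐ[ℂ] X.K)) (π : Y.K →ₐ[ℂ] X.K) (T' : Triple Y) (A : Set ℝ), 0 < n →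
  IsQuot X Y G π → (∀ g ∈ G, ∃ q ∈ A, Contrib π T' g q) → T'.mld ∈ A

/-- The minimal log discrepancies. -/
def ndMld (n N : ℕ) (D : Set ℝ) : Set ℝ :=
  {a | ∃ (X Y : Germ n) (G : Subgroup (X.K ≃ₐ[ℂ] X.K)) (π : Y.K →ₐ[ℂ] X.K) (T : Triple X)
    (T' : Triple Y), IsQuot X Y G π ∧ Crepant π T T' ∧ T.LC ∧
    (∀ g ∈ G,
      (∃ N' ≤ N, ∃ (r : ℕ) (f : Fin r → MvPolynomial (Fin N') ℂ) (x : Fin N' → X.K)
        (c : Fin N' → ℂ) (b : Fin N' → ℝ) (M : T.J → Set (Fin N' →₀ ℕ)), CI X f x ∧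
        Mono T x b M ∧ (∀ j, b j ≠ 0 → b j ∈ D) ∧ (∀ j, T.r j ≠ 0 → T.r j ∈ D) ∧
        (∀ j, g (x j) = algebraMap ℂ X.K (c j) * x j) ∧ Semi f c) ∨
      (T.Effective ∧ T.CoeffIn D ∧ ∃ A : TorusAction X n, A.Normal g ∧ A.InvTriple T)) ∧
    T'.mld = a}

/-- ACU: a finite union of sets with the ascending chain condition. Proof. One of them contains
infinitely many terms; take the subsequence. -/
def S_ACU : Prop := ∀ {ι : Type} [Finite ι] (A : ι → Set ℝ),
  (∀ i (x : ℕ → ℝ), (∀ k, x k ∈ A i) → ¬ StrictMono x) →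
  ∀ x : ℕ → ℝ, (∀ k, ∃ i, x k ∈ A i) → ¬ StrictMono x

/-- ASM: the theorem. Proof. `n = 0` as in `acc_quot` (`MldGeo/QFin.lean`). For `n > 0` by `NDA`, `LCN`,
`NCO`, `TCO`, `FIN` every element of `ndMld n N D` is in the union of the `tqSet N' S`,
`N' ≤ N`, and of `tqSet n S`, `S = insert 0 (insert 1 D)` (or `insert 0 D`); `TQ.acc_mldQ`, `ACU`. -/
def S_ASM : Prop := ∀ (n N : ℕ) (D : Set ℝ), D.IsWF → ∀ x : ℕ → ℝ, (∀ k, x k ∈ ndMld n N D) →
  ¬ StrictMono x

end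

end NDQ
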