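import Pool.Agent.NDQ.St

/-!
# ACU: finite unions of sets with the ascending chain condition
-/

set_option autoImplicit false

namespace NDQ

theorem t_ACU : S_ACU := by
  classical
  intro ι _ A hA x hx hmono
  choose i hi using hx
  obtain ⟨i0, h0⟩ := Finite.exists_infinite_fiber i
  have h1 : (i ⁻¹' {i0}).Infinite := Set.infinite_coe_iff.1 h0
  let e := Nat.Subtype.orderIsoOfNat (i ⁻¹' {i0})
  refine hA i0 (fun k => x (e k)) (fun k => ?_) fun a b hab => ?_
  · have h2 : i (e k : ℕ) = i0 := (e k).2
    have h3 := hi (e k : ℕ)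
    rwa [h2] at h3
  · exact hmono (e.strictMono hab)

end NDQ
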