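import Pool.Agent.NDQ.St
import Pool.Agent.MldGeo.QFin

/-!
# ASM: assembly
-/

set_option autoImplicit false

namespace NDQ

open MldGeo MldGap MldAcc MldQ MvPolynomial
open MldX (wdeg word initForm Nondegenerate InteriorPoint)

/-- The theorem from its ingredients. -/
theorem asm (hTBAS : Stmt_TBAS) (hFRM : Stmt_FRM) (hFRA : Stmt_FRA) (hFSM : Stmt_FSM)
    (hFDL : Stmt_FDL) (hTXT : Stmt_TXT) (hUNQ : Stmt_UNQ) (hREG : Stmt_REG) (hDIV : Stmt_DIV)
    (hIDO : Stmt_IDO) (hLAU : Stmt_LAU) (hRATF : Stmt_RATF)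
    (hQGAL : Stmt_QGAL) (hQAT : Stmt_QAT) (hPUL : Stmt_QPUL) (hPOW : Stmt_POW) (hSHF : Stmt_SHF)
    (hQV : Stmt_QV) (hQLG : Stmt_QLG) (hTOR : Stmt_TOR) (hTDC : Stmt_TDC) (hMON : Stmt_QMON)
    (hINVP : Stmt_INVP) (hTQM : Stmt_TQM)
    (hWRD : S_WRD) (hPTH : S_PTH) (hLIN : S_LIN) (hCAN : S_CAN) (hJAC : S_JAC) (hREL : S_REL)
    (hPRD : S_PRD) (hLGD : S_LGD) (hIND : S_IND) (hNUL : S_NUL) (hLOV : S_LOV) (hLOW : S_LOW)
    (hHEN : S_HEN) (hGPT : S_GPT) (hSOL : S_SOL) (hEMB : S_EMB) (hDVG : S_DVG) (hMLO : S_MLO)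
    (hROG : S_ROG) (hINR : S_INR) (hMUA : S_MUA) (hIDM : S_IDM) (hTQN : S_TQN) (hNDA : S_NDA)
    (hLCN : S_LCN) (hNCO : S_NCO) (hTCO : S_TCO) (hFIN : S_FIN) (hACU : S_ACU) : S_ASM := by
  classical
  have hMUW : S_MUW := hMUA hFSM hTBAS hLAU hRATF hDIV hWRD hIND hREL hHEN hGPT hSOL hEMB hDVG
    hMLO hROG hINR
  intro n N D hD x hx hmono
  rcases Nat.eq_zero_or_pos n with rfl | hn
  · have h1 : ∀ k, x k = 0 := by
      intro k
      obtain ⟨X, Y, G, π, T, T', -, -, -, -, h⟩ := hx k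
      rw [← h]
      have h2 : {a : ℝ | ∃ v, Y.At v ∧ T'.disc v = a} = ∅ := by
        ext a
        simp only [Set.mem_ofPred_eq, Set.mem_empty_iff_false, iff_false]
        rintro ⟨v, -⟩
        exact QFin.no_div Y v
      unfold Triple.mld
      rw [h2, Real.sInf_empty]
    have h3 := hmono (Nat.lt_succ_self 0)
    rw [h1, h1] at h3
    exact lt_irrefl _ h3
  · let S : Set ℝ := insert 0 (insert 1 D)
    have hS : S.IsWF := by
      have h1 : (insert 1 D : Set ℝ).IsWF := by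
        rw [Set.insert_eq]
        exact Set.isWF_singleton.union hD
      show (insert 0 (insert 1 D) : Set ℝ).IsWF
      rw [Set.insert_eq]
      exact Set.isWF_singleton.union h1
    have hD' : (insert 0 D : Set ℝ).IsWF := by
      rw [Set.insert_eq]
      exact Set.isWF_singleton.union hD
    let A : Option (Fin (N + 1)) → Set ℝ := fun i => match i with
      | none => tqSet n (insert 0 D)
      | some j => tqSet j S
    refine hACU A ?_ x (fun k => ?_) hmono
    · rintro (_ | j) y hy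
      · exact TQ.acc_mldQ hD' y hy
      · exact TQ.acc_mldQ hS y hy
    · obtain ⟨X, Y, G, π, T, T', hQ, hC, hLC, hG, h⟩ := hx k
      rw [← h]
      have : Finite G := hQ.finite
      have h1 : T'.mld ∈ ⋃ i, A i := by
        refine hFIN hQGAL hQAT G π T' _ hn hQ fun g hg => ?_
        rcases hG g hg with ⟨N', hN', r, f, z, c, b, M, hCI, hM, hb, hr, heig, hsemi⟩ |
            ⟨hE, hCo, hA⟩
        · have hk : ∃ k : ℕ, 0 < k ∧ g ^ k = 1 := by
            have h1 := isOfFinOrder_of_finite (⟨g, hg⟩ : G)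
            refine ⟨orderOf (⟨g, hg⟩ : G), h1.orderOf_pos, ?_⟩
            have h2 := pow_orderOf_eq_one (⟨g, hg⟩ : G)
            exact congrArg Subtype.val h2
          obtain ⟨k, hk, hgk⟩ := hk
          obtain ⟨E, hE1, hE2⟩ := hNDA hTBAS hFRM hFRA hFSM hFDL hTXT hUNQ hREG hDIV hIDO hWRD hIND
            hNUL hLOV hLOW hREL hJAC hLIN hCAN hPRD hLGD hIDM hTQN X T g f z c b M k hn hk hgk hCI hM
            heig hsemi
          refine ⟨E.Q.mldQ, Set.mem_iUnion.2 ⟨some ⟨E.N, ?_⟩, ?_⟩, hNCO hQGAL hQAT hPUL hLCN hWRD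
            hPTH hMUW G π T T' hn hQ hC hLC g hg E⟩
          · rw [hE1]
            omega
          · refine ⟨E.Q, (hLCN hWRD hPTH hMUW X T g E hn hLC).1, hE2 S ?_ ?_ ?_ ?_, rfl⟩
            · exact Set.mem_insert _ _
            · exact Set.mem_insert_of_mem _ (Set.mem_insert _ _)
            · intro j
              by_cases h0 : b j = 0
              · rw [h0]
                exact Set.mem_insert _ _
              · exact Set.mem_insert_of_mem _ (Set.mem_insert_of_mem _ (hb j h0))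
            · intro j
              by_cases h0 : T.r j = 0
              · rw [h0]
                exact Set.mem_insert _ _
              · exact Set.mem_insert_of_mem _ (Set.mem_insert_of_mem _ (hr j h0))
        · obtain ⟨q, hq, hq2⟩ := hTCO hQGAL hQAT hPUL hPOW hSHF hQV hQLG hTOR hTDC hMON hINVP hTQM
            G π T T' D hn hQ hC hLC g hg hE hCo hA
          exact ⟨q, Set.mem_iUnion.2 ⟨none, hq⟩, hq2⟩
      obtain ⟨i, hi⟩ := Set.mem_iUnion.1 h1
      exact ⟨i, hi⟩

end NDQ
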