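import Pool.Agent.NDQ.St
import Pool.Agent.MldGeo.FRM

/-!
# CAN: the canonical form exists
-/

set_option autoImplicit false

namespace NDQ

open MldGeo MldGap MldAcc MldQ MvPolynomial
open MldX (wdeg word initForm Nondegenerate InteriorPoint)

noncomputable section

namespace CAN

variable {K : Type} [Field K] [Algebra ℂ K]

theorem gen_D {n : ℕ} (x : Fin n → K) (gen : IntermediateField.adjoin ℂ (Set.range x) = ⊤)
    (N : Submodule K (Ω[K⁄ℂ])) (h : ∀ j, KaehlerDifferential.D ℂ K (x j) ∈ N) : N = ⊤ := by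
  have key : ∀ a : K, KaehlerDifferential.D ℂ K a ∈ N := by
    intro a
    have ha : a ∈ IntermediateField.adjoin ℂ (Set.range x) := by
      rw [gen]
      trivial
    induction ha using IntermediateField.adjoin_induction with
    | mem a ha =>
      obtain ⟨j, rfl⟩ := ha
      exact h j
    | algebraMap c =>
      rw [Derivation.map_algebraMap]
      exact N.zero_mem
    | add a b _ _ ha hb =>
      rw [map_add]
      exact N.add_mem ha hb
    | inv a _ ha =>
      rw [Derivation.leibniz_inv]
      exact N.smul_mem _ ha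
    | mul a b _ _ ha hb =>
      rw [Derivation.leibniz]
      exact N.add_mem (N.smul_mem _ hb) (N.smul_mem _ ha)
  rw [eq_top_iff, ← KaehlerDifferential.span_range_derivation, Submodule.span_le]
  rintro _ ⟨a, rfl⟩
  exact key a

theorem kill {F M : Type*} [Field F] [AddCommGroup M] [Module F M] {n r e : ℕ}
    (G : Fin r → Fin n → F)
    (σ : Fin r ⊕ Fin e ≃ Fin n) (y : Fin n → M) (h : ∀ i, ∑ j, G i j • y j = 0)
    (h0 : ∀ l, y (σ (Sum.inr l)) = 0)
    (hd : (Matrix.of fun i j : Fin r => G i (σ (Sum.inl j))).det ≠ 0) : ∀ j, y j = 0 := by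
  classical
  have h1 : ∀ i, ∑ j, G i (σ (Sum.inl j)) • y (σ (Sum.inl j)) = 0 := by
    intro i
    have h2 := h i
    rw [← σ.sum_comp, Fintype.sum_sum_type] at h2
    simpa [h0] using h2
  set A : Matrix (Fin r) (Fin r) F := Matrix.of fun i j : Fin r => G i (σ (Sum.inl j)) with hA
  have hAA : A⁻¹ * A = 1 := Matrix.nonsing_inv_mul A (isUnit_iff_ne_zero.2 hd)
  have h3 : ∀ k, y (σ (Sum.inl k)) = 0 := by
    intro k
    have h4 : y (σ (Sum.inl k)) = ∑ j, (A⁻¹ * A) k j • y (σ (Sum.inl j)) := by
      rw [hAA]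
      simp [Matrix.one_apply, ite_smul]
    rw [h4]
    simp only [Matrix.mul_apply, Finset.sum_smul]
    rw [Finset.sum_comm]
    refine Finset.sum_eq_zero fun i _ => ?_
    have h5 : ∑ j, (A⁻¹ k i * A i j) • y (σ (Sum.inl j)) =
        A⁻¹ k i • ∑ j, G i (σ (Sum.inl j)) • y (σ (Sum.inl j)) := by
      rw [Finset.smul_sum]
      refine Finset.sum_congr rfl fun j _ => ?_
      rw [mul_smul]
      rfl
    rw [h5, h1, smul_zero]
  intro j
  obtain ⟨s, rfl⟩ := σ.surjective j
  rcases s with k | l
  · exact h3 k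
  · exact h0 l

theorem D_aeval {e : ℕ} (z : Fin e → K) (p : MvPolynomial (Fin e) ℂ) :
    KaehlerDifferential.D ℂ K (MvPolynomial.aeval z p) =
      ∑ l, MvPolynomial.aeval z (MvPolynomial.pderiv l p) • KaehlerDifferential.D ℂ K (z l) := by
  classical
  induction p using MvPolynomial.induction_on with
  | C c => simp
  | add p q hp hq =>
    simp only [map_add, add_smul, Finset.sum_add_distrib]
    rw [hp, hq]
  | mul_X p i hp =>
    rw [map_mul, Derivation.leibniz, hp, MvPolynomial.aeval_X]
    simp only [Derivation.leibniz, map_add, smul_eq_mul, map_mul, MvPolynomial.aeval_X, add_smul,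
      Finset.sum_add_distrib]
    congr 1
    · rw [Finset.sum_eq_single i]
      · rw [MvPolynomial.pderiv_X_self, map_one, mul_one]
      · intro l _ hl
        rw [MvPolynomial.pderiv_X_of_ne (Ne.symm hl), map_zero, mul_zero, zero_smul]
      · intro h
        exact absurd (Finset.mem_univ i) h
    · rw [Finset.smul_sum]
      refine Finset.sum_congr rfl fun l _ => ?_
      rw [mul_smul]

theorem finrank_eq (hT : Stmt_TBAS) {e : ℕ} (htr : Algebra.trdeg ℂ K = (e : Cardinal)) :
    Module.Finite K (Ω[K⁄ℂ]) ∧ Module.finrank K (Ω[K⁄ℂ]) = e := by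
  obtain ⟨s, hs⟩ := exists_isTranscendenceBasis ℂ K
  have hc : Cardinal.mk s = e := hs.cardinalMk_eq_trdeg.trans htr
  have hf : Finite s := by
    rw [← Cardinal.lt_aleph0_iff_finite, hc]
    exact Cardinal.natCast_lt_aleph0
  have : Fintype s := Fintype.ofFinite s
  have hcard : Fintype.card s = e := by
    rw [Cardinal.mk_fintype] at hc
    exact_mod_cast hc
  let eqv : Fin e ≃ s := (Fintype.equivFinOfCardEq hcard).symm
  have hx : AlgebraicIndependent ℂ fun i => (eqv i : K) := hs.1.comp _ eqv.injective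
  obtain ⟨hl, hsp⟩ := hT htr _ hx
  let b : Module.Basis (Fin e) K (Ω[K⁄ℂ]) := Module.Basis.mk hl hsp.ge
  exact ⟨Module.Finite.of_basis b, by simpa using Module.finrank_eq_card_basis b⟩

end CAN

theorem t_CAN : S_CAN := by
  classical
  intro hT hL n N r K _ _ f x htr hn hz gen ⟨σ₀, hσ₀⟩
  have hrel : ∀ i, ∑ j, aeval x (pderiv j (f i)) • KaehlerDifferential.D ℂ K (x j) = 0 := by
    intro i
    rw [← CAN.D_aeval, hz, map_zero]
  -- the differentials of the other coordinates span
  set S : Submodule K (Ω[K⁄ℂ]) := Submodule.span K (Set.range fun k =>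
    KaehlerDifferential.D ℂ K (x (σ₀ (Sum.inr k)))) with hS
  have hspan : S = ⊤ := by
    refine CAN.gen_D x gen S fun j => ?_
    have h1 : ∀ j, S.mkQ (KaehlerDifferential.D ℂ K (x j)) = 0 := by
      refine CAN.kill (fun i j => aeval x (pderiv j (f i))) σ₀
        (fun j => S.mkQ (KaehlerDifferential.D ℂ K (x j))) ?_ ?_ hσ₀
      · intro i
        have h2 := congrArg S.mkQ (hrel i)
        rw [map_zero, map_sum] at h2
        simpa only [map_smul] using h2
      · intro l
        rw [Submodule.mkQ_apply, Submodule.Quotient.mk_eq_zero]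
        exact Submodule.subset_span ⟨l, rfl⟩
    have h3 := h1 j
    rw [Submodule.mkQ_apply, Submodule.Quotient.mk_eq_zero] at h3
    exact h3
  obtain ⟨hfin, hrank⟩ := CAN.finrank_eq hT htr
  have hli : LinearIndependent K fun k => KaehlerDifferential.D ℂ K (x (σ₀ (Sum.inr k))) := by
    refine linearIndependent_of_top_le_span_of_card_eq_finrank (hspan.ge) ?_
    rw [Fintype.card_fin, hrank]
  let b : Module.Basis (Fin n) K (Ω[K⁄ℂ]) := Module.Basis.mk hli hspan.ge
  have hb : ∀ k, b k = KaehlerDifferential.D ℂ K (x (σ₀ (Sum.inr k))) := fun k => by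
    rw [show (b : Fin n → Ω[K⁄ℂ]) = _ from Module.Basis.coe_mk hli hspan.ge]
  -- the matrices
  set G : Matrix (Fin r) (Fin N) K := Matrix.of fun i j => aeval x (pderiv j (f i)) with hG
  set M : Matrix (Fin N) (Fin n) K :=
    Matrix.of fun j k => b.repr (KaehlerDifferential.D ℂ K (x j)) k with hM
  have hGM : G * M = 0 := by
    ext i k
    have h1 := congrArg (fun ω => b.repr ω k) (hrel i)
    simp only [map_sum, map_smul, map_zero, Finsupp.coe_zero, Pi.zero_apply] at h1
    rw [Matrix.mul_apply, Matrix.zero_apply, ← h1, Finset.sum_apply']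
    exact Finset.sum_congr rfl fun j _ => rfl
  have hA : ∀ τ : Fin r ⊕ Fin n ≃ Fin N,
      (G.submatrix id fun j => τ (Sum.inl j)).det = mnr f x τ := fun τ => rfl
  have hC : ∀ τ : Fin r ⊕ Fin n ≃ Fin N,
      dforms (fun k => x (τ (Sum.inr k))) = (M.submatrix (fun k => τ (Sum.inr k)) id).det •
        exteriorPower.ιMulti K n (b : Fin n → Ω[K⁄ℂ]) := by
    intro τ
    unfold dforms
    rw [FRM.iota_eq b]
    congr 1
    rw [Module.Basis.det_apply, ← Matrix.det_transpose]
    rfl
  have hC0 : (M.submatrix (fun k => σ₀ (Sum.inr k)) id).det = 1 := by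
    have h1 : M.submatrix (fun k => σ₀ (Sum.inr k)) id = 1 := by
      ext k l
      have h2 : M.submatrix (fun k => σ₀ (Sum.inr k)) id k l =
        b.repr (KaehlerDifferential.D ℂ K (x (σ₀ (Sum.inr k)))) l := rfl
      rw [h2, ← hb k, Module.Basis.repr_self, Finsupp.single_apply, Matrix.one_apply]
    rw [h1, Matrix.det_one]
  have hι := FRM.iota_ne b
  refine ⟨(mnr f x σ₀)⁻¹ • exteriorPower.ιMulti K n (b : Fin n → Ω[K⁄ℂ]),
    smul_ne_zero (inv_ne_zero hσ₀) hι, fun σ => ?_⟩
  have h3 := hL G M σ₀ σ hGM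
  simp only at h3
  have h4 := h3 (by rw [hA]; exact hσ₀)
  rw [hA, hA, hC0, mul_one] at h4
  rw [hC σ, smul_smul]
  rcases h4 with h4 | h4
  · left
    congr 1
    rw [← h4]
    field_simp
  · right
    refine Eq.trans ?_ (neg_smul (M.submatrix (fun k => σ (Sum.inr k)) id).det
      (exteriorPower.ιMulti K n (b : Fin n → Ω[K⁄ℂ])))
    congr 1
    have h5 : mnr f x σ = - (mnr f x σ₀ * (M.submatrix (fun k => σ (Sum.inr k)) id).det) := by
      rw [h4, neg_neg]
    rw [h5]
    field_simp

end

end NDQ
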