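import Pool.Agent.NDQ.St

/-!
# Module NDQ_COE: termination
-/

set_option autoImplicit false

namespace NDQ

open MldGeo MldGap MldAcc MldQ MvPolynomial
open MldX (wdeg word initForm Nondegenerate InteriorPoint)

namespace COE

variable {N r : ℕ}

theorem wdeg_add (a b : Fin N → ℕ) (u : Fin N →₀ ℕ) :
    wdeg (fun j => a j + b j) u = wdeg a u + wdeg b u := by
  unfold wdeg
  rw [← Finset.sum_add_distrib]
  exact Finset.sum_congr rfl fun j _ => add_mul _ _ _

/-- The comparison of two indices with the same minimal exponents. -/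
theorem step (hWRD : S_WRD) (f : Fin r → MvPolynomial (Fin N) ℂ) (hf : ∀ i, f i ≠ 0)
    (hI : InteriorPoint f) (a b : Fin N → ℕ) (hab : ∀ j, a j ≤ b j) (hne : a ≠ b)
    (u : Fin r → (Fin N →₀ ℕ)) (hu : ∀ i, u i ∈ (f i).support)
    (ha : ∀ i, wdeg a (u i) = word a (f i)) (hb : ∀ i, wdeg b (u i) = word b (f i))
    (hle : ∀ i, ∀ u' ∈ (f i).support, wdeg a u' - word a (f i) ≤ wdeg b u' - word b (f i)) :
    ld f a < ld f b := by
  obtain ⟨h, hh⟩ : ∃ h : Fin N → ℕ, ∀ j, b j = a j + h j :=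
    ⟨fun j => b j - a j, fun j => (Nat.add_sub_cancel' (hab j)).symm⟩
  have hb' : b = fun j => a j + h j := funext hh
  have h0 : h ≠ 0 := by
    intro h1
    apply hne
    rw [hb', h1]
    funext j
    simp
  have hw : ∀ i, word b (f i) = word a (f i) + word h (f i) := by
    intro i
    have e1 : ∀ v, wdeg b v = wdeg a v + wdeg h v := fun v => by rw [hb', wdeg_add]
    obtain ⟨u0, hu0, e0⟩ := (hWRD (f i) h).1 (hf i)
    have l0 := hle i u0 hu0
    have l1 := (hWRD (f i) a).2.1 u0 hu0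
    have l2 := (hWRD (f i) b).2.1 u0 hu0
    have l3 := (hWRD (f i) h).2.1 (u i) (hu i)
    have e2 := e1 u0
    have e3 := e1 (u i)
    have e4 := ha i
    have e5 := hb i
    omega
  have hlt := hI h h0
  unfold ld
  have s1 : ∑ j, (b j : ℤ) = ∑ j, (a j : ℤ) + ∑ j, (h j : ℤ) := by
    rw [← Finset.sum_add_distrib]
    refine Finset.sum_congr rfl fun j _ => ?_
    rw [hh j]
    push_cast
    rfl
  have s2 : ∑ i, (word b (f i) : ℤ) = ∑ i, (word a (f i) : ℤ) + ∑ i, (word h (f i) : ℤ) := by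
    rw [← Finset.sum_add_distrib]
    refine Finset.sum_congr rfl fun i _ => ?_
    rw [hw i]
    push_cast
    rfl
  have s3 : ∑ i, (word h (f i) : ℤ) < ∑ j, (h j : ℤ) := by exact_mod_cast hlt
  rw [s1, s2]
  linarith

end COE

theorem t_COE (hWRD : S_WRD) : S_COE := by
  intro N r f hf hI z hz hne
  by_contra hcon
  push Not at hcon
  have anti : Antitone fun k => ld f (z k) := antitone_nat_of_succ_le hcon
  have mono : Monotone z := monotone_nat_of_le_succ fun k j => hz k j
  have key : ∀ k i, ∃ u, u ∈ (f i).support ∧ wdeg (z k) u = word (z k) (f i) := fun k i =>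
    (hWRD (f i) (z k)).1 (hf i)
  choose U hU hU' using key
  have wq : WellQuasiOrdered (fun (p q : ((i : Fin r) → {u // u ∈ (f i).support}) ×
      ((Σ i : Fin r, {u // u ∈ (f i).support}) → ℕ)) => p.1 = q.1 ∧ p.2 ≤ q.2) :=
    (Finite.wellQuasiOrdered (fun (p q : (i : Fin r) → {u // u ∈ (f i).support}) => p = q)).prod
      (wellQuasiOrdered_le (α := (Σ i : Fin r, {u // u ∈ (f i).support}) → ℕ))
  obtain ⟨k, k', hlt, h1, h2⟩ := wq fun k => (fun i => ⟨U k i, hU k i⟩,
    fun s => wdeg (z k) s.2.1 - word (z k) (f s.1))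
  have h3 : ∀ i, U k i = U k' i := fun i => congrArg Subtype.val (congrFun h1 i)
  have hzz : z k ≠ z k' := by
    intro h4
    apply hne k
    apply le_antisymm (mono (Nat.le_succ k))
    rw [h4]
    exact mono hlt
  have h5 := COE.step hWRD f hf hI (z k) (z k') (fun j => mono hlt.le j) hzz (U k) (hU k)
    (hU' k) (fun i => by rw [h3 i]; exact hU' k' i)
    (fun i u' hu' => h2 ⟨i, ⟨u', hu'⟩⟩)
  exact absurd (anti hlt.le) (not_le.2 h5)

end NDQ
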