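import Pool.Agent.NDQ.St

/-!
# DVG: the divisorial valuation defined by an embedding in a field of Laurent series

The proof is the one of `Pool/Agent/MldGeo/DVL.lean`.
-/

set_option autoImplicit false

namespace NDQ

open MldGeo MldGap MldAcc MldQ MvPolynomial

noncomputable section

theorem t_DVG : S_DVG := by
  classical
  intro n F K _ _ _ _ Λ ι hex hres
  obtain ⟨f0, hf0, hf1⟩ := hex
  obtain ⟨y, hy⟩ := hres
  have hne : ∀ f : K, f ≠ 0 → ι f ≠ 0 := fun f hf h => hf ((map_eq_zero ι).1 h)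
  have hone : Λ.ord 1 = 0 := DivVal.ord_one Λ.val
  have hinv : ∀ x, Λ.ord x⁻¹ = - Λ.ord x := fun x => DivVal.ord_inv Λ.val x
  let H : AddSubgroup ℤ :=
    { carrier := {k | ∃ f : K, f ≠ 0 ∧ Λ.ord (ι f) = k}
      zero_mem' := ⟨1, one_ne_zero, by rw [map_one, hone]⟩
      add_mem' := by
        rintro _ _ ⟨f, hf, rfl⟩ ⟨g, hg, rfl⟩
        exact ⟨f * g, mul_ne_zero hf hg, by rw [map_mul, Λ.ord_mul _ _ (hne f hf) (hne g hg)]⟩
      neg_mem' := by
        rintro _ ⟨f, hf, rfl⟩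
        exact ⟨f⁻¹, inv_ne_zero hf, by rw [map_inv₀, hinv]⟩ }
  obtain ⟨g, hg⟩ := Int.subgroup_cyclic H
  have hmem : ∀ f : K, f ≠ 0 → Λ.ord (ι f) ∈ H := fun f hf => ⟨f, hf, rfl⟩
  have hdvd : ∀ f : K, f ≠ 0 → (g.natAbs : ℤ) ∣ Λ.ord (ι f) := by
    intro f hf
    have h := hmem f hf
    rw [hg, AddSubgroup.mem_closure_singleton] at h
    obtain ⟨k, hk⟩ := h
    rw [← hk, Int.natAbs_dvd]
    exact ⟨k, by rw [smul_eq_mul, mul_comm]⟩
  have hg0 : g ≠ 0 := by
    rintro rfl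
    have h := hdvd f0 hf0
    rw [Int.natAbs_zero, Nat.cast_zero, zero_dvd_iff] at h
    exact hf1 h
  have hpos : (0 : ℤ) < (g.natAbs : ℤ) := by
    exact_mod_cast Int.natAbs_pos.2 hg0
  have hgm : (g.natAbs : ℤ) ∈ H := by
    have h1 : g ∈ H := by
      rw [hg]
      exact AddSubgroup.mem_closure_singleton_self g
    rcases Int.natAbs_eq g with h2 | h2
    · rw [← h2]
      exact h1
    · have h3 : (g.natAbs : ℤ) = -g := by
        rw [eq_neg_iff_add_eq_zero]
        nth_rewrite 2 [h2]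
        exact add_neg_cancel _
      rw [h3]
      exact H.neg_mem h1
  obtain ⟨t, ht, ht1⟩ := hgm
  have hmul : ∀ f : K, f ≠ 0 → (g.natAbs : ℤ) * (Λ.ord (ι f) / g.natAbs) = Λ.ord (ι f) :=
    fun f hf => Int.mul_ediv_cancel' (hdvd f hf)
  refine ⟨⟨fun f => if f = 0 then 0 else Λ.ord (ι f) / g.natAbs, if_pos rfl, ?_, ?_, ?_,
    ⟨t, ht, ?_⟩, ⟨y, ?_⟩⟩, g.natAbs, by exact_mod_cast hpos, ?_⟩
  · intro a b ha hb
    simp only [if_neg ha, if_neg hb, if_neg (mul_ne_zero ha hb)]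
    rw [map_mul, Λ.ord_mul _ _ (hne a ha) (hne b hb), Int.add_ediv_of_dvd_left (hdvd a ha)]
  · intro a b ha hb hab
    simp only [if_neg ha, if_neg hb, if_neg hab]
    have h := Λ.ord_add _ _ (hne a ha) (hne b hb) (by rw [← map_add]; exact hne _ hab)
    rw [← map_add] at h
    rcases min_le_iff.1 h with h | h
    · exact min_le_iff.2 (Or.inl (Int.ediv_le_ediv hpos h))
    · exact min_le_iff.2 (Or.inr (Int.ediv_le_ediv hpos h))
  · intro c
    by_cases hc : algebraMap ℂ K c = 0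
    · exact if_pos hc
    · simp only [if_neg hc]
      have h : Λ.ord (algebraMap ℂ Λ.L c) = 0 := Λ.val.ord_const c
      rw [AlgHom.commutes, h, Int.zero_ediv]
  · simp only [if_neg ht]
    rw [ht1, Int.ediv_self hpos.ne']
  · intro P hP
    obtain ⟨h1, h2⟩ := hy P hP
    refine ⟨h1, ?_⟩
    simp only [if_neg h1]
    rw [h2, Int.zero_ediv]
  · intro f hf
    simp only [if_neg hf]
    exact hmul f hf

end

end NDQ
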