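import Pool.Agent.NDQ.St
import Pool.Agent.MldGeo.Ord

/-! # EMB: the embedding of the function field -/

set_option autoImplicit false

namespace NDQ

open MldGeo MldGap MldAcc MldQ MvPolynomial
open MldX (wdeg word initForm Nondegenerate InteriorPoint)

namespace EMB

section Series

variable {F : Type} [Field F] [Algebra ℂ F] (Λ : LField F)

theorem const_eq (c : ℂ) : algebraMap ℂ Λ.L c = Λ.emb (algebraMap ℂ F c) := (Λ.emb.commutes c).symm

theorem ord_spow (k : ℕ) : Λ.val.ord (Λ.s ^ k) = k := by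
  rw [DivVal.ord_pow]
  have : Λ.val.ord Λ.s = 1 := Λ.ord_s
  rw [this, mul_one]

theorem ge_spow (k : ℕ) : Λ.Ge k (Λ.s ^ k) := DivVal.Ge.of_le (ord_spow Λ k).ge

theorem ge_emb (a : F) : Λ.Ge 0 (Λ.emb a) := by
  by_cases ha : a = 0
  · rw [ha, map_zero]
    exact DivVal.Ge.zero _ _
  · exact DivVal.Ge.of_le (Λ.ord_emb a ha).ge

/-- A sum of series with a nonzero leading coefficient. -/
theorem ne_zero_of_lead {a : F} (ha : a ≠ 0) (d : ℕ) {b : Λ.L} (hb : Λ.Ge (d + 1) b) :
    Λ.s ^ d * Λ.emb a + b ≠ 0 := by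
  have h1 : Λ.emb a ≠ 0 := (map_ne_zero_iff _ Λ.emb.injective).2 ha
  have h2 : Λ.s ^ d * Λ.emb a ≠ 0 := mul_ne_zero (pow_ne_zero _ Λ.s_ne) h1
  have h3 : Λ.val.ord (Λ.s ^ d * Λ.emb a) = d := by
    rw [Λ.val.ord_mul _ _ (pow_ne_zero _ Λ.s_ne) h1, ord_spow]
    have : Λ.val.ord (Λ.emb a) = 0 := Λ.ord_emb a ha
    rw [this, add_zero]
  exact (DivVal.ord_add_eq_of_lt h2 (by rw [h3]; exact hb)).1

/-- The elements `s^(w k) ξ_k` are algebraically independent. -/
theorem indep {n : ℕ} (w : Fin n → ℕ) (ξ : Fin n → F) (hξ : AlgebraicIndependent ℂ ξ) :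
    AlgebraicIndependent ℂ fun k => Λ.s ^ w k * Λ.emb (ξ k) := by
  classical
  rw [algebraicIndependent_iff]
  intro p hp
  by_contra hp0
  let dg : (Fin n →₀ ℕ) → ℕ := fun u => ∑ k, w k * u k
  obtain ⟨u0, hu0, hmin⟩ := Finset.exists_min_image p.support dg (support_nonempty.2 hp0)
  let q : MvPolynomial (Fin n) ℂ := ∑ u ∈ p.support with dg u = dg u0, monomial u (coeff u p)
  have hq0 : q ≠ 0 := by
    intro h
    have h1 : coeff u0 q = coeff u0 p := by
      have h2 : coeff u0 q = ∑ u ∈ p.support with dg u = dg u0,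
          (if u = u0 then coeff u p else 0) := by
        simp only [q, coeff_sum, coeff_monomial]
      rw [h2, Finset.sum_ite_eq', if_pos ((Finset.mem_filter (p := fun u => dg u = dg u0)).2 ⟨hu0, rfl⟩)]
    rw [h, coeff_zero] at h1
    exact (mem_support_iff.1 hu0) h1.symm
  have ha : aeval ξ q ≠ 0 := fun h => hq0 ((algebraicIndependent_iff.1 hξ) q h)
  have hterm : ∀ u : Fin n →₀ ℕ, aeval (fun k => Λ.s ^ w k * Λ.emb (ξ k))
      (monomial u (coeff u p)) = Λ.s ^ dg u * Λ.emb (aeval ξ (monomial u (coeff u p))) := by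
    intro u
    rw [aeval_monomial, aeval_monomial, map_mul, const_eq, Finsupp.prod_fintype _ _ (by simp),
      Finsupp.prod_fintype _ _ (by simp), map_prod]
    simp only [mul_pow, map_pow, Finset.prod_mul_distrib, ← pow_mul]
    rw [Finset.prod_pow_eq_pow_sum]
    ring
  have hsplit : aeval (fun k => Λ.s ^ w k * Λ.emb (ξ k)) p =
      Λ.s ^ dg u0 * Λ.emb (aeval ξ q) +
        ∑ u ∈ p.support with ¬ dg u = dg u0, Λ.s ^ dg u * Λ.emb (aeval ξ (monomial u (coeff u p))) := by
    conv_lhs => rw [p.as_sum, map_sum]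
    rw [← Finset.sum_filter_add_sum_filter_not p.support (fun u => dg u = dg u0)]
    congr 1
    · simp only [q]
      rw [map_sum, map_sum, Finset.mul_sum]
      refine Finset.sum_congr rfl fun u hu => ?_
      rw [hterm, (Finset.mem_filter.1 hu).2]
    · exact Finset.sum_congr rfl fun u _ => hterm u
  rw [hsplit] at hp
  refine ne_zero_of_lead Λ ha (dg u0) ?_ hp
  refine DivVal.Ge.sum _ _ fun u hu => ?_
  obtain ⟨hu1, hu2⟩ := Finset.mem_filter.1 hu
  have h1 : dg u0 + 1 ≤ dg u := by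
    have := hmin u hu1
    omega
  have h2 : Λ.Ge (dg u) (Λ.s ^ dg u * Λ.emb (aeval ξ (monomial u (coeff u p)))) := by
    have := (ge_spow Λ (dg u)).mul (ge_emb Λ (aeval ξ (monomial u (coeff u p))))
    rwa [add_zero] at this
  exact h2.mono (by exact_mod_cast h1)

/-- The value of a polynomial at elements of positive order is its constant term modulo order one. -/
theorem aeval_const {N : ℕ} (y : Fin N → Λ.L) (hy : ∀ j, Λ.Ge 1 (y j))
    (p : MvPolynomial (Fin N) ℂ) :
    Λ.Ge 1 (aeval y p - algebraMap ℂ Λ.L (constantCoeff p)) := by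
  induction p using MvPolynomial.induction_on with
  | C c =>
    rw [aeval_C, constantCoeff_C, sub_self]
    exact DivVal.Ge.zero _ _
  | add p q hp hq =>
    have : aeval y (p + q) - algebraMap ℂ Λ.L (constantCoeff (p + q)) =
        (aeval y p - algebraMap ℂ Λ.L (constantCoeff p)) +
          (aeval y q - algebraMap ℂ Λ.L (constantCoeff q)) := by
      rw [map_add, map_add, map_add]
      ring
    rw [this]
    exact hp.add hq
  | mul_X p i _ =>
    rw [map_mul, map_mul, aeval_X, constantCoeff_X, mul_zero, map_zero, sub_zero]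
    exact (DivVal.Ge.aeval (fun j => (hy j).mono (by norm_num)) p).mul_left (hy i)

theorem aeval_ne_zero {N : ℕ} (y : Fin N → Λ.L) (hy : ∀ j, Λ.Ge 1 (y j))
    (p : MvPolynomial (Fin N) ℂ) (hp : constantCoeff p ≠ 0) : aeval y p ≠ 0 := by
  have h1 := aeval_const Λ y hy p
  have h2 : algebraMap ℂ F (constantCoeff p) ≠ 0 := (map_ne_zero _).2 hp
  have h3 := ne_zero_of_lead Λ h2 0 (b := aeval y p - algebraMap ℂ Λ.L (constantCoeff p))
    (by simpa using h1)
  rw [pow_zero, one_mul, ← const_eq, add_sub_cancel] at h3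
  exact h3

end Series

/-- If the kernel of `φ` is contained in the kernel of `ψ`, and conversely, then `ψ` extends to the
field of fractions. -/
theorem extend {A K L : Type} [CommRing A] [Algebra ℂ A] [Field K] [Algebra ℂ K] [Field L]
    [Algebra ℂ L] (φ : A →ₐ[ℂ] K) (ψ : A →ₐ[ℂ] L) (h : ∀ p, φ p = 0 ↔ ψ p = 0)
    (hfrac : ∀ a : K, ∃ p s : A, φ s ≠ 0 ∧ a * φ s = φ p) :
    ∃ ι : K →ₐ[ℂ] L, ∀ p, ι (φ p) = ψ p := by
  let I : Ideal A := RingHom.ker φ.toRingHom
  let a : A ⧸ I →+* K := Ideal.Quotient.lift I φ.toRingHom fun p hp => hp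
  let b : A ⧸ I →+* L := Ideal.Quotient.lift I ψ.toRingHom fun p hp => (h p).1 hp
  have ha : Function.Injective a := by
    rw [injective_iff_map_eq_zero]
    intro q hq
    obtain ⟨p, rfl⟩ := Ideal.Quotient.mk_surjective q
    rw [Ideal.Quotient.lift_mk] at hq
    exact Ideal.Quotient.eq_zero_iff_mem.2 hq
  have hb : Function.Injective b := by
    rw [injective_iff_map_eq_zero]
    intro q hq
    obtain ⟨p, rfl⟩ := Ideal.Quotient.mk_surjective q
    rw [Ideal.Quotient.lift_mk] at hq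
    exact Ideal.Quotient.eq_zero_iff_mem.2 ((h p).2 hq)
  let _ : Algebra (A ⧸ I) K := a.toAlgebra
  have _ : IsDomain (A ⧸ I) := ha.isDomain a
  have _ : IsFractionRing (A ⧸ I) K := by
    refine (isLocalization_iff _ _).2 ⟨fun s => ?_, fun z => ?_, fun {f g} hfg => ⟨1, ?_⟩⟩
    · refine isUnit_iff_ne_zero.2 fun hs => ?_
      exact nonZeroDivisors.coe_ne_zero s (ha (hs.trans (map_zero _).symm))
    · obtain ⟨p, s, hs, e⟩ := hfrac z
      refine ⟨(Ideal.Quotient.mk I p, ⟨Ideal.Quotient.mk I s,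
        mem_nonZeroDivisors_of_ne_zero fun h0 => hs ?_⟩), e⟩
      exact Ideal.Quotient.eq_zero_iff_mem.1 h0
    · rw [ha hfg]
  let Φ : K →+* L := IsFractionRing.lift (g := b) hb
  have hΦ : ∀ q, Φ (a q) = b q := fun q => IsFractionRing.lift_algebraMap hb q
  refine ⟨{ Φ with commutes' := fun c => ?_ }, fun p => ?_⟩
  · have h1 := hΦ (Ideal.Quotient.mk I (algebraMap ℂ A c))
    have h2 : a (Ideal.Quotient.mk I (algebraMap ℂ A c)) = algebraMap ℂ K c := φ.commutes c
    have h3 : b (Ideal.Quotient.mk I (algebraMap ℂ A c)) = algebraMap ℂ L c := ψ.commutes c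
    rw [h2, h3] at h1
    exact h1
  · exact hΦ (Ideal.Quotient.mk I p)

end EMB

open EMB in
/-- EMB. -/
theorem t_EMB : S_EMB := by
  classical
  intro n N r X f x w P Λ y hn hX hw hS hgen hfrac
  have hy : ∀ j, Λ.Ge 1 (y j) := by
    intro j
    have h1 : Λ.Ge (w j) (Λ.s ^ w j * Λ.emb (P.ξ j)) := by
      have := (ge_spow Λ (w j)).mul (ge_emb Λ (P.ξ j))
      rwa [add_zero] at this
    have h2 := (hS.lead j).mono (l := (w j : ℤ)) (by omega)
    have h3 := h2.add h1
    rw [sub_add_cancel] at h3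
    have h4 := hw j
    exact h3.mono (by exact_mod_cast h4)
  -- the kernel of the evaluation at `x`
  have h1 : ∀ p : MvPolynomial (Fin N) ℂ, aeval x p = 0 → aeval y p = 0 := by
    intro p hp
    obtain ⟨s, hs, hsp⟩ := (hX.eqn p).1 hp
    have h2 : Ideal.span (Set.range f) ≤ RingHom.ker (aeval y : MvPolynomial (Fin N) ℂ →ₐ[ℂ] Λ.L) := by
      rw [Ideal.span_le]
      rintro _ ⟨i, rfl⟩
      exact hS.zero i
    have h3 : aeval y (s * p) = 0 := h2 hsp
    rw [map_mul] at h3
    exact (mul_eq_zero.1 h3).resolve_left (aeval_ne_zero Λ y hy s hs)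
  -- the transcendence basis
  have hyi : AlgebraicIndependent ℂ fun k : Fin n => y (P.σ (Sum.inr k)) := by
    have h2 := indep Λ (fun k : Fin n => w (P.σ (Sum.inr k))) (fun k => P.ξ (P.σ (Sum.inr k))) P.ind
    have h3 : (fun k : Fin n => y (P.σ (Sum.inr k))) =
        fun k => Λ.s ^ w (P.σ (Sum.inr k)) * Λ.emb (P.ξ (P.σ (Sum.inr k))) := by
      funext k
      exact hS.free k
    rw [h3]
    exact h2
  have hren : ∀ {L : Type} [Field L] [Algebra ℂ L] (z : Fin N → L) (q : MvPolynomial (Fin n) ℂ),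
      aeval z (rename (fun k => P.σ (Sum.inr k)) q) =
        aeval (fun k : Fin n => z (P.σ (Sum.inr k))) q := by
    intro L _ _ z q
    rw [aeval_rename]
    rfl
  have hzi : AlgebraicIndependent ℂ fun k : Fin n => x (P.σ (Sum.inr k)) := by
    rw [algebraicIndependent_iff] at hyi ⊢
    intro q hq
    rw [← hren] at hq
    have h2 := h1 _ hq
    rw [hren] at h2
    exact hyi q h2
  have hbas := AlgebraicIndependent.isTranscendenceBasis_of_trdeg_le_of_finite hzi
    (by rw [X.trdeg]; simp)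
  have halg : Algebra.IsAlgebraic
      (Algebra.adjoin ℂ (Set.range fun k : Fin n => x (P.σ (Sum.inr k)))) X.K := hbas.isAlgebraic
  -- the kernel of the evaluation at `y`
  have h2 : ∀ p : MvPolynomial (Fin N) ℂ, aeval y p = 0 → aeval x p = 0 := by
    intro p hp
    by_contra ha
    obtain ⟨q, hq0, hq⟩ :=
      (halg.isAlgebraic (aeval x p : X.K)).exists_nonzero_coeff_and_aeval_eq_zero
      (mem_nonZeroDivisors_of_ne_zero ha)
    have hc : ∀ i, ∃ r : MvPolynomial (Fin n) ℂ,
        aeval (fun k : Fin n => x (P.σ (Sum.inr k))) r = (q.coeff i : X.K) := by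
      intro i
      have h3 := (Algebra.adjoin_range_eq_range_aeval ℂ
        fun k : Fin n => x (P.σ (Sum.inr k))).le (q.coeff i).2
      exact h3
    choose c hc using hc
    let p' : MvPolynomial (Fin N) ℂ := ∑ i ∈ Finset.range (q.natDegree + 1),
      rename (fun k => P.σ (Sum.inr k)) (c i) * p ^ i
    have h3 : aeval x p' = 0 := by
      simp only [p']
      rw [map_sum, ← hq, Polynomial.aeval_eq_sum_range]
      refine Finset.sum_congr rfl fun i _ => ?_
      rw [map_mul, map_pow, hren, hc]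
      rfl
    have h4 := h1 p' h3
    simp only [p'] at h4
    rw [map_sum, Finset.sum_range_succ', Finset.sum_eq_zero, zero_add] at h4
    · rw [map_mul, pow_zero, map_one, mul_one, hren] at h4
      have h5 := (algebraicIndependent_iff.1 hyi) _ h4
      apply hq0
      apply Subtype.ext
      rw [← hc 0, h5, map_zero]
      rfl
    · intro i _
      rw [map_mul, map_pow, hp, pow_succ, mul_zero, mul_zero]
  obtain ⟨ι, hι⟩ := extend (aeval x : MvPolynomial (Fin N) ℂ →ₐ[ℂ] X.K) (aeval y)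
    (fun p => ⟨h1 p, h2 p⟩) hfrac
  refine ⟨ι, fun j => ?_⟩
  have := hι (MvPolynomial.X j)
  rwa [aeval_X, aeval_X] at this

end NDQ
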