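import Pool.Agent.NDQ.St

/-!
# FIN: the minimal log discrepancy is one of the contributions
-/

set_option autoImplicit false

namespace NDQ

open MldGeo MldGap MldAcc MldQ MvPolynomial
open MldX (wdeg word initForm Nondegenerate InteriorPoint)

noncomputable section

theorem t_FIN : S_FIN := by
  intro hQGAL hQAT n X Y G π T' A hn hQ hG
  classical
  have : Finite G := hQ.finite
  have : Nonempty G := ⟨1⟩
  have hp : ∀ g : G, ∃ q ∈ A, Contrib π T' (g : X.K ≃ₐ[ℂ] X.K) q := fun g => hG g g.2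
  choose q hqA hq using hp
  obtain ⟨g0, hg0⟩ := Finite.exists_min q
  obtain ⟨-, hq2, hq3, -⟩ := hQGAL X Y G π hn hQ
  have hlow : ∀ v : DivVal n Y.K, Y.At v → q g0 ≤ T'.disc v := by
    intro v hv
    obtain ⟨w, e, ho⟩ := hq2 v
    have hw := (hQAT X Y G π hQ w v e ho).2 hv
    obtain ⟨g, hg, h1, h2⟩ := hq3 w v e ho
    exact (hg0 ⟨g, hg⟩).trans ((hq ⟨g, hg⟩).1 w v e hw ho h1 h2)
  have hbdd : BddBelow {a : ℝ | ∃ v, Y.At v ∧ T'.disc v = a} := by
    refine ⟨q g0, ?_⟩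
    rintro _ ⟨v, hv, rfl⟩
    exact hlow v hv
  have heq : T'.mld = q g0 := by
    refine le_antisymm ?_ ?_
    · refine le_of_forall_pos_lt_add fun ε hε => ?_
      obtain ⟨v, hv, hva⟩ := (hq g0).2 ε hε
      exact (csInf_le hbdd ⟨v, hv, rfl⟩).trans_lt hva
    · refine le_csInf ?_ ?_
      · obtain ⟨v, hv, -⟩ := (hq g0).2 1 one_pos
        exact ⟨_, v, hv, rfl⟩
      · rintro _ ⟨v, hv, rfl⟩
        exact hlow v hv
  rw [heq]
  exact hqA g0

end

end NDQ
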