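import Pool.Agent.NDQ.St
import Pool.Agent.MldGeo.Ord

/-!
# GPT: a zero in the torus at which the gradients are independent gives a generic zero
-/

set_option autoImplicit false

namespace NDQ

open MldGeo MldGap MldAcc MldQ MvPolynomial
open MldX (wdeg word initForm Nondegenerate InteriorPoint)
open MldGeo.DivVal

noncomputable section

namespace GPT

/-! ### a criterion for algebraic independence -/

/-- the chain rule for one derivation -/
theorem chain {n : ℕ} {L : Type} [Field L] [Algebra ℂ L] (c : Fin n → L) (t : L) (k : Fin n)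
    (D : Derivation ℂ L L) (h1 : D (c k) = t) (h0 : ∀ l, l ≠ k → D (c l) = 0)
    (P : MvPolynomial (Fin n) ℂ) : D (aeval c P) = aeval c (pderiv k P) * t := by
  induction P using MvPolynomial.induction_on with
  | C a =>
    rw [MvPolynomial.algHom_C, Derivation.map_algebraMap, pderiv_C, map_zero, zero_mul]
  | add p q hp hq => rw [map_add, map_add, hp, hq, map_add, map_add, add_mul]
  | mul_X p l hp =>
    rw [map_mul, Derivation.leibniz, hp, aeval_X, pderiv_mul, map_add, map_mul, map_mul, aeval_X]
    by_cases hl : l = k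
    · subst hl
      rw [h1, pderiv_X_self, map_one]
      simp only [smul_eq_mul]
      ring
    · rw [h0 l hl, pderiv_X_of_ne hl, map_zero]
      simp only [smul_eq_mul]
      ring

theorem indep {n : ℕ} {L : Type} [Field L] [Algebra ℂ L] (c : Fin n → L) (t : L) (ht : t ≠ 0)
    (D : Fin n → Derivation ℂ L L) (h1 : ∀ k, D k (c k) = t)
    (h0 : ∀ k l, l ≠ k → D k (c l) = 0) : AlgebraicIndependent ℂ c := by
  have key : ∀ (d : ℕ) (P : MvPolynomial (Fin n) ℂ), (∀ u ∈ P.support, ∑ k, u k ≤ d) →
      aeval c P = 0 → P = 0 := by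
    intro d
    induction d with
    | zero =>
      intro P hP h
      have hc : P = C (coeff 0 P) := by
        ext u
        rw [coeff_C]
        by_cases hu : (0 : Fin n →₀ ℕ) = u
        · rw [if_pos hu, hu]
        · rw [if_neg hu]
          by_contra hne
          have hs := hP u (mem_support_iff.2 hne)
          apply hu
          ext k
          have h2 : ∑ k, u k = 0 := by omega
          have h3 := (Finset.sum_eq_zero_iff.1 h2) k (Finset.mem_univ k)
          simpa using h3.symm
      rw [hc, MvPolynomial.algHom_C] at h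
      have h5 : coeff 0 P = 0 := (map_eq_zero _).1 h
      rw [hc, h5, map_zero]
    | succ d ih =>
      intro P hP h
      have hpd : ∀ k, pderiv k P = 0 := by
        intro k
        apply ih
        · intro u hu
          rw [mem_support_iff, coeff_pderiv] at hu
          have h2 : coeff (u + Finsupp.single k 1) P ≠ 0 := left_ne_zero_of_mul hu
          have h3 := hP _ (mem_support_iff.2 h2)
          have h4 : ∑ l, (u + Finsupp.single k 1 : Fin n →₀ ℕ) l = ∑ l, u l + 1 := by
            simp [Finsupp.add_apply, Finset.sum_add_distrib, Finsupp.single_apply]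
          rw [h4] at h3
          omega
        · have h2 := chain c t k (D k) (h1 k) (h0 k) P
          rw [h, map_zero] at h2
          rcases mul_eq_zero.1 h2.symm with h3 | h3
          · exact h3
          · exact absurd h3 ht
      apply ih P _ h
      intro u hu
      by_contra hlt
      have hpos : ∃ k, u k ≠ 0 := by
        by_contra hall
        push Not at hall
        apply hlt
        simp [hall]
      obtain ⟨k, hk⟩ := hpos
      have h2 : coeff (u - Finsupp.single k 1) (pderiv k P) = 0 := by rw [hpd k, coeff_zero]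
      have h3 : u - Finsupp.single k 1 + Finsupp.single k 1 = u :=
        tsub_add_cancel_of_le (by
          rw [Finsupp.single_le_iff]
          omega)
      rw [coeff_pderiv, h3] at h2
      rcases mul_eq_zero.1 h2 with h4 | h4
      · exact (mem_support_iff.1 hu) h4
      · have h5 : (((u - Finsupp.single k 1 : Fin n →₀ ℕ) k : ℕ) : ℂ) + 1 ≠ 0 := Nat.cast_add_one_ne_zero _
        exact h5 h4
  rw [algebraicIndependent_iff]
  intro P hP
  exact key (∑ u ∈ P.support, ∑ k, u k) P
    (fun u hu => Finset.single_le_sum (f := fun u : Fin n →₀ ℕ => ∑ k, u k)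
      (fun _ _ => Nat.zero_le _) hu) hP

/-! ### congruences -/

variable {n : ℕ} {K : Type} [Field K] [Algebra ℂ K] {v : DivVal n K}

theorem aeval_sub {σ : Type*} {u u' : σ → K} (h : ∀ i, v.Ge 0 (u i)) (h' : ∀ i, v.Ge 0 (u' i))
    (hs : ∀ i, v.Ge 1 (u i - u' i)) (p : MvPolynomial σ ℂ) :
    v.Ge 1 (aeval u p - aeval u' p) := by
  induction p using MvPolynomial.induction_on with
  | C a =>
    rw [MvPolynomial.algHom_C, MvPolynomial.algHom_C, sub_self]
    exact Ge.zero v 1
  | add p q hp hq =>
    rw [map_add, map_add, add_sub_add_comm]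
    exact hp.add hq
  | mul_X p i hp =>
    rw [map_mul, map_mul, aeval_X, aeval_X]
    have h1 : aeval u p * u i - aeval u' p * u' i =
        aeval u p * (u i - u' i) + (aeval u p - aeval u' p) * u' i := by ring
    rw [h1]
    exact ((Ge.aeval h p).mul_left (hs i)).add (hp.mul_right (h' i))

theorem const_not (c : ℂ) (hc : c ≠ 0) : ¬ v.Ge 1 (algebraMap ℂ K c) := by
  intro h
  have h1 : algebraMap ℂ K c ≠ 0 := fun h0 => hc ((map_eq_zero _).1 h0)
  have h2 := h.le h1
  rw [v.ord_const] at h2
  omega

theorem not_of_sub {a b : K} (h : v.Ge 1 (a - b)) (hb : ¬ v.Ge 1 b) : ¬ v.Ge 1 a := by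
  intro ha
  apply hb
  have h1 := ha.sub h
  simpa using h1

/-- polynomials with coefficients of order at least zero -/
theorem coeff_ge {σ τ : Type*} (Y : τ → MvPolynomial σ K) (hY : ∀ j u, v.Ge 0 (coeff u (Y j)))
    (p : MvPolynomial τ ℂ) : ∀ u, v.Ge 0 (coeff u (aeval Y p)) := by
  classical
  induction p using MvPolynomial.induction_on with
  | C a =>
    intro u
    rw [MvPolynomial.algHom_C, MvPolynomial.algebraMap_apply, coeff_C]
    split_ifs
    · exact Ge.const v a
    · exact Ge.zero v 0
  | add p q hp hq =>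
    intro u
    rw [map_add, coeff_add]
    exact (hp u).add (hq u)
  | mul_X p i hp =>
    intro u
    rw [map_mul, aeval_X, coeff_mul]
    refine Ge.sum _ _ fun x _ => ?_
    exact (hp x.1).mul_left (hY i x.2)

end GPT

open GPT in
theorem t_GPT : S_GPT := by
  intro hLAU hRATF hIND hHEN n N r g z hN hz hg hli
  obtain ⟨σ, hσ⟩ := hIND (n := n) (fun (i : Fin r) (j : Fin N) => eval z (pderiv j (g i))) hN hli
  obtain ⟨F, fF, aF, α, d, -, hd⟩ := hRATF (Fin n)
  obtain ⟨Λ⟩ := hLAU F
  -- the free coordinates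
  let c : Fin n → Λ.L := fun k => algebraMap ℂ Λ.L (z (σ (Sum.inr k))) + Λ.emb (α k) * Λ.s
  have hs1 : Λ.Ge 1 Λ.s := Or.inr (by exact Λ.ord_s.ge)
  have hemb : ∀ a : F, Λ.Ge 0 (Λ.emb a) := by
    intro a
    by_cases ha : a = 0
    · rw [ha, map_zero]
      exact Ge.zero _ _
    · exact Or.inr (Λ.ord_emb a ha).ge
  have hc1 : ∀ k, Λ.Ge 1 (c k - algebraMap ℂ Λ.L (z (σ (Sum.inr k)))) := by
    intro k
    have h1 : c k - algebraMap ℂ Λ.L (z (σ (Sum.inr k))) = Λ.emb (α k) * Λ.s := by
      simp only [c]
      ring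
    rw [h1]
    exact (hemb _).mul_left hs1
  have hc0 : ∀ k, Λ.Ge 0 (c k) := by
    intro k
    exact (Ge.const _ _).add ((hemb _).mul_left (hs1.mono (by norm_num)))
  -- the coordinates as polynomials in the first ones
  let Y : Fin N → MvPolynomial (Fin r) Λ.L := fun j =>
    Sum.elim (fun k : Fin r => (X k : MvPolynomial (Fin r) Λ.L)) (fun k => C (c k)) (σ.symm j)
  let η : (Fin r → Λ.L) → Fin N → Λ.L := fun y j => Sum.elim y c (σ.symm j)
  have hYη : ∀ (y : Fin r → Λ.L) (p : MvPolynomial (Fin N) ℂ),
      eval y (aeval Y p) = aeval (η y) p := by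
    intro y p
    induction p using MvPolynomial.induction_on with
    | C a =>
      rw [MvPolynomial.algHom_C, MvPolynomial.algebraMap_apply, eval_C, MvPolynomial.algHom_C]
    | add p q hp hq => rw [map_add, map_add, hp, hq, map_add]
    | mul_X p i hp =>
      rw [map_mul, map_mul, hp, map_mul, aeval_X, aeval_X]
      congr 1
      simp only [Y, η]
      rcases σ.symm i with k | k <;> simp
  have hYd : ∀ (j : Fin r) (p : MvPolynomial (Fin N) ℂ),
      pderiv j (aeval Y p) = aeval Y (pderiv (σ (Sum.inl j)) p) := by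
    intro j p
    induction p using MvPolynomial.induction_on with
    | C a =>
      rw [MvPolynomial.algHom_C, MvPolynomial.algebraMap_apply, pderiv_C, pderiv_C, map_zero]
    | add p q hp hq => rw [map_add, map_add, hp, hq, map_add, map_add]
    | mul_X p i hp =>
      rw [map_mul, pderiv_mul, hp, pderiv_mul, map_add, map_mul, map_mul, aeval_X]
      congr 2
      obtain ⟨t, rfl⟩ := σ.surjective i
      simp only [Y, Equiv.symm_apply_apply]
      rcases t with k | k
      · simp only [Sum.elim_inl]
        by_cases hk : k = j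
        · subst hk
          rw [pderiv_X_self, pderiv_X_self, map_one]
        · rw [pderiv_X_of_ne hk, pderiv_X_of_ne (fun h => hk (by simpa using h)), map_zero]
      · simp only [Sum.elim_inr]
        rw [pderiv_C, pderiv_X_of_ne (fun h => by simp at h), map_zero]
  have hηz : ∀ (y : Fin r → Λ.L), (∀ k, Λ.Ge 1 (y k - algebraMap ℂ Λ.L (z (σ (Sum.inl k))))) →
      ∀ j, Λ.Ge 1 (η y j - algebraMap ℂ Λ.L (z j)) := by
    intro y hy j
    obtain ⟨t, rfl⟩ := σ.surjective j
    simp only [η, Equiv.symm_apply_apply]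
    rcases t with k | k
    · exact hy k
    · exact hc1 k
  have hη0 : ∀ (y : Fin r → Λ.L), (∀ k, Λ.Ge 1 (y k - algebraMap ℂ Λ.L (z (σ (Sum.inl k))))) →
      ∀ j, Λ.Ge 0 (η y j) := by
    intro y hy j
    have h1 : η y j = (η y j - algebraMap ℂ Λ.L (z j)) + algebraMap ℂ Λ.L (z j) := by ring
    rw [h1]
    exact ((hηz y hy j).mono (by norm_num)).add (Ge.const _ _)
  have hcong : ∀ (y : Fin r → Λ.L), (∀ k, Λ.Ge 1 (y k - algebraMap ℂ Λ.L (z (σ (Sum.inl k))))) →
      ∀ p : MvPolynomial (Fin N) ℂ, Λ.Ge 1 (aeval (η y) p - algebraMap ℂ Λ.L (eval z p)) := by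
    intro y hy p
    have h1 := aeval_sub (v := Λ.val) (u := η y) (u' := fun j => algebraMap ℂ Λ.L (z j))
      (hη0 y hy) (fun j => Ge.const _ _) (hηz y hy) p
    have h2 : aeval (fun j => algebraMap ℂ Λ.L (z j)) p = algebraMap ℂ Λ.L (eval z p) := by
      have h3 := MvPolynomial.aeval_algebraMap_apply Λ.L z p
      rw [← MvPolynomial.coe_aeval_eq_eval]
      exact h3
    rwa [h2] at h1
  have hdet : ∀ (y : Fin r → Λ.L), (∀ k, Λ.Ge 1 (y k - algebraMap ℂ Λ.L (z (σ (Sum.inl k))))) →
      ¬ Λ.Ge 1 (Matrix.det (Matrix.of fun i j : Fin r =>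
        aeval (η y) (pderiv (σ (Sum.inl j)) (g i)))) := by
    intro y hy
    have h1 : Λ.Ge 1 ((Matrix.of fun i j : Fin r =>
        aeval (η y) (pderiv (σ (Sum.inl j)) (g i))).det -
        (Matrix.of fun i j : Fin r =>
          algebraMap ℂ Λ.L (eval z (pderiv (σ (Sum.inl j)) (g i)))).det) := by
      refine Ge.det_sub (fun i j => ?_) (fun i j => ?_) (fun i j => ?_)
      · exact Ge.aeval (hη0 y hy) _
      · exact Ge.const _ _
      · exact hcong y hy _
    refine not_of_sub h1 ?_
    have h2 : (Matrix.of fun i j : Fin r =>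
        algebraMap ℂ Λ.L (eval z (pderiv (σ (Sum.inl j)) (g i)))) =
        (algebraMap ℂ Λ.L).mapMatrix (Matrix.of fun i j : Fin r =>
          eval z (pderiv (σ (Sum.inl j)) (g i))) := by
      ext i j
      simp
    rw [h2, ← RingHom.map_det]
    exact const_not _ hσ
  have hemz : ∀ k : Fin r, Λ.emb (algebraMap ℂ F (z (σ (Sum.inl k)))) =
      algebraMap ℂ Λ.L (z (σ (Sum.inl k))) := fun k => Λ.emb.commutes _
  have hy0 : ∀ k : Fin r, Λ.Ge 1 (Λ.emb (algebraMap ℂ F (z (σ (Sum.inl k)))) -
      algebraMap ℂ Λ.L (z (σ (Sum.inl k)))) := by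
    intro k
    rw [hemz, sub_self]
    exact Ge.zero _ _
  obtain ⟨⟨y, hy1, hy2⟩, -⟩ := hHEN Λ (fun i => aeval Y (g i))
    (fun k => algebraMap ℂ F (z (σ (Sum.inl k))))
    (fun i u => coeff_ge (v := Λ.val) Y (fun j u => by
      classical
      simp only [Y]
      rcases σ.symm j with k | k
      · simp only [Sum.elim_inl]
        rw [coeff_X]
        split_ifs
        · exact Ge.one _
        · exact Ge.zero _ _
      · simp only [Sum.elim_inr]
        rw [coeff_C]
        split_ifs
        · exact hc0 k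
        · exact Ge.zero _ _) (g i) u)
    (fun i => by
      have h1 := hcong (fun k => Λ.emb (algebraMap ℂ F (z (σ (Sum.inl k))))) hy0 (g i)
      rw [hg i, map_zero, sub_zero] at h1
      rw [hYη]
      exact h1)
    (by
      have h1 := hdet (fun k => Λ.emb (algebraMap ℂ F (z (σ (Sum.inl k))))) hy0
      have h2 : (Matrix.of fun i j : Fin r =>
          eval (fun j => Λ.emb (algebraMap ℂ F (z (σ (Sum.inl j))))) (pderiv j (aeval Y (g i)))) =
          Matrix.of fun i j : Fin r =>
            aeval (η fun k => Λ.emb (algebraMap ℂ F (z (σ (Sum.inl k)))))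
              (pderiv (σ (Sum.inl j)) (g i)) := by
        ext i j
        simp only [Matrix.of_apply]
        rw [hYd, hYη]
      rw [h2]
      exact h1)
  have hyz : ∀ k, Λ.Ge 1 (y k - algebraMap ℂ Λ.L (z (σ (Sum.inl k)))) := by
    intro k
    have h1 := hy1 k
    rwa [hemz] at h1
  have hξr : ∀ k, η y (σ (Sum.inr k)) = c k := by
    intro k
    simp only [η, Equiv.symm_apply_apply, Sum.elim_inr]
  have hDc : ∀ k l, Λ.D (d k) (c l) = if k = l then Λ.s else 0 := by
    intro k l
    simp only [c]
    rw [map_add, Derivation.map_algebraMap, Derivation.leibniz, Λ.D_s, Λ.D_emb, hd, smul_zero,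
      zero_add, zero_add]
    by_cases h : k = l
    · rw [if_pos h, if_pos h, map_one]
      simp
    · rw [if_neg h, if_neg h, map_zero, smul_zero]
  refine ⟨{ κ := Λ.L, fieldκ := Λ.fieldL, algκ := Λ.algL, ξ := η y, σ := σ,
            D := fun k => Λ.D (d k), ne := ?_, zero := ?_, minor := ?_, ind := ?_, D_ne := ?_,
            D_zero := ?_ }⟩
  · intro j h
    have h1 := hηz y hyz j
    rw [h, zero_sub] at h1
    exact const_not (v := Λ.val) (z j) (hz j) (ge_neg_iff.1 h1)
  · intro i
    rw [← hYη]
    exact hy2 i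
  · intro h
    apply hdet y hyz
    have h1 : Matrix.det (Matrix.of fun i j : Fin r =>
        aeval (η y) (pderiv (σ (Sum.inl j)) (g i))) = 0 := h
    rw [h1]
    exact Ge.zero _ _
  · have h1 : (fun k : Fin n => η y (σ (Sum.inr k))) = c := funext hξr
    rw [h1]
    exact indep c Λ.s Λ.s_ne (fun k => Λ.D (d k)) (fun k => by rw [hDc, if_pos rfl])
      (fun k l hl => by rw [hDc, if_neg fun h => hl h.symm])
  · intro k
    show Λ.D (d k) (η y (σ (Sum.inr k))) ≠ 0
    rw [hξr, hDc, if_pos rfl]
    exact Λ.s_ne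
  · intro k l hl
    show Λ.D (d k) (η y (σ (Sum.inr l))) = 0
    rw [hξr, hDc, if_neg fun h => hl h.symm]

end

end NDQ
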