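import Pool.Agent.NDQ.St
import Pool.Agent.MldGeo.Ord

/-!
# HEN: Hensel's lemma for systems of polynomial equations over the field of Laurent series
-/

set_option autoImplicit false

namespace NDQ

open MldGeo MldGap MldAcc MldQ MvPolynomial
open MldX (wdeg word initForm Nondegenerate InteriorPoint)

namespace HEN

open DivVal

variable {n r : ℕ} {K : Type} [Field K] [Algebra ℂ K] {v : DivVal n K}

/-- the coefficients have nonnegative orders -/
def Itg (v : DivVal n K) (p : MvPolynomial (Fin r) K) : Prop := ∀ u, v.Ge 0 (coeff u p)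

theorem exists_map {p : MvPolynomial (Fin r) K} (hp : Itg v p) :
    ∃ q : MvPolynomial (Fin r) v.OV, map (algebraMap v.OV K) q = p := by
  classical
  refine ⟨∑ u ∈ p.support, monomial u (⟨coeff u p, hp u⟩ : v.OV), ?_⟩
  rw [map_sum]
  conv_rhs => rw [p.as_sum]
  refine Finset.sum_congr rfl fun u _ => ?_
  rw [map_monomial]
  rfl

theorem itg_map (q : MvPolynomial (Fin r) v.OV) : Itg v (map (algebraMap v.OV K) q) := by
  intro u
  rw [coeff_map]
  exact (coeff u q).2

theorem itg_pderiv {p : MvPolynomial (Fin r) K} (hp : Itg v p) (j : Fin r) :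
    Itg v (pderiv j p) := by
  obtain ⟨q, rfl⟩ := exists_map hp
  rw [pderiv_map]
  exact itg_map _

theorem itg_ind {P : MvPolynomial (Fin r) K → Prop} (hC : ∀ c, v.Ge 0 c → P (C c))
    (hadd : ∀ p q, P p → P q → P (p + q)) (hX : ∀ p j, P p → P (p * X j))
    {p : MvPolynomial (Fin r) K} (hp : Itg v p) : P p := by
  obtain ⟨q, rfl⟩ := exists_map hp
  clear hp
  induction q using MvPolynomial.induction_on with
  | C c => rw [map_C]; exact hC _ c.2
  | add p q hp hq => rw [map_add]; exact hadd _ _ hp hq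
  | mul_X p i hp => rw [map_mul, map_X]; exact hX _ _ hp

theorem eval_ge {y : Fin r → K} (hy : ∀ j, v.Ge 0 (y j)) {p : MvPolynomial (Fin r) K}
    (hp : Itg v p) : v.Ge 0 (eval y p) := by
  refine itg_ind (v := v) (P := fun p => v.Ge 0 (eval y p)) ?_ ?_ ?_ hp
  · intro c hc
    rwa [eval_C]
  · intro p q hp hq
    rw [map_add]
    exact hp.add hq
  · intro p j hp
    rw [map_mul, eval_X]
    exact hp.mul_left (hy j)

theorem eval_congr {y y' : Fin r → K} {k : ℤ} (hk : 0 ≤ k) (hy : ∀ j, v.Ge 0 (y j))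
    (hyy : ∀ j, v.Ge k (y' j - y j)) {p : MvPolynomial (Fin r) K} (hp : Itg v p) :
    v.Ge k (eval y' p - eval y p) := by
  have h : v.Ge 0 (eval y p) ∧ v.Ge k (eval y' p - eval y p) := by
    refine itg_ind (v := v)
      (P := fun p => v.Ge 0 (eval y p) ∧ v.Ge k (eval y' p - eval y p)) ?_ ?_ ?_ hp
    · intro c hc
      rw [eval_C, eval_C, sub_self]
      exact ⟨hc, Ge.zero v k⟩
    · rintro p q ⟨hp1, hp2⟩ ⟨hq1, hq2⟩
      rw [map_add, map_add]
      refine ⟨hp1.add hq1, ?_⟩
      have := hp2.add hq2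
      convert this using 1
      ring
    · rintro p j ⟨hp1, hp2⟩
      rw [map_mul, map_mul, eval_X, eval_X]
      refine ⟨hp1.mul_left (hy j), ?_⟩
      have h0 : v.Ge 0 (y' j) := by
        have := ((hyy j).mono hk).add (hy j)
        rwa [sub_add_cancel] at this
      have := (hp2.mul_right h0).add (hp1.mul_left (hyy j))
      convert this using 1
      ring
  exact h.2

omit [Algebra ℂ K] in
theorem eval_pderiv_mul_X (y : Fin r → K) (p : MvPolynomial (Fin r) K) (j k : Fin r) :
    eval y (pderiv j (p * X k)) =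
      eval y (pderiv j p) * y k + eval y p * (if j = k then 1 else 0) := by
  rw [pderiv_mul, map_add, map_mul, map_mul, eval_X]
  by_cases h : j = k
  · subst h
    rw [pderiv_X_self, if_pos rfl, map_one]
  · rw [pderiv_X_of_ne (Ne.symm h), if_neg h, map_zero]

/-- Taylor's formula -/
theorem taylor {y h : Fin r → K} {m : ℤ} (hm : 0 ≤ m) (hy : ∀ j, v.Ge 0 (y j))
    (hh : ∀ j, v.Ge m (h j)) {p : MvPolynomial (Fin r) K} (hp : Itg v p) :
    v.Ge (2 * m) (eval (fun j => y j + h j) p - eval y p -
      ∑ j, h j * eval y (pderiv j p)) := by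
  have key : v.Ge m (∑ j, h j * eval y (pderiv j p)) ∧
      v.Ge (2 * m) (eval (fun j => y j + h j) p - eval y p -
      ∑ j, h j * eval y (pderiv j p)) ∧ v.Ge 0 (eval y p) := by
    refine itg_ind (v := v) (P := fun p => v.Ge m (∑ j, h j * eval y (pderiv j p)) ∧
      v.Ge (2 * m) (eval (fun j => y j + h j) p - eval y p -
      ∑ j, h j * eval y (pderiv j p)) ∧ v.Ge 0 (eval y p)) ?_ ?_ ?_ hp
    · intro c hc
      simp only [pderiv_C, map_zero, mul_zero, Finset.sum_const_zero, eval_C, sub_self]
      exact ⟨Ge.zero v _, Ge.zero v _, hc⟩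
    · rintro p q ⟨hp1, hp2, hp3⟩ ⟨hq1, hq2, hq3⟩
      simp only [map_add, mul_add, Finset.sum_add_distrib]
      refine ⟨hp1.add hq1, ?_, hp3.add hq3⟩
      have := hp2.add hq2
      convert this using 1
      ring
    · rintro p k ⟨hp1, hp2, hp3⟩
      have hs : ∑ j, h j * eval y (pderiv j (p * X k)) =
          (∑ j, h j * eval y (pderiv j p)) * y k + eval y p * h k := by
        have h1 : ∀ j, h j * eval y (pderiv j (p * X k)) =
            h j * eval y (pderiv j p) * y k + (if j = k then eval y p * h k else 0) := by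
          intro j
          rw [eval_pderiv_mul_X]
          by_cases hj : j = k
          · subst hj
            rw [if_pos rfl, if_pos rfl]
            ring
          · rw [if_neg hj, if_neg hj]
            ring
        rw [Finset.sum_congr rfl fun j _ => h1 j, Finset.sum_add_distrib, Finset.sum_ite_eq'
          Finset.univ k, if_pos (Finset.mem_univ k), Finset.sum_mul]
      rw [hs]
      simp only [map_mul, eval_X]
      refine ⟨(hp1.mul_right (hy k)).add (hp3.mul_left (hh k)), ?_, hp3.mul_left (hy k)⟩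
      have h1 : v.Ge (2 * m) ((∑ j, h j * eval y (pderiv j p)) * h k) := by
        have := hp1.mul (hh k)
        rwa [← two_mul] at this
      have h2 : v.Ge 0 (y k + h k) := (hy k).add ((hh k).mono hm)
      have := h1.add (hp2.mul_right h2)
      convert this using 1
      ring
  exact key.2.1

/-- the inverse of a matrix with an invertible determinant -/
theorem inv_ge {M : Matrix (Fin r) (Fin r) K} (hM : ∀ i j, v.Ge 0 (M i j))
    (hd : ¬ v.Ge 1 M.det) : M.det ≠ 0 ∧ ∀ i j, v.Ge 0 (M⁻¹ i j) := by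
  have h0 : M.det ≠ 0 := fun h => hd (Or.inl h)
  have h1 : v.Ge 0 M.det := Ge.det hM
  have h2 : v.ord M.det = 0 := by
    have h3 := h1.le h0
    have h4 : ¬ 1 ≤ v.ord M.det := fun h => hd (Or.inr h)
    omega
  refine ⟨h0, fun i j => ?_⟩
  rw [Matrix.inv_def, Ring.inverse_eq_inv', Matrix.smul_apply, smul_eq_mul]
  refine (Ge.inv h0 h2).mul_left ?_
  rw [Matrix.adjugate_apply]
  refine Ge.det fun a b => ?_
  rw [Matrix.updateRow_apply]
  split_ifs with h
  · rw [Pi.single_apply]
    split_ifs
    · exact Ge.one v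
    · exact Ge.zero v 0
  · exact hM a b

theorem mulVec_ge {M : Matrix (Fin r) (Fin r) K} (hM : ∀ i j, v.Ge 0 (M i j)) {k : ℤ}
    {u : Fin r → K} (hu : ∀ i, v.Ge k (u i)) (i : Fin r) : v.Ge k (M.mulVec u i) := by
  rw [Matrix.mulVec, dotProduct]
  exact Ge.sum _ _ fun j _ => (hM i j).mul_left (hu j)

/-- the Jacobian matrix -/
noncomputable def jac (G : Fin r → MvPolynomial (Fin r) K) (y : Fin r → K) : Matrix (Fin r) (Fin r) K :=
  Matrix.of fun i j => eval y (pderiv j (G i))

/-- the step of the iteration -/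
noncomputable def step (G : Fin r → MvPolynomial (Fin r) K) (y : Fin r → K) : Fin r → K :=
  fun j => y j + (- ((jac G y)⁻¹.mulVec fun i => eval y (G i)) j)

section

variable {G : Fin r → MvPolynomial (Fin r) K} (hG : ∀ i, Itg v (G i)) {b : Fin r → K}
  (hb : ∀ j, v.Ge 0 (b j)) (hd : ¬ v.Ge 1 (jac G b).det)

include hb in
theorem ge_zero {y : Fin r → K} (hy : ∀ j, v.Ge 1 (y j - b j)) (j : Fin r) : v.Ge 0 (y j) := by
  have := ((hy j).mono zero_le_one).add (hb j)
  rwa [sub_add_cancel] at this

include hG in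
theorem jac_ge {y : Fin r → K} (hy : ∀ j, v.Ge 0 (y j)) (i j : Fin r) :
    v.Ge 0 (jac G y i j) := eval_ge hy (itg_pderiv (hG i) j)

include hG hb hd in
theorem jac_det {y : Fin r → K} (hy : ∀ j, v.Ge 1 (y j - b j)) : ¬ v.Ge 1 (jac G y).det := by
  intro h
  have h1 : v.Ge 1 ((jac G y).det - (jac G b).det) :=
    Ge.det_sub (jac_ge hG (ge_zero hb hy)) (jac_ge hG hb) fun i j =>
      eval_congr zero_le_one hb hy (itg_pderiv (hG i) j)
  refine hd ?_
  have := h.sub h1
  rwa [sub_sub_cancel] at this

include hG hb hd in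
/-- the linear part of Taylor's formula -/
theorem solve {y h : Fin r → K} {m : ℤ} (hy : ∀ j, v.Ge 1 (y j - b j))
    (hh : ∀ i, v.Ge m ((jac G y).mulVec h i)) (j : Fin r) : v.Ge m (h j) := by
  obtain ⟨h0, h1⟩ := inv_ge (jac_ge hG (ge_zero hb hy)) (jac_det hG hb hd hy)
  have h2 := mulVec_ge h1 hh j
  rwa [Matrix.mulVec_mulVec, Matrix.nonsing_inv_mul _ (isUnit_iff_ne_zero.2 h0),
    Matrix.one_mulVec] at h2

include hG hb hd in
theorem step_spec {y : Fin r → K} {k : ℤ} (hk : 1 ≤ k) (hy : ∀ j, v.Ge 1 (y j - b j))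
    (hz : ∀ i, v.Ge k (eval y (G i))) :
    (∀ j, v.Ge k (step G y j - y j)) ∧ (∀ j, v.Ge 1 (step G y j - b j)) ∧
      ∀ i, v.Ge (k + 1) (eval (step G y) (G i)) := by
  have hy0 := ge_zero hb hy
  obtain ⟨h0, h1⟩ := inv_ge (jac_ge hG hy0) (jac_det hG hb hd hy)
  set h : Fin r → K := fun j => - ((jac G y)⁻¹.mulVec fun i => eval y (G i)) j with hh
  have hhk : ∀ j, v.Ge k (h j) := fun j => (mulVec_ge h1 hz j).neg
  have hst : step G y = fun j => y j + h j := rfl
  refine ⟨?_, ?_, ?_⟩
  · intro j
    rw [hst]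
    simpa using hhk j
  · intro j
    rw [hst]
    have := (hy j).add ((hhk j).mono hk)
    convert this using 1
    ring
  · intro i
    rw [hst]
    have h2 := taylor (by omega : (0 : ℤ) ≤ k) hy0 hhk (hG i)
    have h3 : ∑ j, h j * eval y (pderiv j (G i)) = - eval y (G i) := by
      have h4 : (jac G y).mulVec h = fun i => - eval y (G i) := by
        have h5 : h = - ((jac G y)⁻¹.mulVec fun i => eval y (G i)) := rfl
        rw [h5, Matrix.mulVec_neg, Matrix.mulVec_mulVec,
          Matrix.mul_nonsing_inv _ (isUnit_iff_ne_zero.2 h0), Matrix.one_mulVec]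
        rfl
      have h6 := congrFun h4 i
      rw [Matrix.mulVec, dotProduct] at h6
      rw [← h6]
      refine Finset.sum_congr rfl fun j _ => ?_
      rw [mul_comm]
      rfl
    rw [h3] at h2
    refine Ge.mono ?_ (by omega : k + 1 ≤ 2 * k)
    convert h2 using 1
    ring

include hG hb hd in
theorem unique {y y' : Fin r → K} (hy : ∀ j, v.Ge 1 (y j - b j)) (hz : ∀ i, eval y (G i) = 0)
    (hy' : ∀ j, v.Ge 1 (y' j - b j)) (hz' : ∀ i, eval y' (G i) = 0) : y = y' := by
  have hy0 := ge_zero hb hy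
  have key : ∀ k : ℕ, ∀ j, v.Ge (k + 1) (y' j - y j) := by
    intro k
    induction k with
    | zero =>
      intro j
      have := (hy' j).sub (hy j)
      rw [Nat.cast_zero, zero_add]
      convert this using 1
      ring
    | succ k ih =>
      have h1 : ∀ i, v.Ge ((k + 1 : ℕ) + 1 : ℤ)
          ((jac G y).mulVec (fun j => y' j - y j) i) := by
        intro i
        have h2 := taylor (by omega : (0 : ℤ) ≤ k + 1) hy0 ih (hG i)
        have h3 : (fun j => y j + (y' j - y j)) = y' := by
          funext j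
          ring
        rw [h3, hz, hz', sub_zero, zero_sub] at h2
        refine Ge.mono ?_ (by push_cast; omega : ((k + 1 : ℕ) + 1 : ℤ) ≤ 2 * (k + 1))
        have h4 := h2.neg
        rw [neg_neg] at h4
        rw [Matrix.mulVec, dotProduct]
        convert h4 using 1
        refine Finset.sum_congr rfl fun j _ => ?_
        rw [mul_comm]
        rfl
      intro j
      exact solve hG hb hd hy h1 j
  funext j
  have h5 : y' j - y j = 0 := by
    refine eq_zero_of_ge (v := v) fun k => ?_
    exact (key k.toNat j).mono (by have := Int.self_le_toNat k; omega)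
  rw [sub_eq_zero] at h5
  exact h5.symm

end

end HEN

open HEN DivVal in
theorem t_HEN : S_HEN := by
  intro F _ _ Λ r G a hG h0 hd
  have hG' : ∀ i, Itg Λ.val (G i) := fun i u => hG i u
  set b : Fin r → Λ.L := fun j => Λ.emb (a j) with hbdef
  have hb : ∀ j, Λ.val.Ge 0 (b j) := by
    intro j
    by_cases h : a j = 0
    · exact Or.inl (by rw [hbdef]; simp only [h, map_zero])
    · exact Or.inr (Λ.ord_emb _ h).ge
  have hd' : ¬ Λ.val.Ge 1 (jac G b).det := hd
  refine ⟨?_, ?_⟩
  · have hx : ∀ k : ℕ, (∀ j, Λ.val.Ge 1 ((step G)^[k] b j - b j)) ∧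
        ∀ i, Λ.val.Ge (k + 1) (eval ((step G)^[k] b) (G i)) := by
      intro k
      induction k with
      | zero =>
        refine ⟨fun j => ?_, fun i => ?_⟩
        · rw [Function.iterate_zero, id, sub_self]
          exact Ge.zero _ _
        · rw [Function.iterate_zero, id, Nat.cast_zero, zero_add]
          exact h0 i
      | succ k ih =>
        obtain ⟨h1, h2, h3⟩ := step_spec hG' hb hd' (by omega : (1 : ℤ) ≤ k + 1) ih.1 ih.2
        rw [Function.iterate_succ_apply']
        refine ⟨h2, fun i => ?_⟩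
        have := h3 i
        push_cast
        exact this
    have hs : ∀ (k : ℕ) (j : Fin r), Λ.val.Ge (k + 1) ((step G)^[k + 1] b j - (step G)^[k] b j) := by
      intro k j
      rw [Function.iterate_succ_apply']
      exact (step_spec hG' hb hd' (by omega : (1 : ℤ) ≤ k + 1) (hx k).1 (hx k).2).1 j
    have hc : ∀ j, ∃ y, ∀ k : ℕ, y - (step G)^[k] b j = 0 ∨
        (k : ℤ) ≤ Λ.ord (y - (step G)^[k] b j) := by
      intro j
      refine Λ.complete (fun k => (step G)^[k] b j) fun k => ?_
      exact (hs k j).mono (by omega)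
    choose y hy using hc
    have hy1 : ∀ j (k : ℕ), Λ.val.Ge k (y j - (step G)^[k] b j) := fun j k => hy j k
    refine ⟨y, fun j => ?_, fun i => ?_⟩
    · have h1 := hy1 j 1
      have h2 := (hx 1).1 j
      rw [Nat.cast_one] at h1
      have := h1.add h2
      convert this using 1
      ring
    · refine eq_zero_of_ge (v := Λ.val) fun k => ?_
      have h3 := eval_congr (v := Λ.val) (Int.natCast_nonneg k.toNat)
        (ge_zero hb (hx k.toNat).1) (fun j => hy1 j k.toNat) (hG' i)
      have h4 := ((hx k.toNat).2 i).mono (by omega : (k.toNat : ℤ) ≤ k.toNat + 1)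
      have h5 := h3.add h4
      rw [sub_add_cancel] at h5
      exact h5.mono (Int.self_le_toNat k)
  · intro y y' h1 h2 h3 h4
    exact unique hG' hb hd' h1 h2 h3 h4

end NDQ
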