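import Pool.Agent.NDQ.St

/-!
# HGT: a bound for the number of independent equations
-/

set_option autoImplicit false

namespace NDQ

open MldGeo MldGap MldAcc MldQ MvPolynomial
open MldX (wdeg word initForm Nondegenerate InteriorPoint)

noncomputable section

namespace HGT

variable {N : ℕ}

/-- Substitution of `Q i` for the first `k` variables. -/
def sub (Q : Fin N → ℂ) (k : ℕ) : MvPolynomial (Fin N) ℂ →ₐ[ℂ] MvPolynomial (Fin N) ℂ :=
  aeval fun i => if (i : ℕ) < k then C (Q i) else X i

theorem sub_X (Q : Fin N → ℂ) (k : ℕ) (i : Fin N) :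
    sub Q k (X i) = if (i : ℕ) < k then C (Q i) else X i := by
  simp [sub]

theorem sub_C (Q : Fin N → ℂ) (k : ℕ) (a : ℂ) : sub Q k (C a) = C a := by
  rw [sub, aeval_C, algebraMap_eq]

theorem sub_sub (Q : Fin N → ℂ) (k : ℕ) : (sub Q (k + 1)).comp (sub Q k) = sub Q (k + 1) := by
  apply MvPolynomial.algHom_ext
  intro i
  rw [AlgHom.comp_apply, sub_X]
  split_ifs with h
  · rw [sub_X, if_pos (by omega), sub_C]
  · rfl

/-- The prime ideal of the points whose first `k` coordinates are those of `Q`. -/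
def pr (Q : Fin N → ℂ) (k : ℕ) : Ideal (MvPolynomial (Fin N) ℂ) := RingHom.ker (sub Q k)

instance pr_prime (Q : Fin N → ℂ) (k : ℕ) : (pr Q k).IsPrime := RingHom.ker_isPrime _

theorem pr_lt (Q : Fin N → ℂ) (k : ℕ) (hk : k < N) : pr Q k < pr Q (k + 1) := by
  refine lt_of_le_of_ne (fun p hp => ?_) fun h => ?_
  · rw [pr, RingHom.mem_ker] at hp ⊢
    rw [← sub_sub, AlgHom.comp_apply, hp, map_zero]
  · have h1 : (X ⟨k, hk⟩ - C (Q ⟨k, hk⟩) : MvPolynomial (Fin N) ℂ) ∈ pr Q (k + 1) := by
      rw [pr, RingHom.mem_ker, map_sub, sub_X, if_pos (Nat.lt_succ_self k), sub_C, sub_self]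
    rw [← h] at h1
    rw [pr, RingHom.mem_ker, map_sub, sub_X, if_neg (lt_irrefl k), sub_C] at h1
    have h4 := congrArg (eval fun _ => Q ⟨k, hk⟩ + 1) h1
    rw [map_sub, eval_X, eval_C, map_zero, add_sub_cancel_left] at h4
    exact one_ne_zero h4

theorem height_pr (Q : Fin N → ℂ) : ∀ k : ℕ, k ≤ N → (k : ℕ∞) ≤ (pr Q k).height
  | 0, _ => by simp
  | k + 1, hk => by
    have h1 := height_pr Q k (by omega)
    have h2 := Ideal.height_add_one_le_of_lt_of_isPrime (pr_lt Q k (by omega))
    push_cast
    exact (add_le_add_left h1 1).trans h2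

theorem eval_sub (Q : Fin N → ℂ) (p : MvPolynomial (Fin N) ℂ) : sub Q N p = C (eval Q p) := by
  have h : sub Q N = (Algebra.ofId ℂ (MvPolynomial (Fin N) ℂ)).comp (aeval Q) := by
    apply MvPolynomial.algHom_ext
    intro i
    rw [sub_X, if_pos i.2, AlgHom.comp_apply, aeval_X]
    rfl
  rw [h, AlgHom.comp_apply, aeval_eq_eval]
  rfl

theorem mem_pr (Q : Fin N → ℂ) (p : MvPolynomial (Fin N) ℂ) : p ∈ pr Q N ↔ eval Q p = 0 := by
  rw [pr, RingHom.mem_ker, eval_sub, C_eq_zero]

/-- The ideal of a point is generated by the differences `X_j - Q_j`. -/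
theorem sub_mem_span (Q : Fin N → ℂ) (p : MvPolynomial (Fin N) ℂ) :
    p - C (eval Q p) ∈ Ideal.span (Set.range fun j => (X j - C (Q j) : MvPolynomial (Fin N) ℂ)) := by
  induction p using MvPolynomial.induction_on with
  | C a => simp
  | add p q hp hq =>
    have := Ideal.add_mem _ hp hq
    rw [map_add, map_add]
    convert this using 1
    ring
  | mul_X p j hp =>
    have h1 := Ideal.mul_mem_right (X j) _ hp
    have h2 : (X j - C (Q j) : MvPolynomial (Fin N) ℂ) ∈
        Ideal.span (Set.range fun j => (X j - C (Q j) : MvPolynomial (Fin N) ℂ)) :=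
      Ideal.subset_span ⟨j, rfl⟩
    have h3 := Ideal.mul_mem_left _ (C (eval Q p)) h2
    have h4 := Ideal.add_mem _ h1 h3
    rw [map_mul, map_mul, eval_X]
    convert h4 using 1
    ring

theorem span_eq (Q : Fin N → ℂ) :
    Ideal.span (Set.range fun j => (X j - C (Q j) : MvPolynomial (Fin N) ℂ)) = pr Q N := by
  apply le_antisymm
  · rw [Ideal.span_le]
    rintro _ ⟨j, rfl⟩
    rw [SetLike.mem_coe, mem_pr]
    simp
  · intro p hp
    have h := sub_mem_span Q p
    rwa [(mem_pr Q p).1 hp, C_0, sub_zero] at h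

/-- A polynomial which vanishes at `Q` together with its gradient is in the square of the ideal. -/
theorem mem_sq (Q : Fin N → ℂ) (p : MvPolynomial (Fin N) ℂ) (h0 : eval Q p = 0)
    (h1 : ∀ j, eval Q (pderiv j p) = 0) : p ∈ pr Q N * pr Q N := by
  classical
  have hp : p ∈ Ideal.span (Set.range fun j => (X j - C (Q j) : MvPolynomial (Fin N) ℂ)) := by
    rw [span_eq, mem_pr]
    exact h0
  obtain ⟨a, ha⟩ := (Ideal.mem_span_range_iff_exists_fun).1 hp
  have h2 : ∀ j, eval Q (a j) = 0 := by
    intro j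
    have h3 := h1 j
    rw [← ha, map_sum, map_sum, Finset.sum_eq_single j] at h3
    · rw [Derivation.leibniz] at h3
      simpa [pderiv_X_self] using h3
    · intro k _ hk
      rw [Derivation.leibniz]
      simp [pderiv_X_of_ne hk]
    · intro h
      exact absurd (Finset.mem_univ j) h
  rw [← ha]
  refine Ideal.sum_mem _ fun j _ => Ideal.mul_mem_mul ((mem_pr Q _).2 (h2 j)) ((mem_pr Q _).2 ?_)
  simp

/-- The linear form with the gradient `v`. -/
def lin (Q : Fin N → ℂ) (v : Fin N → ℂ) : MvPolynomial (Fin N) ℂ :=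
  ∑ j, C (v j) * (X j - C (Q j))

theorem eval_lin (Q v : Fin N → ℂ) : eval Q (lin Q v) = 0 := by
  unfold lin
  rw [map_sum]
  exact Finset.sum_eq_zero fun j _ => by simp

theorem pderiv_lin (Q v : Fin N → ℂ) (j : Fin N) : pderiv j (lin Q v) = C (v j) := by
  classical
  unfold lin
  rw [map_sum, Finset.sum_eq_single j]
  · rw [Derivation.leibniz]
    simp
  · intro k _ hk
    rw [Derivation.leibniz]
    simp [pderiv_X_of_ne hk]
  · intro h
    exact absurd (Finset.mem_univ j) h

end HGT

open HGT in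
theorem t_HGT : S_HGT := by
  intro N r s Q F G hF hG hind hpow
  classical
  -- the gradients and a complement
  set g : Fin s → Fin N → ℂ := fun i j => eval Q (pderiv j (G i)) with hg
  let W : Submodule ℂ (Fin N → ℂ) := Submodule.span ℂ (Set.range g)
  obtain ⟨W', hW'⟩ := Submodule.exists_isCompl W
  have hWr : Module.finrank ℂ W = s := by
    have := finrank_span_eq_card hind
    rwa [Fintype.card_fin] at this
  have hsum := Submodule.finrank_add_eq_of_isCompl hW'
  rw [hWr, Module.finrank_fin_fun] at hsum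
  let b := Module.finBasis ℂ W'
  set v : Fin (Module.finrank ℂ W') → Fin N → ℂ := fun l => (b l : Fin N → ℂ) with hv
  have hspan : ∀ a : Fin N → ℂ, ∃ (c : Fin s → ℂ) (d : Fin (Module.finrank ℂ W') → ℂ),
      a = ∑ i, c i • g i + ∑ l, d l • v l := by
    intro a
    have ha : a ∈ W ⊔ W' := by
      rw [hW'.sup_eq_top]
      trivial
    obtain ⟨w, hw, w', hw', rfl⟩ := Submodule.mem_sup.1 ha
    obtain ⟨c, hc⟩ := (Submodule.mem_span_range_iff_exists_fun ℂ).1 hw
    refine ⟨c, fun l => b.repr ⟨w', hw'⟩ l, ?_⟩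
    have h2 := congrArg (fun z : W' => (z : Fin N → ℂ)) (b.sum_repr ⟨w', hw'⟩)
    simp only [Submodule.coe_sum, Submodule.coe_smul] at h2
    rw [hc, h2]
  -- the minimal prime
  set S : Set (MvPolynomial (Fin N) ℂ) := Set.range F ∪ Set.range (fun l => lin Q (v l)) with hS
  have hSle : Ideal.span S ≤ pr Q N := by
    rw [Ideal.span_le, hS]
    rintro p (⟨i, rfl⟩ | ⟨l, rfl⟩)
    · exact (mem_pr Q _).2 (hF i)
    · exact (mem_pr Q _).2 (eval_lin Q _)
  have key : ∀ q : Ideal (MvPolynomial (Fin N) ℂ), q.IsPrime → Ideal.span S ≤ q → q ≤ pr Q N →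
      pr Q N ≤ q := by
    intro q hq hSq hqp
    have hGq : ∀ i, G i ∈ q := by
      intro i
      obtain ⟨h, k, hh, hk⟩ := hpow i
      have h1 : (h * G i) ^ k ∈ q := by
        refine hSq (Ideal.span_mono ?_ hk)
        exact Set.subset_union_left
      have h2 := hq.mem_of_pow_mem k h1
      rcases hq.mem_or_mem h2 with h3 | h3
      · exact absurd ((mem_pr Q h).1 (hqp h3)) hh
      · exact h3
    have hLq : ∀ l, lin Q (v l) ∈ q := fun l => hSq (Ideal.subset_span (Or.inr ⟨l, rfl⟩))
    have h1 : pr Q N ≤ q ⊔ pr Q N * pr Q N := by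
      intro p hp
      obtain ⟨c, d, hcd⟩ := hspan fun j => eval Q (pderiv j p)
      set u : MvPolynomial (Fin N) ℂ := ∑ i, C (c i) * G i + ∑ l, C (d l) * lin Q (v l) with hu
      have huq : u ∈ q := Ideal.add_mem _
        (Ideal.sum_mem _ fun i _ => Ideal.mul_mem_left _ _ (hGq i))
        (Ideal.sum_mem _ fun l _ => Ideal.mul_mem_left _ _ (hLq l))
      have hpu : p - u ∈ pr Q N * pr Q N := by
        apply mem_sq
        · rw [map_sub, (mem_pr Q p).1 hp, (mem_pr Q u).1 (hqp huq), sub_zero]
        · intro j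
          rw [map_sub, map_sub, sub_eq_zero]
          have h2 := congrFun hcd j
          rw [h2, hu, map_add, map_add, map_sum, map_sum, map_sum, map_sum, Pi.add_apply,
            Finset.sum_apply, Finset.sum_apply]
          congr 1
          · refine Finset.sum_congr rfl fun i _ => ?_
            rw [Derivation.leibniz]
            simp [hg]
          · refine Finset.sum_congr rfl fun l _ => ?_
            rw [Derivation.leibniz, pderiv_lin]
            simp
      have h3 : p = u + (p - u) := by ring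
      rw [h3]
      exact Submodule.add_mem_sup huq hpu
    -- the image of the ideal in the domain is idempotent
    have h2 : IsIdempotentElem ((pr Q N).map (Ideal.Quotient.mk q)) := by
      rw [IsIdempotentElem, ← Ideal.map_mul]
      apply le_antisymm
      · exact Ideal.map_mono Ideal.mul_le_right
      · have h3 := Ideal.map_mono (f := Ideal.Quotient.mk q) h1
        rw [Ideal.map_sup, Ideal.map_quotient_self, bot_sup_eq] at h3
        exact h3
    have h3 := (Ideal.isIdempotentElem_iff_eq_bot_or_top _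
      (IsNoetherian.noetherian ((pr Q N).map (Ideal.Quotient.mk q)))).1 h2
    rcases h3 with h4 | h4
    · rwa [Ideal.map_eq_bot_iff_le_ker, Ideal.mk_ker] at h4
    · exfalso
      have h5 : ((pr Q N).map (Ideal.Quotient.mk q)).IsPrime :=
        Ideal.isPrime_map_quotientMk_of_isPrime hqp
      exact h5.ne_top h4
  have hmin : pr Q N ∈ (Ideal.span S).minimalPrimes :=
    ⟨⟨pr_prime Q N, hSle⟩, fun q hq hqp => key q hq.1 hq.2 hqp⟩
  have hfin : S.Finite := (Set.finite_range _).union (Set.finite_range _)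
  have h1 := Ideal.height_le_card_of_mem_minimalPrimes_span hfin hmin
  have h2 := (height_pr Q N le_rfl).trans h1
  have h3 : S.ncard ≤ r + Module.finrank ℂ W' := by
    refine (Set.ncard_union_le _ _).trans (add_le_add ?_ ?_)
    · rw [← Set.image_univ]
      exact (Set.ncard_image_le Set.finite_univ).trans (by simp)
    · rw [← Set.image_univ]
      exact (Set.ncard_image_le Set.finite_univ).trans (by simp)
  have h4 : N ≤ S.ncard := by exact_mod_cast h2
  omega

end

end NDQ
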