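import Pool.Agent.NDQ.St

/-!
# HLM: the direction of a step
-/

set_option autoImplicit false

namespace NDQ

open MldGeo MldGap MldAcc MldQ MvPolynomial
open MldX (wdeg word initForm Nondegenerate InteriorPoint)

noncomputable section

namespace HLM

variable {N : ℕ}

/-- the part of a polynomial without the variables in `H` -/
def part (H : Finset (Fin N)) (p : MvPolynomial (Fin N) ℂ) : MvPolynomial (Fin N) ℂ :=
  ∑ u ∈ p.support.filter (fun u => ∀ j ∈ H, u j = 0), monomial u (coeff u p)

theorem coeff_part (H : Finset (Fin N)) (p : MvPolynomial (Fin N) ℂ) (u : Fin N →₀ ℕ) :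
    coeff u (part H p) = if (∀ j ∈ H, u j = 0) then coeff u p else 0 := by
  classical
  unfold part
  rw [coeff_sum]
  by_cases hu : u ∈ p.support
  · by_cases h : ∀ j ∈ H, u j = 0
    · rw [if_pos h, Finset.sum_eq_single u]
      · rw [coeff_monomial, if_pos rfl]
      · intro v _ hv
        rw [coeff_monomial, if_neg hv]
      · intro h2
        exact absurd (Finset.mem_filter.2 ⟨hu, h⟩) h2
    · rw [if_neg h]
      refine Finset.sum_eq_zero fun v hv => ?_
      rw [coeff_monomial, if_neg]
      rintro rfl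
      exact h (Finset.mem_filter.1 hv).2
  · have h0 : coeff u p = 0 := notMem_support_iff.1 hu
    rw [h0, ite_self]
    refine Finset.sum_eq_zero fun v hv => ?_
    rw [coeff_monomial, if_neg]
    rintro rfl
    exact hu (Finset.mem_filter.1 hv).1

theorem eval_free {H : Finset (Fin N)} {Q y : Fin N → ℂ} (hy : ∀ j, j ∉ H → y j = Q j)
    {u : Fin N →₀ ℕ} (hu : ∀ j ∈ H, u j = 0) (c : ℂ) :
    eval y (monomial u c) = eval Q (monomial u c) := by
  rw [eval_monomial, eval_monomial, Finsupp.prod, Finsupp.prod]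
  congr 1
  refine Finset.prod_congr rfl fun j hj => ?_
  rw [hy j fun h => (Finsupp.mem_support_iff.1 hj) (hu j h)]

theorem eval_nonfree {H : Finset (Fin N)} {Q : Fin N → ℂ} (hQ : ∀ j ∈ H, Q j = 0)
    {u : Fin N →₀ ℕ} (hu : ¬ ∀ j ∈ H, u j = 0) (c : ℂ) : eval Q (monomial u c) = 0 := by
  push Not at hu
  obtain ⟨j, hj, hj2⟩ := hu
  rw [eval_monomial, Finsupp.prod, Finset.prod_eq_zero (Finsupp.mem_support_iff.2 hj2), mul_zero]
  rw [hQ j hj, zero_pow hj2]

theorem eval_part {H : Finset (Fin N)} {Q y : Fin N → ℂ} (hQ : ∀ j ∈ H, Q j = 0)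
    (hy : ∀ j, j ∉ H → y j = Q j) (p : MvPolynomial (Fin N) ℂ) :
    eval y (part H p) = eval Q p := by
  have h1 : eval Q p = ∑ u ∈ p.support, eval Q (monomial u (coeff u p)) := by
    conv_lhs => rw [p.as_sum]
    rw [map_sum]
  rw [h1, part, map_sum, ← Finset.sum_filter_add_sum_filter_not p.support
    (fun u => ∀ j ∈ H, u j = 0)]
  have h2 : ∑ u ∈ p.support.filter (fun u => ¬ ∀ j ∈ H, u j = 0),
      eval Q (monomial u (coeff u p)) = 0 :=
    Finset.sum_eq_zero fun u hu => eval_nonfree hQ (Finset.mem_filter.1 hu).2 _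
  rw [h2, add_zero]
  exact Finset.sum_congr rfl fun u hu => eval_free hy (Finset.mem_filter.1 hu).2 _

theorem eval_pderiv_part {H : Finset (Fin N)} {Q y : Fin N → ℂ} (hQ : ∀ j ∈ H, Q j = 0)
    (hy : ∀ j, j ∉ H → y j = Q j) (p : MvPolynomial (Fin N) ℂ) {l : Fin N} (hl : l ∉ H) :
    eval y (pderiv l (part H p)) = eval Q (pderiv l p) := by
  have h1 : eval Q (pderiv l p) =
      ∑ u ∈ p.support, eval Q (pderiv l (monomial u (coeff u p))) := by
    conv_lhs => rw [p.as_sum]
    rw [map_sum, map_sum]
  have hs : ∀ (u : Fin N →₀ ℕ), ∀ j ∈ H, (u - Finsupp.single l 1 : Fin N →₀ ℕ) j = u j := by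
    intro u j hj
    have hjl : l ≠ j := fun h => hl (h ▸ hj)
    rw [Finsupp.tsub_apply, Finsupp.single_eq_of_ne hjl.symm, Nat.sub_zero]
  rw [h1, part, map_sum, map_sum, ← Finset.sum_filter_add_sum_filter_not p.support
    (fun u => ∀ j ∈ H, u j = 0)]
  have h2 : ∑ u ∈ p.support.filter (fun u => ¬ ∀ j ∈ H, u j = 0),
      eval Q (pderiv l (monomial u (coeff u p))) = 0 := by
    refine Finset.sum_eq_zero fun u hu => ?_
    rw [pderiv_monomial]
    refine eval_nonfree hQ (fun h => (Finset.mem_filter.1 hu).2 fun j hj => ?_) _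
    rw [← hs u j hj]
    exact h j hj
  rw [h2, add_zero]
  refine Finset.sum_congr rfl fun u hu => ?_
  rw [pderiv_monomial]
  refine eval_free hy (fun j hj => ?_) _
  rw [hs u j hj]
  exact (Finset.mem_filter.1 hu).2 j hj

theorem pderiv_part {H : Finset (Fin N)} (p : MvPolynomial (Fin N) ℂ) {l : Fin N} (hl : l ∈ H) :
    pderiv l (part H p) = 0 := by
  rw [part, map_sum]
  refine Finset.sum_eq_zero fun u hu => ?_
  rw [pderiv_monomial, (Finset.mem_filter.1 hu).2 l hl, Nat.cast_zero, mul_zero, monomial_zero]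

/-- the weights enlarged on `H` -/
def enl (z : Fin N → ℕ) (H : Finset (Fin N)) : Fin N → ℕ := fun j => z j + if j ∈ H then 1 else 0

theorem wdeg_enl (z : Fin N → ℕ) (H : Finset (Fin N)) (u : Fin N →₀ ℕ) :
    wdeg (enl z H) u = wdeg z u + ∑ j ∈ H, u j := by
  unfold wdeg enl
  simp only [add_mul, ite_mul, one_mul, zero_mul]
  rw [Finset.sum_add_distrib, Finset.sum_ite_mem, Finset.univ_inter]

/-- the initial form for the enlarged weights -/
theorem initForm_enl (hWRD : S_WRD) (p : MvPolynomial (Fin N) ℂ) (z : Fin N → ℕ)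
    (H : Finset (Fin N)) (h : ∃ u ∈ (initForm z p).support, ∀ j ∈ H, u j = 0) :
    initForm (enl z H) p = part H (initForm z p) := by
  obtain ⟨w1, w2, w3, w4, -, -⟩ := hWRD p z
  obtain ⟨-, w2', w3', -, -, -⟩ := hWRD p (enl z H)
  obtain ⟨u0, hu0, hf0⟩ := h
  rw [mem_support_iff, w3] at hu0
  have hu1 : wdeg z u0 = word z p := by
    by_contra hne
    exact hu0 (if_neg hne)
  rw [if_pos hu1] at hu0
  have hword : word (enl z H) p = word z p := by
    apply le_antisymm
    · have h1 := w2' u0 (mem_support_iff.2 hu0)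
      rw [wdeg_enl, Finset.sum_eq_zero hf0, add_zero, hu1] at h1
      exact h1
    · exact w4 (enl z H) fun j => Nat.le_add_right _ _
  ext u
  rw [w3', coeff_part, w3, hword, wdeg_enl]
  by_cases hc : coeff u p = 0
  · simp [hc]
  · have h1 := w2 u (mem_support_iff.2 hc)
    by_cases hfree : ∀ j ∈ H, u j = 0
    · rw [if_pos hfree, Finset.sum_eq_zero hfree, add_zero]
    · rw [if_neg hfree, if_neg]
      intro h2
      apply hfree
      have h3 : ∑ j ∈ H, u j = 0 := by omega
      exact Finset.sum_eq_zero_iff.1 h3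

end HLM

open HLM

theorem t_HLM (hWRD : S_WRD) (hHGT : S_HGT) : S_HLM := by
  classical
  intro N r f hf hf0 hnd z hz hT
  set F : Fin r → MvPolynomial (Fin N) ℂ := fun i => initForm z (f i) with hF
  -- the origin is a common zero
  have h0 : ∀ i, eval (0 : Fin N → ℂ) (F i) = 0 := by
    intro i
    have h1 : constantCoeff (F i) = 0 := by
      rw [constantCoeff_eq, hF]
      simp only
      rw [(hWRD (f i) z).2.2.1 0]
      have h2 := hf0 i
      rw [constantCoeff_eq] at h2
      rw [h2, ite_self]
    rw [← h1]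
    exact DFunLike.congr_fun (eval_zero (R := ℂ) (σ := Fin N)) (F i)
  -- a common zero with the largest number of nonzero coordinates
  let S : Set ℕ := {k | ∃ Q : Fin N → ℂ, (∀ i, eval Q (F i) = 0) ∧
    (Finset.univ.filter fun j => Q j ≠ 0).card = k}
  have hSne : S.Nonempty := ⟨_, 0, h0, rfl⟩
  have hSb : BddAbove S := by
    refine ⟨N, ?_⟩
    rintro k ⟨Q, _, rfl⟩
    exact (Finset.card_le_univ _).trans (by simp)
  obtain ⟨Q, hQ, hQc⟩ := Nat.sSup_mem hSne hSb
  have hmax : ∀ Q' : Fin N → ℂ, (∀ i, eval Q' (F i) = 0) →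
      (Finset.univ.filter fun j => Q' j ≠ 0).card ≤
        (Finset.univ.filter fun j => Q j ≠ 0).card := by
    intro Q' hQ'
    rw [hQc]
    exact le_csSup hSb ⟨Q', hQ', rfl⟩
  set H : Finset (Fin N) := Finset.univ.filter fun j => Q j = 0 with hH
  have hmemH : ∀ j, j ∈ H ↔ Q j = 0 := fun j => by rw [hH]; simp
  have hQH : ∀ j ∈ H, Q j = 0 := fun j hj => (hmemH j).1 hj
  refine ⟨H, ?_, ?_⟩
  · rw [Finset.nonempty_iff_ne_empty]
    intro hemp
    apply hT
    refine ⟨Q, fun j hj => ?_, hQ⟩
    have h1 : j ∈ H := (hmemH j).2 hj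
    rw [hemp] at h1
    exact absurd h1 (Finset.notMem_empty j)
  · set I₁ : Finset (Fin r) := Finset.univ.filter fun i : Fin r =>
      ∀ u ∈ (initForm z (f i)).support, ∃ j ∈ H, 1 ≤ u j with hI₁
    -- the torus point
    set y : Fin N → ℂ := fun j => if j ∈ H then 1 else Q j with hy
    have hyQ : ∀ j, j ∉ H → y j = Q j := fun j hj => by rw [hy]; simp only [if_neg hj]
    have hy0 : ∀ j, y j ≠ 0 := by
      intro j
      by_cases hj : j ∈ H
      · rw [hy]
        simp only [if_pos hj]
        exact one_ne_zero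
      · rw [hyQ j hj]
        exact fun h => hj ((hmemH j).2 h)
    have hz' : ∀ j, 0 < enl z H j := fun j => Nat.add_pos_left (hz j) _
    have hg : ∀ i ∈ I₁ᶜ, initForm (enl z H) (f i) = part H (F i) := by
      intro i hi
      apply initForm_enl hWRD
      rw [Finset.mem_compl, hI₁, Finset.mem_filter] at hi
      push Not at hi
      obtain ⟨u, hu, hu2⟩ := hi (Finset.mem_univ i)
      exact ⟨u, hu, fun j hj => by have := hu2 j hj; omega⟩
    have hli := hnd (enl z H) hz' I₁ᶜ y hy0 (fun i hi => by
      rw [hg i hi, eval_part hQH hyQ]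
      exact hQ i)
    -- the family
    let ι : Type := {j // j ∈ H} ⊕ {i // i ∈ I₁ᶜ}
    let G' : ι → MvPolynomial (Fin N) ℂ := Sum.elim (fun j => X j.1) (fun i => F i.1)
    have hli2 : LinearIndependent ℂ fun (i : ι) (j : Fin N) => eval Q (pderiv j (G' i)) := by
      rw [Fintype.linearIndependent_iff]
      intro a ha
      rw [Fintype.sum_sum_type] at ha
      have hX : ∀ (j : {j // j ∈ H}) (l : Fin N), eval Q (pderiv l (G' (Sum.inl j))) =
          if l = j.1 then 1 else 0 := by
        intro j l
        change eval Q (pderiv l (X j.1)) = _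
        rw [pderiv_X, Pi.single_apply]
        by_cases hjl : l = j.1
        · rw [if_pos hjl.symm, if_pos hjl, map_one]
        · rw [if_neg fun h => hjl h.symm, if_neg hjl, map_zero]
      have hb : ∀ i, a (Sum.inr i) = 0 := by
        refine Fintype.linearIndependent_iff.1 hli (fun i => a (Sum.inr i)) ?_
        funext l
        rw [Finset.sum_apply, Pi.zero_apply]
        by_cases hl : l ∈ H
        · refine Finset.sum_eq_zero fun i _ => ?_
          rw [Pi.smul_apply, hg i.1 i.2, pderiv_part _ hl, map_zero, smul_zero]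
        · have h1 := congrFun ha l
          rw [Pi.add_apply, Finset.sum_apply, Finset.sum_apply, Pi.zero_apply] at h1
          have h2 : ∑ j : {j // j ∈ H}, (a (Sum.inl j) • fun l : Fin N =>
              eval Q (pderiv l (G' (Sum.inl j)))) l = 0 := by
            refine Finset.sum_eq_zero fun j _ => ?_
            rw [Pi.smul_apply, hX, if_neg, smul_zero]
            rintro rfl
            exact hl j.2
          rw [h2, zero_add] at h1
          rw [← h1]
          refine Finset.sum_congr rfl fun i _ => ?_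
          rw [Pi.smul_apply, Pi.smul_apply, hg i.1 i.2, eval_pderiv_part hQH hyQ _ hl]
          rfl
      rintro (j | i)
      · have h1 := congrFun ha j.1
        rw [Pi.add_apply, Finset.sum_apply, Finset.sum_apply, Pi.zero_apply] at h1
        have h2 : ∑ i : {i // i ∈ I₁ᶜ}, (a (Sum.inr i) • fun l : Fin N =>
            eval Q (pderiv l (G' (Sum.inr i)))) j.1 = 0 := by
          refine Finset.sum_eq_zero fun i _ => ?_
          rw [hb i, zero_smul, Pi.zero_apply]
        rw [h2, add_zero, Finset.sum_eq_single j] at h1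
        · rw [Pi.smul_apply, hX, if_pos rfl, smul_eq_mul, mul_one] at h1
          exact h1
        · intro k _ hk
          rw [Pi.smul_apply, hX, if_neg, smul_zero]
          exact fun h => hk (Subtype.ext h.symm)
        · intro h
          exact absurd (Finset.mem_univ j) h
      · exact hb i
    let e : Fin (Fintype.card ι) ≃ ι := (Fintype.equivFin ι).symm
    have hli3 : LinearIndependent ℂ fun (i : Fin (Fintype.card ι)) (j : Fin N) =>
        eval Q (pderiv j (G' (e i))) := hli2.comp e e.injective
    -- the ideal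
    set W : MvPolynomial (Fin N) ℂ := ∏ l ∈ Hᶜ, X l with hW
    have hevW : ∀ Q' : Fin N → ℂ, eval Q' W = ∏ l ∈ Hᶜ, Q' l := by
      intro Q'
      rw [hW, map_prod]
      exact Finset.prod_congr rfl fun l _ => eval_X _
    have hrad : ∀ j ∈ H, ∃ k : ℕ, (W * X j) ^ k ∈ Ideal.span (Set.range F) := by
      intro j hj
      have h1 : W * X j ∈ (Ideal.span (Set.range F)).radical := by
        rw [← vanishingIdeal_zeroLocus_eq_radical (K := ℂ)]
        rw [mem_vanishingIdeal_iff]
        intro Q' hQ'
        rw [zeroLocus_span] at hQ'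
        have hQ2 : ∀ i, eval Q' (F i) = 0 := by
          intro i
          have h2 := hQ' (F i) ⟨i, rfl⟩
          rwa [aeval_eq_eval] at h2
        rw [aeval_eq_eval, map_mul, hevW, eval_X]
        by_contra hne
        have hle := hmax Q' hQ2
        have hsub : insert j Hᶜ ⊆ Finset.univ.filter fun l => Q' l ≠ 0 := by
          intro l hl
          rw [Finset.mem_filter]
          refine ⟨Finset.mem_univ _, ?_⟩
          rcases Finset.mem_insert.1 hl with rfl | h3
          · exact right_ne_zero_of_mul hne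
          · exact Finset.prod_ne_zero_iff.1 (left_ne_zero_of_mul hne) l h3
        have h4 := Finset.card_le_card hsub
        rw [Finset.card_insert_of_notMem (by simpa using hj)] at h4
        have h5 : (Finset.univ.filter fun l => Q l ≠ 0) = Hᶜ := by
          ext l
          rw [Finset.mem_filter, Finset.mem_compl, hmemH]
          simp
        rw [h5] at hle
        omega
      exact h1
    have hkey := hHGT Q F (fun i => G' (e i)) hQ ?_ hli3 ?_
    · have h1 : Fintype.card ι = H.card + I₁ᶜ.card := by
        rw [Fintype.card_sum, Fintype.card_coe, Fintype.card_coe]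
      have h2 := Finset.card_add_card_compl I₁
      rw [Fintype.card_fin] at h2
      omega
    · intro i
      rcases e i with j | i'
      · exact (eval_X _).trans (hQH j.1 j.2)
      · exact hQ i'.1
    · intro i
      rcases e i with j | i'
      · obtain ⟨k, hk⟩ := hrad j.1 j.2
        refine ⟨W, k, ?_, hk⟩
        rw [hevW, Finset.prod_ne_zero_iff]
        intro l hl
        rw [Finset.mem_compl, hmemH] at hl
        exact hl
      · refine ⟨1, 1, by rw [map_one]; exact one_ne_zero, ?_⟩
        rw [pow_one, one_mul]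
        exact Ideal.subset_span ⟨i'.1, rfl⟩

end

end NDQ
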