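import Pool.Agent.NDQ.St
import Pool.Agent.MldGeo.Ord

/-!
# IDM: the order of a monomial ideal
-/

set_option autoImplicit false

namespace NDQ

open MldGeo MldGap MldAcc MldQ MvPolynomial
open MldX (wdeg word initForm Nondegenerate InteriorPoint)

noncomputable section

namespace IDM

variable {n N : ℕ}

/-- A member of the ideal is near the ideal. -/
theorem near_self (X : Germ n) (I : Ideal X.R) (a : X.R) (ha : a ∈ I) : Near X I a :=
  ⟨1, fun h => X.max.ne_top ((Ideal.eq_top_iff_one _).2 h), by rwa [one_mul]⟩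

/-- The orders of near ideals. -/
theorem le (hIDO : Stmt_IDO) (X : Germ n) (v : DivVal n X.K) (hv : X.Through v) (I J : Ideal X.R)
    (hI : I ≠ ⊥) (h : ∀ a, Near X I a → Near X J a) : idealOrd v J ≤ idealOrd v I := by
  obtain ⟨-, h2, h3, -⟩ := hIDO v hv.1
  obtain ⟨a, ha, ha0, hav⟩ := h2 I hI
  obtain ⟨s, hs, hsa⟩ := h a (near_self X I a ha)
  have hs0 : s ≠ 0 := by
    rintro rfl
    exact hs (Ideal.zero_mem _)
  have h4 := h3 J _ hsa (mul_ne_zero hs0 ha0)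
  have hs0' : (s : X.K) ≠ 0 := fun h => hs0 (Subtype.ext h)
  have ha0' : (a : X.K) ≠ 0 := fun h => ha0 (Subtype.ext h)
  have h5 : v.ord ((s * a : X.R) : X.K) = v.ord a := by
    have : ((s * a : X.R) : X.K) = (s : X.K) * a := rfl
    rw [this, v.ord_mul _ _ hs0' ha0', hv.2 s hs, zero_add]
  rw [h5, hav] at h4
  exact h4

/-- The order of a monomial. -/
theorem ord_mono {K : Type} [Field K] [Algebra ℂ K] (v : DivVal n K) (x : Fin N → K)
    (hx : ∀ j, x j ≠ 0) (u : Fin N →₀ ℕ) :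
    v.ord (∏ j, x j ^ u j) = ∑ j, (u j : ℤ) * v.ord (x j) := by
  rw [DivVal.ord_prod v _ _ fun j _ => pow_ne_zero _ (hx j)]
  exact Finset.sum_congr rfl fun j _ => DivVal.ord_pow v _ _

end IDM

theorem t_IDM : S_IDM := by
  intro hIDO n N X x I M hI hx hxR hnear
  have hmon : ∀ u : Fin N →₀ ℕ, ∏ j, x j ^ u j ∈ X.R := fun u =>
    Subalgebra.prod_mem _ fun j _ => Subalgebra.pow_mem _ (hxR j) _
  have hne : ∀ u : Fin N →₀ ℕ, ∏ j, x j ^ u j ≠ 0 := fun u =>
    Finset.prod_ne_zero_iff.2 fun j _ => pow_ne_zero _ (hx j)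
  have hM : M.Nonempty := by
    by_contra hM
    rw [Set.not_nonempty_iff_eq_empty] at hM
    have hJ : mIdeal X x M = ⊥ := by
      unfold mIdeal
      rw [hM]
      simp
    obtain ⟨a, ha, ha0⟩ := Submodule.exists_mem_ne_zero_of_ne_bot hI
    obtain ⟨s, hs, hsa⟩ := (hnear a).1 (IDM.near_self X I a ha)
    rw [hJ, Ideal.mem_bot] at hsa
    rcases mul_eq_zero.1 hsa with h | h
    · rw [h] at hs
      exact hs (Ideal.zero_mem _)
    · exact ha0 h
  have hJ : mIdeal X x M ≠ ⊥ := by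
    obtain ⟨u, hu⟩ := hM
    intro h
    have h1 : (⟨∏ j, x j ^ u j, hmon u⟩ : X.R) ∈ mIdeal X x M :=
      Ideal.subset_span ⟨u, hu, rfl⟩
    rw [h, Ideal.mem_bot] at h1
    exact hne u (congrArg Subtype.val h1)
  refine ⟨hM, fun v hv => ?_⟩
  have heq : idealOrd v I = idealOrd v (mIdeal X x M) :=
    le_antisymm (IDM.le hIDO X v hv _ _ hJ fun a => (hnear a).2)
      (IDM.le hIDO X v hv _ _ hI fun a => (hnear a).1)
  obtain ⟨-, -, -, h4⟩ := hIDO v hv.1
  obtain ⟨a, ⟨u, hu, hau⟩, ha0, hav, hmin⟩ := h4 {a : X.R | ∃ u ∈ M, (a : X.K) = ∏ j, x j ^ u j} hJ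
  have hav' : v.ord (a : X.K) = ∑ j, (u j : ℤ) * v.ord (x j) := by
    rw [hau]
    exact IDM.ord_mono v x hx u
  have hav2 : v.ord (a : X.K) = idealOrd v (mIdeal X x M) := hav
  rw [heq, ← hav2]
  constructor
  · exact ⟨u, hu, hav'.symm⟩
  · rintro k ⟨u', hu', rfl⟩
    have h5 := hmin ⟨∏ j, x j ^ u' j, hmon u'⟩ ⟨u', hu', rfl⟩ (fun h => hne u' (congrArg Subtype.val h))
    have h6 : v.ord (∏ j, x j ^ u' j) = ∑ j, (u' j : ℤ) * v.ord (x j) := IDM.ord_mono v x hx u'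
    show v.ord (a : X.K) ≤ ∑ j, (u' j : ℤ) * v.ord (x j)
    rw [← h6]
    exact h5

end

end NDQ
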