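import Pool.Agent.NDQ.St

/-!
# IND: independent rows
-/

set_option autoImplicit false

namespace NDQ

open Matrix

theorem t_IND : S_IND := by
  classical
  intro n N r K _ G hN hG
  let A : Matrix (Fin r) (Fin N) K := Matrix.of G
  have h1 : A.rank = r := by
    have h : LinearIndependent K A.row := hG
    rw [h.rank_matrix, Fintype.card_fin]
  have h2 : Module.finrank K (Submodule.span K (Set.range A.col)) = r := by
    rw [← Matrix.rank_eq_finrank_span_cols, h1]
  obtain ⟨f, hf1, hf2, hf3⟩ := Submodule.exists_fun_fin_finrank_span_eq K (Set.range A.col)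
  let c : Fin r → Fin (Module.finrank K (Submodule.span K (Set.range A.col))) := Fin.cast h2.symm
  have hg : ∀ j : Fin r, ∃ k, A.col k = f (c j) := fun j => hf1 (c j)
  choose τ hτ using hg
  have hli : LinearIndependent K fun j : Fin r => A.col (τ j) := by
    have h3 : (fun j : Fin r => A.col (τ j)) = f ∘ c := funext hτ
    rw [h3]
    exact hf3.comp c (Fin.cast_injective _)
  have hinj : Function.Injective τ := fun i j hij => hli.injective (by simp only [hij])
  have hcard : Fintype.card {j // j ∉ Set.range τ} = n := by
    have h3 := Fintype.card_subtype_compl fun j => j ∈ Set.range τ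
    have h4 : Fintype.card {j // j ∈ Set.range τ} = r := by
      rw [← Fintype.card_congr (Equiv.ofInjective τ hinj), Fintype.card_fin]
    rw [h4, Fintype.card_fin] at h3
    rw [h3]
    omega
  let e2 : Fin n ≃ {j // j ∉ Set.range τ} := (Fintype.equivFinOfCardEq hcard).symm
  let σ : Fin r ⊕ Fin n ≃ Fin N :=
    (Equiv.sumCongr (Equiv.ofInjective τ hinj) e2).trans (Equiv.Set.sumCompl (Set.range τ))
  have hσ : ∀ j, σ (Sum.inl j) = τ j := by
    intro j
    exact Equiv.Set.sumCompl_apply_inl _ _
  refine ⟨σ, ?_⟩
  have h5 : (Matrix.of fun i j : Fin r => G i (σ (Sum.inl j))) =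
      Matrix.of fun i j : Fin r => G i (τ j) := by
    ext i j
    simp only [Matrix.of_apply, hσ]
  rw [h5]
  have h6 : LinearIndependent K (Matrix.of fun i j : Fin r => G i (τ j)).col := hli
  have h7 := Matrix.linearIndependent_cols_iff_isUnit.1 h6
  exact ((Matrix.isUnit_iff_isUnit_det _).1 h7).ne_zero

end NDQ
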