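import Pool.Agent.NDQ.St
import Pool.Agent.MldGeo.Ord

/-!
# The automorphism is the rotation
-/

set_option autoImplicit false

namespace NDQ

open MldGeo MldGap MldAcc MldQ MvPolynomial
open MldX (wdeg word initForm Nondegenerate InteriorPoint)

namespace INR

/-- Scaling the coordinates of a semi-invariant polynomial. -/
theorem aeval_scale {N : ℕ} {L : Type} [Field L] [Algebra ℂ L] (p : MvPolynomial (Fin N) ℂ)
    (c : Fin N → ℂ) (y : Fin N → L) (C : ℂ)
    (hC : ∀ u ∈ p.support, ∏ j, c j ^ u j = C) :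
    aeval (fun j => algebraMap ℂ L (c j) * y j) p = algebraMap ℂ L C * aeval y p := by
  rw [aeval_def, aeval_def, eval₂_eq', eval₂_eq', Finset.mul_sum]
  refine Finset.sum_congr rfl fun u hu => ?_
  have h1 : ∏ j, (algebraMap ℂ L (c j) * y j) ^ u j =
      algebraMap ℂ L C * ∏ j, y j ^ u j := by
    rw [← hC u hu, map_prod, ← Finset.prod_mul_distrib]
    refine Finset.prod_congr rfl fun j _ => ?_
    rw [mul_pow, map_pow]
  rw [h1]
  ring

/-- Two homomorphisms which agree on generators of the field are equal. -/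
theorem hom_ext {N : ℕ} {K L : Type} [Field K] [Algebra ℂ K] [Field L] [Algebra ℂ L]
    (x : Fin N → K) (hx : IntermediateField.adjoin ℂ (Set.range x) = ⊤) (φ ψ : K →ₐ[ℂ] L)
    (h : ∀ j, φ (x j) = ψ (x j)) (a : K) : φ a = ψ a := by
  have ha : a ∈ IntermediateField.adjoin ℂ (Set.range x) := by rw [hx]; trivial
  induction ha using IntermediateField.adjoin_induction with
  | mem a ha =>
    obtain ⟨j, rfl⟩ := ha
    exact h j
  | algebraMap c => rw [φ.commutes, ψ.commutes]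
  | add a b _ _ iha ihb => rw [map_add, map_add, iha, ihb]
  | inv a _ iha => rw [map_inv₀, map_inv₀, iha]
  | mul a b _ _ iha ihb => rw [map_mul, map_mul, iha, ihb]

theorem rot_ge {F : Type} [Field F] [Algebra ℂ F] (Λ : LField F) (ζ : ℂˣ) (k : ℤ) (a : Λ.L)
    (h : Λ.Ge k a) : Λ.Ge k (Λ.rot ζ a) := by
  rcases h with h | h
  · exact Or.inl (by rw [h, map_zero])
  · refine Or.inr ?_
    change k ≤ Λ.ord (Λ.rot ζ a)
    rw [Λ.rot_ord]
    exact h

end INR

theorem t_INR : S_INR := by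
  intro hWRD hHEN hSOL n N r K _ _ f x w P Λ y hf hy hx ι hι τ c E ζ hE hζ hc hτ hsemi a
  have hζ0 : (ζ : ℂ) ≠ 0 := ζ.ne_zero
  have hc0 : ∀ j, c j ≠ 0 := fun j => by rw [hc j]; exact pow_ne_zero _ hζ0
  have hcL : ∀ j, algebraMap ℂ Λ.L (c j) ≠ 0 := fun j h => hc0 j ((map_eq_zero _).1 h)
  set y' : Fin N → Λ.L := fun j => algebraMap ℂ Λ.L (c j)⁻¹ * Λ.rot ζ (y j) with hy'
  have hrot : ∀ j, Λ.rot ζ (y j) = algebraMap ℂ Λ.L (c j) * y' j := fun j => by
    simp only [hy']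
    rw [map_inv₀, mul_inv_cancel_left₀ (hcL j)]
  have hmon : ∀ j, algebraMap ℂ Λ.L (c j)⁻¹ * Λ.rot ζ (Λ.s ^ w j * Λ.emb (P.ξ j)) =
      Λ.s ^ w j * Λ.emb (P.ξ j) := fun j => by
    rw [map_mul, map_pow, Λ.rot_s, Λ.rot_emb, mul_pow, ← map_pow, ← hc j, map_inv₀, mul_assoc,
      inv_mul_cancel_left₀ (hcL j)]
  have hsol : Sol P Λ f w y' := by
    refine ⟨fun k => ?_, fun j => ?_, fun i => ?_⟩
    · simp only [hy']
      rw [hy.free k]
      exact hmon _
    · have h1 : y' j - Λ.s ^ w j * Λ.emb (P.ξ j) =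
          algebraMap ℂ Λ.L (c j)⁻¹ * Λ.rot ζ (y j - Λ.s ^ w j * Λ.emb (P.ξ j)) := by
        rw [map_sub, mul_sub, hmon j]
      rw [h1]
      have h2 := INR.rot_ge Λ ζ _ _ (hy.lead j)
      have h3 := (DivVal.Ge.const Λ.val (c j)⁻¹).mul h2
      rwa [zero_add] at h3
    · have h0 : aeval (fun j => Λ.rot ζ (y j)) (f i) = 0 := by
        have h1 := congrArg (Λ.rot ζ) (hy.zero i)
        rw [map_zero] at h1
        rw [← h1]
        exact (MvPolynomial.comp_aeval_apply y (Λ.rot ζ) (f i)).symm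
      obtain ⟨u₀, hu₀⟩ := MvPolynomial.support_nonempty.2 (hf i)
      have h2 : aeval (fun j => Λ.rot ζ (y j)) (f i) =
          algebraMap ℂ Λ.L (∏ j, c j ^ u₀ j) * aeval y' (f i) := by
        rw [← INR.aeval_scale (f i) c y' _ fun u hu => hsemi i u hu u₀ hu₀]
        congr 2
        funext j
        exact hrot j
      rw [h0] at h2
      rcases mul_eq_zero.1 h2.symm with h3 | h3
      · exact absurd ((map_eq_zero _).1 h3)
          (Finset.prod_ne_zero_iff.2 fun j _ => pow_ne_zero _ (hc0 j))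
      · exact h3
  have hyy : y' = y := (hSOL hWRD hHEN f w P Λ hf).2 y' y hsol hy
  refine INR.hom_ext x hx ((Λ.rot ζ).comp ι) (ι.comp (τ : K →ₐ[ℂ] K)) (fun j => ?_) a
  change Λ.rot ζ (ι (x j)) = ι (τ (x j))
  rw [hτ j, map_mul, ι.commutes, hι j, hrot j, hyy]

end NDQ
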