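import Pool.Agent.NDQ.IND
import Pool.Agent.MldGeo.EXR
import Pool.Agent.MldGeo.HT1
import Pool.Agent.MldGeo.TBAS

/-!
# JAC: the Jacobian criterion at a divisorial valuation
-/

set_option autoImplicit false

namespace NDQ

open MldGeo MldGap MldAcc MldQ MvPolynomial

noncomputable section

namespace JAC

/-! ### the residue field -/

section Res

variable {n : ℕ} {K : Type} [Field K] [Algebra ℂ K] (v : DivVal n K)

theorem inv_mem {x : EXR.O v} (h : x ∉ EXR.m v) : ∃ y : EXR.O v, x * y = 1 := by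
  obtain ⟨h1, h2⟩ := EXR.not_mem_m v h
  refine ⟨⟨(x : K)⁻¹, Or.inr (by rw [EXR.ord_inv v h1, h2]; simp)⟩,
    Subtype.ext (mul_inv_cancel₀ h1)⟩

instance isMax : (EXR.m v).IsMaximal := by
  rw [Ideal.isMaximal_iff]
  refine ⟨fun h => (EXR.m_prime v).ne_top ((Ideal.eq_top_iff_one _).2 h), fun J x _ hx hxJ => ?_⟩
  obtain ⟨y, hy⟩ := inv_mem v hx
  rw [← hy]
  exact J.mul_mem_right y hxJ

instance fieldRes : Field (EXR.Res v) := Ideal.Quotient.field _

/-- the residue -/
def q : EXR.O v →+* EXR.Res v := Ideal.Quotient.mk (EXR.m v)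

theorem q_eq_zero {a : EXR.O v} : q v a = 0 ↔ v.Ge 1 (a : K) :=
  Ideal.Quotient.eq_zero_iff_mem

theorem q_surj : Function.Surjective (q v) := Ideal.Quotient.mk_surjective

theorem q_const (c : ℂ) : q v (algebraMap ℂ (EXR.O v) c) = algebraMap ℂ (EXR.Res v) c := rfl

theorem algInd_q {ι : Type} (u : ι → EXR.O v) :
    AlgebraicIndependent ℂ (fun i => q v (u i)) ↔
      ∀ p : MvPolynomial ι ℂ, p ≠ 0 →
        aeval (fun i => (u i : K)) p ≠ 0 ∧ v.ord (aeval (fun i => (u i : K)) p) = 0 :=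
  EXR.algInd_iff v u

theorem indMod_of {ι : Type} (u : ι → EXR.O v) (h : AlgebraicIndependent ℂ (fun i => q v (u i))) :
    HT1.IndMod (EXR.m v) u := by
  intro p hp hmem
  apply hp
  rw [algebraicIndependent_iff] at h
  apply h
  have h1 : aeval (fun i => q v (u i)) p = q v (aeval u p) := by
    have h2 : (aeval fun i => q v (u i)) =
        (Ideal.Quotient.mkₐ ℂ (EXR.m v)).comp (aeval u) := by
      refine MvPolynomial.algHom_ext fun i => ?_
      simp [q]
    rw [h2]
    rfl
  rw [h1]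
  exact Ideal.Quotient.eq_zero_iff_mem.2 hmem

theorem card_le {ι : Type} (htr : Algebra.trdeg ℂ K = (n : Cardinal)) (u : ι → EXR.O v)
    (h : AlgebraicIndependent ℂ (fun i => q v (u i))) :
    Cardinal.mk ι + 1 ≤ (n : Cardinal) := by
  obtain ⟨t, ht0, ht⟩ := v.unif
  have htO : t ∈ EXR.O v := Or.inr (by rw [ht]; norm_num)
  have h1 := HT1.indMod_option (EXR.m v) ⊥ Ideal.isPrime_bot bot_le u (indMod_of v u h)
    ⟨t, htO⟩ (Or.inr (by rw [ht])) (by
      intro h0
      exact ht0 (congrArg Subtype.val (Ideal.mem_bot.1 h0)))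
  have h2 : AlgebraicIndependent ℂ
      (fun o : Option ι => ((o.elim ⟨t, htO⟩ u : EXR.O v) : K)) := by
    rw [algebraicIndependent_iff]
    intro p hp
    by_contra hp0
    apply h1 p hp0
    have h3 : aeval (fun o : Option ι => ((o.elim ⟨t, htO⟩ u : EXR.O v) : K)) p =
        ((aeval (fun o : Option ι => o.elim (⟨t, htO⟩ : EXR.O v) u) p : EXR.O v) : K) :=
      (MvPolynomial.comp_aeval_apply _ (EXR.O v).val p).symm
    rw [h3] at hp
    have h4 : aeval (fun o : Option ι => o.elim (⟨t, htO⟩ : EXR.O v) u) p = 0 := by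
      exact_mod_cast hp
    rw [h4]
    exact Ideal.zero_mem _
  have h5 := h2.cardinalMk_le_trdeg
  rw [htr] at h5
  simpa using h5

theorem trdeg_res (hn : 0 < n) (htr : Algebra.trdeg ℂ K = (n : Cardinal)) :
    Algebra.trdeg ℂ (EXR.Res v) = ((n - 1 : ℕ) : Cardinal) := by
  apply le_antisymm
  · obtain ⟨s, hs⟩ := exists_isTranscendenceBasis ℂ (EXR.Res v)
    rw [← hs.cardinalMk_eq_trdeg]
    choose y hy using fun i : s => q_surj v (i : EXR.Res v)
    have h1 : AlgebraicIndependent ℂ (fun i => q v (y i)) := by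
      have h2 : (fun i => q v (y i)) = ((↑) : s → EXR.Res v) := funext hy
      rw [h2]
      exact hs.1
    have h3 := card_le v htr y h1
    have h4 : Cardinal.mk s < Cardinal.aleph0 :=
      lt_of_le_of_lt ((self_le_add_right _ _).trans h3) Cardinal.natCast_lt_aleph0
    obtain ⟨k, hk⟩ := Cardinal.lt_aleph0.1 h4
    rw [hk] at h3 ⊢
    have h5 : k + 1 ≤ n := by exact_mod_cast h3
    have h6 : k ≤ n - 1 := by omega
    exact_mod_cast h6
  · obtain ⟨u, hu⟩ := v.res
    have hu0 : ∀ j, u j ∈ EXR.O v := fun j => by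
      have h := hu (X j) (X_ne_zero j)
      rw [aeval_X] at h
      exact Or.inr h.2.ge
    have h1 := ((algInd_q v fun j => ⟨u j, hu0 j⟩).2 hu).cardinalMk_le_trdeg
    simpa using h1

/-- a derivation of the residue field which kills a transcendence basis is zero -/
theorem der_zero {k : ℕ} {κ : Type} [Field κ] [Algebra ℂ κ]
    (htr : Algebra.trdeg ℂ κ = (k : Cardinal)) (u : Fin k → κ) (hu : AlgebraicIndependent ℂ u)
    (D : Derivation ℂ κ κ) (hD : ∀ i, D (u i) = 0) (a : κ) : D a = 0 := by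
  obtain ⟨-, hsp⟩ := t_TBAS htr u hu
  have h1 : D.liftKaehlerDifferential = 0 := by
    refine LinearMap.ext_on_range hsp fun i => ?_
    rw [Derivation.liftKaehlerDifferential_comp_D, hD]
    rfl
  rw [← Derivation.liftKaehlerDifferential_comp_D, h1]
  rfl

/-- a derivation from the valuation ring to the residue field which kills a frame is zero -/
theorem frame_zero (hn : 0 < n) (htr : Algebra.trdeg ℂ K = (n : Cardinal))
    (δ : EXR.O v → EXR.Res v) (hadd : ∀ a b, δ (a + b) = δ a + δ b)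
    (hmul : ∀ a b, δ (a * b) = q v a * δ b + q v b * δ a)
    (hc : ∀ c : ℂ, δ (algebraMap ℂ (EXR.O v) c) = 0) (t : EXR.O v) (ht0 : (t : K) ≠ 0)
    (ht : v.ord (t : K) = 1) (hδt : δ t = 0) (u : Fin (n - 1) → EXR.O v)
    (hu : AlgebraicIndependent ℂ (fun i => q v (u i))) (hδu : ∀ i, δ (u i) = 0)
    (a : EXR.O v) : δ a = 0 := by
  have hm : ∀ b : EXR.O v, q v b = 0 → δ b = 0 := by
    intro b hb
    rw [q_eq_zero] at hb
    have h1 : v.Ge 0 ((b : K) / t) := by
      rcases hb with hb | hb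
      · exact Or.inl (by rw [hb, zero_div])
      · by_cases hb0 : (b : K) = 0
        · exact Or.inl (by rw [hb0, zero_div])
        · right
          rw [div_eq_mul_inv, v.ord_mul _ _ hb0 (inv_ne_zero ht0), EXR.ord_inv v ht0, ht]
          omega
    have h2 : b = t * ⟨(b : K) / t, h1⟩ := by
      apply Subtype.ext
      change (b : K) = (t : K) * ((b : K) / t)
      rw [mul_div_cancel₀ _ ht0]
    have h3 : q v t = 0 := (q_eq_zero v).2 (Or.inr (by rw [ht]))
    rw [h2, hmul, h3, hδt, zero_mul, mul_zero, add_zero]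
  have hrep : ∀ a b : EXR.O v, q v a = q v b → δ a = δ b := by
    intro a b hab
    have h1 : q v (a - b) = 0 := by rw [map_sub, hab, sub_self]
    have h2 := hadd (a - b) b
    rw [sub_add_cancel, hm _ h1, zero_add] at h2
    exact h2
  obtain ⟨o, ho⟩ := (q_surj v).hasRightInverse
  let D0 : EXR.Res v →ₗ[ℂ] EXR.Res v :=
    { toFun := fun a => δ (o a)
      map_add' := fun a b => by
        rw [← hadd]
        exact hrep _ _ (by rw [map_add, ho, ho, ho])
      map_smul' := fun c a => by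
        rw [RingHom.id_apply, Algebra.smul_def, Algebra.smul_def]
        have h1 : δ (o (algebraMap ℂ (EXR.Res v) c * a)) = δ (algebraMap ℂ (EXR.O v) c * o a) :=
          hrep _ _ (by rw [map_mul, ho, ho, q_const])
        rw [h1, hmul, hc, q_const, mul_zero, add_zero] }
  let D : Derivation ℂ (EXR.Res v) (EXR.Res v) := Derivation.mk' D0 (fun a b => by
    change δ (o (a * b)) = a • δ (o b) + b • δ (o a)
    have h1 : δ (o (a * b)) = δ (o a * o b) := hrep _ _ (by rw [map_mul, ho, ho, ho])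
    rw [h1, hmul, ho, ho, smul_eq_mul, smul_eq_mul])
  have h1 : ∀ i, D (q v (u i)) = 0 := fun i => by
    change δ (o (q v (u i))) = 0
    rw [← hδu i]
    exact hrep _ _ (by rw [ho])
  have h2 := der_zero (trdeg_res v hn htr) _ hu D h1 (q v a)
  rw [← h2]
  change δ a = δ (o (q v a))
  exact hrep _ _ (by rw [ho])

end Res

/-! ### the derivations -/

section Der

variable {n N r : ℕ} {K : Type} [Field K] [Algebra ℂ K] (v : DivVal n K)
  (x : Fin N → EXR.O v)

/-- the residue of the value of a polynomial -/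
def e : MvPolynomial (Fin N) ℂ →ₐ[ℂ] EXR.Res v :=
  (Ideal.Quotient.mkₐ ℂ (EXR.m v)).comp (aeval x)

theorem e_apply (p : MvPolynomial (Fin N) ℂ) : e v x p = q v (aeval x p) := rfl

theorem coe_aeval (p : MvPolynomial (Fin N) ℂ) :
    ((aeval x p : EXR.O v) : K) = aeval (fun j => (x j : K)) p :=
  MvPolynomial.comp_aeval_apply _ (EXR.O v).val p

theorem e_eq_zero (p : MvPolynomial (Fin N) ℂ) :
    e v x p = 0 ↔ v.Ge 1 (aeval (fun j => (x j : K)) p) := by
  rw [e_apply, q_eq_zero, coe_aeval]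

theorem e_ne (p : MvPolynomial (Fin N) ℂ) (h0 : aeval (fun j => (x j : K)) p ≠ 0)
    (h1 : v.ord (aeval (fun j => (x j : K)) p) = 0) : e v x p ≠ 0 := by
  rw [Ne, e_eq_zero]
  rintro (h | h)
  · exact h0 h
  · omega

/-- the derivative in the direction `d` -/
def pd (p : MvPolynomial (Fin N) ℂ) : (Fin N → EXR.Res v) →ₗ[EXR.Res v] EXR.Res v :=
  ∑ j, e v x (pderiv j p) • LinearMap.proj j

theorem pd_apply (p : MvPolynomial (Fin N) ℂ) (d : Fin N → EXR.Res v) :
    pd v x p d = ∑ j, e v x (pderiv j p) * d j := by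
  simp [pd]

theorem pd_add (p p' : MvPolynomial (Fin N) ℂ) (d : Fin N → EXR.Res v) :
    pd v x (p + p') d = pd v x p d + pd v x p' d := by
  simp only [pd_apply, map_add, add_mul, Finset.sum_add_distrib]

theorem pd_mul (p p' : MvPolynomial (Fin N) ℂ) (d : Fin N → EXR.Res v) :
    pd v x (p * p') d = e v x p * pd v x p' d + e v x p' * pd v x p d := by
  simp only [pd_apply, Derivation.leibniz, smul_eq_mul, map_add, map_mul, Finset.mul_sum,
    ← Finset.sum_add_distrib]
  exact Finset.sum_congr rfl fun j _ => by ring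

theorem pd_C (c : ℂ) (d : Fin N → EXR.Res v) : pd v x (C c) d = 0 := by
  simp [pd_apply]

theorem pd_one (d : Fin N → EXR.Res v) : pd v x 1 d = 0 := by
  have := pd_C v x 1 d
  rwa [C_1] at this

theorem pd_X (j : Fin N) (d : Fin N → EXR.Res v) : pd v x (X j) d = d j := by
  classical
  rw [pd_apply, Finset.sum_eq_single j]
  · simp
  · intro b _ hb
    rw [pderiv_X_of_ne hb.symm, map_zero, zero_mul]
  · intro h
    exact absurd (Finset.mem_univ j) h

theorem pd_neg (p : MvPolynomial (Fin N) ℂ) (d : Fin N → EXR.Res v) :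
    pd v x (-p) d = - pd v x p d := by
  simp only [pd_apply, map_neg, neg_mul, Finset.sum_neg_distrib]

variable (f : Fin r → MvPolynomial (Fin N) ℂ) (hf : ∀ i, e v x (f i) = 0)
  (heq : ∀ p : MvPolynomial (Fin N) ℂ, aeval x p = 0 →
    ∃ s : MvPolynomial (Fin N) ℂ, e v x s ≠ 0 ∧ s * p ∈ Ideal.span (Set.range f))
  (hrep : ∀ a : EXR.O v, ∃ p s : MvPolynomial (Fin N) ℂ, e v x s ≠ 0 ∧
    a * aeval x s = aeval x p)

include hf in
theorem span_zero (d : Fin N → EXR.Res v) (hd : ∀ i, pd v x (f i) d = 0)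
    (g : MvPolynomial (Fin N) ℂ) (hg : g ∈ Ideal.span (Set.range f)) :
    e v x g = 0 ∧ pd v x g d = 0 := by
  induction hg using Submodule.span_induction with
  | mem y hy =>
    obtain ⟨i, rfl⟩ := hy
    exact ⟨hf i, hd i⟩
  | zero =>
    refine ⟨map_zero _, ?_⟩
    simp [pd_apply]
  | add y z _ _ hy hz =>
    refine ⟨by rw [map_add, hy.1, hz.1, add_zero], ?_⟩
    rw [pd_add, hy.2, hz.2, add_zero]
  | smul a y _ hy =>
    refine ⟨by rw [smul_eq_mul, map_mul, hy.1, mul_zero], ?_⟩
    rw [smul_eq_mul, pd_mul, hy.1, hy.2, mul_zero, zero_mul, add_zero]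

include hf heq in
theorem null (d : Fin N → EXR.Res v) (hd : ∀ i, pd v x (f i) d = 0)
    (g : MvPolynomial (Fin N) ℂ) (hg : aeval x g = 0) : pd v x g d = 0 := by
  obtain ⟨s, hs, hsg⟩ := heq g hg
  have h1 := (span_zero v x f hf d hd _ hsg).2
  have h2 : e v x g = 0 := by rw [e_apply, hg, map_zero]
  rw [pd_mul, h2, zero_mul, add_zero] at h1
  exact (mul_eq_zero.1 h1).resolve_left hs

/-- the derivation in the direction `d` -/
def del (P S : EXR.O v → MvPolynomial (Fin N) ℂ) (a : EXR.O v) :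
    (Fin N → EXR.Res v) →ₗ[EXR.Res v] EXR.Res v :=
  (e v x (S a))⁻¹ • (pd v x (P a) - q v a • pd v x (S a))

theorem del_apply (P S : EXR.O v → MvPolynomial (Fin N) ℂ) (a : EXR.O v)
    (hS : e v x (S a) ≠ 0) (d : Fin N → EXR.Res v) :
    pd v x (P a) d = del v x P S a d * e v x (S a) + q v a * pd v x (S a) d := by
  simp only [del, LinearMap.smul_apply, LinearMap.sub_apply, smul_eq_mul]
  field_simp
  ring

include hf heq in
theorem char (P S : EXR.O v → MvPolynomial (Fin N) ℂ) (hS : ∀ a, e v x (S a) ≠ 0)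
    (hPS : ∀ a, a * aeval x (S a) = aeval x (P a)) (d : Fin N → EXR.Res v)
    (hd : ∀ i, pd v x (f i) d = 0) (a : EXR.O v) (p s : MvPolynomial (Fin N) ℂ)
    (hps : a * aeval x s = aeval x p) :
    pd v x p d = del v x P S a d * e v x s + q v a * pd v x s d := by
  have h1 : aeval x (p * S a + -(P a * s)) = 0 := by
    rw [map_add, map_neg, map_mul, map_mul, ← hps, ← hPS]
    ring
  have h2 := null v x f hf heq d hd _ h1
  rw [pd_add, pd_neg, pd_mul, pd_mul] at h2
  have h3 := del_apply v x P S a (hS a) d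
  have h4 : e v x p = q v a * e v x s := by
    rw [e_apply, e_apply, ← hps, map_mul]
  have h5 : e v x (P a) = q v a * e v x (S a) := by
    rw [e_apply, e_apply, ← hPS, map_mul]
  rw [h4, h5, h3] at h2
  apply mul_left_cancel₀ (hS a)
  linear_combination h2

include hf heq in
theorem del_add (P S : EXR.O v → MvPolynomial (Fin N) ℂ) (hS : ∀ a, e v x (S a) ≠ 0)
    (hPS : ∀ a, a * aeval x (S a) = aeval x (P a)) (d : Fin N → EXR.Res v)
    (hd : ∀ i, pd v x (f i) d = 0) (a b : EXR.O v) :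
    del v x P S (a + b) d = del v x P S a d + del v x P S b d := by
  have h1 := char v x f hf heq P S hS hPS d hd (a + b) (P a * S b + P b * S a) (S a * S b)
    (by rw [map_add, map_mul, map_mul, map_mul, ← hPS, ← hPS]; ring)
  have h2 := del_apply v x P S a (hS a) d
  have h3 := del_apply v x P S b (hS b) d
  have h5 : e v x (P a) = q v a * e v x (S a) := by rw [e_apply, e_apply, ← hPS, map_mul]
  have h6 : e v x (P b) = q v b * e v x (S b) := by rw [e_apply, e_apply, ← hPS, map_mul]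
  rw [pd_add, pd_mul, pd_mul, pd_mul, h2, h3, h5, h6, map_add, map_mul] at h1
  apply mul_right_cancel₀ (mul_ne_zero (hS a) (hS b))
  linear_combination -h1

include hf heq in
theorem del_mul (P S : EXR.O v → MvPolynomial (Fin N) ℂ) (hS : ∀ a, e v x (S a) ≠ 0)
    (hPS : ∀ a, a * aeval x (S a) = aeval x (P a)) (d : Fin N → EXR.Res v)
    (hd : ∀ i, pd v x (f i) d = 0) (a b : EXR.O v) :
    del v x P S (a * b) d = q v a * del v x P S b d + q v b * del v x P S a d := by
  have h1 := char v x f hf heq P S hS hPS d hd (a * b) (P a * P b) (S a * S b)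
    (by rw [map_mul, map_mul, ← hPS, ← hPS]; ring)
  have h2 := del_apply v x P S a (hS a) d
  have h3 := del_apply v x P S b (hS b) d
  have h5 : e v x (P a) = q v a * e v x (S a) := by rw [e_apply, e_apply, ← hPS, map_mul]
  have h6 : e v x (P b) = q v b * e v x (S b) := by rw [e_apply, e_apply, ← hPS, map_mul]
  rw [pd_mul, pd_mul, h2, h3, h5, h6, map_mul, map_mul] at h1
  apply mul_right_cancel₀ (mul_ne_zero (hS a) (hS b))
  linear_combination -h1

include hf heq in
theorem del_const (P S : EXR.O v → MvPolynomial (Fin N) ℂ) (hS : ∀ a, e v x (S a) ≠ 0)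
    (hPS : ∀ a, a * aeval x (S a) = aeval x (P a)) (d : Fin N → EXR.Res v)
    (hd : ∀ i, pd v x (f i) d = 0) (c : ℂ) :
    del v x P S (algebraMap ℂ (EXR.O v) c) d = 0 := by
  have h1 := char v x f hf heq P S hS hPS d hd (algebraMap ℂ (EXR.O v) c) (C c) 1
    (by rw [map_one, mul_one, aeval_C])
  rw [pd_C, pd_one, map_one, mul_one, mul_zero, add_zero] at h1
  exact h1.symm

include hf heq in
theorem del_x (P S : EXR.O v → MvPolynomial (Fin N) ℂ) (hS : ∀ a, e v x (S a) ≠ 0)
    (hPS : ∀ a, a * aeval x (S a) = aeval x (P a)) (d : Fin N → EXR.Res v)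
    (hd : ∀ i, pd v x (f i) d = 0) (j : Fin N) :
    del v x P S (x j) d = d j := by
  have h1 := char v x f hf heq P S hS hPS d hd (x j) (X j) 1
    (by rw [map_one, mul_one, aeval_X])
  rw [pd_X, pd_one, map_one, mul_one, mul_zero, add_zero] at h1
  exact h1.symm

include hf heq hrep in
/-- the rows of the Jacobian matrix are independent modulo the maximal ideal -/
theorem rows (hn : 0 < n) (htr : Algebra.trdeg ℂ K = (n : Cardinal)) (hN : n + r = N) :
    LinearIndependent (EXR.Res v) fun (i : Fin r) (j : Fin N) => e v x (pderiv j (f i)) := by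
  classical
  by_contra hdep
  choose P S hS hPS using hrep
  obtain ⟨t, ht0, ht⟩ := v.unif
  have htO : t ∈ EXR.O v := Or.inr (by rw [ht]; norm_num)
  obtain ⟨u, hu⟩ := v.res
  have hu0 : ∀ j, u j ∈ EXR.O v := fun j => by
    have h := hu (X j) (X_ne_zero j)
    rw [aeval_X] at h
    exact Or.inr h.2.ge
  have huI := (algInd_q v fun j => ⟨u j, hu0 j⟩).2 hu
  let A : Matrix (Fin r) (Fin N) (EXR.Res v) := Matrix.of fun i j => e v x (pderiv j (f i))
  have hA : ∀ d i, A.mulVecLin d i = pd v x (f i) d := fun d i => by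
    rw [pd_apply]
    rfl
  have hrank : A.rank < r := by
    have h1 : A.rank ≤ r := by simpa using A.rank_le_card_height
    refine lt_of_le_of_ne h1 fun h2 => hdep ?_
    have h3 : LinearIndependent (EXR.Res v) A.row := by
      rw [linearIndependent_iff_card_eq_finrank_span, Set.finrank, ← Matrix.rank_eq_finrank_span_row,
        h2, Fintype.card_fin]
    exact h3
  have hker : n < Module.finrank (EXR.Res v) (LinearMap.ker A.mulVecLin) := by
    have h1 := LinearMap.finrank_range_add_finrank_ker A.mulVecLin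
    rw [Module.finrank_fin_fun] at h1
    have h2 : A.rank = Module.finrank (EXR.Res v) (LinearMap.range A.mulVecLin) := rfl
    omega
  let Φ : (Fin N → EXR.Res v) →ₗ[EXR.Res v] (EXR.Res v × (Fin (n - 1) → EXR.Res v)) :=
    (del v x P S ⟨t, htO⟩).prod (LinearMap.pi fun i => del v x P S ⟨u i, hu0 i⟩)
  have h1 : LinearMap.ker (Φ.domRestrict (LinearMap.ker A.mulVecLin)) ≠ ⊥ := by
    apply LinearMap.ker_ne_bot_of_finrank_lt
    rw [Module.finrank_prod, Module.finrank_fin_fun, Module.finrank_self]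
    omega
  obtain ⟨⟨d, hd⟩, hdk, hd0⟩ := Submodule.exists_mem_ne_zero_of_ne_bot h1
  have hd' : ∀ i, pd v x (f i) d = 0 := fun i => by
    rw [← hA]
    exact congrFun (LinearMap.mem_ker.1 hd) i
  have h2 : Φ d = 0 := LinearMap.mem_ker.1 hdk
  have h3 : del v x P S ⟨t, htO⟩ d = 0 := congrArg Prod.fst h2
  have h4 : ∀ i, del v x P S ⟨u i, hu0 i⟩ d = 0 := fun i => congrFun (congrArg Prod.snd h2) i
  apply hd0
  apply Subtype.ext
  funext j
  change d j = 0
  rw [← del_x v x f hf heq P S hS hPS d hd' j]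
  exact frame_zero v hn htr (fun a => del v x P S a d)
    (del_add v x f hf heq P S hS hPS d hd') (del_mul v x f hf heq P S hS hPS d hd')
    (del_const v x f hf heq P S hS hPS d hd') ⟨t, htO⟩ ht0 ht h3 _ huI h4 (x j)

end Der

end JAC

theorem t_JAC : S_JAC := by
  intro n N r K _ _ f x v htr hn hN hx hgen heqn hf
  let x' : Fin N → EXR.O v := fun j => ⟨x j, hx j⟩
  have hc : ∀ p : MvPolynomial (Fin N) ℂ, ((aeval x' p : EXR.O v) : K) = aeval x p :=
    fun p => JAC.coe_aeval v x' p
  have hne : ∀ s : MvPolynomial (Fin N) ℂ, aeval x s ≠ 0 → v.ord (aeval x s) = 0 →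
      JAC.e v x' s ≠ 0 := fun s h0 h1 => JAC.e_ne v x' s h0 h1
  have h1 := JAC.rows v x' f (fun i => (JAC.e_eq_zero v x' _).2 (Or.inl (hf i)))
    (fun p hp => by
      have h2 : aeval x p = 0 := by rw [← hc, hp]; rfl
      obtain ⟨s, hs0, hs1, hs⟩ := heqn p h2
      exact ⟨s, hne s hs0 hs1, hs⟩)
    (fun a => by
      obtain ⟨p, s, hs0, hs1, hps⟩ := hgen a a.2
      refine ⟨p, s, hne s hs0 hs1, Subtype.ext ?_⟩
      change (a : K) * ((aeval x' s : EXR.O v) : K) = _
      rw [hc, hc, hps]) hn htr hN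
  obtain ⟨σ, hσ⟩ := t_IND _ hN h1
  refine ⟨σ, ?_⟩
  let M : Matrix (Fin r) (Fin r) (EXR.O v) :=
    Matrix.of fun i j => aeval x' (pderiv (σ (Sum.inl j)) (f i))
  have h2 : ((M.det : EXR.O v) : K) = mnr f x σ := by
    have h3 : ((M.det : EXR.O v) : K) = (EXR.O v).val M.det := rfl
    rw [h3, AlgHom.map_det]
    unfold mnr
    congr 1
    ext i j
    exact hc _
  have h4 : JAC.q v M.det ≠ 0 := by
    rw [RingHom.map_det]
    exact hσ
  have h5 := EXR.not_mem_m v (x := M.det) (fun h => h4 (Ideal.Quotient.eq_zero_iff_mem.2 h))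
  rwa [h2] at h5

end

end NDQ
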