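import Pool.Agent.NDQ.St
import Pool.Agent.MldGeo.TDC

/-!
# LCN: the combinatorial model is log canonical
-/

set_option autoImplicit false

namespace NDQ

open MldGeo MldGap MldAcc MldQ MvPolynomial
open MldX (wdeg word initForm Nondegenerate InteriorPoint)
open scoped Pointwise

noncomputable section

namespace LCN

variable {N r : ℕ}

theorem lf_apply (u : Fin N →₀ ℕ) (y : Fin N → ℝ) : lf u y = ∑ j, (u j : ℝ) * y j := by
  simp [lf]

theorem ord_word (p : MvPolynomial (Fin N) ℂ) (z : Fin N → ℕ) (hW : S_WRD) (hp : p ≠ 0) :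
    MldAcc.ord (lf '' (p.support : Set (Fin N →₀ ℕ))) (fun l => (z l : ℝ)) = (word z p : ℝ) := by
  have h1 := hW p z
  obtain ⟨u, hu, hu2⟩ := h1.1 hp
  have h3 : ∀ u : Fin N →₀ ℕ, lf u (fun l => (z l : ℝ)) = (wdeg z u : ℝ) := by
    intro u
    rw [lf_apply, wdeg]
    push_cast
    exact Finset.sum_congr rfl fun j _ => mul_comm _ _
  unfold MldAcc.ord
  apply IsLeast.csInf_eq
  constructor
  · exact ⟨lf u, ⟨u, hu, rfl⟩, by simp only [h3, hu2]⟩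
  · rintro a ⟨m, ⟨u', hu', rfl⟩, rfl⟩
    simp only [h3]
    exact_mod_cast h1.2.1 u' hu'

theorem ord_mono (M : Set (Fin N →₀ ℕ)) (y y' : Fin N → ℝ) (h0 : ∀ j, 0 ≤ y j)
    (h : ∀ j, y j ≤ y' j) : MldAcc.ord (lf '' M) y ≤ MldAcc.ord (lf '' M) y' := by
  rcases M.eq_empty_or_nonempty with rfl | hM
  · simp [MldAcc.ord]
  unfold MldAcc.ord
  apply le_csInf ((hM.image _).image _)
  rintro a ⟨m, ⟨u, hu, rfl⟩, rfl⟩
  refine le_trans (csInf_le ?_ ⟨lf u, ⟨u, hu, rfl⟩, rfl⟩) ?_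
  · refine ⟨0, ?_⟩
    rintro b ⟨m, ⟨u', hu', rfl⟩, rfl⟩
    simp only [lf_apply]
    exact Finset.sum_nonneg fun j _ => mul_nonneg (Nat.cast_nonneg _) (h0 j)
  · simp only [lf_apply]
    exact Finset.sum_le_sum fun j _ => mul_le_mul_of_nonneg_left (h j) (Nat.cast_nonneg _)

theorem ord_scale (A : Set ((Fin N → ℝ) →ₗ[ℝ] ℝ)) (y : Fin N → ℝ) (k : ℝ) (hk : 0 ≤ k) :
    MldAcc.ord A (fun j => k * y j) = k * MldAcc.ord A y := by
  unfold MldAcc.ord
  have h1 : (fun m : (Fin N → ℝ) →ₗ[ℝ] ℝ => m fun j => k * y j) '' A =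
      k • ((fun m : (Fin N → ℝ) →ₗ[ℝ] ℝ => m y) '' A) := by
    rw [← Set.image_smul, Set.image_image]
    refine Set.image_congr fun m _ => ?_
    have h2 : (fun j => k * y j) = k • y := by
      ext j
      simp
    rw [h2, map_smul]
  rw [h1, Real.sInf_smul_of_nonneg hk, smul_eq_mul]

theorem main (hW : S_WRD) (hP : S_PTH) (hM : S_MUW) {n : ℕ} (X : Germ n) (T : Triple X)
    (g : X.K ≃ₐ[ℂ] X.K) (D : NData T g) (hn : 0 < n) (E : ℕ) (z : Fin D.N → ℕ) (hE : 0 < E)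
    (hz : ∀ j, 0 < z j)
    (hd : ∀ i, ∀ u ∈ (D.f i).support, ∀ u' ∈ (D.f i).support,
      (E : ℤ) ∣ (wdeg z u : ℤ) - wdeg z u') :
    ∃ (z' h : Fin D.N → ℕ) (μ : DivVal n X.K) (δ : ℕ), z' = z + E • h ∧ 0 < δ ∧ X.At μ ∧
      δ * T.disc μ ≤ D.Q.disc (fun l => (z l : ℝ)) ∧
      ∀ (τ : X.K ≃ₐ[ℂ] X.K) (c : Fin D.N → ℂ),
        (∀ j, c j = Complex.exp (2 * Real.pi * Complex.I * z' j / E)) →
        (∀ j, τ (D.x j) = algebraMap ℂ X.K (c j) * D.x j) → Semi D.f c →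
        ∀ a : X.K, a ≠ 0 → τ a = a → (E : ℤ) ∣ δ * μ.ord a := by
  obtain ⟨h, h1, h2⟩ := hP D.f D.f_ne D.f_zero D.ci.nondeg D.ci.interior E z hE hz hd
  have hz' : ∀ j, 0 < (z + E • h) j := fun j => lt_of_lt_of_le (hz j) (by simp)
  obtain ⟨μ, δ, hδ, hAt, h3, h4, h5⟩ := hM X D.f D.x D.ω hn D.ci D.can (z + E • h) hz' h1
  refine ⟨z + E • h, h, μ, δ, rfl, hδ, hAt, ?_, fun τ c hc hx hs a ha ht =>
    h5 τ c E hE hc hx hs a ha ht⟩
  have hδ0 : (0 : ℝ) < δ := by exact_mod_cast hδ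
  have hle : ∀ j, (z j : ℝ) ≤ δ * (μ.ord (D.x j) : ℝ) := by
    intro j
    have h6 : (z j : ℤ) ≤ δ * μ.ord (D.x j) := by
      rw [h3 j]
      exact_mod_cast (by simp : z j ≤ (z + E • h) j)
    exact_mod_cast h6
  rw [D.ldisc μ (TDC.at_through hAt), D.tq.disc]
  have e1 : ((δ : ℝ) * (μ.logOrd D.ω : ℝ)) ≤ ∑ j, (z j : ℝ) -
      ∑ i, MldAcc.ord (lf '' ((D.f i).support : Set (Fin D.N →₀ ℕ))) (fun l => (z l : ℝ)) := by
    have h6 : (δ : ℤ) * μ.logOrd D.ω ≤ ld D.f z := le_trans h4 h2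
    have h7 : ((ld D.f z : ℤ) : ℝ) = ∑ j, (z j : ℝ) -
        ∑ i, MldAcc.ord (lf '' ((D.f i).support : Set (Fin D.N →₀ ℕ))) (fun l => (z l : ℝ)) := by
      unfold ld
      push_cast
      congr 1
      exact Finset.sum_congr rfl fun i _ => (ord_word _ _ hW (D.f_ne i)).symm
    rw [← h7]
    exact_mod_cast h6
  have e2 : ∑ j, D.b j * (z j : ℝ) ≤ δ * ∑ j, D.b j * (μ.ord (D.x j) : ℝ) := by
    rw [Finset.mul_sum]
    refine Finset.sum_le_sum fun j _ => ?_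
    calc D.b j * (z j : ℝ) ≤ D.b j * (δ * (μ.ord (D.x j) : ℝ)) :=
          mul_le_mul_of_nonneg_left (hle j) (D.mono.b_nonneg j)
      _ = _ := by ring
  have e3 : ∑ j, T.r j * MldAcc.ord (lf '' D.M j) (fun l => (z l : ℝ)) ≤
      δ * ∑ j, T.r j * MldAcc.ord (lf '' D.M j) (fun l => (μ.ord (D.x l) : ℝ)) := by
    rw [Finset.mul_sum]
    refine Finset.sum_le_sum fun j _ => ?_
    calc T.r j * MldAcc.ord (lf '' D.M j) (fun l => (z l : ℝ)) ≤
          T.r j * MldAcc.ord (lf '' D.M j) (fun l => δ * (μ.ord (D.x l) : ℝ)) :=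
          mul_le_mul_of_nonneg_left (ord_mono _ _ _ (fun j => Nat.cast_nonneg _) hle)
            (T.r_nonneg j)
      _ = _ := by
          rw [ord_scale _ _ _ hδ0.le]
          ring
  rw [mul_sub, mul_sub]
  linarith

end LCN

theorem t_LCN : S_LCN := by
  intro hW hP hM n X T g D hn hT
  refine ⟨?_, fun E z hE hz hd => LCN.main hW hP hM X T g D hn E z hE hz hd⟩
  intro v hv
  obtain ⟨z, rfl⟩ := (D.tq.lattice v).1 hv.1
  have h1 := hv.2
  rw [D.tq.int] at h1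
  have h2 : ∀ j, 0 < z j := fun j => by
    have := h1 j
    simpa [toR] using this
  have h3 : toR z = fun l => ((z l).toNat : ℝ) := by
    ext j
    have h4 : ((z j).toNat : ℤ) = z j := Int.toNat_of_nonneg (h2 j).le
    have h5 : (((z j).toNat : ℤ) : ℝ) = (z j : ℝ) := by rw [h4]
    simp only [toR]
    rw [← h5, Int.cast_natCast]
  obtain ⟨z', h, μ, δ, _, hδ, hAt, h6, _⟩ := LCN.main hW hP hM X T g D hn 1
    (fun l => (z l).toNat) one_pos (fun j => by have := h2 j; simp only [Int.lt_toNat]; omega)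
    (fun i u _ u' _ => by simp)
  rw [h3]
  refine le_trans ?_ h6
  exact mul_nonneg (Nat.cast_nonneg _) (hT μ (TDC.at_through hAt))

end

end NDQ
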