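import Pool.Agent.NDQ.St

/-!
# LGD: the log discrepancies
-/

set_option autoImplicit false

namespace NDQ

open MldGeo MldGap MldAcc MldQ MvPolynomial
open MldX (wdeg word initForm Nondegenerate InteriorPoint)

noncomputable section

namespace LGD

/-- two nonzero forms differ by a factor -/
lemma exists_factor (hFRM : Stmt_FRM) (hFRA : Stmt_FRA) {n : ℕ} {K : Type} [Field K] [Algebra ℂ K]
    (h : Algebra.trdeg ℂ K = (n : Cardinal)) (hn : 0 < n) (v : DivVal n K) (ω ω' : Forms n K)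
    (h0 : ω ≠ 0) (h0' : ω' ≠ 0) : ∃ g : K, g ≠ 0 ∧ ω' = g • ω := by
  cases n with
  | zero => exact absurd hn (lt_irrefl 0)
  | succ m =>
    obtain ⟨⟨t, u, hf⟩, -⟩ := hFRA v
    obtain ⟨h1, h2, -⟩ := hFRM h v t u hf
    obtain ⟨a, ha⟩ := h2 ω
    obtain ⟨b, hb⟩ := h2 ω'
    have ha0 : a ≠ 0 := fun hz => h0 (by rw [ha, hz, zero_smul])
    have hb0 : b ≠ 0 := fun hz => h0' (by rw [hb, hz, zero_smul])
    refine ⟨b / a, div_ne_zero hb0 ha0, ?_⟩
    rw [ha, hb, smul_smul, div_mul_cancel₀ b ha0]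

end LGD

theorem t_LGD : S_LGD := by
  intro _ hFRM hFRA hFSM hTXT hUNQ n N X x ω T b hn hx hω hlog hdisc v hv
  obtain ⟨g, hg, hgω⟩ := LGD.exists_factor hFRM hFRA X.trdeg hn v ω T.ω hω T.ω_ne
  have key : ∀ w : DivVal n X.K,
      T.logDisc w = w.ord g + w.logOrd ω + ∑ i, T.c i * w.ord (T.f i) := by
    intro w
    unfold Triple.logDisc
    rw [hTXT X.trdeg w _ hn T.ω_ne, hgω, hFSM X.trdeg w g ω hn hg hω]
    push_cast
    ring
  have hsum : ∀ w : DivVal n X.K, ∑ o : Option (T.I ⊕ Fin N),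
      (o.elim 1 (Sum.elim T.c b) : ℝ) * w.ord (o.elim g (Sum.elim T.f x)) =
        w.ord g + (∑ i, T.c i * w.ord (T.f i) + ∑ j, b j * w.ord (x j)) := by
    intro w
    rw [Fintype.sum_option, Fintype.sum_sum_type]
    simp only [Option.elim, Sum.elim_inl, Sum.elim_inr, one_mul]
  have h := hUNQ X (fun o : Option (T.I ⊕ Fin N) => o.elim g (Sum.elim T.f x))
    (fun o => o.elim 1 (Sum.elim T.c b)) (by
      intro o
      rcases o with _ | (i | j)
      · exact hg
      · exact T.f_ne i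
      · exact hx j) (by
      intro w P hP hw
      rw [hsum]
      have h1 := key w
      rw [hdisc w P hP hw, hlog w P hP hw] at h1
      push_cast at h1
      linarith) v hv
  rw [hsum] at h
  rw [key]
  linarith

end

end NDQ
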