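import Pool.Agent.NDQ.St

set_option autoImplicit false

/-!
# LIN: complementary minors
-/

namespace NDQ

open MldGeo MldGap MldAcc MldQ MvPolynomial
open MldX (wdeg word initForm Nondegenerate InteriorPoint)

noncomputable section

namespace LIN

variable {n N r : ℕ} {K : Type} [Field K]

/-- the rows `G_i` and the unit rows `e_{σ(inr k)}`, columns indexed through `σ₀` -/
def S (G : Matrix (Fin r) (Fin N) K) (σ₀ σ : Fin r ⊕ Fin n ≃ Fin N) :
    Matrix (Fin r ⊕ Fin n) (Fin r ⊕ Fin n) K :=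
  Matrix.of fun a b => Sum.elim (fun i => G i (σ₀ b))
    (fun k => if σ₀ b = σ (Sum.inr k) then 1 else 0) a

/-- the unit columns and the columns of `M`, rows indexed through `σ₀` -/
def T (M : Matrix (Fin N) (Fin n) K) (σ₀ : Fin r ⊕ Fin n ≃ Fin N) :
    Matrix (Fin r ⊕ Fin n) (Fin r ⊕ Fin n) K :=
  Matrix.fromBlocks 1 (M.submatrix (fun j => σ₀ (Sum.inl j)) id) 0
    (M.submatrix (fun k => σ₀ (Sum.inr k)) id)

theorem det_T (M : Matrix (Fin N) (Fin n) K) (σ₀ : Fin r ⊕ Fin n ≃ Fin N) :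
    (T M σ₀).det = (M.submatrix (fun k => σ₀ (Sum.inr k)) id).det := by
  unfold T
  rw [Matrix.det_fromBlocks_zero₂₁, Matrix.det_one, one_mul]

theorem mul_ST (G : Matrix (Fin r) (Fin N) K) (M : Matrix (Fin N) (Fin n) K)
    (σ₀ σ : Fin r ⊕ Fin n ≃ Fin N) (h : G * M = 0) :
    S G σ₀ σ * T M σ₀ = Matrix.fromBlocks (G.submatrix id fun j => σ₀ (Sum.inl j)) 0
      (Matrix.of fun k j => if σ₀ (Sum.inl j) = σ (Sum.inr k) then 1 else 0)
      (M.submatrix (fun k => σ (Sum.inr k)) id) := by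
  ext (i | k) (j | l)
  · simp [S, T, Matrix.mul_apply, Fintype.sum_sum_type, Matrix.one_apply]
  · have h1 := congrFun (congrFun h i) l
    rw [Matrix.mul_apply, ← Equiv.sum_comp σ₀, Fintype.sum_sum_type] at h1
    simpa [S, T, Matrix.mul_apply, Fintype.sum_sum_type] using h1
  · simp [S, T, Matrix.mul_apply, Fintype.sum_sum_type, Matrix.one_apply]
    rw [Finset.sum_eq_single j]
    · simp
    · intro b _ hb
      simp [hb]
    · simp
  · have h1 : ∑ b : Fin r ⊕ Fin n, (if σ₀ b = σ (Sum.inr k) then 1 else 0) * M (σ₀ b) l =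
        M (σ (Sum.inr k)) l := by
      rw [Equiv.sum_comp σ₀ fun b => (if b = σ (Sum.inr k) then 1 else 0) * M b l]
      simp
    rw [Fintype.sum_sum_type] at h1
    simpa [S, T, Matrix.mul_apply, Fintype.sum_sum_type] using h1

theorem det_S (G : Matrix (Fin r) (Fin N) K) (σ₀ σ : Fin r ⊕ Fin n ≃ Fin N) :
    (G.submatrix id fun j => σ (Sum.inl j)).det = (S G σ₀ σ).det ∨
    (G.submatrix id fun j => σ (Sum.inl j)).det = - (S G σ₀ σ).det := by
  have h1 : (S G σ₀ σ).submatrix id (σ.trans σ₀.symm) =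
      Matrix.fromBlocks (G.submatrix id fun j => σ (Sum.inl j))
        (G.submatrix id fun k => σ (Sum.inr k)) 0 1 := by
    ext (i | k) (j | l)
    · simp [S]
    · simp [S]
    · simp [S]
    · simp [S, Matrix.one_apply, eq_comm]
  have h2 := Matrix.det_permute' (σ.trans σ₀.symm) (S G σ₀ σ)
  rw [h1, Matrix.det_fromBlocks_zero₂₁, Matrix.det_one, mul_one] at h2
  rw [h2]
  rcases Int.units_eq_one_or (Equiv.Perm.sign (σ.trans σ₀.symm)) with h3 | h3
  · left
    rw [h3]
    simp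
  · right
    rw [h3]
    simp

end LIN

theorem t_LIN : S_LIN := by
  intro n N r K _ G M σ₀ σ hGM A C _
  have h1 := congrArg Matrix.det (LIN.mul_ST G M σ₀ σ hGM)
  rw [Matrix.det_mul, Matrix.det_fromBlocks_zero₁₂, LIN.det_T] at h1
  change (LIN.S G σ₀ σ).det * C σ₀ = A σ₀ * C σ at h1
  rcases LIN.det_S G σ₀ σ with h2 | h2
  · left
    change A σ = _ at h2
    rw [← h1, h2]
  · right
    change A σ = _ at h2
    rw [← h1, h2]
    ring

end

end NDQ
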