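import Pool.Agent.NDQ.St
import Pool.Agent.NDQ.IND
import Pool.Agent.MldGeo.Ord

/-!
# LOV: a minor of the least possible order
-/

set_option autoImplicit false

namespace NDQ

open MldGeo MldGap MldAcc MldQ MvPolynomial
open MldX (wdeg word initForm Nondegenerate InteriorPoint)

namespace LOV

section Dets

variable {n : ℕ} {K : Type} [Field K] [Algebra ℂ K] {v : DivVal n K}

theorem prod_ge {ι : Type} (s : Finset ι) (a : ι → K) (k : ι → ℤ) (h : ∀ i ∈ s, v.Ge (k i) (a i)) :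
    v.Ge (∑ i ∈ s, k i) (∏ i ∈ s, a i) := by
  classical
  induction s using Finset.induction_on with
  | empty =>
    rw [Finset.sum_empty, Finset.prod_empty]
    exact DivVal.Ge.one v
  | insert j s hj ih =>
    rw [Finset.sum_insert hj, Finset.prod_insert hj]
    exact (h j (Finset.mem_insert_self j s)).mul (ih fun i hi => h i (Finset.mem_insert_of_mem hi))

theorem prod_sub_ge {ι : Type} (s : Finset ι) (a b : ι → K) (k : ι → ℤ)
    (ha : ∀ i ∈ s, v.Ge (k i) (a i)) (hb : ∀ i ∈ s, v.Ge (k i) (b i))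
    (hab : ∀ i ∈ s, v.Ge (k i + 1) (a i - b i)) :
    v.Ge (∑ i ∈ s, k i + 1) (∏ i ∈ s, a i - ∏ i ∈ s, b i) := by
  classical
  induction s using Finset.induction_on with
  | empty =>
    rw [Finset.prod_empty, Finset.prod_empty, sub_self]
    exact DivVal.Ge.zero v _
  | insert j s hj ih =>
    rw [Finset.sum_insert hj, Finset.prod_insert hj, Finset.prod_insert hj]
    have ih' := ih (fun i hi => ha i (Finset.mem_insert_of_mem hi))
      (fun i hi => hb i (Finset.mem_insert_of_mem hi))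
      (fun i hi => hab i (Finset.mem_insert_of_mem hi))
    have h1 := (hab j (Finset.mem_insert_self j s)).mul
      (prod_ge s a k fun i hi => ha i (Finset.mem_insert_of_mem hi))
    have h2 := (hb j (Finset.mem_insert_self j s)).mul ih'
    have h3 : a j * ∏ i ∈ s, a i - b j * ∏ i ∈ s, b i =
        (a j - b j) * ∏ i ∈ s, a i + b j * (∏ i ∈ s, a i - ∏ i ∈ s, b i) := by ring
    rw [h3]
    refine DivVal.Ge.add (h1.mono ?_) (h2.mono ?_) <;> linarith

variable {r : ℕ}

theorem sign_ge (τ : Equiv.Perm (Fin r)) {k : ℤ} {a : K} (h : v.Ge k a) :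
    v.Ge k (Equiv.Perm.sign τ • a) := by
  rcases Int.units_eq_one_or (Equiv.Perm.sign τ) with h1 | h1
  · rw [h1, one_smul]
    exact h
  · rw [h1, Units.neg_smul, one_smul]
    exact h.neg

theorem det_ge (M : Matrix (Fin r) (Fin r) K) (a b : Fin r → ℤ)
    (h : ∀ i j, v.Ge (a i - b j) (M i j)) : v.Ge (∑ i, a i - ∑ j, b j) M.det := by
  rw [Matrix.det_apply]
  refine DivVal.Ge.sum _ _ fun τ _ => sign_ge τ ?_
  have h1 := prod_ge (v := v) Finset.univ (fun i => M (τ i) i) (fun i => a (τ i) - b i)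
    fun i _ => h _ _
  rw [Finset.sum_sub_distrib, Equiv.sum_comp τ a] at h1
  exact h1

theorem det_sub_ge (M M' : Matrix (Fin r) (Fin r) K) (a b : Fin r → ℤ)
    (h : ∀ i j, v.Ge (a i - b j) (M i j)) (h' : ∀ i j, v.Ge (a i - b j) (M' i j))
    (hs : ∀ i j, v.Ge (a i - b j + 1) (M i j - M' i j)) :
    v.Ge (∑ i, a i - ∑ j, b j + 1) (M.det - M'.det) := by
  have e : M.det - M'.det = ∑ τ : Equiv.Perm (Fin r),
      Equiv.Perm.sign τ • (∏ i, M (τ i) i - ∏ i, M' (τ i) i) := by
    rw [Matrix.det_apply, Matrix.det_apply, ← Finset.sum_sub_distrib]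
    exact Finset.sum_congr rfl fun τ _ => (smul_sub _ _ _).symm
  rw [e]
  refine DivVal.Ge.sum _ _ fun τ _ => ?_
  refine sign_ge τ ?_
  have h1 := prod_sub_ge (v := v) Finset.univ (fun i => M (τ i) i) (fun i => M' (τ i) i)
    (fun i => a (τ i) - b i) (fun i _ => h _ _) (fun i _ => h' _ _) (fun i _ => hs _ _)
  rw [Finset.sum_sub_distrib, Equiv.sum_comp τ a] at h1
  exact h1

end Dets

section Vals

variable {n N : ℕ} {K : Type} [Field K] [Algebra ℂ K] {v : DivVal n K} {x : Fin N → K}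
  {w : Fin N → ℕ}

theorem ge_mon (hx : ∀ j, x j ≠ 0) (hord : ∀ j, v.ord (x j) = w j) (u : Fin N →₀ ℕ) (c : ℂ) :
    v.Ge (wdeg w u) (aeval x (monomial u c)) := by
  rw [aeval_monomial, Finsupp.prod_fintype _ _ fun _ => pow_zero _]
  refine DivVal.Ge.mul_left (DivVal.Ge.const v c) (DivVal.Ge.of_le ?_)
  rw [DivVal.ord_prod v _ _ fun j _ => pow_ne_zero _ (hx j)]
  unfold wdeg
  push_cast
  refine Finset.sum_le_sum fun j _ => ?_
  rw [DivVal.ord_pow, hord]
  exact (mul_comm _ _).le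

theorem ge_aeval (hx : ∀ j, x j ≠ 0) (hord : ∀ j, v.ord (x j) = w j)
    (p : MvPolynomial (Fin N) ℂ) (m : ℤ) (h : ∀ u ∈ p.support, m ≤ wdeg w u) :
    v.Ge m (aeval x p) := by
  rw [← support_sum_monomial_coeff p, map_sum]
  exact DivVal.Ge.sum _ _ fun u hu => (ge_mon hx hord u _).mono (h u hu)

theorem ge_pderiv (hx : ∀ j, x j ≠ 0) (hord : ∀ j, v.ord (x j) = w j)
    (p : MvPolynomial (Fin N) ℂ) (m : ℤ) (h : ∀ u ∈ p.support, m ≤ wdeg w u) (j : Fin N) :
    v.Ge (m - w j) (aeval x (pderiv j p)) := by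
  have h1 : v.Ge m (x j * aeval x (pderiv j p)) := by
    have h2 : x j * aeval x (pderiv j p) = aeval x (X j * pderiv j p) := by
      rw [map_mul, aeval_X]
    rw [h2]
    have h3 : X j * pderiv j p = ∑ u ∈ p.support, X j * pderiv j (monomial u (coeff u p)) := by
      conv_lhs => rw [← support_sum_monomial_coeff p]
      rw [map_sum, Finset.mul_sum]
    rw [h3, map_sum]
    refine DivVal.Ge.sum _ _ fun u hu => ?_
    rw [X_mul_pderiv_monomial, map_nsmul, nsmul_eq_mul]
    exact DivVal.Ge.mul_left (DivVal.Ge.natCast v _) ((ge_mon hx hord u _).mono (h u hu))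
  have h4 := (DivVal.Ge.inv' v (x j)).mul h1
  rw [← mul_assoc, inv_mul_cancel₀ (hx j), one_mul, hord] at h4
  exact h4.mono (by linarith)

end Vals

end LOV

open LOV in
theorem t_LOV : S_LOV := by
  intro hWRD hNUL n N r K _ _ f x v w hN hf hnd hzero hx hw hord
  obtain ⟨k, A, B, hid, hA, hB⟩ := hNUL hWRD t_IND f hN hnd hf w hw
  -- the orders of the monomials
  have hfw : ∀ i, ∀ u ∈ (f i).support, ((word w (f i) : ℕ) : ℤ) ≤ wdeg w u := fun i u hu => by
    exact_mod_cast (hWRD (f i) w).2.1 u hu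
  have hgw : ∀ i, ∀ u ∈ (initForm w (f i)).support, ((word w (f i) : ℕ) : ℤ) ≤ wdeg w u := by
    intro i u hu
    rw [mem_support_iff, (hWRD (f i) w).2.2.1 u] at hu
    by_cases h : wdeg w u = word w (f i)
    · rw [h]
    · rw [if_neg h] at hu
      exact absurd rfl hu
  have hdw : ∀ i, ∀ u ∈ (f i - initForm w (f i)).support,
      ((word w (f i) : ℕ) : ℤ) + 1 ≤ wdeg w u := by
    intro i u hu
    rw [mem_support_iff, coeff_sub, (hWRD (f i) w).2.2.1 u] at hu
    by_cases h : wdeg w u = word w (f i)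
    · rw [if_pos h, sub_self] at hu
      exact absurd rfl hu
    · rw [if_neg h, sub_zero, ← mem_support_iff] at hu
      have h1 := (hWRD (f i) w).2.1 u hu
      have h2 : word w (f i) < wdeg w u := lt_of_le_of_ne h1 fun h3 => h h3.symm
      exact_mod_cast h2
  -- the minors of the initial forms
  let d : (Fin r ⊕ Fin n ≃ Fin N) → ℤ := fun σ =>
    ∑ i, (word w (f i) : ℤ) - ∑ j, (w (σ (Sum.inl j)) : ℤ)
  let Mg : (Fin r ⊕ Fin n ≃ Fin N) → Matrix (Fin r) (Fin r) K := fun σ =>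
    Matrix.of fun i j => aeval x (pderiv (σ (Sum.inl j)) (initForm w (f i)))
  let Mf : (Fin r ⊕ Fin n ≃ Fin N) → Matrix (Fin r) (Fin r) K := fun σ =>
    Matrix.of fun i j => aeval x (pderiv (σ (Sum.inl j)) (f i))
  have hMg : ∀ σ i j, v.Ge ((word w (f i) : ℤ) - (w (σ (Sum.inl j)) : ℤ)) (Mg σ i j) :=
    fun σ i j => ge_pderiv hx hord _ _ (hgw i) _
  have hMf : ∀ σ i j, v.Ge ((word w (f i) : ℤ) - (w (σ (Sum.inl j)) : ℤ)) (Mf σ i j) :=
    fun σ i j => ge_pderiv hx hord _ _ (hfw i) _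
  have hMs : ∀ σ i j, v.Ge ((word w (f i) : ℤ) - (w (σ (Sum.inl j)) : ℤ) + 1)
      (Mf σ i j - Mg σ i j) := by
    intro σ i j
    have h1 := ge_pderiv hx hord _ _ (hdw i) (σ (Sum.inl j))
    rw [map_sub, map_sub] at h1
    exact h1.mono (by linarith)
  have hdg : ∀ σ, v.Ge (d σ) (Mg σ).det := fun σ => det_ge (Mg σ) _ _ (hMg σ)
  have hds : ∀ σ, v.Ge (d σ + 1) ((Mf σ).det - (Mg σ).det) := fun σ =>
    det_sub_ge (Mf σ) (Mg σ) _ _ (hMf σ) (hMg σ) (hMs σ)
  -- evaluation of the identity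
  have hev := congrArg (aeval x) hid
  rw [map_pow, map_prod, map_add, map_sum, map_sum] at hev
  obtain ⟨σ, hσ⟩ : ∃ σ, ¬ v.Ge (d σ + 1) (Mg σ).det := by
    by_contra hcon
    push Not at hcon
    have h1 : v.Ge ((k : ℤ) * ∑ j, (w j : ℤ) + 1)
        (∑ i, aeval x (A i * initForm w (f i))) := by
      refine DivVal.Ge.sum _ _ fun i _ => ?_
      rw [map_mul]
      have h2 : v.Ge ((k : ℤ) * ∑ j, (w j : ℤ) - word w (f i)) (aeval x (A i)) := by
        refine ge_aeval hx hord _ _ fun u hu => ?_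
        have h3 := hA i u hu
        have h4 : ((wdeg w u : ℕ) : ℤ) + word w (f i) = k * ∑ j, (w j : ℤ) := by
          exact_mod_cast h3
        linarith
      have h5 : v.Ge ((word w (f i) : ℤ) + 1) (aeval x (initForm w (f i))) := by
        have h6 := ge_aeval hx hord _ _ (hdw i)
        rw [map_sub, hzero i, zero_sub] at h6
        exact DivVal.ge_neg_iff.1 h6
      exact (h2.mul h5).mono (by linarith)
    have h2 : v.Ge ((k : ℤ) * ∑ j, (w j : ℤ) + 1)
        (∑ σ : Fin r ⊕ Fin n ≃ Fin N, aeval x (B σ * Matrix.det (Matrix.of fun i j : Fin r =>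
          pderiv (σ (Sum.inl j)) (initForm w (f i))))) := by
      refine DivVal.Ge.sum _ _ fun σ _ => ?_
      rw [map_mul]
      have h3 : v.Ge ((k : ℤ) * ∑ j, (w j : ℤ) - d σ) (aeval x (B σ)) := by
        refine ge_aeval hx hord _ _ fun u hu => ?_
        have h4 := hB σ u hu
        have h5 : ((wdeg w u : ℕ) : ℤ) + ∑ i, (word w (f i) : ℤ) =
            k * ∑ j, (w j : ℤ) + ∑ j, (w (σ (Sum.inl j)) : ℤ) := by
          exact_mod_cast h4
        simp only [d]
        linarith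
      have h4 : aeval x (Matrix.det (Matrix.of fun i j : Fin r =>
          pderiv (σ (Sum.inl j)) (initForm w (f i)))) = (Mg σ).det := by
        rw [AlgHom.map_det]
        rfl
      rw [h4]
      exact (h3.mul (hcon σ)).mono (by linarith)
    have h3 := h1.add h2
    rw [← hev] at h3
    have h4 : ∀ j ∈ Finset.univ, aeval x (X j : MvPolynomial (Fin N) ℂ) ≠ 0 := by
      intro j _
      rw [aeval_X]
      exact hx j
    have h5 := h3.le (pow_ne_zero _ (Finset.prod_ne_zero_iff.2 h4))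
    rw [DivVal.ord_pow, DivVal.ord_prod v _ _ h4] at h5
    have h6 : ∑ j, v.ord (aeval x (X j : MvPolynomial (Fin N) ℂ)) = ∑ j, (w j : ℤ) :=
      Finset.sum_congr rfl fun j _ => by rw [aeval_X, hord]
    rw [h6] at h5
    linarith
  have hne : (Mg σ).det ≠ 0 := by
    intro h
    apply hσ
    rw [h]
    exact DivVal.Ge.zero v _
  have hog : v.ord (Mg σ).det = d σ := by
    have h1 := (hdg σ).le hne
    have h2 : ¬ d σ + 1 ≤ v.ord (Mg σ).det := fun h => hσ (DivVal.Ge.of_le h)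
    omega
  have h1 := DivVal.ord_eq_of_sub (v := v) (a := (Mg σ).det) (b := (Mf σ).det) hne
    (by rw [hog]; exact DivVal.Ge.sub_comm (hds σ))
  rw [hog] at h1
  exact ⟨σ, h1.1, h1.2⟩

end NDQ
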