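import Pool.Agent.NDQ.St
import Pool.Agent.MldGeo.Ord
import Pool.Agent.MldGeo.FRA
import Pool.Agent.MldGeo.LOGD
import Pool.Agent.MldGeo.COE
import Pool.Agent.MldGeo.FRM
import Pool.Agent.MldGeo.EXF
import Pool.Agent.MldGeo.DDER

/-!
# MLO: an upper bound for the order of a form (helper83)
-/

set_option autoImplicit false

namespace NDQ

open MldGeo MldGap MldAcc MldQ MvPolynomial
open MldX (wdeg word initForm Nondegenerate InteriorPoint)

noncomputable section

namespace MLO

/-- the form is not zero if the determinant of the logarithmic derivatives is not zero -/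
theorem dlogs_ne (hTBAS : Stmt_TBAS) {m : ℕ} {K : Type} [Field K] [Algebra ℂ K]
    (htr : Algebra.trdeg ℂ K = ((m + 1 : ℕ) : Cardinal)) (v : DivVal (m + 1) K) (t : K)
    (u : Fin m → K) (hF : Frame v t u) (Δ : Fin (m + 1) → Derivation ℂ K K)
    (a : Fin (m + 1) → K)
    (hdet : (Matrix.of fun i l => Δ l (a i) / a i).det ≠ 0) : dlogs a ≠ 0 := by
  obtain ⟨f, -⟩ := EXF.frameBasis hTBAS htr t hF.1 u ((t_FRA v).2 t u hF)
  have hli : LinearIndependent K fun i => dlog (a i) := by
    rw [Fintype.linearIndependent_iff]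
    intro g hg
    have h1 : Matrix.vecMul g (Matrix.of fun i l => Δ l (a i) / a i) = 0 := by
      ext l
      have h2 := congrArg (Δ l).liftKaehlerDifferential hg
      rw [map_sum, map_zero] at h2
      rw [Matrix.vecMul, dotProduct, Pi.zero_apply, ← h2]
      refine Finset.sum_congr rfl fun i _ => ?_
      rw [map_smul, dlog, map_smul, Derivation.liftKaehlerDifferential_comp_D, Matrix.of_apply,
        smul_eq_mul, smul_eq_mul, div_eq_inv_mul]
    exact fun i => congrFun (Matrix.eq_zero_of_vecMul_eq_zero hdet h1) i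
  have hfr : Module.finrank K (Ω[K⁄ℂ]) = m + 1 := by
    rw [Module.finrank_eq_card_basis f, Fintype.card_fin]
  let b := basisOfLinearIndependentOfCardEqFinrank hli (by rw [hfr, Fintype.card_fin])
  have hb : (b : Fin (m + 1) → Ω[K⁄ℂ]) = fun i => dlog (a i) :=
    coe_basisOfLinearIndependentOfCardEqFinrank hli _
  have h3 := FRM.iota_ne b
  rw [hb] at h3
  exact h3

end MLO

open MLO in
theorem t_MLO : S_MLO := by
  classical
  intro hTBAS n F K _ _ _ _ Λ ι v δ d htr hn hδ hord hd a ha hdet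
  cases n with
  | zero => exact absurd hn (lt_irrefl 0)
  | succ m =>
  have hLOGD : Stmt_LOGD := t_LOGD t_FRA
  have hFRM : Stmt_FRM := t_FRM t_FRA hTBAS (t_COE t_FRA hLOGD hTBAS)
  obtain ⟨⟨t, u, hF⟩, -⟩ := t_FRA v
  obtain ⟨Δ, -, -, -, h4, h5⟩ := t_DDER t_FRA hTBAS hLOGD hFRM htr v t u hF
  obtain ⟨ht0, ht1, hu⟩ := id hF
  set C : Matrix (Fin (m + 1)) (Fin (m + 1)) K := Matrix.of fun i l => Δ l (a i) / a i with hC
  let H : Matrix (Fin (m + 1)) (Fin (m + 1)) Λ.L := Matrix.of fun k c =>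
    (Fin.cons (d k (ι t) / ι t) (fun j => d k (ι (u j))) : Fin (m + 1) → Λ.L) c
  set M : Matrix (Fin (m + 1)) (Fin (m + 1)) Λ.L :=
    Matrix.of fun k l => d k (ι (a l)) / ι (a l) with hM
  have hιne : ∀ f : K, f ≠ 0 → ι f ≠ 0 := fun f hf h => hf ((map_eq_zero _).1 h)
  have key : M = H * (C.map ι).transpose := by
    ext k l
    rw [Matrix.mul_apply]
    have h6 := h4 ι (fun x => d k (ι x)) (fun x y => by rw [map_add, map_add])
      (fun x y => by rw [map_mul, Derivation.leibniz, smul_eq_mul, smul_eq_mul])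
      (fun c => by rw [AlgHom.commutes, Derivation.map_algebraMap]) (a l)
    have h7 : M k l = d k (ι (a l)) / ι (a l) := rfl
    have h8 : d k (ι (a l)) = ∑ c, ι (Δ c (a l)) *
        (Fin.cons (d k (ι t) / ι t) (fun j => d k (ι (u j))) : Fin (m + 1) → Λ.L) c := h6
    rw [h7, h8, Finset.sum_div]
    refine Finset.sum_congr rfl fun c _ => ?_
    have h9 : (C.map ι).transpose c l = ι (Δ c (a l)) / ι (a l) := by
      rw [Matrix.transpose_apply, Matrix.map_apply]
      exact map_div₀ ι _ _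
    rw [h9]
    change _ = (Fin.cons (d k (ι t) / ι t) (fun j => d k (ι (u j))) : Fin (m + 1) → Λ.L) c * _
    ring
  have hdet2 : M.det = H.det * ι C.det := by
    rw [key, Matrix.det_mul, Matrix.det_transpose]
    congr 1
    exact (AlgHom.map_det ι C).symm
  have hH0 : H.det ≠ 0 := by
    intro h
    rw [h, zero_mul] at hdet2
    exact hdet hdet2
  have hιC : ι C.det ≠ 0 := by
    intro h
    rw [h, mul_zero] at hdet2
    exact hdet hdet2
  have hC0 : C.det ≠ 0 := by
    intro h
    rw [h, map_zero] at hιC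
    exact hιC rfl
  have hne : dlogs a ≠ 0 := dlogs_ne hTBAS htr v t u hF Δ a hC0
  have hlog : v.logOrd (dlogs a) = v.ord C.det := (h5 a ha hne).2
  have hge : ∀ k (x : Λ.L), Λ.val.Ge (Λ.val.ord x) (d k x) := fun k x => hd k x
  have hHge : Λ.val.Ge 0 H.det := by
    refine DivVal.Ge.det fun k c => ?_
    change Λ.val.Ge 0 ((Fin.cons (d k (ι t) / ι t) (fun j => d k (ι (u j))) :
      Fin (m + 1) → Λ.L) c)
    refine Fin.cases ?_ (fun j => ?_) c
    · rw [Fin.cons_zero]
      have h6 := (hge k (ι t)).div (ι t)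
      rwa [sub_self] at h6
    · rw [Fin.cons_succ]
      have h6 := hu (MvPolynomial.X j) (MvPolynomial.X_ne_zero j)
      rw [MvPolynomial.aeval_X] at h6
      have h7 := hord _ h6.1
      rw [h6.2, mul_zero] at h7
      have h8 := hge k (ι (u j))
      have h9 : Λ.val.ord (ι (u j)) = 0 := h7.symm
      rwa [h9] at h8
  have hH1 := hHge.le hH0
  have h6 := hord _ hC0
  have h7 : Λ.val.ord (ι C.det) = Λ.ord (ι C.det) := rfl
  have h8 : Λ.val.ord M.det = Λ.ord M.det := rfl
  have h9 := Λ.val.ord_mul _ _ hH0 hιC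
  rw [← hdet2] at h9
  rw [hlog, h6, ← h7, ← h8, h9]
  omega

end

end NDQ
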