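import Pool.Agent.NDQ.MUW1

/-!
# MUW: the valuation with given weights (assembly of the block D)
-/

set_option autoImplicit false

namespace NDQ

open MldGeo MldGap MldAcc MldQ MvPolynomial
open MldX (wdeg word initForm Nondegenerate InteriorPoint)

noncomputable section

namespace MUW

theorem map_aeval' {K L : Type} [Field K] [Algebra ℂ K] [Field L] [Algebra ℂ L] {σ : Type}
    (ι : K →ₐ[ℂ] L) (x : σ → K) (p : MvPolynomial σ ℂ) :
    ι (aeval x p) = aeval (fun j => ι (x j)) p := by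
  rw [← AlgHom.comp_apply]
  congr 1
  ext j
  simp

theorem map_mnr {K L : Type} [Field K] [Algebra ℂ K] [Field L] [Algebra ℂ L] {n N r : ℕ}
    (f : Fin r → MvPolynomial (Fin N) ℂ) (ι : K →ₐ[ℂ] L) (x : Fin N → K)
    (σ : Fin r ⊕ Fin n ≃ Fin N) : ι (mnr f x σ) = mnr f (fun j => ι (x j)) σ := by
  unfold mnr
  rw [AlgHom.map_det]
  congr 1
  ext i j
  simp only [AlgHom.mapMatrix_apply, Matrix.map_apply, Matrix.of_apply]
  exact map_aeval' ι x _

theorem dforms_eq {K : Type} [Field K] [Algebra ℂ K] {n : ℕ} (a : Fin n → K)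
    (ha : ∀ i, a i ≠ 0) : dforms a = (∏ i, a i) • dlogs a := by
  unfold dforms dlogs
  have h1 := (exteriorPower.ιMulti K n (M := Ω[K⁄ℂ])).toMultilinearMap.map_smul_univ a
    fun i => dlog (a i)
  have h2 : (fun i => a i • dlog (a i)) = fun i => KaehlerDifferential.D ℂ K (a i) := by
    funext i
    unfold dlog
    rw [smul_smul, mul_inv_cancel₀ (ha i), one_smul]
  rw [h2] at h1
  exact h1

theorem log_form {n N r : ℕ} {K : Type} [Field K] [Algebra ℂ K] (hFSM : Stmt_FSM)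
    (f : Fin r → MvPolynomial (Fin N) ℂ) (x : Fin N → K) (ω : Forms n K) (hcan : IsCan f x ω)
    (htr : Algebra.trdeg ℂ K = (n : Cardinal)) (hn : 0 < n) (hx : ∀ j, x j ≠ 0)
    (σ : Fin r ⊕ Fin n ≃ Fin N) (hσ : mnr f x σ ≠ 0) (μ : DivVal n K) :
    μ.ord (mnr f x σ) + μ.logOrd ω = ∑ k, μ.ord (x (σ (Sum.inr k))) +
      μ.logOrd (dlogs fun k => x (σ (Sum.inr k))) := by
  set X : Fin n → K := fun k => x (σ (Sum.inr k)) with hX
  have hX0 : ∀ k, X k ≠ 0 := fun k => hx _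
  have hprod : ∏ k, X k ≠ 0 := Finset.prod_ne_zero_iff.2 fun k _ => hX0 k
  have hd : dforms X = (∏ k, X k) • dlogs X := dforms_eq X hX0
  have hω := hcan.ne
  have hne : mnr f x σ • ω ≠ 0 := smul_ne_zero hσ hω
  have hl : dlogs X ≠ 0 := by
    intro h0
    rcases hcan.eq σ with h | h
    · apply hne
      rw [h]
      change dforms X = 0
      rw [hd, h0, smul_zero]
    · apply hne
      rw [h]
      change - dforms X = 0
      rw [hd, h0, smul_zero, neg_zero]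
  rw [← hFSM htr μ _ ω hn hσ hω]
  have h2 : μ.logOrd ((∏ k, X k) • dlogs X) = ∑ k, μ.ord (X k) + μ.logOrd (dlogs X) := by
    rw [hFSM htr μ _ _ hn hprod hl, DivVal.ord_prod μ _ _ fun k _ => hX0 k]
  have h3 : μ.logOrd (-((∏ k, X k) • dlogs X)) = ∑ k, μ.ord (X k) + μ.logOrd (dlogs X) := by
    have h4 : -((∏ k, X k) • dlogs X) = (-(∏ k, X k)) • dlogs X := (neg_smul _ _).symm
    rw [h4, hFSM htr μ _ _ hn (neg_ne_zero.2 hprod) hl, DivVal.ord_neg,
      DivVal.ord_prod μ _ _ fun k _ => hX0 k]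
  rcases hcan.eq σ with h | h
  · rw [h]
    change μ.logOrd (dforms X) = _
    rw [hd, h2]
  · rw [h]
    change μ.logOrd (-dforms X) = _
    rw [hd, h3]

/-- The matrix of logarithmic derivatives. -/
theorem det_log {m N r : ℕ} {g : Fin r → MvPolynomial (Fin N) ℂ} (P : GenPt (n := m + 1) g)
    (Λ : LField P.κ) (a : Fin (m + 1) → ℕ) (ha : ∀ l, 0 < a l) (Y : Fin (m + 1) → Λ.L)
    (hY : ∀ l, Y l = Λ.s ^ a l * Λ.emb (P.ξ (P.σ (Sum.inr l)))) :
    let d : Fin (m + 1) → Derivation ℂ Λ.L Λ.L :=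
      Fin.cons Λ.θ fun k : Fin m => Λ.D (P.D k.succ)
    (∀ k b, d k b = 0 ∨ Λ.ord b ≤ Λ.ord (d k b)) ∧
    Matrix.det (Matrix.of fun k l => d k (Y l) / Y l) ≠ 0 ∧
    Λ.ord (Matrix.det (Matrix.of fun k l => d k (Y l) / Y l)) = 0 := by
  classical
  intro d
  have hd0 : d 0 = Λ.θ := rfl
  have hds : ∀ k : Fin m, d k.succ = Λ.D (P.D k.succ) := fun k => rfl
  have hξ : ∀ l, Λ.emb (P.ξ (P.σ (Sum.inr l))) ≠ 0 := fun l h => P.ne _ ((map_eq_zero _).1 h)
  have hs : ∀ k : ℕ, Λ.s ^ k ≠ 0 := fun k => pow_ne_zero _ Λ.s_ne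
  have hY0 : ∀ l, Y l ≠ 0 := fun l => by
    rw [hY]
    exact mul_ne_zero (hs _) (hξ l)
  refine ⟨fun k b => ?_, ?_⟩
  · refine Fin.cases ?_ (fun k => ?_) k
    · rw [hd0]
      exact Λ.θ_ord b
    · rw [hds]
      exact Λ.D_ord _ b
  -- the entries
  have e0 : ∀ l, d 0 (Y l) / Y l = (a l : Λ.L) := by
    intro l
    rw [hd0, div_eq_iff (hY0 l), hY, Derivation.leibniz, Λ.θ_emb, smul_zero, zero_add,
      Derivation.leibniz_pow, Λ.θ_s, smul_eq_mul, smul_eq_mul, nsmul_eq_mul]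
    have h1 : Λ.s ^ a l = Λ.s ^ (a l - 1) * Λ.s := by
      rw [← pow_succ, Nat.sub_add_cancel (ha l)]
    rw [h1]
    ring
  have es : ∀ (k : Fin m) l, d k.succ (Y l) / Y l =
      Λ.emb (P.D k.succ (P.ξ (P.σ (Sum.inr l)))) / Λ.emb (P.ξ (P.σ (Sum.inr l))) := by
    intro k l
    rw [hds, hY, Derivation.leibniz, Λ.D_emb, Derivation.leibniz_pow, Λ.D_s, smul_zero, smul_zero,
      smul_zero, add_zero, smul_eq_mul, mul_div_mul_left _ _ (hs _)]
  set M : Matrix (Fin (m + 1)) (Fin (m + 1)) Λ.L := Matrix.of fun k l => d k (Y l) / Y l with hM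
  have htri : M.BlockTriangular id := by
    intro k l hkl
    obtain ⟨k', rfl⟩ := Fin.exists_succ_eq.2 (show k ≠ 0 from fun h => by
      rw [h] at hkl
      exact absurd hkl (Fin.not_lt_zero _))
    have hkl' : l < k'.succ := hkl
    rw [hM, Matrix.of_apply, es, P.D_zero _ _ (ne_of_lt hkl'), map_zero, zero_div]
  have hdet : M.det = ∏ k, M k k := Matrix.det_of_upperTriangular htri
  haveI : CharZero Λ.L := charZero_of_injective_algebraMap (algebraMap ℂ Λ.L).injective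
  have hdiag : ∀ k, M k k ≠ 0 ∧ Λ.val.ord (M k k) = 0 := by
    intro k
    refine Fin.cases ?_ (fun k => ?_) k
    · rw [hM, Matrix.of_apply, e0]
      refine ⟨Nat.cast_ne_zero.2 (ha 0).ne', DivVal.ord_natCast _ _⟩
    · rw [hM, Matrix.of_apply, es]
      have h1 : Λ.emb (P.D k.succ (P.ξ (P.σ (Sum.inr k.succ)))) ≠ 0 := fun h =>
        P.D_ne _ ((map_eq_zero _).1 h)
      refine ⟨div_ne_zero h1 (hξ _), ?_⟩
      rw [DivVal.ord_div _ h1 (hξ _)]
      change Λ.ord _ - Λ.ord _ = 0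
      rw [Λ.ord_emb _ (P.D_ne _), Λ.ord_emb _ (P.ne _), sub_self]
  rw [hdet]
  refine ⟨Finset.prod_ne_zero_iff.2 fun k _ => (hdiag k).1, ?_⟩
  change Λ.val.ord _ = 0
  rw [DivVal.ord_prod _ _ _ fun k _ => (hdiag k).1]
  exact Finset.sum_eq_zero fun k _ => (hdiag k).2

end MUW

open MUW in
theorem t_MUA : S_MUA := by
  classical
  intro hFSM hTB hLAU hRATF hDIV hWRD hIND hREL hHEN hGPT hSOL hEMB hDVG hMLO hROG hINR
  intro n N r X f x ω hn hCI hcan w hw hTZ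
  obtain ⟨r1, r2, r3, r4, r5, r6, r7, r8⟩ := hREL hDIV X f x hCI
  obtain ⟨z, hz, hz0⟩ := hTZ
  have hlin : LinearIndependent ℂ fun (i : Fin r) (j : Fin N) =>
      eval z (pderiv j (initForm w (f i))) := by
    have h1 := hCI.nondeg w hw Finset.univ z hz fun i _ => hz0 i
    exact h1.comp (fun i : Fin r => (⟨i, Finset.mem_univ i⟩ : {i // i ∈ Finset.univ}))
      fun i j hij => congrArg Subtype.val hij
  obtain ⟨P⟩ := hGPT hLAU hRATF hIND hHEN (fun i => initForm w (f i)) z hCI.dim hz hz0 hlin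
  obtain ⟨Λ⟩ := hLAU P.κ
  obtain ⟨⟨y, hy⟩, _⟩ := hSOL hWRD hHEN f w P Λ r4
  obtain ⟨ι, hι⟩ := hEMB X f x w P Λ y hn hCI hw hy r5 r6
  obtain ⟨m, rfl⟩ : ∃ m, n = m + 1 := ⟨n - 1, by omega⟩
  -- leading terms
  have hLd : ∀ j, Ld Λ (w j) (y j) (P.ξ j) := by
    intro j
    unfold Ld
    rw [zpow_natCast]
    exact hy.lead j
  have hy1 : ∀ j, y j ≠ 0 ∧ Λ.ord (y j) = w j := fun j => (hLd j).ord (P.ne j)
  have hyge : ∀ j, Λ.Ge 1 (y j) := fun j => Or.inr (by
    change 1 ≤ Λ.ord (y j)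
    rw [(hy1 j).2]
    exact_mod_cast hw j)
  have hev : ∀ p : MvPolynomial (Fin N) ℂ, ι (aeval x p) = aeval y p := by
    intro p
    rw [map_aeval' ι x p]
    congr 2
    funext j
    exact hι j
  -- the valuation
  set a : Fin (m + 1) → ℕ := fun l => w (P.σ (Sum.inr l)) with ha
  set Ξ : Fin (m + 1) → P.κ := fun l => P.ξ (P.σ (Sum.inr l)) with hΞ
  set XX : Fin (m + 1) → X.K := fun l => x (P.σ (Sum.inr l)) with hXX
  have hXι : ∀ l, ι (XX l) = Λ.s ^ a l * Λ.emb (Ξ l) := fun l => by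
    rw [hXX, hι]
    exact hy.free l
  have hres : ∃ yy : Fin m → X.K, ∀ Q : MvPolynomial (Fin m) ℂ, Q ≠ 0 →
      aeval yy Q ≠ 0 ∧ Λ.ord (ι (aeval yy Q)) = 0 := by
    refine ⟨fun l : Fin m => XX l.succ ^ a 0 / XX 0 ^ a l.succ, fun Q hQ => ?_⟩
    have h1 : ι (aeval (fun l : Fin m => XX l.succ ^ a 0 / XX 0 ^ a l.succ) Q) =
        Λ.emb (aeval (fun l : Fin m => Ξ l.succ ^ a 0 / Ξ 0 ^ a l.succ) Q) := by
      rw [map_aeval', map_aeval']
      congr 2
      funext l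
      rw [map_div₀, map_pow, map_pow, hXι, hXι, map_div₀, map_pow, map_pow, mul_pow, mul_pow,
        ← pow_mul, ← pow_mul, mul_comm (a l.succ) (a 0)]
      exact mul_div_mul_left _ _ (pow_ne_zero _ Λ.s_ne)
    have h2 := ind_quot Ξ P.ind (P.ne _) (a 0) (hw _) (fun l => a l.succ) Q hQ
    refine ⟨fun h0 => ?_, ?_⟩
    · rw [h0, map_zero] at h1
      exact h2 ((map_eq_zero _).1 h1.symm)
    · rw [h1]
      exact Λ.ord_emb _ h2
  obtain ⟨μ, δ, hδ, hμ⟩ := hDVG (n := m + 1) Λ ι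
    ⟨x (P.σ (Sum.inr 0)), hCI.ne _, by
      rw [hι, (hy1 _).2]
      exact_mod_cast (hw _).ne'⟩ hres
  have hδ0 : (0 : ℤ) < (δ : ℤ) := by exact_mod_cast hδ
  have hιne : ∀ b : X.K, b ≠ 0 → ι b ≠ 0 := fun b hb h => hb ((map_eq_zero _).1 h)
  refine ⟨μ, δ, hδ, ?_, fun j => ?_, ?_, ?_⟩
  · -- the centre
    have key : ∀ b : X.R, (b : X.K) ≠ 0 → ∃ p s : MvPolynomial (Fin N) ℂ,
        constantCoeff s ≠ 0 ∧ (b : X.K) * aeval x s = aeval x p ∧
        aeval y s ≠ 0 ∧ Λ.ord (aeval y s) = 0 ∧ aeval y p ≠ 0 ∧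
        δ * μ.ord (b : X.K) = Λ.ord (aeval y p) := by
      intro b hb
      obtain ⟨p, s, hs, hps⟩ := hCI.gen b b.2
      have h1 : aeval y s ≠ 0 ∧ Λ.ord (aeval y s) = 0 := by
        have h2 : Ld Λ 0 (aeval y s) (algebraMap ℂ P.κ (constantCoeff s)) := by
          unfold Ld
          rw [zpow_zero, one_mul, Λ.emb.commutes]
          exact (ge_sub_const y hyge s).2
        exact h2.ord fun h => hs ((map_eq_zero _).1 h)
      have h3 : ι b * aeval y s = aeval y p := by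
        rw [← hev, ← hev, ← map_mul, hps]
      refine ⟨p, s, hs, hps, h1.1, h1.2, ?_, ?_⟩
      · rw [← h3]
        exact mul_ne_zero (hιne _ hb) h1.1
      · rw [hμ _ hb, ← h3, Λ.ord_mul _ _ (hιne _ hb) h1.1, h1.2, add_zero]
    constructor
    · intro b
      by_cases hb : (b : X.K) = 0
      · rw [hb, μ.ord_zero]
      · obtain ⟨p, s, _, _, _, _, hp0, hord⟩ := key b hb
        have h1 : 0 ≤ Λ.ord (aeval y p) := (ge_sub_const y hyge p).1.resolve_left hp0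
        rw [← hord] at h1
        exact nonneg_of_mul_nonneg_right h1 hδ0
    · intro b hbm hb0
      have hb : (b : X.K) ≠ 0 := fun h => hb0 (Subtype.ext h)
      obtain ⟨p, s, hs, hps, _, _, hp0, hord⟩ := key b hb
      obtain ⟨s', hs', _⟩ := r1 s
      obtain ⟨p', hp', hp2⟩ := r1 p
      have h1 : p' = b * s' := by
        apply Subtype.ext
        rw [hp', Subalgebra.coe_mul, hs', hps]
      have h2 : constantCoeff p = 0 := by
        rw [← hp2, h1]
        exact X.m.mul_mem_right _ hbm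
      have h3 := (ge_sub_const y hyge p).2
      rw [h2, map_zero, sub_zero] at h3
      have h4 : 1 ≤ Λ.ord (aeval y p) := h3.resolve_left hp0
      rw [← hord] at h4
      by_contra hle
      have h5 : (δ : ℤ) * μ.ord (b : X.K) ≤ 0 :=
        mul_nonpos_of_nonneg_of_nonpos hδ0.le (not_lt.1 hle)
      omega
  · rw [hμ _ (hCI.ne j), hι, (hy1 j).2]
  · -- the form
    have hmy : Ld Λ (∑ i, (word w (f i) : ℤ) + ∑ j, -(w (P.σ (Sum.inl j)) : ℤ)) (mnr f y P.σ)
        (mnr (fun i => initForm w (f i)) P.ξ P.σ) := by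
      unfold mnr
      refine Ld.det (fun i => (word w (f i) : ℤ)) (fun j => -(w (P.σ (Sum.inl j)) : ℤ))
        fun i j => ?_
      rw [Matrix.of_apply, Matrix.of_apply]
      exact ld_pderiv hWRD w y P.ξ hLd _ _
    have hmy' := hmy.ord P.minor
    have hmx : ι (mnr f x P.σ) = mnr f y P.σ := by
      rw [map_mnr]
      congr 1
      funext j
      exact hι j
    have hm0 : mnr f x P.σ ≠ 0 := by
      intro h
      rw [h, map_zero] at hmx
      exact hmy'.1 hmx.symm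
    have h1 := log_form hFSM f x ω hcan X.trdeg hn hCI.ne P.σ hm0 μ
    have h2 : (δ : ℤ) * μ.ord (mnr f x P.σ) =
        ∑ i, (word w (f i) : ℤ) + ∑ j, -(w (P.σ (Sum.inl j)) : ℤ) := by
      rw [hμ _ hm0, hmx]
      exact hmy'.2
    have h3 : ∀ k : Fin (m + 1), (δ : ℤ) * μ.ord (x (P.σ (Sum.inr k))) = w (P.σ (Sum.inr k)) :=
      fun k => by rw [hμ _ (hCI.ne _), hι, (hy1 _).2]
    obtain ⟨d1, d2, d3⟩ := det_log P Λ a (fun l => hw _) (fun l => ι (XX l)) hXι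
    have h4 := hMLO hTB Λ ι μ δ _ X.trdeg hn hδ (fun b hb => hμ b hb) d1 XX (fun l => hCI.ne _) d2
    rw [d3] at h4
    have h5 : (δ : ℤ) * μ.logOrd (dlogs fun k => x (P.σ (Sum.inr k))) ≤ 0 := h4
    have h6 : ∑ j, (w j : ℤ) = ∑ j : Fin r, (w (P.σ (Sum.inl j)) : ℤ) +
        ∑ k : Fin (m + 1), (w (P.σ (Sum.inr k)) : ℤ) := by
      rw [← Fintype.sum_sum_type (fun b => (w (P.σ b) : ℤ)), Equiv.sum_comp P.σ fun j => (w j : ℤ)]
    have h7 := congrArg (fun t : ℤ => (δ : ℤ) * t) h1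
    simp only [mul_add, Finset.mul_sum, h2, h3] at h7
    unfold ld
    rw [h6]
    rw [Finset.sum_neg_distrib] at h7
    linarith
  · -- the invariance
    intro τ c E hE hc hτ hSemi b hb hτb
    set ζ : ℂˣ := Units.mk0 (Complex.exp (2 * Real.pi * Complex.I / E)) (Complex.exp_ne_zero _)
      with hζ
    have hζ' : (ζ : ℂ) = Complex.exp (2 * Real.pi * Complex.I / E) := rfl
    have hc' : ∀ j, c j = (ζ : ℂ) ^ w j := by
      intro j
      rw [hc, hζ', ← Complex.exp_nat_mul]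
      congr 1
      ring
    have h1 := hINR hWRD hHEN hSOL f x w P Λ y r4 hy r5 ι hι τ c E ζ hE hζ' hc' hτ hSemi b
    rw [hτb] at h1
    rw [hμ b hb]
    exact hROG Λ E hE ζ hζ' (ι b) (hιne b hb) h1

end

end NDQ
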