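import Pool.Agent.NDQ.St
import Pool.Agent.MldGeo.Ord
import Pool.Agent.MldGeo.QFin

/-!
# NCO: the contribution of a group element of Newton type
-/

set_option autoImplicit false

namespace NDQ

open MldGeo MldGap MldAcc MldQ MvPolynomial
open MldX (wdeg word initForm Nondegenerate InteriorPoint)

noncomputable section

namespace NCO

/-- `exp(2 π i k) = 1` -/
theorem exp_int (k : ℤ) : Complex.exp (2 * Real.pi * Complex.I * (k : ℂ)) = 1 := by
  rw [Complex.exp_eq_one_iff]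
  exact ⟨k, by ring⟩

theorem int_of_exp {t : ℝ} (h : Complex.exp (2 * Real.pi * Complex.I * (t : ℂ)) = 1) :
    ∃ k : ℤ, t = k := by
  obtain ⟨k, hk⟩ := Complex.exp_eq_one_iff.1 h
  refine ⟨k, ?_⟩
  have h1 : (2 * Real.pi * Complex.I : ℂ) ≠ 0 := Complex.two_pi_I_ne_zero
  have h2 : (2 * Real.pi * Complex.I : ℂ) * t = (2 * Real.pi * Complex.I) * k := by
    rw [hk]; ring
  have h3 : (t : ℂ) = k := mul_left_cancel₀ h1 h2
  exact_mod_cast h3

variable {n : ℕ} {X Y : Germ n} {G : Subgroup (X.K ≃ₐ[ℂ] X.K)} {π : Y.K →ₐ[ℂ] X.K}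
  {T : Triple X} {T' : Triple Y} {g : X.K ≃ₐ[ℂ] X.K}

theorem values_bdd (D : NData T g) (hLC : D.Q.LC) : BddBelow D.Q.values := by
  refine ⟨0, ?_⟩
  rintro _ ⟨g', hg, u', hu', hui, rfl⟩
  exact TQ.value_nonneg D.Q hLC hg hu' hui

theorem lower (hPUL : Stmt_QPUL) (hn : 0 < n) (hQ : IsQuot X Y G π) (hC : Crepant π T T')
    (D : NData T g) (hLC : D.Q.LC) {w : DivVal n X.K} {v : DivVal n Y.K} {e : ℕ} (hw : X.At w)
    (ho : Over π w v e)
    (hσ2 : ∀ a : X.K, a ≠ 0 → w.Ge (w.ord a + 1) (g a - algebraMap ℂ X.K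
      (Complex.exp (2 * Real.pi * Complex.I * w.ord a / e)) * a)) :
    D.Q.mldQ ≤ T'.disc v := by
  have he : (0 : ℝ) < e := by exact_mod_cast ho.1
  have hpos : ∀ j, 0 < w.ord (D.x j) := by
    intro j
    obtain ⟨b, hb, hbx⟩ := D.ci.van j
    rw [← hbx]
    refine hw.2 b hb fun h => D.ci.ne j ?_
    rw [← hbx, h]
    rfl
  let u : Fin D.N → ℝ := (e : ℝ)⁻¹ • fun j => (w.ord (D.x j) : ℝ)
  have hu : ∀ j, u j = (e : ℝ)⁻¹ * (w.ord (D.x j) : ℝ) := fun j => rfl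
  have hval : D.Q.disc u ∈ D.Q.values := by
    rw [D.tq.values]
    refine ⟨u, fun j => ?_, ⟨1, fun j => ?_⟩, rfl⟩
    · rw [hu]
      have := hpos j
      have h2 : (0 : ℝ) < w.ord (D.x j) := by exact_mod_cast this
      positivity
    · have h1 := hσ2 (D.x j) (D.ci.ne j)
      rw [D.eig, ← sub_mul, ← map_sub] at h1
      have h2 : D.c j = Complex.exp (2 * Real.pi * Complex.I * w.ord (D.x j) / e) := by
        by_contra hne
        have h3 := h1.le (mul_ne_zero ((map_ne_zero _).2 (sub_ne_zero.2 hne)) (D.ci.ne j))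
        rw [DivVal.ord_const_mul w (sub_ne_zero.2 hne)] at h3
        omega
      rw [pow_one, h2, hu]
      congr 1
      push_cast
      field_simp
  have h1 : D.Q.mldQ ≤ D.Q.disc u := csInf_le (values_bdd D hLC) hval
  have h4 := D.low w hw
  have h5 : (fun l => (w.ord (D.x l) : ℝ)) = (e : ℝ) • u := by
    show _ = (e : ℝ) • ((e : ℝ)⁻¹ • _)
    rw [smul_smul, mul_inv_cancel₀ he.ne', one_smul]
  rw [h5, TDC.disc_scale _ _ he.le, QFin.disc_over hPUL hn hQ hC (TDC.at_through hw) ho] at h4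
  exact h1.trans (le_of_mul_le_mul_left h4 he)

theorem upper (hQGAL : Stmt_QGAL) (hQAT : Stmt_QAT) (hPUL : Stmt_QPUL) (hn : 0 < n)
    (hQ : IsQuot X Y G π) (hC : Crepant π T T') (hLC : T.LC) (hg : g ∈ G) (D : NData T g)
    (hL : ∀ (E : ℕ) (z : Fin D.N → ℕ), 0 < E → (∀ j, 0 < z j) →
      (∀ i, ∀ u ∈ (D.f i).support, ∀ u' ∈ (D.f i).support,
        (E : ℤ) ∣ (wdeg z u : ℤ) - wdeg z u') →
      ∃ (z' h : Fin D.N → ℕ) (μ : DivVal n X.K) (δ : ℕ), z' = z + E • h ∧ 0 < δ ∧ X.At μ ∧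
        δ * T.disc μ ≤ D.Q.disc (fun l => (z l : ℝ)) ∧
        ∀ (τ : X.K ≃ₐ[ℂ] X.K) (c : Fin D.N → ℂ),
          (∀ j, c j = Complex.exp (2 * Real.pi * Complex.I * z' j / E)) →
          (∀ j, τ (D.x j) = algebraMap ℂ X.K (c j) * D.x j) → Semi D.f c →
          ∀ a : X.K, a ≠ 0 → τ a = a → (E : ℤ) ∣ δ * μ.ord a)
    {a : ℝ} (ha : a ∈ D.Q.values) : ∃ v : DivVal n Y.K, Y.At v ∧ T'.disc v ≤ a := by
  rw [D.tq.values] at ha
  obtain ⟨u, hu, ⟨k, hk⟩, rfl⟩ := ha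
  -- the eigenvalues are roots of unity
  have : Finite G := hQ.finite
  obtain ⟨E, hE, hgE⟩ : ∃ E : ℕ, 0 < E ∧ g ^ E = 1 := by
    have h1 := isOfFinOrder_of_finite (⟨g, hg⟩ : G)
    refine ⟨orderOf (⟨g, hg⟩ : G), h1.orderOf_pos, ?_⟩
    have h2 := pow_orderOf_eq_one (⟨g, hg⟩ : G)
    exact congrArg Subtype.val h2
  have hpow : ∀ (i : ℕ) (j : Fin D.N), (g ^ i) (D.x j) = algebraMap ℂ X.K (D.c j ^ i) * D.x j := by
    intro i j
    induction i with
    | zero => simp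
    | succ i ih =>
      rw [pow_succ', AlgEquiv.mul_apply, ih, map_mul, AlgEquiv.commutes, D.eig, pow_succ, map_mul]
      ring
  have hroot : ∀ j, D.c j ^ E = 1 := by
    intro j
    have h1 := hpow E j
    rw [hgE, AlgEquiv.one_apply] at h1
    have h2 : algebraMap ℂ X.K (D.c j ^ E) = 1 := by
      have h3 : (algebraMap ℂ X.K (D.c j ^ E) - 1) * D.x j = 0 := by
        rw [sub_mul, one_mul, ← h1, sub_self]
      rcases mul_eq_zero.1 h3 with h4 | h4
      · exact sub_eq_zero.1 h4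
      · exact absurd h4 (D.ci.ne j)
    exact (algebraMap ℂ X.K).injective (by rw [h2, map_one])
  have hER : (0 : ℝ) < E := by exact_mod_cast hE
  have hEC : (E : ℂ) ≠ 0 := by exact_mod_cast hE.ne'
  have hz : ∀ j, ∃ z : ℕ, (E : ℝ) * u j = z ∧ 0 < z := by
    intro j
    have h1 : Complex.exp (2 * Real.pi * Complex.I * (((E : ℝ) * u j : ℝ) : ℂ)) = 1 := by
      have h2 : (2 * Real.pi * Complex.I * (((E : ℝ) * u j : ℝ) : ℂ)) =
          (E : ℕ) * (2 * Real.pi * Complex.I * (u j : ℝ)) := by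
        push_cast
        ring
      rw [h2, Complex.exp_nat_mul, hk, ← pow_mul, mul_comm k E, pow_mul, hroot, one_pow]
    obtain ⟨m, hm⟩ := int_of_exp h1
    have h3 : (0 : ℝ) < m := by
      rw [← hm]
      exact mul_pos hER (hu j)
    have h4 : 0 < m := by exact_mod_cast h3
    refine ⟨m.toNat, ?_, by omega⟩
    rw [hm]
    have h5 : ((m.toNat : ℤ) : ℝ) = m := by rw [Int.toNat_of_nonneg h4.le]
    exact_mod_cast h5.symm
  choose z hz1 hz2 using hz
  have hexp : ∀ j, Complex.exp (2 * Real.pi * Complex.I * z j / E) = D.c j ^ k := by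
    intro j
    rw [← hk j]
    congr 1
    have h1 : (z j : ℂ) = (E : ℂ) * (u j : ℝ) := by exact_mod_cast (hz1 j).symm
    rw [h1]
    field_simp
  have hprod : ∀ u' : Fin D.N →₀ ℕ, ∏ j, (D.c j ^ k) ^ u' j =
      Complex.exp (2 * Real.pi * Complex.I * (wdeg z u' : ℂ) / E) := by
    intro u'
    have h1 : ∏ j, (D.c j ^ k) ^ u' j =
        ∏ j, Complex.exp (u' j * (2 * Real.pi * Complex.I * z j / E)) := by
      refine Finset.prod_congr rfl fun j _ => ?_
      rw [← hexp, Complex.exp_nat_mul]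
    rw [h1, ← Complex.exp_sum]
    congr 1
    unfold wdeg
    push_cast
    rw [Finset.mul_sum, Finset.sum_div]
    refine Finset.sum_congr rfl fun j _ => ?_
    ring
  have hsemi : Semi D.f fun j => D.c j ^ k := by
    intro i u1 h1 u2 h2
    have h3 := D.semi i u1 h1 u2 h2
    have h4 : ∀ u' : Fin D.N →₀ ℕ, ∏ j, (D.c j ^ k) ^ u' j = (∏ j, D.c j ^ u' j) ^ k := by
      intro u'
      rw [← Finset.prod_pow]
      refine Finset.prod_congr rfl fun j _ => ?_
      rw [← pow_mul, ← pow_mul, mul_comm]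
    show ∏ j, (D.c j ^ k) ^ u1 j = ∏ j, (D.c j ^ k) ^ u2 j
    rw [h4, h4, h3]
  have hdvd : ∀ i, ∀ u1 ∈ (D.f i).support, ∀ u2 ∈ (D.f i).support,
      (E : ℤ) ∣ (wdeg z u1 : ℤ) - wdeg z u2 := by
    intro i u1 h1 u2 h2
    have h3 : ∏ j, (D.c j ^ k) ^ u1 j = ∏ j, (D.c j ^ k) ^ u2 j := hsemi i u1 h1 u2 h2
    rw [hprod, hprod] at h3
    have h4 : Complex.exp (2 * Real.pi * Complex.I *
        (((((wdeg z u1 : ℝ) - wdeg z u2) / E : ℝ)) : ℂ)) = 1 := by
      have h5 : (2 * Real.pi * Complex.I * (((((wdeg z u1 : ℝ) - wdeg z u2) / E : ℝ)) : ℂ)) =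
          2 * Real.pi * Complex.I * (wdeg z u1 : ℂ) / E -
            2 * Real.pi * Complex.I * (wdeg z u2 : ℂ) / E := by
        push_cast
        ring
      rw [h5, Complex.exp_sub, h3, div_self (Complex.exp_ne_zero _)]
    obtain ⟨m, hm⟩ := int_of_exp h4
    refine ⟨m, ?_⟩
    have h6 : ((wdeg z u1 : ℝ) - wdeg z u2) = E * m := by
      rw [← hm]
      field_simp
    exact_mod_cast h6
  obtain ⟨z', h, μ, δ, hz', hδ, hat, hdisc, hinv⟩ := hL E z hE hz2 hdvd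
  have hδR : (0 : ℝ) < δ := by exact_mod_cast hδ
  obtain ⟨hq1, -, -, -⟩ := hQGAL X Y G π hn hQ
  obtain ⟨v, ew, ho⟩ := hq1 μ
  have hew : (0 : ℝ) < ew := by exact_mod_cast ho.1
  refine ⟨v, (hQAT X Y G π hQ μ v ew ho).1 hat, ?_⟩
  have hthr := TDC.at_through hat
  have h1 := QFin.disc_over hPUL hn hQ hC hthr ho
  have h2 := hLC μ hthr
  -- ramification
  have h8 : (E : ℝ) ≤ δ * ew := by
    obtain ⟨b, hb, hb1⟩ := v.unif
    have h9 : π b ≠ 0 := fun h => hb ((map_eq_zero π).1 h)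
    have h10 : (g ^ k) (π b) = π b := (hQ.inv _).1 ⟨b, rfl⟩ _ (G.pow_mem hg k)
    have h11 := hinv (g ^ k) (fun j => D.c j ^ k) (fun j => by
      rw [← hexp j, hz']
      have h12 : (2 * Real.pi * Complex.I * (((z + E • h) j : ℕ) : ℂ) / E) =
          2 * Real.pi * Complex.I * z j / E + 2 * Real.pi * Complex.I * ((h j : ℤ) : ℂ) := by
        rw [Pi.add_apply, Pi.smul_apply, smul_eq_mul]
        push_cast
        field_simp
      rw [h12, Complex.exp_add, exp_int, mul_one]) (fun j => hpow k j) hsemi _ h9 h10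
    rw [ho.2, hb1, mul_one] at h11
    have h12 : (E : ℤ) ≤ δ * ew := Int.le_of_dvd (by
      have := ho.1
      positivity) h11
    exact_mod_cast h12
  have h9 : 0 ≤ T'.disc v := by
    rw [h1] at h2
    exact nonneg_of_mul_nonneg_right h2 hew
  have h5 : D.Q.disc (fun l => (z l : ℝ)) = E * D.Q.disc u := by
    rw [← TDC.disc_scale _ _ hER.le]
    congr 1
    funext j
    exact (hz1 j).symm
  have h10 : (δ : ℝ) * (ew * T'.disc v) ≤ E * D.Q.disc u := by
    rw [← h1, ← h5]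
    exact hdisc
  have h11 : (E : ℝ) * T'.disc v ≤ E * D.Q.disc u := by
    refine le_trans ?_ h10
    rw [← mul_assoc]
    exact mul_le_mul_of_nonneg_right h8 h9
  exact le_of_mul_le_mul_left h11 hER

end NCO

/-- NCO -/
theorem t_NCO : S_NCO := by
  intro hQGAL hQAT hPUL hLCN hWRD hPTH hMUW n X Y G π T T' hn hQ hC hLC g hg D
  obtain ⟨hQLC, hL⟩ := hLCN hWRD hPTH hMUW X T g D hn hLC
  refine ⟨fun w v e hw ho _ h2 => NCO.lower hPUL hn hQ hC D hQLC hw ho h2, fun ε hε => ?_⟩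
  have hne : D.Q.values.Nonempty := TQ.exists_value D.Q
  obtain ⟨a, ha, hlt⟩ := exists_lt_of_csInf_lt hne
    (show sInf D.Q.values < D.Q.mldQ + ε by
      show D.Q.mldQ < D.Q.mldQ + ε
      linarith)
  obtain ⟨v, hv, hva⟩ := NCO.upper hQGAL hQAT hPUL hn hQ hC hLC hg D hL ha
  exact ⟨v, hv, hva.trans_lt hlt⟩

end

end NDQ
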