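import Pool.Agent.NDQ.St
import Pool.Agent.MldGeo.Ord

set_option autoImplicit false

/-!
# NDA: the data of a group element of Newton type
-/

namespace NDQ

open MldGeo MldGap MldAcc MldQ MvPolynomial
open MldX (wdeg word initForm Nondegenerate InteriorPoint)

noncomputable section

namespace NDA

variable {N : ℕ}

theorem lf_apply (u : Fin N →₀ ℕ) (y : Fin N → ℝ) : lf u y = ∑ j, (u j : ℝ) * y j := by
  simp [lf, LinearMap.sum_apply]

theorem ord_isLeast {M : Set (Fin N →₀ ℕ)} {w : Fin N → ℤ} {a : ℤ}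
    (h : IsLeast ((fun u : Fin N →₀ ℕ => ∑ j, (u j : ℤ) * w j) '' M) a) :
    MldAcc.ord (lf '' M) (fun j => (w j : ℝ)) = a := by
  have h1 : IsLeast ((fun l : (Fin N → ℝ) →ₗ[ℝ] ℝ => l fun j => (w j : ℝ)) '' (lf '' M))
      (a : ℝ) := by
    constructor
    · obtain ⟨u, hu, hua⟩ := h.1
      refine ⟨lf u, ⟨u, hu, rfl⟩, ?_⟩
      simp only
      rw [lf_apply, ← hua]
      push_cast
      rfl
    · rintro _ ⟨_, ⟨u, hu, rfl⟩, rfl⟩
      have h2 := h.2 ⟨u, hu, rfl⟩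
      simp only at h2 ⊢
      rw [lf_apply]
      exact_mod_cast h2
  exact h1.csInf_eq

theorem word_isLeast (hWRD : S_WRD) {p : MvPolynomial (Fin N) ℂ} (hp : p ≠ 0) (w : Fin N → ℕ) :
    IsLeast ((fun u : Fin N →₀ ℕ => ∑ j, (u j : ℤ) * (w j : ℤ)) '' (p.support : Set (Fin N →₀ ℕ)))
      (word w p : ℤ) := by
  have e : ∀ u : Fin N →₀ ℕ, ∑ j, (u j : ℤ) * (w j : ℤ) = (wdeg w u : ℤ) := by
    intro u
    unfold wdeg
    push_cast
    exact Finset.sum_congr rfl fun j _ => mul_comm _ _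
  obtain ⟨h1, h2, -⟩ := hWRD p w
  constructor
  · obtain ⟨u, hu, hu2⟩ := h1 hp
    refine ⟨u, hu, ?_⟩
    simp only
    rw [e, hu2]
  · rintro _ ⟨u, hu, rfl⟩
    simp only
    rw [e]
    exact_mod_cast h2 u hu

theorem pow_apply {n : ℕ} {X : Germ n} (g : X.K ≃ₐ[ℂ] X.K) (a : X.K) (c : ℂ)
    (h : g a = algebraMap ℂ X.K c * a) (k : ℕ) : (g ^ k) a = algebraMap ℂ X.K (c ^ k) * a := by
  induction k with
  | zero => simp
  | succ k ih =>
    rw [pow_succ, AlgEquiv.mul_apply, h, map_mul, AlgEquiv.commutes, ih, ← mul_assoc, ← map_mul]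
    congr 2
    ring

theorem at_through {n : ℕ} {X : Germ n} {v : DivVal n X.K} (h : X.At v) : X.Through v := by
  refine ⟨h.1, fun a ha => ?_⟩
  by_contra hne
  have h0 : 0 < v.ord (a : X.K) := lt_of_le_of_ne (h.1 a) (Ne.symm hne)
  obtain ⟨y, i, hi, hyi⟩ := X.max.exists_inv ha
  have h1 : v.Ge 1 ((y : X.K) * a) := by
    have := DivVal.Ge.mul (DivVal.Ge.of_le (h.1 y))
      (DivVal.Ge.of_le (v := v) (k := 1) (a := (a : X.K)) h0)
    simpa using this
  have h2 : v.Ge 1 (i : X.K) := by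
    by_cases hi0 : i = 0
    · exact Or.inl (by rw [hi0]; rfl)
    · exact Or.inr (h.2 i hi hi0)
  have h3 := h1.add h2
  have h4 : (y : X.K) * a + i = 1 := by exact_mod_cast congrArg Subtype.val hyi
  rw [h4] at h3
  have h5 := h3.le one_ne_zero
  rw [DivVal.ord_one] at h5
  omega

end NDA

theorem t_NDA : S_NDA := by
  intro hTBAS hFRM hFRA hFSM hFDL hTXT hUNQ hREG hDIV hIDO hWRD hIND hNUL hLOV hLOW hREL hJAC hLIN
    hCAN hPRD hLGD hIDM hTQN n N r X T g f x c b M k hn hk hg hCI hM heig hsemi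
  obtain ⟨-, hz, hf0, hfne, -, -, -, -⟩ := hREL hDIV X f x hCI
  have hxR : ∀ j, x j ∈ X.R := by
    intro j
    obtain ⟨a, -, ha⟩ := hCI.van j
    rw [← ha]
    exact a.2
  have hidm := fun j => hIDM hIDO X x (T.a j) (M j) (T.a_ne j) hCI.ne hxR (hM.ideals j)
  have hroot : ∃ m : ℕ, 0 < m ∧ ∀ j, c j ^ m = 1 := by
    refine ⟨k, hk, fun j => ?_⟩
    have h1 := NDA.pow_apply g (x j) (c j) (heig j) k
    rw [hg, AlgEquiv.one_apply] at h1
    have h2 : algebraMap ℂ X.K (c j ^ k) = algebraMap ℂ X.K 1 := by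
      rw [map_one]
      refine mul_right_cancel₀ (hCI.ne j) ?_
      rw [← h1, one_mul]
    exact (algebraMap ℂ X.K).injective h2
  obtain ⟨Q, hQ⟩ := hTQN f b M T.r c hfne hM.b_nonneg (fun j => (hidm j).1) T.r_nonneg hroot
  obtain ⟨⟨ω, hω⟩, hω1⟩ := hPRD hTBAS hFSM hREG hDIV hREL hJAC hLIN hCAN X f x hn hCI
  have hlog := hLGD hTBAS hFRM hFRA hFSM hTXT hUNQ X x ω T b hn hCI.ne hω.ne (hω1 ω hω) hM.boundary
  have hdisc : ∀ v : DivVal n X.K, X.Through v → T.disc v = v.logOrd ω - ∑ j, b j * v.ord (x j) -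
      ∑ j, T.r j * MldAcc.ord (lf '' M j) fun l => (v.ord (x l) : ℝ) := by
    intro v hv
    unfold Triple.disc
    rw [hlog v hv]
    congr 1
    refine Finset.sum_congr rfl fun j _ => ?_
    rw [NDA.ord_isLeast ((hidm j).2 v hv)]
  refine ⟨⟨N, r, f, x, c, b, M, Q, ω, hCI, hM, heig, hsemi, hQ, hω, hfne, hf0, hdisc, ?_⟩, rfl,
    fun S h0 h1 hb hr => hQ.coeff S h0 h1 hb hr⟩
  intro v hv
  have hpos : ∀ j, 0 < v.ord (x j) := by
    intro j
    obtain ⟨a, ha, hax⟩ := hCI.van j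
    rw [← hax]
    refine hv.2 a ha fun h0 => hCI.ne j ?_
    rw [← hax, h0]
    rfl
  obtain ⟨w, hw⟩ : ∃ w : Fin N → ℕ, ∀ j, v.ord (x j) = w j :=
    ⟨fun j => (v.ord (x j)).toNat, fun j => (Int.toNat_of_nonneg (hpos j).le).symm⟩
  have hw0 : ∀ j, 0 < w j := by
    intro j
    have := hpos j
    rw [hw] at this
    exact_mod_cast this
  obtain ⟨σ, hσ, hσ2⟩ := hLOV hWRD hNUL f x v w hCI.dim hfne hCI.nondeg hz hCI.ne hw0 hw
  have hlow := hLOW hFSM hFDL f x v w ω σ X.trdeg hn hω hCI.ne hw hσ hσ2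
  rw [hdisc v (NDA.at_through hv), hQ.disc]
  have h1 : ∀ i, MldAcc.ord (lf '' ((f i).support : Set (Fin N →₀ ℕ)))
      (fun l => (v.ord (x l) : ℝ)) = (word w (f i) : ℝ) := by
    intro i
    have h2 := NDA.ord_isLeast (NDA.word_isLeast hWRD (hfne i) w)
    have h3 : (fun j => (((w j : ℕ) : ℤ) : ℝ)) = fun l => (v.ord (x l) : ℝ) := by
      funext j
      rw [hw]
    rw [h3] at h2
    rw [h2]
    push_cast
    rfl
  have h4 : ∑ j, (v.ord (x j) : ℝ) - ∑ i, MldAcc.ord (lf '' ((f i).support : Set (Fin N →₀ ℕ)))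
      (fun l => (v.ord (x l) : ℝ)) = (ld f w : ℝ) := by
    unfold ld
    push_cast
    congr 1
    · exact Finset.sum_congr rfl fun j _ => by rw [hw]; push_cast; rfl
    · exact Finset.sum_congr rfl fun i _ => h1 i
  have h5 : (ld f w : ℝ) ≤ v.logOrd ω := by exact_mod_cast hlow
  rw [h4]
  linarith

end

end NDQ
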