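import Pool.Agent.NDQ.St

/-!
# NUL: the Nullstellensatz for the initial forms
-/

set_option autoImplicit false

namespace NDQ

open MldGeo MldGap MldAcc MldQ MvPolynomial
open MldX (wdeg word initForm Nondegenerate InteriorPoint)

noncomputable section

namespace NUL

variable {N : ℕ}

theorem wdeg_add (w : Fin N → ℕ) (u v : Fin N →₀ ℕ) : wdeg w (u + v) = wdeg w u + wdeg w v := by
  unfold wdeg
  rw [← Finset.sum_add_distrib]
  refine Finset.sum_congr rfl fun j _ => ?_
  rw [Finsupp.add_apply, mul_add]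

theorem wdeg_zero (w : Fin N → ℕ) : wdeg w 0 = 0 := by
  unfold wdeg
  simp

theorem wdeg_single (w : Fin N → ℕ) (i : Fin N) : wdeg w (Finsupp.single i 1) = w i := by
  unfold wdeg
  rw [Finset.sum_eq_single i]
  · simp
  · intro j _ hj
    rw [Finsupp.single_eq_of_ne hj, mul_zero]
  · intro h
    exact absurd (Finset.mem_univ i) h

/-- all monomials have the weight `m - s` -/
def Wt (w : Fin N → ℕ) (s m : ℕ) (p : MvPolynomial (Fin N) ℂ) : Prop :=
  ∀ u, coeff u p ≠ 0 → wdeg w u + s = m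

variable {w : Fin N → ℕ}

theorem Wt.mul {s s' m m' : ℕ} {p p' : MvPolynomial (Fin N) ℂ} (h : Wt w s m p)
    (h' : Wt w s' m' p') : Wt w (s + s') (m + m') (p * p') := by
  classical
  intro u hu
  rw [coeff_mul] at hu
  obtain ⟨x, hx, hne⟩ := Finset.exists_ne_zero_of_sum_ne_zero hu
  have h1 := h x.1 (left_ne_zero_of_mul hne)
  have h2 := h' x.2 (right_ne_zero_of_mul hne)
  rw [← Finset.HasAntidiagonal.mem_antidiagonal.1 hx, wdeg_add]
  omega

theorem Wt.prod {ι : Type} (t : Finset ι) (s m : ι → ℕ) (p : ι → MvPolynomial (Fin N) ℂ)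
    (h : ∀ i, Wt w (s i) (m i) (p i)) : Wt w (∑ i ∈ t, s i) (∑ i ∈ t, m i) (∏ i ∈ t, p i) := by
  classical
  induction t using Finset.induction_on with
  | empty =>
    intro u hu
    rw [Finset.prod_empty, coeff_one] at hu
    have h1 : 0 = u := by
      by_contra h2
      exact hu (if_neg h2)
    rw [← h1, wdeg_zero]
    rfl
  | insert i t hi ih =>
    rw [Finset.sum_insert hi, Finset.sum_insert hi, Finset.prod_insert hi]
    exact (h i).mul ih

theorem Wt.sum {ι : Type} (t : Finset ι) {s m : ℕ} (p : ι → MvPolynomial (Fin N) ℂ)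
    (h : ∀ i, Wt w s m (p i)) : Wt w s m (∑ i ∈ t, p i) := by
  intro u hu
  rw [coeff_sum] at hu
  obtain ⟨i, _, hne⟩ := Finset.exists_ne_zero_of_sum_ne_zero hu
  exact h i u hne

theorem Wt.int {s m : ℕ} {p : MvPolynomial (Fin N) ℂ} (h : Wt w s m p) (z : ℤ) :
    Wt w s m ((z : MvPolynomial (Fin N) ℂ) * p) := by
  intro u hu
  apply h
  intro h1
  apply hu
  have h2 : (z : MvPolynomial (Fin N) ℂ) = C (z : ℂ) := by simp
  rw [h2, coeff_C_mul, h1, mul_zero]

theorem Wt.pderiv {m : ℕ} {p : MvPolynomial (Fin N) ℂ} (h : Wt w 0 m p) (i : Fin N) :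
    Wt w (w i) m (pderiv i p) := by
  intro u hu
  rw [coeff_pderiv] at hu
  have h1 := h _ (left_ne_zero_of_mul hu)
  rw [wdeg_add, wdeg_single] at h1
  exact h1

/-- the determinant -/
theorem Wt.det {r : ℕ} (M : Fin r → Fin r → MvPolynomial (Fin N) ℂ) (s m : Fin r → ℕ)
    (h : ∀ i j, Wt w (s j) (m i) (M i j)) :
    Wt w (∑ j, s j) (∑ i, m i) (Matrix.det (Matrix.of M)) := by
  rw [Matrix.det_apply']
  refine Wt.sum _ _ fun σ => Wt.int ?_ _
  have h1 := Wt.prod (w := w) Finset.univ s (fun j => m (σ j)) (fun j => M (σ j) j)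
    (fun j => h (σ j) j)
  rw [Equiv.sum_comp σ m] at h1
  exact h1

/-- the terms with a property -/
def piece (T : (Fin N →₀ ℕ) → Prop) [DecidablePred T] (p : MvPolynomial (Fin N) ℂ) :
    MvPolynomial (Fin N) ℂ := ∑ u ∈ p.support with T u, monomial u (coeff u p)

theorem coeff_piece (T : (Fin N →₀ ℕ) → Prop) [DecidablePred T] (p : MvPolynomial (Fin N) ℂ)
    (u : Fin N →₀ ℕ) : coeff u (piece T p) = if T u then coeff u p else 0 := by
  classical
  unfold piece
  rw [coeff_sum]
  simp only [coeff_monomial]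
  rw [Finset.sum_ite_eq']
  by_cases h1 : T u
  · rw [if_pos h1]
    by_cases h2 : coeff u p = 0
    · rw [h2, ite_self]
    · rw [if_pos (Finset.mem_filter.2 ⟨mem_support_iff.2 h2, h1⟩)]
  · rw [if_neg h1, if_neg fun h2 => h1 (Finset.mem_filter.1 h2).2]

/-- The component of weight `d` of a product. -/
theorem coeff_piece_mul (d s m : ℕ) (T : (Fin N →₀ ℕ) → Prop) [DecidablePred T]
    (hT : ∀ u, T u ↔ wdeg w u + m = d + s) (A G : MvPolynomial (Fin N) ℂ) (hG : Wt w s m G)
    (u : Fin N →₀ ℕ) :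
    coeff u (piece T A * G) = if wdeg w u = d then coeff u (A * G) else 0 := by
  classical
  rw [coeff_mul, coeff_mul]
  by_cases hd : wdeg w u = d
  · rw [if_pos hd]
    refine Finset.sum_congr rfl fun x hx => ?_
    by_cases h0 : coeff x.2 G = 0
    · rw [h0, mul_zero, mul_zero]
    rw [coeff_piece, if_pos]
    rw [hT]
    have h1 := hG x.2 h0
    have h2 := wdeg_add w x.1 x.2
    rw [Finset.HasAntidiagonal.mem_antidiagonal.1 hx] at h2
    omega
  · rw [if_neg hd]
    refine Finset.sum_eq_zero fun x hx => ?_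
    by_cases h0 : coeff x.2 G = 0
    · rw [h0, mul_zero]
    rw [coeff_piece, if_neg, zero_mul]
    rw [hT]
    have h1 := hG x.2 h0
    have h2 := wdeg_add w x.1 x.2
    rw [Finset.HasAntidiagonal.mem_antidiagonal.1 hx] at h2
    omega

/-- the power of the product of the variables -/
theorem Wt.prod_X (k : ℕ) : Wt w 0 (k * ∑ j, w j) ((∏ j : Fin N, X j) ^ k) := by
  classical
  have h1 : Wt w 0 (∑ j, w j) (∏ j : Fin N, (X j : MvPolynomial (Fin N) ℂ)) := by
    have h2 := Wt.prod (w := w) Finset.univ (fun _ : Fin N => 0) w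
      (fun j => (X j : MvPolynomial (Fin N) ℂ)) (fun j u hu => by
        rw [coeff_X] at hu
        have h3 : Finsupp.single j 1 = u := by
          by_contra h4
          exact hu (if_neg h4)
        rw [← h3, wdeg_single, add_zero])
    simpa using h2
  have h2 := Wt.prod (w := w) Finset.univ (fun _ : Fin k => 0) (fun _ => ∑ j, w j)
    (fun _ => ∏ j : Fin N, (X j : MvPolynomial (Fin N) ℂ)) (fun _ => h1)
  simpa using h2

end NUL

open NUL in
theorem t_NUL : S_NUL := by
  classical
  intro hWRD hIND n N r f hN hnd hf w hw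
  set g : Fin r → MvPolynomial (Fin N) ℂ := fun i => initForm w (f i) with hg
  let Δ : (Fin r ⊕ Fin n ≃ Fin N) → MvPolynomial (Fin N) ℂ := fun σ =>
    Matrix.det (Matrix.of fun i j : Fin r => pderiv (σ (Sum.inl j)) (g i))
  have hgW : ∀ i, Wt w 0 (word w (f i)) (g i) := by
    intro i u hu
    have h1 := (hWRD (f i) w).2.2.1 u
    have h2 : wdeg w u = word w (f i) := by
      by_contra h3
      apply hu
      show coeff u (initForm w (f i)) = 0
      rw [h1, if_neg h3]
    rw [h2, add_zero]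
  have hΔW : ∀ σ, Wt w (∑ j, w (σ (Sum.inl j))) (∑ i, word w (f i)) (Δ σ) := fun σ =>
    Wt.det (fun i j => pderiv (σ (Sum.inl j)) (g i)) (fun j => w (σ (Sum.inl j)))
      (fun i => word w (f i)) (fun i j => (hgW i).pderiv _)
  -- the zeros
  let F : Fin r ⊕ (Fin r ⊕ Fin n ≃ Fin N) → MvPolynomial (Fin N) ℂ := Sum.elim g Δ
  have hvan : (∏ j : Fin N, (X j : MvPolynomial (Fin N) ℂ)) ∈
      vanishingIdeal ℂ (zeroLocus ℂ (Ideal.span (Set.range F))) := by
    rw [mem_vanishingIdeal_iff]
    intro z hz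
    by_contra hne
    rw [map_prod] at hne
    have hz0 : ∀ j, z j ≠ 0 := by
      intro j hj
      apply hne
      refine Finset.prod_eq_zero (Finset.mem_univ j) ?_
      rw [aeval_X, hj]
    have hzF : ∀ a, eval z (F a) = 0 := by
      intro a
      have h1 := (mem_zeroLocus_iff.1 hz) (F a) (Ideal.subset_span ⟨a, rfl⟩)
      rw [← coe_aeval_eq_eval]
      exact h1
    have hli := hnd w hw Finset.univ z hz0 (fun i _ => hzF (Sum.inl i))
    have hli2 : LinearIndependent ℂ fun (i : Fin r) (j : Fin N) => eval z (pderiv j (g i)) :=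
      hli.comp (fun i : Fin r => (⟨i, Finset.mem_univ i⟩ : (Finset.univ : Finset (Fin r))))
        (fun a b hab => congrArg Subtype.val hab)
    obtain ⟨σ, hσ⟩ := hIND _ hN hli2
    apply hσ
    have h2 := hzF (Sum.inr σ)
    have h3 : eval z (Δ σ) = Matrix.det (Matrix.of fun i j : Fin r =>
        eval z (pderiv (σ (Sum.inl j)) (g i))) := by
      show eval z (Matrix.det _) = _
      rw [RingHom.map_det]
      rfl
    rw [← h3]
    exact h2
  rw [vanishingIdeal_zeroLocus_eq_radical] at hvan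
  obtain ⟨k, hk⟩ := hvan
  obtain ⟨c, hc⟩ := Ideal.mem_span_range_iff_exists_fun.1 hk
  rw [Fintype.sum_sum_type] at hc
  let TA : Fin r → (Fin N →₀ ℕ) → Prop := fun i u => wdeg w u + word w (f i) = k * ∑ j, w j + 0
  let TB : (Fin r ⊕ Fin n ≃ Fin N) → (Fin N →₀ ℕ) → Prop := fun σ u =>
    wdeg w u + ∑ i, word w (f i) = k * ∑ j, w j + ∑ j, w (σ (Sum.inl j))
  refine ⟨k, fun i => piece (TA i) (c (Sum.inl i)), fun σ => piece (TB σ) (c (Sum.inr σ)),
    ?_, ?_, ?_⟩
  · ext u
    rw [coeff_add, coeff_sum, coeff_sum]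
    have e1 : ∀ i, coeff u (piece (TA i) (c (Sum.inl i)) * initForm w (f i)) =
        if wdeg w u = k * ∑ j, w j then coeff u (c (Sum.inl i) * g i) else 0 := fun i =>
      coeff_piece_mul _ _ _ (TA i) (fun _ => Iff.rfl) _ _ (hgW i) u
    have e2 : ∀ σ, coeff u (piece (TB σ) (c (Sum.inr σ)) * Matrix.det (Matrix.of fun i j : Fin r =>
        pderiv (σ (Sum.inl j)) (initForm w (f i)))) =
        if wdeg w u = k * ∑ j, w j then coeff u (c (Sum.inr σ) * Δ σ) else 0 := fun σ =>
      coeff_piece_mul _ _ _ (TB σ) (fun _ => Iff.rfl) _ _ (hΔW σ) u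
    simp only [e1, e2]
    by_cases hd : wdeg w u = k * ∑ j, w j
    · simp only [if_pos hd]
      rw [← coeff_sum, ← coeff_sum, ← coeff_add]
      exact congrArg (coeff u) hc.symm
    · simp only [if_neg hd, Finset.sum_const_zero, add_zero]
      by_contra h1
      exact hd ((add_zero _).symm.trans (Wt.prod_X k u h1))
  · intro i u hu
    rw [mem_support_iff, coeff_piece] at hu
    by_contra h1
    exact hu (if_neg h1)
  · intro σ u hu
    rw [mem_support_iff, coeff_piece] at hu
    by_contra h1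
    exact hu (if_neg h1)

end

end NDQ
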