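import Pool.Agent.NDQ.St
import Pool.Agent.MldGeo.Ord

set_option autoImplicit false

namespace NDQ

open MldGeo MldGap MldAcc MldQ MvPolynomial
open MldX (wdeg word initForm Nondegenerate InteriorPoint)

namespace PRD

/-- The chain rule for polynomials. -/
theorem deriv_aeval {K M : Type} [Field K] [Algebra ℂ K] [AddCommGroup M] [Module K M] [Module ℂ M]
    [IsScalarTower ℂ K M] (D : Derivation ℂ K M) {σ : Type} [Fintype σ] (x : σ → K)
    (p : MvPolynomial σ ℂ) : D (aeval x p) = ∑ j, aeval x (pderiv j p) • D (x j) := by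
  classical
  induction p using MvPolynomial.induction_on with
  | C a => simp
  | add p q hp hq =>
    rw [map_add, map_add, hp, hq, ← Finset.sum_add_distrib]
    exact Finset.sum_congr rfl fun j _ => by rw [map_add, map_add, add_smul]
  | mul_X p i hp =>
    rw [map_mul, Derivation.leibniz, hp, aeval_X, Finset.smul_sum]
    have h : ∀ j, aeval x (pderiv j (p * X i)) • D (x j) =
        x i • aeval x (pderiv j p) • D (x j) + (if i = j then aeval x p • D (x i) else 0) := by
      intro j
      rw [Derivation.leibniz, map_add, add_smul, pderiv_X, smul_eq_mul, smul_eq_mul, map_mul,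
        map_mul, aeval_X, mul_smul, add_comm, mul_smul]
      congr 1
      rcases eq_or_ne i j with rfl | hij
      · simp
      · rw [if_neg hij, Pi.single_eq_of_ne hij]
        simp
    rw [Finset.sum_congr rfl fun j _ => h j, Finset.sum_add_distrib, Finset.sum_ite_eq,
      if_pos (Finset.mem_univ _), add_comm]

/-- A polynomial all of whose derivatives are zero is constant. -/
theorem eq_C_of_pderiv {σ : Type} (p : MvPolynomial σ ℂ) (h : ∀ j, pderiv j p = 0) :
    p = C (constantCoeff p) := by
  classical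
  ext m
  rw [coeff_C]
  split_ifs with hm
  · rw [← hm]; rfl
  · have hm' : m ≠ 0 := fun e => hm e.symm
    obtain ⟨j, hj⟩ : ∃ j, m j ≠ 0 := by
      by_contra hc
      push Not at hc
      exact hm' (Finsupp.ext hc)
    have h1 := coeff_pderiv (i := j) p (m - Finsupp.single j 1)
    have h2 : m - Finsupp.single j 1 + Finsupp.single j 1 = m := by
      ext k
      rcases eq_or_ne j k with rfl | hk
      · simp only [Finsupp.coe_add, Finsupp.coe_tsub, Pi.add_apply, Pi.sub_apply,
          Finsupp.single_eq_same]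
        omega
      · simp [Finsupp.single_eq_of_ne hk.symm]
    rw [h j, h2, coeff_zero] at h1
    rcases mul_eq_zero.1 h1.symm with h3 | h3
    · exact h3
    · exfalso
      have : (((m - Finsupp.single j 1 : σ →₀ ℕ) j : ℕ) : ℂ) + 1 ≠ 0 := Nat.cast_add_one_ne_zero _
      exact this h3

/-- In characteristic zero elements with independent differentials are algebraically
independent. -/
theorem algInd {K : Type} [Field K] [Algebra ℂ K] {σ : Type} [Fintype σ] (a : σ → K)
    (h : LinearIndependent K fun i => KaehlerDifferential.D ℂ K (a i)) :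
    AlgebraicIndependent ℂ a := by
  classical
  rw [algebraicIndependent_iff]
  have key : ∀ (d : ℕ) (p : MvPolynomial σ ℂ), p.totalDegree ≤ d → aeval a p = 0 → p = 0 := by
    intro d
    induction d with
    | zero =>
      intro p hp h0
      have h1 := (totalDegree_eq_zero_iff_eq_C (p := p)).1 (Nat.le_zero.1 hp)
      rw [h1, aeval_C] at h0
      have h2 : coeff 0 p = 0 := by
        have := (algebraMap ℂ K).injective (h0.trans (map_zero _).symm)
        exact this
      rw [h1, h2, C_0]
    | succ d ih =>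
      intro p hp h0
      have h1 := deriv_aeval (KaehlerDifferential.D ℂ K) a p
      rw [h0, map_zero] at h1
      have h2 := Fintype.linearIndependent_iff.1 h _ h1.symm
      have h3 : ∀ j, pderiv j p = 0 := by
        intro j
        refine ih _ ?_ (h2 j)
        by_cases hz : pderiv j p = 0
        · rw [hz, totalDegree_zero]; exact Nat.zero_le _
        · refine Finset.sup_le fun m hm => ?_
          have h4 : coeff (m + Finsupp.single j 1) p ≠ 0 := by
            intro hc
            have h5 := coeff_pderiv (i := j) p m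
            rw [hc, zero_mul] at h5
            exact (mem_support_iff.1 hm) h5
          have h6 := le_totalDegree (mem_support_iff.2 h4)
          have h7 : ((m + Finsupp.single j 1).sum fun _ e => e) = (m.sum fun _ e => e) + 1 := by
            rw [Finsupp.sum_add_index' (fun _ => rfl) (fun _ _ _ => rfl),
              Finsupp.sum_single_index rfl]
          omega
      have h8 := eq_C_of_pderiv p h3
      rw [h8, aeval_C] at h0
      have h9 : constantCoeff p = 0 := by
        have := (algebraMap ℂ K).injective (h0.trans (map_zero _).symm)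
        exact this
      rw [h8, h9, C_0]
  exact fun p hp => key _ p le_rfl hp

/-- If the form `da₁ ∧ … ∧ daₙ` is not zero then the `a i` are algebraically independent. -/
theorem algInd_of_dforms {n : ℕ} {K : Type} [Field K] [Algebra ℂ K] (a : Fin n → K)
    (h : dforms a ≠ 0) : AlgebraicIndependent ℂ a := by
  refine algInd a ?_
  by_contra hc
  exact h (AlternatingMap.map_linearDependent _ _ hc)

/-- Cramer's rule: a derivation which is regular on the complementary coordinates is regular on all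
coordinates. -/
theorem deriv_coord {n N r : ℕ} {K : Type} [Field K] [Algebra ℂ K]
    (f : Fin r → MvPolynomial (Fin N) ℂ) (x : Fin N → K) (v : DivVal n K)
    (hx : ∀ j, v.Ge 0 (x j)) (hf : ∀ i, aeval x (f i) = 0) (σ : Fin r ⊕ Fin n ≃ Fin N)
    (h1 : mnr f x σ ≠ 0) (h2 : v.ord (mnr f x σ) = 0) (D : Derivation ℂ K K)
    (hD : ∀ k, v.Ge 0 (D (x (σ (Sum.inr k))))) (j : Fin N) : v.Ge 0 (D (x j)) := by
  classical
  obtain ⟨l | k, rfl⟩ := σ.surjective j
  swap
  · exact hD k
  set A : Matrix (Fin r) (Fin r) K :=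
    Matrix.of fun i j : Fin r => aeval x (pderiv (σ (Sum.inl j)) (f i)) with hA
  set y : Fin r → K := fun l => D (x (σ (Sum.inl l))) with hy
  set b : Fin r → K := fun i => - ∑ k, aeval x (pderiv (σ (Sum.inr k)) (f i)) *
    D (x (σ (Sum.inr k))) with hb
  have e1 : A.mulVec y = b := by
    funext i
    have h3 := deriv_aeval D x (f i)
    rw [hf i, map_zero] at h3
    have h4 : ∑ j, aeval x (pderiv j (f i)) • D (x j) =
        ∑ s : Fin r ⊕ Fin n, aeval x (pderiv (σ s) (f i)) • D (x (σ s)) :=
      (Equiv.sum_comp σ fun j => aeval x (pderiv j (f i)) • D (x j)).symm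
    rw [h4, Fintype.sum_sum_type] at h3
    simp only [smul_eq_mul] at h3
    have h5 : A.mulVec y i = ∑ l, aeval x (pderiv (σ (Sum.inl l)) (f i)) *
        D (x (σ (Sum.inl l))) := rfl
    rw [h5, hb]
    exact eq_neg_of_add_eq_zero_left h3.symm
  have e2 : A.cramer b = A.det • y := by
    rw [← e1, Matrix.cramer_eq_adjugate_mulVec, Matrix.mulVec_mulVec, Matrix.adjugate_mul,
      Matrix.smul_mulVec, Matrix.one_mulVec]
  have e3 : v.Ge 0 (A.cramer b l) := by
    rw [Matrix.cramer_apply]
    refine DivVal.Ge.det fun i j => ?_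
    rw [Matrix.updateCol_apply]
    split_ifs with hj
    · exact (DivVal.Ge.sum _ _ fun k _ => DivVal.Ge.mul_left (DivVal.Ge.aeval hx _) (hD k)).neg
    · exact DivVal.Ge.aeval hx _
  have e4 : A.det = mnr f x σ := rfl
  rw [e2, e4] at e3
  have e5 : y l = (mnr f x σ)⁻¹ * (mnr f x σ • y) l := by
    rw [Pi.smul_apply, smul_eq_mul, ← mul_assoc, inv_mul_cancel₀ h1, one_mul]
  change v.Ge 0 (y l)
  rw [e5]
  exact DivVal.Ge.mul_left (DivVal.Ge.inv h1 h2) e3

/-- The derivation preserves the regular functions. -/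
theorem deriv_reg {n N : ℕ} {K : Type} [Field K] [Algebra ℂ K] (x : Fin N → K) (v : DivVal n K)
    (hx : ∀ j, v.Ge 0 (x j)) (D : Derivation ℂ K K) (hD : ∀ j, v.Ge 0 (D (x j))) (b : K)
    (hb : v.Ge 0 b) (p s : MvPolynomial (Fin N) ℂ) (hs : aeval x s ≠ 0)
    (hs' : v.ord (aeval x s) = 0) (h : b * aeval x s = aeval x p) : v.Ge 0 (D b) := by
  have hP : ∀ p : MvPolynomial (Fin N) ℂ, v.Ge 0 (D (aeval x p)) := by
    intro p
    rw [deriv_aeval]
    exact DivVal.Ge.sum _ _ fun j _ => DivVal.Ge.mul_left (DivVal.Ge.aeval hx _) (hD j)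
  have h1 := congrArg D h
  rw [Derivation.leibniz, smul_eq_mul, smul_eq_mul] at h1
  have h2 : D b = (aeval x s)⁻¹ * (D (aeval x p) - b * D (aeval x s)) := by
    rw [← h1]
    field_simp
    ring
  rw [h2]
  exact DivVal.Ge.mul_left (DivVal.Ge.inv hs hs') ((hP p).sub (DivVal.Ge.mul_left hb (hP s)))

/-- The order along a prime divisor through the point is a valuation through the point. -/
theorem through {n : ℕ} (X : Germ n) (v : DivVal n X.K) (P : Ideal X.R) (hP : P ≤ X.m)
    (hv : X.IsOrdAlong v P) : X.Through v := by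
  refine ⟨hv.2.2.1, fun a ha => ?_⟩
  have h1 : ¬ (a = 0 ∨ 0 < v.ord a) := fun h => ha (hP ((hv.2.2.2 a).2 h))
  push Not at h1
  exact le_antisymm h1.2 (hv.2.2.1 a)

/-- A prime ideal of height one. -/
theorem exists_prime {n : ℕ} (X : Germ n) (b : X.R) (hb : b ∈ X.m) (h0 : b ≠ 0) :
    ∃ P : Ideal X.R, P.IsPrime ∧ P.height = 1 ∧ P ≤ X.m := by
  have := X.max
  have hfg : Algebra.FiniteType ℂ X.R := X.R.fg_iff_finiteType.1 X.fg
  have hN : IsNoetherianRing X.R := Algebra.FiniteType.isNoetherianRing ℂ X.R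
  obtain ⟨P, hP, hPm⟩ := Ideal.exists_minimalPrimes_le (I := Ideal.span {b}) (J := X.m)
    ((Ideal.span_singleton_le_iff_mem _).2 hb)
  have hPp : P.IsPrime := hP.1.1
  refine ⟨P, hPp, le_antisymm ?_ ?_, hPm⟩
  · exact Ideal.height_le_one_of_isPrincipal_of_mem_minimalPrimes (Ideal.span {b}) P hP
  · rw [Order.one_le_iff_ne_zero]
    intro h
    have h1 : P ∈ minimalPrimes X.R := (Ideal.height_eq_zero_iff).1 h
    rw [IsDomain.minimalPrimes_eq_singleton_bot] at h1
    have h2 : b ∈ P := hP.1.2 (Ideal.mem_span_singleton_self b)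
    rw [Set.mem_singleton_iff.1 h1] at h2
    exact h0 h2

end PRD

theorem t_PRD : S_PRD := by
  intro hT hF hR hDIV hREL hJ hL hC n N r X f x hn hX
  obtain ⟨R1, R2, R3, R4, R5, R6, R7, R8⟩ := hREL hDIV X f x hX
  have hxg : ∀ (v : DivVal n X.K), X.Through v → ∀ j, v.Ge 0 (x j) := by
    intro v hv j
    obtain ⟨b, -, hb⟩ := hX.van j
    rw [← hb]
    exact DivVal.Ge.of_le (hv.1 b)
  have key : ∀ (v : DivVal n X.K) (P : Ideal X.R), P ≤ X.m → X.IsOrdAlong v P →
      ∃ σ : Fin r ⊕ Fin n ≃ Fin N, mnr f x σ ≠ 0 ∧ v.ord (mnr f x σ) = 0 := by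
    intro v P hP hv
    have hth := PRD.through X v P hP hv
    refine hJ f x v X.trdeg hn hX.dim (hxg v hth) (R8 v P hP hv) ?_ R2
    intro p hp
    obtain ⟨s, hs, hs'⟩ := (hX.eqn p).1 hp
    exact ⟨s, (R7 v hth s hs).1, (R7 v hth s hs).2, hs'⟩
  refine ⟨?_, ?_⟩
  · have hN : 0 < N := by have := hX.dim; omega
    obtain ⟨b, hb, hb'⟩ := hX.van ⟨0, hN⟩
    have h0 : b ≠ 0 := by
      rintro rfl
      exact hX.ne ⟨0, hN⟩ (by rw [← hb']; rfl)
    obtain ⟨P, hPp, hPh, hPm⟩ := PRD.exists_prime X b hb h0
    obtain ⟨v, hv, -⟩ := hDIV X P hPp hPh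
    obtain ⟨σ, hσ, -⟩ := key v P hPm hv
    exact hC hT hL f x X.trdeg hn R2 R5 ⟨σ, hσ⟩
  · intro ω hω v P hP hv
    have hth := PRD.through X v P hP hv
    obtain ⟨σ, hσ, hσ'⟩ := key v P hP hv
    have h1 : v.logOrd (mnr f x σ • ω) = v.logOrd ω := by
      rw [hF X.trdeg v _ _ hn hσ hω.ne, hσ', zero_add]
    rw [← h1]
    have h2 : mnr f x σ • ω ≠ 0 := smul_ne_zero hσ hω.ne
    have h3 : dforms (fun k => x (σ (Sum.inr k))) ≠ 0 := by
      rcases hω.eq σ with h | h
      · rw [← h]; exact h2
      · intro hc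
        rw [hc, neg_zero] at h
        exact h2 h
    have h4 : v.logOrd (dforms fun k => x (σ (Sum.inr k))) = 1 := by
      refine (hR X.trdeg v (fun k => x (σ (Sum.inr k))) hn (fun k => hxg v hth _)
        (PRD.algInd_of_dforms _ h3)).2 ?_
      intro D hD b hb
      obtain ⟨p, s, hs, hs', e⟩ := R8 v P hP hv b hb
      exact PRD.deriv_reg x v (hxg v hth) D
        (PRD.deriv_coord f x v (hxg v hth) R2 σ hσ hσ' D hD) b hb p s hs hs' e
    rcases hω.eq σ with h | h
    · rw [h, h4]
    · rw [h]
      have h5 : -dforms (fun k => x (σ (Sum.inr k))) =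
          (-1 : X.K) • dforms (fun k => x (σ (Sum.inr k))) := by
        exact (neg_one_smul X.K _).symm
      rw [h5, hF X.trdeg v _ _ hn (neg_ne_zero.2 one_ne_zero) h3, DivVal.ord_neg_one, zero_add, h4]

end NDQ
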