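import Pool.Agent.NDQ.St

/-!
# PTH: the path to weights with a common zero of the initial forms
-/

set_option autoImplicit false

namespace NDQ

open MldGeo MldGap MldAcc MldQ MvPolynomial
open MldX (wdeg word initForm Nondegenerate InteriorPoint)

namespace PTH

variable {N r : ℕ}

/-- the divisibility condition -/
def Dv (f : Fin r → MvPolynomial (Fin N) ℂ) (E : ℕ) (z : Fin N → ℕ) : Prop :=
  ∀ i, ∀ u ∈ (f i).support, ∀ u' ∈ (f i).support, (E : ℤ) ∣ (wdeg z u : ℤ) - wdeg z u'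

open Classical in
/-- the weights after the step in the direction `H` -/
noncomputable def nx (E : ℕ) (H : Finset (Fin N)) (z : Fin N → ℕ) : Fin N → ℕ :=
  z + E • fun j => if j ∈ H then 1 else 0

open Classical in
theorem nx_apply (E : ℕ) (H : Finset (Fin N)) (z : Fin N → ℕ) (j : Fin N) :
    nx E H z j = z j + E * (if j ∈ H then 1 else 0) := rfl

theorem wdeg_nx (E : ℕ) (H : Finset (Fin N)) (z : Fin N → ℕ) (u : Fin N →₀ ℕ) :
    wdeg (nx E H z) u = wdeg z u + E * ∑ j ∈ H, u j := by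
  classical
  unfold wdeg
  have h1 : ∀ j, nx E H z j * u j = z j * u j + E * (if j ∈ H then u j else 0) := by
    intro j
    rw [nx_apply]
    split_ifs <;> ring
  rw [Finset.sum_congr rfl fun j _ => h1 j, Finset.sum_add_distrib, ← Finset.mul_sum,
    Finset.sum_ite_mem, Finset.univ_inter]

theorem sum_nx (E : ℕ) (H : Finset (Fin N)) (z : Fin N → ℕ) :
    ∑ j, nx E H z j = ∑ j, z j + E * H.card := by
  classical
  rw [Finset.sum_congr rfl fun j _ => nx_apply E H z j, Finset.sum_add_distrib, ← Finset.mul_sum,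
    Finset.sum_ite_mem, Finset.univ_inter, Finset.sum_const, smul_eq_mul, mul_one]

theorem le_nx (E : ℕ) (H : Finset (Fin N)) (z : Fin N → ℕ) (j : Fin N) : z j ≤ nx E H z j :=
  Nat.le_add_right _ _

theorem dv_nx {f : Fin r → MvPolynomial (Fin N) ℂ} {E : ℕ} (H : Finset (Fin N)) {z : Fin N → ℕ}
    (h : Dv f E z) : Dv f E (nx E H z) := by
  intro i u hu u' hu'
  rw [wdeg_nx, wdeg_nx]
  have h1 := h i u hu u' hu'
  have h2 : ((wdeg z u + E * ∑ j ∈ H, u j : ℕ) : ℤ) - ((wdeg z u' + E * ∑ j ∈ H, u' j : ℕ) : ℤ) =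
      ((wdeg z u : ℤ) - wdeg z u') + E * ((∑ j ∈ H, u j : ℕ) - (∑ j ∈ H, u' j : ℕ) : ℤ) := by
    push_cast
    ring
  rw [h2]
  exact dvd_add h1 (Dvd.intro _ rfl)

theorem ld_nx (hWRD : S_WRD) {f : Fin r → MvPolynomial (Fin N) ℂ} (hf : ∀ i, f i ≠ 0) {E : ℕ}
    (H : Finset (Fin N)) {z : Fin N → ℕ} (h : Dv f E z)
    (hH : H.card ≤ (Finset.univ.filter fun i : Fin r =>
      ∀ u ∈ (initForm z (f i)).support, ∃ j ∈ H, 1 ≤ u j).card) :
    ld f (nx E H z) ≤ ld f z := by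
  classical
  have hw : ∀ i, word z (f i) + (if ∀ u ∈ (initForm z (f i)).support, ∃ j ∈ H, 1 ≤ u j then E
      else 0) ≤ word (nx E H z) (f i) := by
    intro i
    obtain ⟨a1, a2, a3, a4, _, _⟩ := hWRD (f i) z
    obtain ⟨b1, _, _, _, _, _⟩ := hWRD (f i) (nx E H z)
    split_ifs with hi
    · obtain ⟨u, hu, hu2⟩ := b1 (hf i)
      obtain ⟨u', hu', hu2'⟩ := a1 (hf i)
      rw [← hu2]
      rcases Nat.eq_or_lt_of_le (a2 u hu) with h1 | h1
      · have h2 : u ∈ (initForm z (f i)).support := by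
          rw [mem_support_iff, a3 u, if_pos h1.symm]
          exact mem_support_iff.1 hu
        obtain ⟨j, hj, hj1⟩ := hi u h2
        have h3 : 1 ≤ ∑ j ∈ H, u j :=
          hj1.trans (Finset.single_le_sum (f := fun j => u j) (fun _ _ => Nat.zero_le _) hj)
        have h4 : E * 1 ≤ E * ∑ j ∈ H, u j := Nat.mul_le_mul_left E h3
        rw [wdeg_nx, ← h1]
        omega
      · have h2 := h i u hu u' hu'
        rw [hu2'] at h2
        have h3 : (E : ℤ) ≤ (wdeg z u : ℤ) - word z (f i) := Int.le_of_dvd (by omega) h2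
        have h4 : wdeg z u ≤ wdeg (nx E H z) u := by
          rw [wdeg_nx]
          exact Nat.le_add_right _ _
        omega
    · rw [add_zero]
      exact a4 _ (le_nx E H z)
  have h1 : ∑ i, (word z (f i) + (if ∀ u ∈ (initForm z (f i)).support, ∃ j ∈ H, 1 ≤ u j then E
      else 0)) ≤ ∑ i, word (nx E H z) (f i) := Finset.sum_le_sum fun i _ => hw i
  rw [Finset.sum_add_distrib, ← Finset.sum_filter, Finset.sum_const, smul_eq_mul] at h1
  have h2 := sum_nx E H z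
  have h3 : E * H.card ≤ (Finset.univ.filter fun i : Fin r =>
      ∀ u ∈ (initForm z (f i)).support, ∃ j ∈ H, 1 ≤ u j).card * E := by
    rw [mul_comm]
    exact Nat.mul_le_mul_right E hH
  unfold ld
  have h4 : ((∑ j, nx E H z j : ℕ) : ℤ) = ((∑ j, z j + E * H.card : ℕ) : ℤ) := by rw [h2]
  have h5 : (∑ j, (nx E H z j : ℤ)) = ((∑ j, nx E H z j : ℕ) : ℤ) := by push_cast; rfl
  have h6 : (∑ j, (z j : ℤ)) = ((∑ j, z j : ℕ) : ℤ) := by push_cast; rfl
  have h7 : (∑ i, (word (nx E H z) (f i) : ℤ)) = ((∑ i, word (nx E H z) (f i) : ℕ) : ℤ) := by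
    push_cast; rfl
  have h8 : (∑ i, (word z (f i) : ℤ)) = ((∑ i, word z (f i) : ℕ) : ℤ) := by push_cast; rfl
  rw [h5, h6, h7, h8, h2]
  omega

/-- the weights on the path -/
structure Pt (f : Fin r → MvPolynomial (Fin N) ℂ) (E : ℕ) (z : Fin N → ℕ) where
  y : Fin N → ℕ
  pos : ∀ j, 0 < y j
  dv : Dv f E y
  form : ∃ h : Fin N → ℕ, y = z + E • h
  le : ld f y ≤ ld f z

theorem step (hWRD : S_WRD) (hHLM : S_HLM) {f : Fin r → MvPolynomial (Fin N) ℂ}
    (hf : ∀ i, f i ≠ 0) (hc : ∀ i, constantCoeff (f i) = 0) (hN : Nondegenerate f) {E : ℕ}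
    (hE : 0 < E) (z : Fin N → ℕ) (p : Pt f E z) (hT : ¬ TorusZero f p.y) :
    ∃ p' : Pt f E z, (∀ j, p.y j ≤ p'.y j) ∧ p.y ≠ p'.y ∧ ld f p'.y ≤ ld f p.y := by
  classical
  obtain ⟨H, hH, hc2⟩ := hHLM f hf hc hN p.y p.pos hT
  have h1 := ld_nx hWRD hf H p.dv hc2
  refine ⟨⟨nx E H p.y, fun j => (p.pos j).trans_le (le_nx E H p.y j), dv_nx H p.dv, ?_,
    h1.trans p.le⟩, le_nx E H p.y, ?_, h1⟩
  · obtain ⟨h, hh⟩ := p.form
    refine ⟨h + fun j => if j ∈ H then 1 else 0, ?_⟩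
    unfold nx
    rw [smul_add, ← add_assoc, ← hh]
  · intro h
    obtain ⟨j, hj⟩ := hH
    have h2 : p.y j = nx E H p.y j := congrFun h j
    unfold nx at h2
    simp only [Pi.add_apply, Pi.smul_apply, smul_eq_mul, if_pos hj, mul_one] at h2
    omega

end PTH

theorem t_PTH (hWRD : S_WRD) (hCOE : S_COE) (hHLM : S_HLM) : S_PTH := by
  intro N r f hf hc hN hI E z hE hz hd
  by_contra hcon
  have hno : ∀ p : PTH.Pt f E z, ¬ TorusZero f p.y := by
    intro p hp
    obtain ⟨h, hh⟩ := p.form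
    refine hcon ⟨h, ?_, ?_⟩
    · rw [← hh]; exact hp
    · rw [← hh]; exact p.le
  choose g hg1 hg2 hg3 using fun p : PTH.Pt f E z => PTH.step hWRD hHLM hf hc hN hE z p (hno p)
  let p0 : PTH.Pt f E z := ⟨z, hz, hd, ⟨0, by simp⟩, le_rfl⟩
  let s : ℕ → PTH.Pt f E z := fun k => g^[k] p0
  have hs : ∀ k, s (k + 1) = g (s k) := fun k => Function.iterate_succ_apply' g k p0
  obtain ⟨k, hk⟩ := hCOE f hf hI (fun k => (s k).y)
    (fun k j => by show (s k).y j ≤ (s (k + 1)).y j; rw [hs]; exact hg1 _ j)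
    (fun k => by show (s k).y ≠ (s (k + 1)).y; rw [hs]; exact hg2 _)
  have h1 : ld f (s (k + 1)).y ≤ ld f (s k).y := by rw [hs]; exact hg3 _
  exact absurd hk (not_lt.2 h1)

end NDQ
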