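import Pool.Agent.NDQ.St
import Pool.Agent.MldGeo.Ord

/-!
# REL: the local ring of a nondegenerate complete intersection
-/

set_option autoImplicit false

namespace NDQ

open MldGeo MldGap MldAcc MldQ MvPolynomial
open MldX (wdeg word initForm Nondegenerate InteriorPoint)

noncomputable section

namespace REL

variable {n N r : ℕ} {X : Germ n} {f : Fin r → MvPolynomial (Fin N) ℂ} {x : Fin N → X.K}

theorem part1 (h : CI X f x) (s : MvPolynomial (Fin N) ℂ) :
    ∃ a : X.R, (a : X.K) = aeval x s ∧ (a ∈ X.m ↔ constantCoeff s = 0) := by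
  choose b hbm hbx using h.van
  refine ⟨aeval b s, ?_, ?_⟩
  · have h1 : X.R.val (aeval b s) = aeval (fun j => X.R.val (b j)) s := comp_aeval_apply b X.R.val s
    have h2 : (fun j => X.R.val (b j)) = x := funext hbx
    rw [h2] at h1
    exact h1
  · have hmax := X.max
    have h1 : (Ideal.Quotient.mkₐ ℂ X.m) (aeval b s) =
        aeval (fun j => (Ideal.Quotient.mkₐ ℂ X.m) (b j)) s :=
      comp_aeval_apply b (Ideal.Quotient.mkₐ ℂ X.m) s
    have h2 : (fun j => (Ideal.Quotient.mkₐ ℂ X.m) (b j)) = (0 : Fin N → X.R ⧸ X.m) := by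
      funext j
      exact Ideal.Quotient.eq_zero_iff_mem.2 (hbm j)
    rw [h2, aeval_zero] at h1
    have h3 : aeval b s ∈ X.m ↔ (Ideal.Quotient.mkₐ ℂ X.m) (aeval b s) = 0 :=
      Ideal.Quotient.eq_zero_iff_mem.symm
    rw [h3, h1]
    have : Nontrivial (X.R ⧸ X.m) := Ideal.Quotient.nontrivial_iff.2 hmax.ne_top
    exact map_eq_zero_iff _ (algebraMap ℂ (X.R ⧸ X.m)).injective

theorem ne_zero (h : CI X f x) {s : MvPolynomial (Fin N) ℂ} (hs : constantCoeff s ≠ 0) :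
    aeval x s ≠ 0 := by
  obtain ⟨a, ha, hm⟩ := part1 h s
  intro h0
  rw [h0] at ha
  have h1 : a = 0 := Subtype.ext ha
  rw [h1] at hm
  exact hs (hm.1 (zero_mem _))

/-- two elements of `R` and their quotient -/
theorem quot (h : CI X f x) {a : X.K} {b c : X.R} (hab : a * (c : X.K) = b) :
    ∃ p s s₁ s₂ : MvPolynomial (Fin N) ℂ, constantCoeff s₁ ≠ 0 ∧ constantCoeff s₂ ≠ 0 ∧
      aeval x s = (c : X.K) * aeval x s₂ * aeval x s₁ ∧ a * aeval x s = aeval x p := by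
  obtain ⟨p1, s1, h1, h1'⟩ := h.gen b b.2
  obtain ⟨p2, s2, h2, h2'⟩ := h.gen c c.2
  refine ⟨p1 * s2, p2 * s1, s1, s2, h1, h2, ?_, ?_⟩
  · rw [map_mul, h2']
  · rw [map_mul, map_mul, ← h2', ← h1', ← hab]
    ring

theorem ord_zero_of_notMem {v : DivVal n X.K} {P : Ideal X.R}
    (h3 : ∀ a : X.R, 0 ≤ v.ord a) (h4 : ∀ a : X.R, a ∈ P ↔ a = 0 ∨ 0 < v.ord a) {a : X.R}
    (ha : a ∉ P) : (a : X.K) ≠ 0 ∧ v.ord a = 0 := by
  rw [h4] at ha
  push Not at ha
  refine ⟨fun h => ha.1 (Subtype.ext h), le_antisymm ha.2 (h3 a)⟩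

end REL

theorem t_REL : S_REL := by
  intro hDIV n N r X f x h
  have hf0 : ∀ i, aeval x (f i) = 0 := by
    intro i
    rw [h.eqn]
    refine ⟨1, by simp, ?_⟩
    rw [one_mul]
    exact Ideal.subset_span ⟨i, rfl⟩
  have hgen : ∀ a : X.K, ∃ p s : MvPolynomial (Fin N) ℂ, aeval x s ≠ 0 ∧
      a * aeval x s = aeval x p := by
    intro a
    obtain ⟨b, hb, c, hc, hc0, hab⟩ := X.frac a
    obtain ⟨p, s, s1, s2, h1, h2, h3, h4⟩ := REL.quot h (a := a) (b := ⟨b, hb⟩) (c := ⟨c, hc⟩) hab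
    refine ⟨p, s, ?_, h4⟩
    rw [h3]
    exact mul_ne_zero (mul_ne_zero hc0 (REL.ne_zero h h2)) (REL.ne_zero h h1)
  refine ⟨REL.part1 h, hf0, ?_, ?_, ?_, hgen, ?_, ?_⟩
  · intro i
    obtain ⟨a, ha, hm⟩ := REL.part1 h (f i)
    rw [hf0 i] at ha
    have h1 : a = 0 := Subtype.ext ha
    rw [h1] at hm
    exact hm.1 (zero_mem _)
  · intro i hi
    have h1 := h.nondeg (fun _ => 1) (fun _ => Nat.one_pos) {i} (fun _ => 1)
      (fun _ => one_ne_zero)
    have h2 : initForm (fun _ => 1) (f i) = 0 := by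
      rw [hi]
      simp [MldX.initForm]
    have h3 := h1 (by
      intro k hk
      rw [Finset.mem_singleton] at hk
      rw [hk, h2, map_zero])
    refine h3.ne_zero ⟨i, Finset.mem_singleton_self i⟩ ?_
    funext j
    show eval _ (pderiv j (initForm _ (f i))) = 0
    rw [h2, map_zero, map_zero]
  · rw [eq_top_iff]
    intro a _
    obtain ⟨p, s, hs, hp⟩ := hgen a
    have h1 : ∀ q : MvPolynomial (Fin N) ℂ, aeval x q ∈ IntermediateField.adjoin ℂ (Set.range x) := by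
      intro q
      apply IntermediateField.algebra_adjoin_le_adjoin ℂ (Set.range x)
      rw [Algebra.adjoin_range_eq_range_aeval]
      exact ⟨q, rfl⟩
    have h2 : a = aeval x p / aeval x s := by
      rw [← hp]
      field_simp
    rw [h2]
    exact div_mem (h1 p) (h1 s)
  · intro v hv s hs
    obtain ⟨a, ha, hm⟩ := REL.part1 h s
    refine ⟨REL.ne_zero h hs, ?_⟩
    rw [← ha]
    exact hv.2 a fun h1 => hs (hm.1 h1)
  · intro v P hPm hv a ha
    obtain ⟨hP1, hP2, hP3, hP4⟩ := hv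
    obtain ⟨v', hv', hfr⟩ := hDIV X P hP1 hP2
    have hle : ∀ b : X.K, v'.Ge 0 b → v.Ge 0 b := by
      intro b hb
      by_cases hb0 : b = 0
      · exact Or.inl hb0
      obtain ⟨c, s, hs, hbs⟩ := hfr b hb
      obtain ⟨hs0, hs1⟩ := REL.ord_zero_of_notMem hP3 hP4 hs
      have h1 := v.ord_mul b s hb0 hs0
      rw [hbs, hs1, add_zero] at h1
      right
      rw [← h1]
      exact hP3 c
    have heq := DivVal.ord_eq_of_OV v' (w := v) hle a
    have ha' : v'.Ge 0 a := by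
      rcases ha with h1 | h1
      · exact Or.inl h1
      · right
        rw [heq]
        exact h1
    obtain ⟨c, s, hs, hbs⟩ := hfr a ha'
    obtain ⟨p, q, s1, s2, h1, h2, h3, h4⟩ := REL.quot h hbs
    have hord : ∀ q : MvPolynomial (Fin N) ℂ, constantCoeff q ≠ 0 →
        aeval x q ≠ 0 ∧ v.ord (aeval x q) = 0 := by
      intro q hq
      obtain ⟨a, ha, hm⟩ := REL.part1 h q
      have h5 := REL.ord_zero_of_notMem hP3 hP4 (a := a) fun h6 => hq (hm.1 (hPm h6))
      rw [ha] at h5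
      exact h5
    obtain ⟨hs0, hs1⟩ := REL.ord_zero_of_notMem hP3 hP4 hs
    obtain ⟨h10, h11⟩ := hord s1 h1
    obtain ⟨h20, h21⟩ := hord s2 h2
    refine ⟨p, q, ?_, ?_, h4⟩
    · rw [h3]
      exact mul_ne_zero (mul_ne_zero hs0 h20) h10
    · rw [h3, v.ord_mul _ _ (mul_ne_zero hs0 h20) h10, v.ord_mul _ _ hs0 h20, hs1, h11, h21]
      norm_num

end

end NDQ
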