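import Pool.Agent.NDQ.St
import Pool.Agent.MldGeo.ROT

/-!
# Series which are invariant under the rotation
-/

set_option autoImplicit false

namespace NDQ

open MldGeo MldGap MldAcc MldQ MvPolynomial

theorem t_ROG : S_ROG := by
  intro F _ _ Λ E hE ζ hζ a ha h
  exact ROT.dvd_ord Λ hE ζ hζ a ha h

end NDQ
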