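import Pool.Agent.NDQ.St
import Pool.Agent.MldGeo.Ord

/-!
# SOL: the solution in the field of Laurent series
-/

set_option autoImplicit false

namespace NDQ

open MldGeo MldGap MldAcc MldQ MvPolynomial
open MldX (wdeg word initForm Nondegenerate InteriorPoint)

noncomputable section

namespace SOL

variable {N r : ℕ} {κ : Type} [Field κ] [Algebra ℂ κ] (Λ : LField κ)

/-- the scaled polynomial -/
def scl (w : Fin N → ℕ) (p : MvPolynomial (Fin N) ℂ) : MvPolynomial (Fin N) Λ.L :=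
  ∑ u ∈ p.support, monomial u (algebraMap ℂ Λ.L (coeff u p) * Λ.s ^ (wdeg w u - word w p))

theorem eval_monomial' {R : Type} [CommRing R] (η : Fin N → R) (u : Fin N →₀ ℕ) (c : R) :
    eval η (monomial u c) = c * ∏ j, η j ^ u j := by
  rw [eval_monomial, Finsupp.prod_fintype _ _ fun j => pow_zero _]

theorem eval_scl (hW : S_WRD) (w : Fin N → ℕ) (p : MvPolynomial (Fin N) ℂ) (η : Fin N → Λ.L) :
    Λ.s ^ word w p * eval η (scl Λ w p) = aeval (fun j => Λ.s ^ w j * η j) p := by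
  unfold scl
  rw [map_sum, Finset.mul_sum, aeval_def, eval₂_eq']
  refine Finset.sum_congr rfl fun u hu => ?_
  rw [eval_monomial']
  have h1 := (hW p w).2.1 u hu
  have h2 : ∏ j, (Λ.s ^ w j * η j) ^ u j = Λ.s ^ wdeg w u * ∏ j, η j ^ u j := by
    unfold wdeg
    rw [← Finset.prod_pow_eq_pow_sum, ← Finset.prod_mul_distrib]
    refine Finset.prod_congr rfl fun j _ => ?_
    rw [mul_pow, ← pow_mul]
  have h3 : Λ.s ^ wdeg w u = Λ.s ^ word w p * Λ.s ^ (wdeg w u - word w p) := by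
    rw [← pow_add, Nat.add_sub_cancel' h1]
  rw [h2, h3]
  ring

theorem coeff_scl (w : Fin N → ℕ) (p : MvPolynomial (Fin N) ℂ) (u : Fin N →₀ ℕ) :
    coeff u (scl Λ w p) = algebraMap ℂ Λ.L (coeff u p) * Λ.s ^ (wdeg w u - word w p) := by
  classical
  unfold scl
  rw [coeff_sum]
  simp only [coeff_monomial]
  rw [Finset.sum_ite_eq']
  by_cases hu : u ∈ p.support
  · rw [if_pos hu]
  · rw [if_neg hu, notMem_support_iff.1 hu, map_zero, zero_mul]

theorem ge_s_pow (k : ℕ) : Λ.Ge k (Λ.s ^ k) := by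
  refine Or.inr ?_
  have h1 : Λ.val.ord (Λ.s ^ k) = k * Λ.val.ord Λ.s := DivVal.ord_pow _ _ _
  have h2 : Λ.val.ord Λ.s = 1 := Λ.ord_s
  rw [h1, h2, mul_one]

theorem ord_s_pow (k : ℕ) : Λ.val.ord (Λ.s ^ k) = k := by
  have h1 : Λ.val.ord (Λ.s ^ k) = k * Λ.val.ord Λ.s := DivVal.ord_pow _ _ _
  have h2 : Λ.val.ord Λ.s = 1 := Λ.ord_s
  rw [h1, h2, mul_one]

theorem ge_coeff_scl (w : Fin N → ℕ) (p : MvPolynomial (Fin N) ℂ) (u : Fin N →₀ ℕ) :
    Λ.Ge 0 (coeff u (scl Λ w p)) := by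
  rw [coeff_scl]
  refine (DivVal.Ge.const _ _).mul_left ((ge_s_pow Λ _).mono ?_)
  exact Int.natCast_nonneg _

theorem ge_coeff_sub (hW : S_WRD) (w : Fin N → ℕ) (p : MvPolynomial (Fin N) ℂ)
    (u : Fin N →₀ ℕ) :
    Λ.Ge 1 (coeff u (scl Λ w p - map (algebraMap ℂ Λ.L) (initForm w p))) := by
  rw [coeff_sub, coeff_scl, coeff_map, (hW p w).2.2.1 u]
  by_cases hu : u ∈ p.support
  · have h1 := (hW p w).2.1 u hu
    by_cases h2 : wdeg w u = word w p
    · rw [if_pos h2, h2, Nat.sub_self, pow_zero, mul_one, sub_self]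
      exact DivVal.Ge.zero _ _
    · rw [if_neg h2, map_zero, sub_zero]
      refine (DivVal.Ge.const _ _).mul_left ((ge_s_pow Λ _).mono ?_)
      have h3 : 1 ≤ wdeg w u - word w p := by omega
      exact_mod_cast h3
  · rw [notMem_support_iff.1 hu, map_zero, zero_mul, ite_self, map_zero, sub_zero]
    exact DivVal.Ge.zero _ _

theorem ge_prod (η : Fin N → Λ.L) (hη : ∀ j, Λ.Ge 0 (η j)) (u : Fin N →₀ ℕ) :
    Λ.Ge 0 (∏ j, η j ^ u j) :=
  DivVal.Ge.prod0 _ _ fun j _ => (hη j).pow0 _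

theorem ge_eval {k : ℤ} (Q : MvPolynomial (Fin N) Λ.L) (hQ : ∀ u, Λ.Ge k (coeff u Q))
    (η : Fin N → Λ.L) (hη : ∀ j, Λ.Ge 0 (η j)) : Λ.Ge k (eval η Q) := by
  rw [eval_eq']
  exact DivVal.Ge.sum _ _ fun u _ => (hQ u).mul_right (ge_prod Λ η hη u)

theorem ge_eval_pderiv {k : ℤ} (Q : MvPolynomial (Fin N) Λ.L) (hQ : ∀ u, Λ.Ge k (coeff u Q))
    (η : Fin N → Λ.L) (hη : ∀ j, Λ.Ge 0 (η j)) (l : Fin N) : Λ.Ge k (eval η (pderiv l Q)) := by
  conv => enter [3, 2, 2]; rw [Q.as_sum]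
  rw [map_sum, map_sum]
  refine DivVal.Ge.sum _ _ fun u _ => ?_
  rw [pderiv_monomial, eval_monomial']
  exact ((hQ u).mul_right (DivVal.Ge.natCast _ _)).mul_right (ge_prod Λ η hη _)

/-- polynomials with coefficients in the valuation ring -/
def CInt {M : ℕ} (Q : MvPolynomial (Fin M) Λ.L) : Prop := ∀ u, Λ.Ge 0 (coeff u Q)

theorem int_C {M : ℕ} {c : Λ.L} (hc : Λ.Ge 0 c) : CInt Λ (C c : MvPolynomial (Fin M) Λ.L) := by
  classical
  intro u
  rw [coeff_C]
  split_ifs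
  · exact hc
  · exact DivVal.Ge.zero _ _

theorem int_X {M : ℕ} (j : Fin M) : CInt Λ (X j : MvPolynomial (Fin M) Λ.L) := by
  classical
  intro u
  rw [coeff_X]
  split_ifs
  · exact DivVal.Ge.one _
  · exact DivVal.Ge.zero _ _

theorem int_mul {M : ℕ} {Q Q' : MvPolynomial (Fin M) Λ.L} (h : CInt Λ Q) (h' : CInt Λ Q') :
    CInt Λ (Q * Q') := by
  classical
  intro u
  rw [coeff_mul]
  exact DivVal.Ge.sum _ _ fun x _ => (h _).mul_left (h' _)

theorem int_sum {M : ℕ} {ι : Type} (s : Finset ι) (Q : ι → MvPolynomial (Fin M) Λ.L)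
    (h : ∀ i ∈ s, CInt Λ (Q i)) : CInt Λ (∑ i ∈ s, Q i) := by
  intro u
  rw [coeff_sum]
  exact DivVal.Ge.sum _ _ fun i hi => h i hi u

theorem int_prod {M : ℕ} {ι : Type} (s : Finset ι) (Q : ι → MvPolynomial (Fin M) Λ.L)
    (h : ∀ i ∈ s, CInt Λ (Q i)) : CInt Λ (∏ i ∈ s, Q i) := by
  classical
  induction s using Finset.induction_on with
  | empty =>
    rw [Finset.prod_empty, ← C_1]
    exact int_C Λ (DivVal.Ge.one _)
  | insert a s ha ih =>
    rw [Finset.prod_insert ha]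
    exact int_mul Λ (h a (Finset.mem_insert_self a s))
      (ih fun i hi => h i (Finset.mem_insert_of_mem hi))

theorem int_pow {M : ℕ} {Q : MvPolynomial (Fin M) Λ.L} (h : CInt Λ Q) (k : ℕ) :
    CInt Λ (Q ^ k) := by
  induction k with
  | zero => rw [pow_zero, ← C_1]; exact int_C Λ (DivVal.Ge.one _)
  | succ k ih => rw [pow_succ]; exact int_mul Λ ih h

theorem int_aeval {M : ℕ} (τ : Fin N → MvPolynomial (Fin M) Λ.L) (hτ : ∀ j, CInt Λ (τ j))
    (Q : MvPolynomial (Fin N) Λ.L) (hQ : CInt Λ Q) : CInt Λ (aeval τ Q) := by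
  rw [aeval_def, eval₂_eq']
  refine int_sum Λ _ _ fun u _ => ?_
  exact int_mul Λ (int_C Λ (hQ u)) (int_prod Λ _ _ fun j _ => int_pow Λ (hτ j) _)

theorem eval_aeval' {R : Type} [CommRing R] {M : ℕ} (τ : Fin N → MvPolynomial (Fin M) R)
    (z : Fin M → R) (Q : MvPolynomial (Fin N) R) :
    eval z (aeval τ Q) = eval (fun j => eval z (τ j)) Q := by
  induction Q using MvPolynomial.induction_on with
  | C c => rw [aeval_C, algebraMap_eq, eval_C, eval_C]
  | add p q hp hq => rw [map_add, map_add, map_add, hp, hq]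
  | mul_X p j hp => rw [map_mul, map_mul, map_mul, hp, aeval_X, eval_X]

theorem pderiv_aeval' {R : Type} [CommRing R] {M : ℕ} (τ : Fin N → MvPolynomial (Fin M) R)
    (j : Fin M) (i : Fin N) (h : ∀ l, pderiv j (τ l) = aeval τ (pderiv i (X l : MvPolynomial (Fin N) R)))
    (Q : MvPolynomial (Fin N) R) : pderiv j (aeval τ Q) = aeval τ (pderiv i Q) := by
  induction Q using MvPolynomial.induction_on with
  | C c => rw [aeval_C, algebraMap_eq, pderiv_C, pderiv_C, map_zero]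
  | add p q hp hq => rw [map_add, map_add, map_add, map_add, hp, hq]
  | mul_X p l hp =>
    rw [map_mul, pderiv_mul, pderiv_mul, map_add, map_mul, map_mul, hp, aeval_X, h l]

variable {n : ℕ} {f : Fin r → MvPolynomial (Fin N) ℂ} {w : Fin N → ℕ}

/-- the coordinates which are free are inserted -/
def sub (P : GenPt (n := n) fun i => initForm w (f i)) (Λ : LField P.κ) (j : Fin N) :
    MvPolynomial (Fin r) Λ.L :=
  Sum.elim (fun j' : Fin r => X j') (fun k : Fin n => C (Λ.emb (P.ξ (P.σ (Sum.inr k)))))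
    (P.σ.symm j)

theorem sub_inl (P : GenPt (n := n) fun i => initForm w (f i)) (Λ : LField P.κ) (j : Fin r) :
    sub P Λ (P.σ (Sum.inl j)) = X j := by
  unfold sub
  rw [Equiv.symm_apply_apply]
  rfl

theorem sub_inr (P : GenPt (n := n) fun i => initForm w (f i)) (Λ : LField P.κ) (k : Fin n) :
    sub P Λ (P.σ (Sum.inr k)) = C (Λ.emb (P.ξ (P.σ (Sum.inr k)))) := by
  unfold sub
  rw [Equiv.symm_apply_apply]
  rfl

theorem cases_σ (P : GenPt (n := n) fun i => initForm w (f i)) (p : Fin N → Prop)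
    (h1 : ∀ j, p (P.σ (Sum.inl j))) (h2 : ∀ k, p (P.σ (Sum.inr k))) : ∀ j, p j := by
  intro j
  obtain ⟨i, rfl⟩ := P.σ.surjective j
  rcases i with i | i
  · exact h1 i
  · exact h2 i

theorem ge_emb {κ : Type} [Field κ] [Algebra ℂ κ] (Λ : LField κ) (a : κ) : Λ.Ge 0 (Λ.emb a) := by
  by_cases ha : a = 0
  · rw [ha, map_zero]
    exact DivVal.Ge.zero _ _
  · exact Or.inr (Λ.ord_emb a ha).ge

theorem not_ge_emb {κ : Type} [Field κ] [Algebra ℂ κ] (Λ : LField κ) (a : κ) (ha : a ≠ 0) :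
    ¬ Λ.Ge 1 (Λ.emb a) := by
  rintro (h | h)
  · exact ha ((map_eq_zero _).1 h)
  · have h1 : Λ.val.ord (Λ.emb a) = 0 := Λ.ord_emb a ha
    rw [h1] at h
    omega

/-- the equations -/
def eqs (P : GenPt (n := n) fun i => initForm w (f i)) (Λ : LField P.κ) (i : Fin r) :
    MvPolynomial (Fin r) Λ.L := aeval (sub P Λ) (scl Λ w (f i))

theorem int_sub (P : GenPt (n := n) fun i => initForm w (f i)) (Λ : LField P.κ) (j : Fin N) :
    CInt Λ (sub P Λ j) := by
  refine cases_σ P (fun j => CInt Λ (sub P Λ j)) (fun j => ?_) (fun k => ?_) j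
  · change CInt Λ (sub P Λ (P.σ (Sum.inl j)))
    rw [sub_inl]
    exact int_X Λ j
  · change CInt Λ (sub P Λ (P.σ (Sum.inr k)))
    rw [sub_inr]
    exact int_C Λ (ge_emb Λ _)

theorem pderiv_eqs (P : GenPt (n := n) fun i => initForm w (f i)) (Λ : LField P.κ) (i j : Fin r) :
    pderiv j (eqs P Λ i) = aeval (sub P Λ) (pderiv (P.σ (Sum.inl j)) (scl Λ w (f i))) := by
  classical
  refine pderiv_aeval' _ _ _ (fun l => ?_) _
  refine cases_σ P (fun l => pderiv j (sub P Λ l) = aeval (sub P Λ)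
    (pderiv (P.σ (Sum.inl j)) (X l : MvPolynomial (Fin N) Λ.L))) (fun j' => ?_) (fun k => ?_) l
  · change pderiv j (sub P Λ (P.σ (Sum.inl j'))) = aeval (sub P Λ)
      (pderiv (P.σ (Sum.inl j)) (X (P.σ (Sum.inl j')) : MvPolynomial (Fin N) Λ.L))
    rw [sub_inl, pderiv_X, pderiv_X]
    by_cases h : j' = j
    · subst h
      rw [Pi.single_eq_same, Pi.single_eq_same, map_one]
    · rw [Pi.single_eq_of_ne h, Pi.single_eq_of_ne, map_zero]
      intro h1
      exact h (Sum.inl_injective (P.σ.injective h1))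
  · change pderiv j (sub P Λ (P.σ (Sum.inr k))) = aeval (sub P Λ)
      (pderiv (P.σ (Sum.inl j)) (X (P.σ (Sum.inr k)) : MvPolynomial (Fin N) Λ.L))
    rw [sub_inr, pderiv_C, pderiv_X, Pi.single_eq_of_ne, map_zero]
    intro h1
    have h2 := P.σ.injective h1
    exact Sum.inr_ne_inl h2

theorem eval_sub_emb (P : GenPt (n := n) fun i => initForm w (f i)) (Λ : LField P.κ) :
    (fun l => eval (fun j => Λ.emb (P.ξ (P.σ (Sum.inl j)))) (sub P Λ l)) =
      fun l => Λ.emb (P.ξ l) := by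
  funext l
  refine cases_σ P (fun l => eval (fun j => Λ.emb (P.ξ (P.σ (Sum.inl j)))) (sub P Λ l) =
    Λ.emb (P.ξ l)) (fun j' => ?_) (fun k => ?_) l
  · change eval (fun j => Λ.emb (P.ξ (P.σ (Sum.inl j)))) (sub P Λ (P.σ (Sum.inl j'))) = _
    rw [sub_inl, eval_X]
  · change eval (fun j => Λ.emb (P.ξ (P.σ (Sum.inl j)))) (sub P Λ (P.σ (Sum.inr k))) = _
    rw [sub_inr, eval_C]

theorem eval_map_emb {κ : Type} [Field κ] [Algebra ℂ κ] (Λ : LField κ) (ξ : Fin N → κ)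
    (g : MvPolynomial (Fin N) ℂ) :
    eval (fun l => Λ.emb (ξ l)) (map (algebraMap ℂ Λ.L) g) = Λ.emb (aeval ξ g) := by
  rw [eval_map, comp_aeval_apply, aeval_def]

/-- the solutions of the system with given free coordinates -/
theorem sol_iff (hW : S_WRD) (P : GenPt (n := n) fun i => initForm w (f i)) (Λ : LField P.κ)
    (y : Fin N → Λ.L) :
    Sol P Λ f w y ↔ ∃ z : Fin r → Λ.L,
      (∀ j, Λ.Ge 1 (z j - Λ.emb (P.ξ (P.σ (Sum.inl j))))) ∧ (∀ i, eval z (eqs P Λ i) = 0) ∧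
      ∀ l, y l = Λ.s ^ w l * eval z (sub P Λ l) := by
  constructor
  · intro h
    have hy : ∀ l, y l = Λ.s ^ w l *
        eval (fun j => y (P.σ (Sum.inl j)) / Λ.s ^ w (P.σ (Sum.inl j))) (sub P Λ l) := by
      refine cases_σ P _ (fun j => ?_) (fun k => ?_)
      · change y (P.σ (Sum.inl j)) = Λ.s ^ w (P.σ (Sum.inl j)) *
          eval (fun j => y (P.σ (Sum.inl j)) / Λ.s ^ w (P.σ (Sum.inl j)))
            (sub P Λ (P.σ (Sum.inl j)))
        rw [sub_inl, eval_X, mul_div_cancel₀ _ (pow_ne_zero _ Λ.s_ne)]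
      · change y (P.σ (Sum.inr k)) = Λ.s ^ w (P.σ (Sum.inr k)) *
          eval (fun j => y (P.σ (Sum.inl j)) / Λ.s ^ w (P.σ (Sum.inl j)))
            (sub P Λ (P.σ (Sum.inr k)))
        rw [sub_inr, eval_C, h.free k]
    refine ⟨fun j => y (P.σ (Sum.inl j)) / Λ.s ^ w (P.σ (Sum.inl j)), fun j => ?_, fun i => ?_,
      hy⟩
    · have h1 := (h.lead (P.σ (Sum.inl j))).div (Λ.s ^ w (P.σ (Sum.inl j)))
      rw [ord_s_pow] at h1
      have h2 : (y (P.σ (Sum.inl j)) - Λ.s ^ w (P.σ (Sum.inl j)) *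
          Λ.emb (P.ξ (P.σ (Sum.inl j)))) / Λ.s ^ w (P.σ (Sum.inl j)) =
          y (P.σ (Sum.inl j)) / Λ.s ^ w (P.σ (Sum.inl j)) - Λ.emb (P.ξ (P.σ (Sum.inl j))) := by
        rw [sub_div, mul_div_cancel_left₀ _ (pow_ne_zero _ Λ.s_ne)]
      rw [h2] at h1
      exact h1.mono (by omega)
    · have h1 := eval_scl Λ hW w (f i) fun l =>
        eval (fun j => y (P.σ (Sum.inl j)) / Λ.s ^ w (P.σ (Sum.inl j))) (sub P Λ l)
      have h2 : (fun l => Λ.s ^ w l *
        eval (fun j => y (P.σ (Sum.inl j)) / Λ.s ^ w (P.σ (Sum.inl j))) (sub P Λ l)) = y :=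
        funext fun l => (hy l).symm
      rw [h2, h.zero i] at h1
      unfold eqs
      rw [eval_aeval']
      exact (mul_eq_zero.1 h1).resolve_left (pow_ne_zero _ Λ.s_ne)
  · rintro ⟨z, hz1, hz2, hz3⟩
    refine ⟨fun k => ?_, fun l => ?_, fun i => ?_⟩
    · rw [hz3, sub_inr, eval_C]
    · rw [hz3, ← mul_sub]
      have h1 : Λ.Ge 1 (eval z (sub P Λ l) - Λ.emb (P.ξ l)) := by
        refine cases_σ P (fun l => Λ.Ge 1 (eval z (sub P Λ l) - Λ.emb (P.ξ l))) (fun j => ?_)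
          (fun k => ?_) l
        · change Λ.Ge 1 (eval z (sub P Λ (P.σ (Sum.inl j))) - Λ.emb (P.ξ (P.σ (Sum.inl j))))
          rw [sub_inl, eval_X]
          exact hz1 j
        · change Λ.Ge 1 (eval z (sub P Λ (P.σ (Sum.inr k))) - Λ.emb (P.ξ (P.σ (Sum.inr k))))
          rw [sub_inr, eval_C, sub_self]
          exact DivVal.Ge.zero _ _
      exact (ge_s_pow Λ (w l)).mul h1
    · have h1 := eval_scl Λ hW w (f i) fun l => eval z (sub P Λ l)
      have h2 : (fun l => Λ.s ^ w l * eval z (sub P Λ l)) = y := funext fun l => (hz3 l).symm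
      have h3 := hz2 i
      unfold eqs at h3
      rw [eval_aeval'] at h3
      rw [h2, h3, mul_zero] at h1
      exact h1.symm

end SOL

open SOL in
/-- SOL: the solution exists and is unique. -/
theorem t_SOL : S_SOL := by
  intro hW hH n N r f w P Λ hf
  have hge : ∀ l, Λ.Ge 0 (Λ.emb (P.ξ l)) := fun l => ge_emb Λ _
  obtain ⟨⟨z, hz1, hz2⟩, huniq⟩ := hH Λ (eqs P Λ) (fun j => P.ξ (P.σ (Sum.inl j)))
    (fun i => int_aeval Λ _ (int_sub P Λ) _ (ge_coeff_scl Λ w (f i)))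
    (fun i => by
      unfold eqs
      rw [eval_aeval', eval_sub_emb]
      have h1 := ge_eval Λ _ (ge_coeff_sub Λ hW w (f i)) (fun l => Λ.emb (P.ξ l)) hge
      rw [map_sub, eval_map_emb, P.zero i, map_zero, sub_zero] at h1
      exact h1)
    (by
      have h1 : Λ.Ge 1 (Matrix.det (Matrix.of fun i j : Fin r =>
          eval (fun j => Λ.emb (P.ξ (P.σ (Sum.inl j)))) (pderiv j (eqs P Λ i))) -
          Matrix.det (Matrix.of fun i j : Fin r =>
            Λ.emb (aeval P.ξ (pderiv (P.σ (Sum.inl j)) (initForm w (f i)))))) := by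
        have h2 : ∀ i j : Fin r, Λ.Ge 1 (eval (fun j => Λ.emb (P.ξ (P.σ (Sum.inl j))))
            (pderiv j (eqs P Λ i)) -
            Λ.emb (aeval P.ξ (pderiv (P.σ (Sum.inl j)) (initForm w (f i))))) := by
          intro i j
          rw [pderiv_eqs, eval_aeval', eval_sub_emb]
          have h3 := ge_eval_pderiv Λ _ (ge_coeff_sub Λ hW w (f i)) (fun l => Λ.emb (P.ξ l)) hge
            (P.σ (Sum.inl j))
          rw [map_sub, map_sub, pderiv_map, eval_map_emb] at h3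
          exact h3
        have h4 : ∀ i j : Fin r,
            Λ.Ge 0 (Λ.emb (aeval P.ξ (pderiv (P.σ (Sum.inl j)) (initForm w (f i))))) :=
          fun i j => ge_emb Λ _
        refine DivVal.Ge.det_sub (fun i j => ?_) (fun i j => h4 i j) (fun i j => h2 i j)
        have h5 := ((h2 i j).mono (by norm_num : (0 : ℤ) ≤ 1)).add (h4 i j)
        rw [sub_add_cancel] at h5
        exact h5
      intro h2
      have h3 := h2.sub h1
      rw [sub_sub_cancel] at h3
      refine not_ge_emb Λ _ P.minor ?_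
      unfold mnr
      rw [AlgHom.map_det]
      exact h3)
  constructor
  · exact ⟨fun l => Λ.s ^ w l * eval z (SOL.sub P Λ l), (sol_iff hW P Λ _).2
      ⟨z, hz1, hz2, fun l => rfl⟩⟩
  · intro y y' hy hy'
    obtain ⟨z1, h1, h2, h3⟩ := (sol_iff hW P Λ y).1 hy
    obtain ⟨z2, h1', h2', h3'⟩ := (sol_iff hW P Λ y').1 hy'
    have h4 := huniq z1 z2 h1 h2 h1' h2'
    funext l
    rw [h3, h3', h4]

end

end NDQ
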