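import Pool.Agent.NDQ.St
import Pool.Agent.MldGeo.QFin

set_option autoImplicit false

namespace NDQ

open MldGeo MldGap MldAcc MldQ MvPolynomial
open MldX (wdeg word initForm Nondegenerate InteriorPoint)

/-- TCO: the contribution of an element of toric type. -/
theorem t_TCO : S_TCO := by
  intro hQGAL hQAT hPUL hPOW hSHF hQV hQLG hTOR hTDC hMON hINVP hTQM n X Y G π T T' D hn hQ hC
    hLC g hg hE hD hex
  obtain ⟨A, hA, hI⟩ := hex
  obtain ⟨P⟩ := QFin.exists_pack hTOR hTDC hMON hINVP hTQM hn hQ hC hLC hE hD hg A hA hI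
  refine ⟨P.Q.mldQ, ⟨P.Q, P.model.lc, P.coeff, rfl⟩, ?_, ?_⟩
  · intro w v e hw ho h1 h2
    exact QFin.lower hPUL hQLG hSHF hn hQ hC P hw ho h1 h2
  · intro ε hε
    have hlt : P.Q.mldQ < P.Q.mldQ + ε := by linarith
    obtain ⟨a, ha, hlt2⟩ := exists_lt_of_csInf_lt (TQ.exists_value P.Q) hlt
    obtain ⟨v, hv, hva⟩ := QFin.upper hQGAL hQAT hPUL hPOW hSHF hQV hn hQ hC hLC hg P ha
    exact ⟨v, hv, lt_of_le_of_lt hva hlt2⟩

end NDQ
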