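import Pool.Agent.NDQ.St
import Pool.Agent.MldGeo.TDC

/-!
# NDQ, module TQN: the combinatorial model exists
-/

set_option autoImplicit false

namespace NDQ

open MldGeo MldGap MldAcc MldQ MvPolynomial
open MldX (wdeg word initForm Nondegenerate InteriorPoint)

noncomputable section

namespace TQN

variable {N : ℕ}

/-- The unit vectors. -/
def uv (i : Fin N) : Fin N → ℝ := Pi.single i 1

lemma uv_same (i : Fin N) : uv i i = 1 := Pi.single_eq_same _ _

lemma uv_ne {i j : Fin N} (h : j ≠ i) : uv i j = 0 := Pi.single_eq_of_ne h _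

lemma sum_uv (a : Fin N → ℝ) : ∑ i, a i • uv i = a := by
  funext j
  rw [Finset.sum_apply, Finset.sum_eq_single j]
  · rw [Pi.smul_apply, uv_same, smul_eq_mul, mul_one]
  · intro i _ hi
    rw [Pi.smul_apply, uv_ne (Ne.symm hi), smul_zero]
  · intro h
    exact absurd (Finset.mem_univ j) h

lemma cone_uv : coneOf (uv : Fin N → Fin N → ℝ) = {y | ∀ j, 0 ≤ y j} := by
  ext y
  constructor
  · rintro ⟨a, ha, rfl⟩ j
    rw [sum_uv]
    exact ha j
  · intro hy
    exact ⟨y, hy, (sum_uv y).symm⟩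

lemma int_cone_uv : interior (coneOf (uv : Fin N → Fin N → ℝ)) = {y | ∀ j, 0 < y j} := by
  rw [cone_uv]
  have h1 : {y : Fin N → ℝ | ∀ j, 0 ≤ y j} = Set.pi Set.univ fun _ => Set.Ici 0 := by
    ext y
    rw [Set.mem_univ_pi]
    exact Iff.rfl
  have h2 : {y : Fin N → ℝ | ∀ j, 0 < y j} = Set.pi Set.univ fun _ => Set.Ioi 0 := by
    ext y
    rw [Set.mem_univ_pi]
    exact Iff.rfl
  rw [h1, h2, interior_pi_set Set.finite_univ]
  simp only [interior_Ici]

lemma uv_mem (i : Fin N) : uv i ∈ TDC.lat N := by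
  refine ⟨Pi.single i 1, ?_⟩
  funext j
  by_cases h : j = i
  · subst h
    rw [uv_same]
    simp [toR]
  · rw [uv_ne h]
    simp [toR, Pi.single_eq_of_ne h]

lemma lf_uv (u : Fin N →₀ ℕ) (i : Fin N) : lf u (uv i) = u i := by
  unfold lf
  rw [LinearMap.sum_apply, Finset.sum_eq_single i]
  · simp [uv_same]
  · intro j _ hj
    simp [uv_ne hj]
  · intro h
    exact absurd (Finset.mem_univ i) h

/-- The sum of the coordinates. -/
def tot : (Fin N → ℝ) →ₗ[ℝ] ℝ := ∑ j, LinearMap.proj j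

lemma tot_apply (y : Fin N → ℝ) : tot y = ∑ j, y j := by
  unfold tot
  rw [LinearMap.sum_apply]
  rfl

lemma tot_uv (i : Fin N) : tot (uv i) = 1 := by
  rw [tot_apply, Finset.sum_eq_single i]
  · exact uv_same i
  · intro j _ hj
    exact uv_ne hj
  · intro h
    exact absurd (Finset.mem_univ i) h

/-- The affine space with its toric structure. -/
def germ (N : ℕ) : ToricGerm N where
  N := TDC.lat N
  discrete := TDC.discrete_lat N
  ι := Fin N
  fin := inferInstance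
  ray := uv
  ray_mem := uv_mem
  ray_primitive := by
    rintro i t ht ⟨z, hz⟩
    have h1 := congrFun hz i
    rw [Pi.smul_apply, uv_same, smul_eq_mul, mul_one] at h1
    have h2 : (0 : ℝ) < (z i : ℝ) := by
      have h3 : toR z i = (z i : ℝ) := rfl
      rw [← h3, ← h1]
      exact ht
    have h3 : (1 : ℝ) ≤ (z i : ℝ) := by
      have h4 : 0 < z i := by exact_mod_cast h2
      have h5 : 1 ≤ z i := h4
      exact_mod_cast h5
    rw [h1]
    exact h3
  ray_extremal := by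
    rintro i ⟨c, _, hci, h⟩
    have h1 := congrFun h i
    rw [sum_uv, uv_same, hci] at h1
    exact one_ne_zero h1
  full := by
    rw [int_cone_uv]
    exact ⟨fun _ => 1, fun _ => one_pos⟩
  pointed := ⟨tot, fun i => by rw [tot_uv]; exact one_pos⟩
  b := fun _ => 0
  b_nonneg := fun _ => le_rfl
  b_le_one := fun _ => zero_le_one
  ψ := tot
  ψ_ray := fun i => by rw [tot_uv, sub_zero]

variable {r : ℕ} {J : Type} [Fintype J]

/-- The exponents of the ideals. -/
def ideals (f : Fin r → MvPolynomial (Fin N) ℂ) (M : J → Set (Fin N →₀ ℕ)) :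
    Fin r ⊕ (Fin N ⊕ J) → Set ((Fin N → ℝ) →ₗ[ℝ] ℝ) :=
  Sum.elim (fun i => lf '' (f i).support) (Sum.elim (fun j => {LinearMap.proj j})
    fun j => lf '' M j)

/-- The exponents. -/
def expo (b : Fin N → ℝ) (rr : J → ℝ) : Fin r ⊕ (Fin N ⊕ J) → ℝ :=
  Sum.elim (fun _ => 1) (Sum.elim b rr)

/-- The triple. -/
def triple (f : Fin r → MvPolynomial (Fin N) ℂ) (b : Fin N → ℝ) (M : J → Set (Fin N →₀ ℕ))
    (rr : J → ℝ) (hf : ∀ i, f i ≠ 0) (hb : ∀ j, 0 ≤ b j) (hM : ∀ j, (M j).Nonempty)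
    (hr : ∀ j, 0 ≤ rr j) : ToricTriple N where
  toToricGerm := germ N
  J := Fin r ⊕ (Fin N ⊕ J)
  finJ := inferInstance
  r := expo b rr
  r_nonneg := by
    rintro (i | j | j)
    · exact zero_le_one
    · exact hb j
    · exact hr j
  A := ideals f M
  A_nonempty := by
    rintro (i | j | j)
    · obtain ⟨u, hu⟩ := MvPolynomial.support_nonempty.2 (hf i)
      exact ⟨lf u, u, hu, rfl⟩
    · exact ⟨_, rfl⟩
    · obtain ⟨u, hu⟩ := hM j
      exact ⟨lf u, u, hu, rfl⟩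
  A_ray := by
    rintro (i | j | j) m hm l
    · obtain ⟨u, _, rfl⟩ := hm
      exact ⟨u l, lf_uv u l⟩
    · have h1 : m = LinearMap.proj j := hm
      subst h1
      show ∃ a : ℕ, uv l j = a
      by_cases h : j = l
      · subst h
        exact ⟨1, by rw [uv_same, Nat.cast_one]⟩
      · exact ⟨0, by rw [uv_ne h, Nat.cast_zero]⟩
    · obtain ⟨u, _, rfl⟩ := hm
      exact ⟨u l, lf_uv u l⟩

lemma trans_one (g : Aff N) (h : g.1 = 1) (k : ℕ) : MldQ.trans g k = (k : ℝ) • g.2 := by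
  unfold MldQ.trans
  have h1 : ∀ j ∈ Finset.range k, (g.1 ^ j) g.2 = g.2 := by
    intro j _
    rw [h, one_pow]
    rfl
  rw [Finset.sum_congr rfl h1, Finset.sum_const, Finset.card_range, ← Nat.cast_smul_eq_nsmul ℝ]

lemma exp_smul (k : ℕ) (a : ℝ) :
    Complex.exp (2 * Real.pi * Complex.I * (((k : ℝ) * a : ℝ) : ℂ)) =
      Complex.exp (2 * Real.pi * Complex.I * (a : ℂ)) ^ k := by
  rw [← Complex.exp_nat_mul]
  congr 1
  push_cast
  ring

lemma exp_int (z : ℤ) : Complex.exp (2 * Real.pi * Complex.I * (((z : ℤ) : ℝ) : ℂ)) = 1 := by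
  rw [Complex.exp_eq_one_iff]
  refine ⟨z, ?_⟩
  push_cast
  ring

lemma exp_one {a : ℝ} (h : Complex.exp (2 * Real.pi * Complex.I * (a : ℂ)) = 1) :
    ∃ z : ℤ, a = z := by
  obtain ⟨z, hz⟩ := Complex.exp_eq_one_iff.1 h
  refine ⟨z, ?_⟩
  have h1 : (2 * Real.pi * Complex.I : ℂ) ≠ 0 := Complex.two_pi_I_ne_zero
  have h2 : (2 * Real.pi * Complex.I : ℂ) * ((a : ℂ) - z) = 0 := by
    rw [mul_sub, hz]
    ring
  have h3 := (mul_eq_zero.1 h2).resolve_left h1
  have h4 : ((a : ℝ) : ℂ) = ((z : ℝ) : ℂ) := by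
    push_cast
    exact sub_eq_zero.1 h3
  exact_mod_cast h4

/-- The model. -/
def model (f : Fin r → MvPolynomial (Fin N) ℂ) (b : Fin N → ℝ) (M : J → Set (Fin N →₀ ℕ))
    (rr : J → ℝ) (c : Fin N → ℂ) (hf : ∀ i, f i ≠ 0) (hb : ∀ j, 0 ≤ b j)
    (hM : ∀ j, (M j).Nonempty) (hr : ∀ j, 0 ≤ rr j) (hc : ∃ m : ℕ, 0 < m ∧ ∀ j, c j ^ m = 1) :
    TQ N where
  toToricTriple := triple f b M rr hf hb hM hr
  Γ := {g | g.1 = 1 ∧ ∃ k : ℕ, ∀ j,
    Complex.exp (2 * Real.pi * Complex.I * (g.2 j : ℝ)) = c j ^ k}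
  one_mem := by
    refine ⟨rfl, 0, fun j => ?_⟩
    simp
  add_mem := by
    rintro g ⟨h1, k, hk⟩ v ⟨z, rfl⟩
    refine ⟨h1, k, fun j => ?_⟩
    show Complex.exp (2 * Real.pi * Complex.I * ((g.2 j + toR z j : ℝ) : ℂ)) = c j ^ k
    have h2 : (2 * Real.pi * Complex.I * ((g.2 j + toR z j : ℝ) : ℂ) : ℂ) =
        2 * Real.pi * Complex.I * (g.2 j : ℂ) + 2 * Real.pi * Complex.I * (((z j : ℤ) : ℝ) : ℂ) := by
      unfold toR
      push_cast
      ring
    rw [h2, Complex.exp_add, hk j, exp_int, mul_one]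
  pow_mem := by
    rintro g ⟨h1, k, hk⟩ l
    refine ⟨by show g.1 ^ l = 1; rw [h1, one_pow], k * l, fun j => ?_⟩
    show Complex.exp (2 * Real.pi * Complex.I * ((MldQ.trans g l j : ℝ) : ℂ)) = c j ^ (k * l)
    rw [trans_one g h1, Pi.smul_apply, smul_eq_mul, exp_smul, hk j, pow_mul]
  finite_order := by
    rintro g ⟨h1, k, hk⟩
    obtain ⟨m, hm, hcm⟩ := hc
    refine ⟨m, hm, by rw [h1, one_pow], ?_⟩
    rw [trans_one g h1]
    have h2 : ∀ j, ∃ z : ℤ, (m : ℝ) * g.2 j = z := by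
      intro j
      apply exp_one
      rw [exp_smul, hk j, ← pow_mul, mul_comm k m, pow_mul, hcm j, one_pow]
    choose z hz using h2
    exact ⟨z, funext fun j => hz j⟩
  map_lattice := by
    rintro g ⟨h1, _⟩ v hv
    rw [h1]
    exact hv
  map_ray := by
    rintro g ⟨h1, _⟩ i
    refine ⟨i, ?_, rfl⟩
    rw [h1]
    rfl

lemma ord_proj (j : Fin N) (y : Fin N → ℝ) :
    MldAcc.ord ({LinearMap.proj j} : Set ((Fin N → ℝ) →ₗ[ℝ] ℝ)) y = y j := by
  unfold MldAcc.ord
  rw [Set.image_singleton, csInf_singleton]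
  rfl

end TQN

theorem t_TQN : S_TQN := by
  intro N r J _ f b M rr c hf hb hM hr hc
  refine ⟨TQN.model f b M rr c hf hb hM hr hc, ?_, ?_, ?_, ?_, ?_, ?_⟩
  · intro y
    exact Iff.rfl
  · exact TQN.int_cone_uv
  · intro y
    show TQN.tot y - ∑ j : Fin r ⊕ (Fin N ⊕ J), TQN.expo b rr j * MldAcc.ord (TQN.ideals f M j) y = _
    rw [Fintype.sum_sum_type, Fintype.sum_sum_type, TQN.tot_apply]
    have h1 : ∑ i : Fin r, TQN.expo b rr (Sum.inl i) * MldAcc.ord (TQN.ideals f M (Sum.inl i)) y =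
        ∑ i, MldAcc.ord (lf '' (f i).support) y :=
      Finset.sum_congr rfl fun i _ => one_mul _
    have h2 : ∑ j : Fin N, TQN.expo (r := r) b rr (Sum.inr (Sum.inl j)) *
        MldAcc.ord (TQN.ideals f M (Sum.inr (Sum.inl j))) y = ∑ j, b j * y j :=
      Finset.sum_congr rfl fun j _ => congrArg (b j * ·) (TQN.ord_proj j y)
    have h3 : ∑ j : J, TQN.expo (r := r) b rr (Sum.inr (Sum.inr j)) *
        MldAcc.ord (TQN.ideals f M (Sum.inr (Sum.inr j))) y =
        ∑ j, rr j * MldAcc.ord (lf '' M j) y := rfl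
    rw [h1, h2, h3]
    ring
  · intro g
    exact Iff.rfl
  · intro a
    constructor
    · rintro ⟨g, ⟨h1, k, hk⟩, u, ⟨l, hl, _, hu⟩, hi, ha⟩
      have h2 : u = g.2 := by
        rw [TQN.trans_one g h1] at hu
        exact smul_right_injective _ (by exact_mod_cast hl.ne' : (l : ℝ) ≠ 0) hu
      have h3 : codim g = 0 := by
        unfold codim
        rw [h1, sub_self, LinearMap.range_zero, finrank_bot]
      have h4 : u ∈ {y : Fin N → ℝ | ∀ j, 0 < y j} := by
        rw [← TQN.int_cone_uv]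
        exact hi
      refine ⟨u, h4, ⟨k, fun j => ?_⟩, ?_⟩
      · rw [h2]
        exact hk j
      · rw [h3, Nat.cast_zero, zero_div, zero_add] at ha
        exact ha
    · rintro ⟨u, hu, ⟨k, hk⟩, ha⟩
      refine ⟨(1, u), ⟨rfl, k, hk⟩, u, ⟨1, one_pos, one_pow 1, ?_⟩, ?_, ?_⟩
      · rw [TQN.trans_one (1, u) rfl]
      · show u ∈ interior (coneOf TQN.uv)
        rw [TQN.int_cone_uv]
        exact hu
      · have h3 : codim ((1, u) : Aff N) = 0 := by
          unfold codim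
          rw [sub_self, LinearMap.range_zero, finrank_bot]
        rw [h3, Nat.cast_zero, zero_div, zero_add]
        exact ha
  · intro S h0 h1 h2 h3
    refine ⟨fun _ => h0, ?_⟩
    rintro (i | j | j)
    · exact h1
    · exact h2 j
    · exact h3 j

end

end NDQ
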