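import Pool.Agent.NDQ.St

/-!
# WRD: basic facts on orders and initial forms
-/

set_option autoImplicit false

namespace NDQ

open MvPolynomial
open MldX (wdeg word initForm Nondegenerate InteriorPoint)

namespace WRD

variable {N : ℕ}

theorem exists_min (p : MvPolynomial (Fin N) ℂ) (w : Fin N → ℕ) (hp : p ≠ 0) :
    ∃ u ∈ p.support, wdeg w u = word w p := by
  have h1 : (wdeg w '' (p.support : Set (Fin N →₀ ℕ))).Nonempty := by
    obtain ⟨u, hu⟩ := support_nonempty.2 hp
    exact ⟨_, u, hu, rfl⟩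
  obtain ⟨u, hu, h⟩ := Nat.sInf_mem h1
  exact ⟨u, hu, h⟩

theorem word_le (p : MvPolynomial (Fin N) ℂ) (w : Fin N → ℕ) (u : Fin N →₀ ℕ)
    (hu : u ∈ p.support) : word w p ≤ wdeg w u :=
  Nat.sInf_le ⟨u, hu, rfl⟩

theorem le_word (p : MvPolynomial (Fin N) ℂ) (w : Fin N → ℕ) (hp : p ≠ 0) (k : ℕ)
    (h : ∀ u ∈ p.support, k ≤ wdeg w u) : k ≤ word w p := by
  obtain ⟨u, hu, hu2⟩ := exists_min p w hp
  rw [← hu2]
  exact h u hu

theorem word_zero (w : Fin N → ℕ) : word w (0 : MvPolynomial (Fin N) ℂ) = 0 := by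
  unfold word
  simp

theorem coeff_initForm (p : MvPolynomial (Fin N) ℂ) (w : Fin N → ℕ) (u : Fin N →₀ ℕ) :
    coeff u (initForm w p) = if wdeg w u = word w p then coeff u p else 0 := by
  classical
  unfold initForm
  rw [coeff_sum]
  by_cases hu : u ∈ p.support
  · by_cases h : wdeg w u = word w p
    · rw [if_pos h, Finset.sum_eq_single u]
      · rw [coeff_monomial, if_pos rfl]
      · intro v _ hv
        rw [coeff_monomial, if_neg hv]
      · intro h2
        exact absurd (Finset.mem_filter.2 ⟨hu, h⟩) h2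
    · rw [if_neg h]
      refine Finset.sum_eq_zero fun v hv => ?_
      rw [coeff_monomial, if_neg]
      rintro rfl
      exact h (Finset.mem_filter.1 hv).2
  · have h0 : coeff u p = 0 := notMem_support_iff.1 hu
    rw [h0, ite_self]
    refine Finset.sum_eq_zero fun v hv => ?_
    rw [coeff_monomial, if_neg]
    rintro rfl
    exact hu (Finset.mem_filter.1 hv).1

theorem wdeg_mono {w w' : Fin N → ℕ} (h : ∀ j, w j ≤ w' j) (u : Fin N →₀ ℕ) :
    wdeg w u ≤ wdeg w' u :=
  Finset.sum_le_sum fun j _ => Nat.mul_le_mul_right _ (h j)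

theorem word_mono (p : MvPolynomial (Fin N) ℂ) {w w' : Fin N → ℕ} (h : ∀ j, w j ≤ w' j) :
    word w p ≤ word w' p := by
  by_cases hp : p = 0
  · subst hp
    rw [word_zero, word_zero]
  · exact le_word p w' hp _ fun u hu => (word_le p w u hu).trans (wdeg_mono h u)

theorem wdeg_smul (k : ℕ) (w : Fin N → ℕ) (u : Fin N →₀ ℕ) : wdeg (k • w) u = k * wdeg w u := by
  unfold wdeg
  rw [Finset.mul_sum]
  refine Finset.sum_congr rfl fun j _ => ?_
  rw [Pi.smul_apply, smul_eq_mul, mul_assoc]

theorem word_smul (k : ℕ) (p : MvPolynomial (Fin N) ℂ) (w : Fin N → ℕ) :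
    word (k • w) p = k * word w p := by
  by_cases hp : p = 0
  · subst hp
    rw [word_zero, word_zero, mul_zero]
  · refine le_antisymm ?_ ?_
    · obtain ⟨u, hu, hu2⟩ := exists_min p w hp
      rw [← hu2, ← wdeg_smul]
      exact word_le p _ u hu
    · refine le_word p _ hp _ fun u hu => ?_
      rw [wdeg_smul]
      exact Nat.mul_le_mul_left _ (word_le p w u hu)

end WRD

open WRD in
theorem t_WRD : S_WRD := by
  intro N p w
  refine ⟨exists_min p w, word_le p w, coeff_initForm p w, fun w' h => word_mono p h,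
    fun k => word_smul k p w, fun k hk => ?_⟩
  ext u
  rw [coeff_initForm, coeff_initForm, word_smul, wdeg_smul]
  have h : k * wdeg w u = k * word w p ↔ wdeg w u = word w p :=
    ⟨fun h => Nat.eq_of_mul_eq_mul_left hk h, fun h => by rw [h]⟩
  by_cases h1 : wdeg w u = word w p
  · rw [if_pos (h.2 h1), if_pos h1]
  · rw [if_neg fun h2 => h1 (h.1 h2), if_neg h1]

end NDQ
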