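import Pool.Agent.NDQ.ASM
import Pool.Agent.NDQ.ACU
import Pool.Agent.NDQ.WRD
import Pool.Agent.NDQ.COE
import Pool.Agent.NDQ.HGT
import Pool.Agent.NDQ.HLM
import Pool.Agent.NDQ.PTH
import Pool.Agent.NDQ.LIN
import Pool.Agent.NDQ.CAN
import Pool.Agent.NDQ.JAC
import Pool.Agent.NDQ.REL
import Pool.Agent.NDQ.PRD
import Pool.Agent.NDQ.LGD
import Pool.Agent.NDQ.IND
import Pool.Agent.NDQ.NULZ
import Pool.Agent.NDQ.LOV
import Pool.Agent.NDQ.LOW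
import Pool.Agent.NDQ.HEN
import Pool.Agent.NDQ.GPT
import Pool.Agent.NDQ.SOL
import Pool.Agent.NDQ.EMB
import Pool.Agent.NDQ.DVG
import Pool.Agent.NDQ.MLO
import Pool.Agent.NDQ.ROG
import Pool.Agent.NDQ.INR
import Pool.Agent.NDQ.MUW
import Pool.Agent.NDQ.IDM
import Pool.Agent.NDQ.TQN
import Pool.Agent.NDQ.NDA
import Pool.Agent.NDQ.LCN
import Pool.Agent.NDQ.NCO
import Pool.Agent.NDQ.TCO
import Pool.Agent.NDQ.FIN
import Pool.Agent.MldGeo.QAll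

/-!
# The ascending chain condition for quotients of nondegenerate complete intersections
-/

set_option autoImplicit false

namespace NDQ

open MldGeo

/-- ACC for the minimal log discrepancies of quotients of nondegenerate complete intersections. -/
theorem ndMld_acc (n N : ℕ) (D : Set ℝ) (hD : D.IsWF) (x : ℕ → ℝ)
    (hx : ∀ k, x k ∈ ndMld n N D) : ¬ StrictMono x := by
  have FRA : Stmt_FRA := t_FRA
  have TBAS : Stmt_TBAS := t_TBAS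
  have LOGD : Stmt_LOGD := t_LOGD FRA
  have COE : Stmt_COE := MldGeo.t_COE FRA LOGD TBAS
  have FRM : Stmt_FRM := t_FRM FRA TBAS COE
  have FSM : Stmt_FSM := t_FSM FRA FRM
  have FDL : Stmt_FDL := t_FDL FRA FRM
  have REG : Stmt_REG := t_REG FRA LOGD TBAS FRM
  have TXT : Stmt_TXT := t_TXT FRA LOGD TBAS FRM
  have EXF : Stmt_EXF := t_EXF FRA TBAS LOGD FRM FSM
  have LOC : Stmt_LOC := t_LOC t_DIV
  have UNQ : Stmt_UNQ := t_UNQ LOC
  have HFK : Stmt_HFK := t_HFK t_HLI t_HFR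
  have TRD : Stmt_TRD := t_TRD t_SPL HFK
  have TRB : Stmt_TRB := t_TRB HFK
  have NHP : Stmt_NHP := t_NHP t_HFR HFK TRD TRB TBAS REG FSM t_OLC
  have GHO : Stmt_GHO := t_GHO t_HFR t_OLC t_DIV LOC
  have RED : Stmt_RED := t_RED NHP GHO TRB TBAS FSM TXT t_DIV
  have GAV : Stmt_GAV := t_GAV (t_GAUT TBAS FRM)
  have KCO : Stmt_KCO := t_KCO TRD
  have TOR : Stmt_TOR := t_TOR KCO t_SPL t_HLI t_HFR HFK TRB
  have TRAY : Stmt_TRAY := t_TRAY t_HT1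
  have PSI : Stmt_PSI := t_PSI KCO RED
  have TDC : Stmt_TDC := t_TDC t_MOI t_CON TRAY PSI GAV t_IDO FDL TBAS
  have QGAL : Stmt_QGAL := t_QGAL t_EXR t_EXT t_INE EXF
  have QPUL : Stmt_QPUL := t_PULQ QGAL UNQ TXT FSM TBAS
  have SHF : Stmt_SHF := t_SHF t_POW
  have DDER : Stmt_DDER := t_DDER FRA TBAS LOGD FRM
  have FNC : Stmt_FNC := t_FNC t_CH1 t_VDM
  have RSI : Stmt_RSI := t_RSI t_CH1 FNC
  have LGB : Stmt_LGB := t_LGB t_CH1 FRA DDER TBAS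
  have QV : Stmt_QV := t_QV t_EIG t_COC t_LAU t_EXPL t_RATF t_CH1 (t_CH2 t_CH1) t_EMBK RSI LGB t_DVL
    (t_ROT t_CH1)
  have QLG : Stmt_QLG := t_QLG FRA DDER t_EIG TBAS
  have INVP : Stmt_INVP := t_INVP QGAL QPUL GAV TRAY FDL TBAS
  have HLM : S_HLM := t_HLM t_WRD t_HGT
  have PTH : S_PTH := t_PTH t_WRD (t_COE t_WRD) HLM
  exact asm TBAS FRM FRA FSM FDL TXT UNQ REG t_DIV t_IDO t_LAU t_RATF QGAL t_QAT QPUL t_POW SHF
    QV QLG TOR TDC t_QMON INVP (t_TQM t_POW) t_WRD PTH t_LIN t_CAN t_JAC t_REL t_PRD t_LGD t_IND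
    t_NUL t_LOV t_LOW t_HEN t_GPT t_SOL t_EMB t_DVG t_MLO t_ROG t_INR t_MUA t_IDM t_TQN t_NDA
    t_LCN t_NCO t_TCO t_FIN t_ACU n N D hD x hx

end NDQ
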