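import Pool.Agent.NDQ.St
import Pool.Agent.MldGeo.Ord

/-!
# Project NDQ, module LOW: the lower bound for the order of the canonical form
-/

set_option autoImplicit false

namespace NDQ

open MldGeo MldGap MldAcc MldQ MvPolynomial
open MldX (wdeg word initForm Nondegenerate InteriorPoint)

noncomputable section

namespace LOW

variable {n : ℕ} {K : Type} [Field K] [Algebra ℂ K]

theorem dforms_eq (a : Fin n → K) (ha : ∀ i, a i ≠ 0) :
    dforms a = (∏ i, a i) • dlogs a := by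
  unfold dforms dlogs dlog
  have h := (exteriorPower.ιMulti K n (M := Ω[K⁄ℂ])).map_smul_univ a
    (fun i => (a i)⁻¹ • KaehlerDifferential.D ℂ K (a i))
  rw [← h]
  congr 1
  ext i
  rw [smul_smul, mul_inv_cancel₀ (ha i), one_smul]

theorem neg_smul_form (c : K) (η : Forms n K) : (-c) • η = -(c • η) :=
  neg_smul (R := K) (M := Forms n K) c η

end LOW

theorem t_LOW : S_LOW := by
  intro hFSM hFDL n N r K _ _ f x v w ω σ htr hn hcan hx hw hσ hord
  obtain ⟨y, hy⟩ : ∃ y : Fin n → K, y = fun k => x (σ (Sum.inr k)) := ⟨_, rfl⟩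
  have hy0 : ∀ k, y k ≠ 0 := fun k => by rw [hy]; exact hx _
  have hP0 : ∏ k, y k ≠ 0 := Finset.prod_ne_zero_iff.mpr fun k _ => hy0 k
  have hPord : v.ord (∏ k, y k) = ∑ k, (w (σ (Sum.inr k)) : ℤ) := by
    rw [DivVal.ord_prod v _ _ fun k _ => hy0 k]
    exact Finset.sum_congr rfl fun k _ => by rw [hy]; exact hw _
  have hdf := LOW.dforms_eq y hy0
  -- the form is a multiple of the logarithmic form
  have key : ∃ g : K, g ≠ 0 ∧ v.ord g = ∑ k, (w (σ (Sum.inr k)) : ℤ) ∧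
      mnr f x σ • ω = g • dlogs y := by
    rcases hcan.eq σ with h | h
    · exact ⟨∏ k, y k, hP0, hPord, by rw [h, ← hdf, hy]⟩
    · refine ⟨-∏ k, y k, neg_ne_zero.mpr hP0, by rw [DivVal.ord_neg, hPord], ?_⟩
      have h5 := LOW.neg_smul_form (∏ k, y k) (dlogs y)
      rw [h, h5, ← hdf, hy]
  obtain ⟨g, hg0, hgord, hg⟩ := key
  have hne : mnr f x σ • ω ≠ 0 := smul_ne_zero hσ hcan.ne
  have hdl : dlogs y ≠ 0 := by
    intro h0
    rw [hg, h0, smul_zero] at hne
    exact hne rfl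
  have h1 := hFSM htr v (mnr f x σ) ω hn hσ hcan.ne
  have h2 := hFSM htr v g (dlogs y) hn hg0 hdl
  have h3 := hFDL htr v y hn hy0 hdl
  rw [hg, h2, hgord, hord] at h1
  have h4 : ∑ j, (w j : ℤ) = ∑ j, (w (σ (Sum.inl j)) : ℤ) + ∑ k, (w (σ (Sum.inr k)) : ℤ) := by
    rw [← Equiv.sum_comp σ fun j => (w j : ℤ), Fintype.sum_sum_type]
  unfold ld
  rw [h4]
  linarith

end

end NDQ
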