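import Pool.Agent.NDQ.St
import Pool.Agent.MldGeo.Ord

/-!
# MUW: leading terms of Laurent series
-/

set_option autoImplicit false

namespace NDQ

open MldGeo MldGap MldAcc MldQ MvPolynomial
open MldX (wdeg word initForm Nondegenerate InteriorPoint)

noncomputable section

namespace MUW

section Lead

variable {F : Type} [Field F] [Algebra ℂ F]

/-- The term of `A` of order `d` is `emb α s^d`, and there are no terms of smaller order. -/
def Ld (Λ : LField F) (d : ℤ) (A : Λ.L) (α : F) : Prop := Λ.Ge (d + 1) (A - Λ.s ^ d * Λ.emb α)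

variable {Λ : LField F}

theorem ge_s (d : ℤ) : Λ.Ge d (Λ.s ^ d) := by
  refine Or.inr ?_
  rw [DivVal.ord_zpow]
  change d ≤ d * Λ.ord Λ.s
  rw [Λ.ord_s, mul_one]

theorem ge_emb (a : F) : Λ.Ge 0 (Λ.emb a) := by
  by_cases h : a = 0
  · rw [h, map_zero]
    exact Or.inl rfl
  · exact Or.inr (Λ.ord_emb a h).ge

theorem ge_lead (d : ℤ) (α : F) : Λ.Ge d (Λ.s ^ d * Λ.emb α) := (ge_s d).mul_right (ge_emb α)

theorem Ld.ge {d : ℤ} {A : Λ.L} {α : F} (h : Ld Λ d A α) : Λ.Ge d A := by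
  have h1 : A = (A - Λ.s ^ d * Λ.emb α) + Λ.s ^ d * Λ.emb α := by ring
  rw [h1]
  exact (DivVal.Ge.mono h (by omega)).add (ge_lead d α)

theorem Ld.add {d : ℤ} {A B : Λ.L} {α β : F} (h : Ld Λ d A α) (h' : Ld Λ d B β) :
    Ld Λ d (A + B) (α + β) := by
  have h1 : A + B - Λ.s ^ d * Λ.emb (α + β) =
      (A - Λ.s ^ d * Λ.emb α) + (B - Λ.s ^ d * Λ.emb β) := by
    rw [map_add]
    ring
  unfold Ld
  rw [h1]
  exact DivVal.Ge.add h h'

theorem Ld.zero (d : ℤ) : Ld Λ d 0 0 := by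
  unfold Ld
  rw [map_zero, mul_zero, sub_zero]
  exact Or.inl rfl

theorem Ld.of_ge {d : ℤ} {A : Λ.L} (h : Λ.Ge (d + 1) A) : Ld Λ d A 0 := by
  unfold Ld
  rw [map_zero, mul_zero, sub_zero]
  exact h

theorem Ld.sum {d : ℤ} {ι : Type*} (S : Finset ι) (A : ι → Λ.L) (α : ι → F)
    (h : ∀ i ∈ S, Ld Λ d (A i) (α i)) : Ld Λ d (∑ i ∈ S, A i) (∑ i ∈ S, α i) := by
  classical
  induction S using Finset.induction_on with
  | empty => simpa using Ld.zero d
  | insert a s ha ih =>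
    rw [Finset.sum_insert ha, Finset.sum_insert ha]
    exact (h a (Finset.mem_insert_self a s)).add (ih fun i hi => h i (Finset.mem_insert_of_mem hi))

theorem Ld.mul {a b : ℤ} {A B : Λ.L} {α β : F} (h : Ld Λ a A α) (h' : Ld Λ b B β) :
    Ld Λ (a + b) (A * B) (α * β) := by
  have h1 : A * B - Λ.s ^ (a + b) * Λ.emb (α * β) =
      (A - Λ.s ^ a * Λ.emb α) * B + (Λ.s ^ a * Λ.emb α) * (B - Λ.s ^ b * Λ.emb β) := by
    rw [map_mul, zpow_add₀ Λ.s_ne]
    ring
  unfold Ld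
  rw [h1]
  refine DivVal.Ge.add ?_ ?_
  · exact DivVal.Ge.mono (DivVal.Ge.mul h h'.ge) (by omega)
  · exact DivVal.Ge.mono (DivVal.Ge.mul (ge_lead a α) h') (by omega)

theorem Ld.const (c : ℂ) : Ld Λ 0 (algebraMap ℂ Λ.L c) (algebraMap ℂ F c) := by
  unfold Ld
  rw [zpow_zero, one_mul, Λ.emb.commutes, sub_self]
  exact Or.inl rfl

theorem Ld.one : Ld Λ 0 (1 : Λ.L) (1 : F) := by
  have := Ld.const (Λ := Λ) 1
  rwa [map_one, map_one] at this

theorem Ld.prod {ι : Type*} (S : Finset ι) (d : ι → ℤ) (A : ι → Λ.L) (α : ι → F)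
    (h : ∀ i ∈ S, Ld Λ (d i) (A i) (α i)) :
    Ld Λ (∑ i ∈ S, d i) (∏ i ∈ S, A i) (∏ i ∈ S, α i) := by
  classical
  induction S using Finset.induction_on with
  | empty => simpa using Ld.one
  | insert a s ha ih =>
    rw [Finset.sum_insert ha, Finset.prod_insert ha, Finset.prod_insert ha]
    exact (h a (Finset.mem_insert_self a s)).mul (ih fun i hi => h i (Finset.mem_insert_of_mem hi))

theorem Ld.pow {d : ℤ} {A : Λ.L} {α : F} (h : Ld Λ d A α) (k : ℕ) :
    Ld Λ (d * k) (A ^ k) (α ^ k) := by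
  have := Ld.prod (Finset.range k) (fun _ => d) (fun _ => A) (fun _ => α) fun _ _ => h
  rw [Finset.sum_const, Finset.prod_const, Finset.prod_const, Finset.card_range, nsmul_eq_mul] at this
  rwa [mul_comm]

theorem Ld.ord {d : ℤ} {A : Λ.L} {α : F} (h : Ld Λ d A α) (hα : α ≠ 0) :
    A ≠ 0 ∧ Λ.ord A = d := by
  have h1 : Λ.s ^ d * Λ.emb α ≠ 0 :=
    mul_ne_zero (zpow_ne_zero _ Λ.s_ne) fun h0 => hα ((map_eq_zero _).1 h0)
  have h2 : Λ.val.ord (Λ.s ^ d * Λ.emb α) = d := by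
    have h3 := Λ.val.ord_mul (Λ.s ^ d) (Λ.emb α) (left_ne_zero_of_mul h1)
      (right_ne_zero_of_mul h1)
    rw [h3, DivVal.ord_zpow]
    change d * Λ.ord Λ.s + Λ.ord (Λ.emb α) = d
    rw [Λ.ord_s, Λ.ord_emb α hα]
    ring
  have h4 := DivVal.ord_add_eq_of_lt (v := Λ.val) h1 (b := A - Λ.s ^ d * Λ.emb α)
    (by rw [h2]; exact h)
  rw [add_sub_cancel] at h4
  rw [h2] at h4
  exact h4

theorem Ld.det {k : ℕ} {M : Matrix (Fin k) (Fin k) Λ.L} {m : Matrix (Fin k) (Fin k) F}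
    (a b : Fin k → ℤ) (h : ∀ i j, Ld Λ (a i + b j) (M i j) (m i j)) :
    Ld Λ (∑ i, a i + ∑ j, b j) M.det m.det := by
  rw [Matrix.det_apply, Matrix.det_apply]
  refine Ld.sum _ _ _ fun σ _ => ?_
  have h1 := Ld.prod Finset.univ (fun i => a (σ i) + b i) (fun i => M (σ i) i) (fun i => m (σ i) i)
    fun i _ => h (σ i) i
  rw [Finset.sum_add_distrib, Equiv.sum_comp σ a] at h1
  rcases Int.units_eq_one_or (Equiv.Perm.sign σ) with hs | hs
  · rw [hs, one_smul, one_smul]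
    exact h1
  · rw [hs]
    have h2 := (Ld.const (Λ := Λ) (-1)).mul h1
    rw [zero_add, map_neg, map_one, map_neg, map_one, neg_one_mul, neg_one_mul] at h2
    rw [Units.neg_smul, Units.neg_smul, one_smul, one_smul]
    exact h2

end Lead

/-! ### polynomials -/

section Poly

variable {F : Type} [Field F] [Algebra ℂ F] {Λ : LField F} {N r : ℕ}

theorem ld_monomial (w : Fin N → ℕ) (y : Fin N → Λ.L) (ξ : Fin N → F)
    (h : ∀ j, Ld Λ (w j) (y j) (ξ j)) (u : Fin N →₀ ℕ) (c : ℂ) :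
    Ld Λ (wdeg w u) (aeval y (monomial u c)) (aeval ξ (monomial u c)) := by
  rw [aeval_monomial, aeval_monomial, Finsupp.prod_fintype _ _ (fun _ => pow_zero _),
    Finsupp.prod_fintype _ _ (fun _ => pow_zero _)]
  have h1 := Ld.prod Finset.univ (fun j => (w j : ℤ) * (u j : ℕ)) (fun j => y j ^ u j)
    (fun j => ξ j ^ u j) fun j _ => (h j).pow (u j)
  have h2 := (Ld.const (Λ := Λ) c).mul h1
  rw [zero_add] at h2
  have h3 : ((wdeg w u : ℕ) : ℤ) = ∑ j, (w j : ℤ) * (u j : ℕ) := by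
    unfold wdeg
    push_cast
    rfl
  rw [h3]
  exact h2

theorem wdeg_sub_single (w : Fin N → ℕ) (u : Fin N →₀ ℕ) (j : Fin N) (hj : u j ≠ 0) :
    (wdeg w (u - Finsupp.single j 1) : ℤ) = wdeg w u - w j := by
  have h1 : u - Finsupp.single j 1 + Finsupp.single j 1 = u := by
    apply tsub_add_cancel_of_le
    rw [Finsupp.single_le_iff]
    exact Nat.one_le_iff_ne_zero.2 hj
  have h2 : wdeg w u = wdeg w (u - Finsupp.single j 1) + w j := by
    conv_lhs => rw [← h1]
    unfold wdeg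
    simp only [Finsupp.add_apply, mul_add, Finset.sum_add_distrib]
    congr 1
    rw [Finset.sum_eq_single j]
    · rw [Finsupp.single_eq_same, mul_one]
    · intro i _ hi
      rw [Finsupp.single_apply, if_neg (Ne.symm hi), mul_zero]
    · intro h
      exact absurd (Finset.mem_univ j) h
  rw [h2]
  push_cast
  ring

theorem ld_pderiv_monomial (w : Fin N → ℕ) (y : Fin N → Λ.L) (ξ : Fin N → F)
    (h : ∀ j, Ld Λ (w j) (y j) (ξ j)) (j : Fin N) (u : Fin N →₀ ℕ) (c : ℂ) :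
    Ld Λ (wdeg w u - w j) (aeval y (pderiv j (monomial u c)))
      (aeval ξ (pderiv j (monomial u c))) := by
  rw [pderiv_monomial]
  by_cases hj : u j = 0
  · rw [hj, Nat.cast_zero, mul_zero, monomial_zero, map_zero, map_zero]
    exact Ld.zero _
  · rw [← wdeg_sub_single w u j hj]
    exact ld_monomial w y ξ h _ _

theorem ld_pderiv (hW : S_WRD) (w : Fin N → ℕ) (y : Fin N → Λ.L) (ξ : Fin N → F)
    (h : ∀ j, Ld Λ (w j) (y j) (ξ j)) (j : Fin N) (p : MvPolynomial (Fin N) ℂ) :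
    Ld Λ ((word w p : ℤ) + (- (w j : ℤ))) (aeval y (pderiv j p))
      (aeval ξ (pderiv j (initForm w p))) := by
  classical
  have h1 : p = ∑ u ∈ p.support, monomial u (coeff u p) := (support_sum_monomial_coeff p).symm
  have h2 : initForm w p = ∑ u ∈ p.support,
      if wdeg w u = word w p then monomial u (coeff u p) else 0 := by
    unfold initForm
    rw [Finset.sum_filter]
  have h3 : aeval y (pderiv j p) = ∑ u ∈ p.support, aeval y (pderiv j (monomial u (coeff u p))) := by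
    conv_lhs => rw [h1]
    rw [map_sum, map_sum]
  have h4 : aeval ξ (pderiv j (initForm w p)) = ∑ u ∈ p.support,
      if wdeg w u = word w p then aeval ξ (pderiv j (monomial u (coeff u p))) else 0 := by
    rw [h2, map_sum, map_sum]
    refine Finset.sum_congr rfl fun u _ => ?_
    split_ifs
    · rfl
    · rw [map_zero, map_zero]
  rw [h3, h4]
  refine Ld.sum _ _ _ fun u hu => ?_
  have h5 := ld_pderiv_monomial w y ξ h j u (coeff u p)
  have h6 := ((hW p w).2.1 u hu)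
  split_ifs with h7
  · rw [h7] at h5
    rw [← sub_eq_add_neg]
    exact h5
  · refine Ld.of_ge (DivVal.Ge.mono h5.ge ?_)
    have h8 : word w p + 1 ≤ wdeg w u := by omega
    omega

theorem ge_sub_const (y : Fin N → Λ.L) (h : ∀ j, Λ.Ge 1 (y j)) (p : MvPolynomial (Fin N) ℂ) :
    Λ.Ge 0 (aeval y p) ∧ Λ.Ge 1 (aeval y p - algebraMap ℂ Λ.L (constantCoeff p)) := by
  have h0 : ∀ p : MvPolynomial (Fin N) ℂ, Λ.Ge 0 (aeval y p) := fun p =>
    DivVal.Ge.aeval (v := Λ.val) (fun j => DivVal.Ge.mono (h j) (by norm_num)) p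
  refine ⟨h0 p, ?_⟩
  induction p using MvPolynomial.induction_on with
  | C a =>
    rw [aeval_C, constantCoeff_C, sub_self]
    exact Or.inl rfl
  | add p q hp hq =>
    rw [map_add, map_add, map_add, add_sub_add_comm]
    exact DivVal.Ge.add hp hq
  | mul_X p j hp =>
    rw [map_mul, map_mul, constantCoeff_X, mul_zero, map_zero, sub_zero, aeval_X]
    exact DivVal.Ge.mul_left (h0 p) (h j)

end Poly

/-! ### independent residues -/

section Ind

theorem ind_quot {F : Type} [Field F] [Algebra ℂ F] {m : ℕ} (ξ : Fin (m + 1) → F)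
    (h : AlgebraicIndependent ℂ ξ) (h0 : ξ 0 ≠ 0) (a : ℕ) (ha : 0 < a) (b : Fin m → ℕ)
    (P : MvPolynomial (Fin m) ℂ) (hP : P ≠ 0) :
    aeval (fun l : Fin m => ξ l.succ ^ a / ξ 0 ^ b l) P ≠ 0 := by
  classical
  intro hz
  set M : ℕ := ∑ u ∈ P.support, ∑ l, b l * u l with hM
  have hM1 : ∀ u ∈ P.support, ∑ l, b l * u l ≤ M := fun u hu =>
    Finset.single_le_sum (f := fun u : Fin m →₀ ℕ => ∑ l, b l * u l) (fun _ _ => Nat.zero_le _) hu
  set E : (Fin m →₀ ℕ) → (Fin (m + 1) →₀ ℕ) := fun u =>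
    Finsupp.equivFunOnFinite.symm (Fin.cons (M - ∑ l, b l * u l) fun l => a * u l) with hE
  have hE0 : ∀ u, E u 0 = M - ∑ l, b l * u l := fun u => rfl
  have hEs : ∀ u l, E u (Fin.succ l) = a * u l := fun u l => rfl
  have hinj : Function.Injective E := by
    intro u u' huu
    ext l
    have h1 := DFunLike.congr_fun huu l.succ
    rw [hEs, hEs] at h1
    exact Nat.eq_of_mul_eq_mul_left ha h1
  set Q : MvPolynomial (Fin (m + 1)) ℂ := ∑ u ∈ P.support, monomial (E u) (coeff u P) with hQ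
  have hQ0 : Q ≠ 0 := by
    obtain ⟨u, hu⟩ := support_nonempty.2 hP
    intro hQz
    have h1 : coeff (E u) Q = coeff u P := by
      rw [hQ, coeff_sum, Finset.sum_eq_single u]
      · rw [coeff_monomial, if_pos rfl]
      · intro u' _ hu'
        rw [coeff_monomial, if_neg fun h2 => hu' (hinj h2)]
      · intro h2
        exact absurd hu h2
    rw [hQz, coeff_zero] at h1
    exact (mem_support_iff.1 hu) h1.symm
  have hev : aeval ξ Q = ξ 0 ^ M * aeval (fun l : Fin m => ξ l.succ ^ a / ξ 0 ^ b l) P := by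
    conv_rhs => rw [← support_sum_monomial_coeff P]
    rw [hQ, map_sum, map_sum, Finset.mul_sum]
    refine Finset.sum_congr rfl fun u hu => ?_
    rw [aeval_monomial, aeval_monomial, Finsupp.prod_fintype _ _ (fun _ => pow_zero _),
      Finsupp.prod_fintype _ _ (fun _ => pow_zero _), Fin.prod_univ_succ, hE0]
    have h1 : ∏ l : Fin m, (ξ l.succ ^ a / ξ 0 ^ b l) ^ u l =
        (∏ l : Fin m, ξ l.succ ^ E u l.succ) / ξ 0 ^ (∑ l, b l * u l) := by
      rw [← Finset.prod_pow_eq_pow_sum, ← Finset.prod_div_distrib]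
      refine Finset.prod_congr rfl fun l _ => ?_
      rw [hEs, div_pow, ← pow_mul, ← pow_mul]
    rw [h1]
    have h2 : ξ 0 ^ M = ξ 0 ^ (M - ∑ l, b l * u l) * ξ 0 ^ (∑ l, b l * u l) := by
      rw [← pow_add, Nat.sub_add_cancel (hM1 u hu)]
    rw [h2]
    have h3 : ξ 0 ^ (∑ l, b l * u l) ≠ 0 := pow_ne_zero _ h0
    field_simp
  rw [hz, mul_zero] at hev
  exact hQ0 ((algebraicIndependent_iff.1 h) Q hev)

end Ind

end MUW

end

end NDQ
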